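import Pool.Agent.Y89.KS.Defs2

/-!
# Variables indexed by arbitrary types
-/

open Matrix Finset

namespace Pool.Agent.Y89.KS

set_option linter.unusedSectionVars false

section
variable {F : Type} [Field F] {ι : Type} [Fintype ι] {R : Matrix ι ι F}
  {A : ∀ k : ℕ, Submodule F ((Fin k → ι) → F)}

theorem mem_gen_def {S : Type} {f : (S → ι) → F} : f ∈ gen A S ↔ ∀ (k : ℕ) (e : Fin k ≃ S),
    (fun J : Fin k → ι => f (fun s => J (e.symm s))) ∈ A k := Iff.rfl

theorem mem_gen_iff (hA : Sys R A) {S : Type} {k : ℕ} (e₀ : Fin k ≃ S) {f : (S → ι) → F} :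
    f ∈ gen A S ↔ (fun J : Fin k → ι => f (fun s => J (e₀.symm s))) ∈ A k := by
  constructor
  · intro h
    exact h k e₀
  · intro h l e
    have hkl : l = k := by
      have := Fintype.card_congr (e.trans e₀.symm)
      simpa using this
    subst hkl
    have := hA.perm l (e₀.trans e.symm) _ h
    simp only [Equiv.trans_apply, Equiv.apply_symm_apply] at this
    exact this

theorem mem_gen_fin (hA : Sys R A) {k : ℕ} {f : (Fin k → ι) → F} :
    f ∈ gen A (Fin k) ↔ f ∈ A k := by
  rw [mem_gen_iff hA (Equiv.refl (Fin k))]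
  rfl

theorem gen_of_infinite {S : Type} (hS : ¬ Finite S) (f : (S → ι) → F) : f ∈ gen A S := by
  intro k e
  exact absurd (Finite.of_equiv _ e) hS

theorem gsys_gen (hA : Sys R A) : GSys R (gen A) where
  unit S _ f := by
    rw [mem_gen_iff hA (Equiv.equivOfIsEmpty (Fin 0) S)]
    have h : (fun J : Fin 0 → ι => f (fun s => J ((Equiv.equivOfIsEmpty (Fin 0) S).symm s))) =
        (f (fun s => isEmptyElim s)) • (fun _ => (1 : F)) := by
      funext J
      rw [Pi.smul_apply, smul_eq_mul, mul_one]
      congr 1
      funext s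
      exact isEmptyElim s
    rw [h]
    exact (A 0).smul_mem _ hA.unit
  mul S S' f g hf hg := by
    by_cases hS : Finite S
    swap
    · refine gen_of_infinite (fun h => hS ?_) _
      exact Finite.of_injective (Sum.inl : S → S ⊕ S') Sum.inl_injective
    by_cases hS' : Finite S'
    swap
    · refine gen_of_infinite (fun h => hS' ?_) _
      exact Finite.of_injective (Sum.inr : S' → S ⊕ S') Sum.inr_injective
    obtain ⟨k, ⟨e⟩⟩ := Finite.exists_equiv_fin S
    obtain ⟨l, ⟨e'⟩⟩ := Finite.exists_equiv_fin S'
    rw [mem_gen_iff hA (finSumFinEquiv.symm.trans (Equiv.sumCongr e.symm e'.symm))]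
    have h := hA.mul k l _ _ (hf k e.symm) (hg l e'.symm)
    have h2 : (fun J : Fin (k + l) → ι =>
        (fun J : S ⊕ S' → ι => f (fun s => J (Sum.inl s)) * g (fun s => J (Sum.inr s)))
          fun s => J ((finSumFinEquiv.symm.trans (Equiv.sumCongr e.symm e'.symm)).symm s)) =
        fun J => f (fun s => J (Fin.castAdd l (e s))) * g (fun s => J (Fin.natAdd k (e' s))) := by
      funext J
      simp
    rw [h2]
    exact h
  reidx S S' e f hf := by
    intro k e'
    exact hf k (e'.trans e.symm)
  con S f hf := by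
    intro k e
    have h := hA.con k _ (hf (k + 2) (finSumFinEquiv.symm.trans
      (Equiv.sumCongr e finTwoEquiv)))
    convert h using 5 with J p _ q _
    congr 1
    funext s
    rcases s with s | b
    · simp [Fin.append_left]
    · cases b
      · simp only [Sum.elim_inr, cond_false, Equiv.symm_trans_apply, Equiv.symm_symm,
          Equiv.sumCongr_symm, Equiv.sumCongr_apply, Sum.map_inr, finSumFinEquiv_apply_right,
          Fin.append_right]
        rfl
      · simp only [Sum.elim_inr, cond_true, Equiv.symm_trans_apply, Equiv.symm_symm,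
          Equiv.sumCongr_symm, Equiv.sumCongr_apply, Sum.map_inr, finSumFinEquiv_apply_right,
          Fin.append_right]
        rfl

end

theorem gen' : S_gen := fun _ _ _ _ _ _ hA => ⟨gsys_gen hA, fun _ _ => mem_gen_fin hA⟩

end Pool.Agent.Y89.KS
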