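import Pool.Agent.Y89.KS.MainE
import Pool.Agent.Y37.KS.Plus
import Pool.Agent.Y705.KS.Tens

/-!
# The Hodge conjecture for the powers of a Kuga-Satake variety: main theorem
-/

open Matrix Finset Function

namespace Pool.Agent.Y89.KS

noncomputable section

open Pool.Agent.W544.PG (HS HW mC)

section
variable {n w : ℕ} {V : HS n} {W : HW w} {k : ℕ}

theorem mainE (hV : (V.x * V.x).trace = 2)
    {Γ : Fin n → Matrix (Fin w) (Fin w) ℚ} {c : ℚ} {B : ∀ k : ℕ, Submodule ℚ ((Fin k → Fin w) → ℚ)}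
    (h : Cliff V W Γ c) (hB : CyclesW W B) (hΘ : theta V W Γ ∈ B 4)
    {t : (Fin k → Fin w) → ℚ} (ht : HodgeW W t) : t ∈ B k :=
  thmE Pool.Agent.Y37.KS.plus_gsys Pool.Agent.Y705.KS.tens_sys hV h hB hΘ ht

end

end

end Pool.Agent.Y89.KS
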