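import Pool.Agent.Y89.KS.Defs

/-!
# Hodge classes on powers of varieties of K3 type: definitions and statements of the parts, II

`V : HS n` is a polarised rational Hodge structure of level two (twisted to weight zero) with the
form `V.Q` and the Hodge operator `V.x`; `W : HW w` is a polarised rational Hodge structure of
level one with the form `W.E` and the Hodge operator `W.y`.
-/

open Matrix Finset

namespace Pool.Agent.Y89.KS

noncomputable section

open Pool.Agent.W544.PG (HS HW mC cspan cx)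

section
variable {n w : ℕ}

/-- the Lie algebra generated by the conjugates of the Hodge operator -/
def g0 (V : HS n) : Set (Matrix (Fin n) (Fin n) ℂ) :=
  {z | ∀ L : Submodule ℂ (Matrix (Fin n) (Fin n) ℂ), (∀ a ∈ L, ∀ b ∈ L, a * b - b * a ∈ L) →
    (∀ σ : ℂ ≃+* ℂ, V.x.map σ ∈ L) → z ∈ L}

/-- the adjoint for the form of `V` -/
def adV (V : HS n) (P : Matrix (Fin n) (Fin n) ℂ) : Matrix (Fin n) (Fin n) ℂ :=
  adj (mC V.Q) (mC V.Q)⁻¹ P

/-- The projection to the block of `x`: either (totally real multiplication) it is self-adjoint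
and `x` acts only on its image, or (complex multiplication) it is orthogonal to its adjoint and `x`
acts on the sum of the two images. -/
structure Blk0 (V : HS n) (P : Matrix (Fin n) (Fin n) ℂ) : Prop where
  idem : P * P = P
  comm : ∀ z ∈ g0 V, z * P = P * z
  wedge : ∀ a b, wdg (mC V.Q) (P *ᵥ a) (adV V P *ᵥ b) ∈ g0 V
  type : (adV V P = P ∧ V.x * P = V.x ∧ P.map (starRingEnd ℂ) = P ∧ 3 ≤ P.rank) ∨
    (adV V P * P = 0 ∧ P * adV V P = 0 ∧ V.x * P + V.x * adV V P = V.x)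

/-- (BLK0) -/
def S_blk0 : Prop := ∀ (n : ℕ) (V : HS n), (V.x * V.x).trace = 2 →
  ∃ P : Matrix (Fin n) (Fin n) ℂ, Blk0 V P

/-- (BLK) -/
def S_blk : Prop := ∀ (n : ℕ) (V : HS n) (P : Matrix (Fin n) (Fin n) ℂ), Blk0 V P → V.x ≠ 0 →
  ∃ (m : ℕ) (pr : Fin m → Matrix (Fin n) (Fin n) ℂ) (N : Fin m → Prop),
    Blocks (mC V.Q) (mC V.Q)⁻¹ (g0 V) (Fin m) pr N ∧
    ∀ i, ¬ N i → ∃ σ : ℂ ≃+* ℂ, pr i = P.map σ ∨ pr i = (adV V P).map σ

/-- Forms on `V` (the spaces `M S`) and forms on `V` with values in `End W` (the spaces `ME S`)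
with the formal properties of algebraic classes. -/
structure ESys (V : HS n) (W : HW w) (M : ∀ S : Type, Submodule ℂ ((S → Fin n) → ℂ))
    (ME : ∀ S : Type, Submodule ℂ ((S → Fin n) → Matrix (Fin w) (Fin w) ℂ)) : Prop where
  sys : GSys (mC V.Q)⁻¹ M
  const : ∀ (S : Type) [IsEmpty S] (d : Matrix (Fin w) (Fin w) ℂ),
    (∀ σ : ℂ ≃+* ℂ, d * W.y.map σ = W.y.map σ * d) → (fun _ : S → Fin n => d) ∈ ME S
  mul : ∀ (S S' : Type) (F : (S → Fin n) → Matrix (Fin w) (Fin w) ℂ)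
    (G : (S' → Fin n) → Matrix (Fin w) (Fin w) ℂ), F ∈ ME S → G ∈ ME S' →
    (fun J : S ⊕ S' → Fin n => F (fun s => J (Sum.inl s)) * G (fun s => J (Sum.inr s))) ∈
      ME (S ⊕ S')
  smul : ∀ (S S' : Type) (f : (S → Fin n) → ℂ)
    (G : (S' → Fin n) → Matrix (Fin w) (Fin w) ℂ), f ∈ M S → G ∈ ME S' →
    (fun J : S ⊕ S' → Fin n => f (fun s => J (Sum.inl s)) • G (fun s => J (Sum.inr s))) ∈
      ME (S ⊕ S')
  reidx : ∀ (S S' : Type) (e : S ≃ S') (F : (S → Fin n) → Matrix (Fin w) (Fin w) ℂ), F ∈ ME S →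
    (fun J : S' → Fin n => F (fun s => J (e s))) ∈ ME S'
  con : ∀ (S : Type) (F : (S ⊕ Bool → Fin n) → Matrix (Fin w) (Fin w) ℂ), F ∈ ME (S ⊕ Bool) →
    (fun J : S → Fin n => ∑ p, ∑ q, (mC V.Q)⁻¹ p q • F (Sum.elim J fun b => cond b q p)) ∈ ME S
  tr : ∀ (S : Type) (F : (S → Fin n) → Matrix (Fin w) (Fin w) ℂ), F ∈ ME S →
    (fun J => (F J).trace) ∈ M S
  dag : ∀ (S : Type) (F : (S → Fin n) → Matrix (Fin w) (Fin w) ℂ), F ∈ ME S →
    (fun J => (mC W.E)⁻¹ * (F J)ᵀ * mC W.E) ∈ ME S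

/-- (ABT) the determinant of the self-dual block is obtained from a morphism `φ : V → End W` -/
def S_abt : Prop := ∀ (n w : ℕ) (V : HS n) (W : HW w), (V.x * V.x).trace = 2 →
  ∀ φ : Fin n → Matrix (Fin w) (Fin w) ℚ,
  (∀ j, W.y * mC (φ j) - mC (φ j) * W.y = ∑ i, V.x i j • mC (φ i)) →
  (∃ j, ∑ i, V.x i j • mC (φ i) ≠ 0) →
  ∀ P : Matrix (Fin n) (Fin n) ℂ, Blk0 V P → adV V P = P →
  ∀ (M : ∀ S : Type, Submodule ℂ ((S → Fin n) → ℂ))
    (ME : ∀ S : Type, Submodule ℂ ((S → Fin n) → Matrix (Fin w) (Fin w) ℂ)), ESys V W M ME →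
  (fun J : Fin 1 → Fin n => ∑ i, P i (J 0) • mC (φ i)) ∈ ME (Fin 1) →
  ∀ (m : ℕ) (G : Matrix (Fin m) (Fin n) ℂ) (H : Matrix (Fin n) (Fin m) ℂ), H * G = P → G * H = 1 →
    (fun J : Fin m → Fin n => (G.submatrix id J).det) ∈ M (Fin m)

/-- Clifford relations: `W` is a module over the Clifford algebra of `c V.Q`, and the Hodge
structure of `W` is given by the spin representation. -/
structure Cliff (V : HS n) (W : HW w) (Γ : Fin n → Matrix (Fin w) (Fin w) ℚ) (c : ℚ) : Prop where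
  pos : 0 < w
  ne : c ≠ 0
  rel : ∀ i j, Γ i * Γ j + Γ j * Γ i = (2 * c * V.Q i j) • (1 : Matrix (Fin w) (Fin w) ℚ)
  hodge : W.y = (1 / (4 * (c : ℂ))) • ∑ i, ∑ j, (V.x * (mC V.Q)⁻¹) i j • (mC (Γ i) * mC (Γ j))

/-- (KS) -/
def S_ks : Prop := ∀ (n w : ℕ) (V : HS n) (W : HW w)
  (Γ : Fin n → Matrix (Fin w) (Fin w) ℚ) (c : ℚ), Cliff V W Γ c →
  ∀ (M : ∀ S : Type, Submodule ℂ ((S → Fin n) → ℂ))
    (ME : ∀ S : Type, Submodule ℂ ((S → Fin n) → Matrix (Fin w) (Fin w) ℂ)), ESys V W M ME →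
  (fun J : Fin 1 → Fin n => mC (Γ (J 0))) ∈ ME (Fin 1) →
  ∀ P : Matrix (Fin n) (Fin n) ℂ, P * P = P →
    (∀ σ : ℂ ≃+* ℂ, V.x.map σ * P = P * V.x.map σ) →
    (adV V P = P ∨ adV V P * P = 0 ∧ P * adV V P = 0) →
    (fun J : Fin 2 → Fin n => (Pᵀ * mC V.Q) (J 0) (J 1)) ∈ M (Fin 2) ∧
    (adV V P = P → ∀ (m : ℕ) (G : Matrix (Fin m) (Fin n) ℂ) (H : Matrix (Fin n) (Fin m) ℂ),
      H * G = P → G * H = 1 → (fun J : Fin m → Fin n => (G.submatrix id J).det) ∈ M (Fin m))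

end

section tot
variable {F : Type} [Field F] {n w : ℕ} {S : Type}

open Classical in
/-- a form on `V` as a form on `V ⊕ W` -/
def extV (w : ℕ) (f : (S → Fin n) → F) : (S → Fin n ⊕ Fin w) → F :=
  fun J => if h : ∀ s, (J s).isLeft = true then f (fun s => (J s).getLeft (h s)) else 0

open Classical in
/-- a form on `V` with values in `End W` as a form on `V ⊕ W` -/
def extE (E : Matrix (Fin w) (Fin w) F) (G : (S → Fin n) → Matrix (Fin w) (Fin w) F) :
    (S ⊕ Bool → Fin n ⊕ Fin w) → F :=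
  fun J => if h : (∀ s, (J (Sum.inl s)).isLeft = true) ∧ ∀ b, (J (Sum.inr b)).isRight = true then
    (E * G (fun s => (J (Sum.inl s)).getLeft (h.1 s))) ((J (Sum.inr false)).getRight (h.2 false))
      ((J (Sum.inr true)).getRight (h.2 true)) else 0

/-- the forms on `V` in the system -/
def MV (A : ∀ k : ℕ, Submodule F ((Fin k → Fin n ⊕ Fin w) → F)) (S : Type) :
    Submodule F ((S → Fin n) → F) where
  carrier := {f | extV w f ∈ gen A S}
  zero_mem' := by
    have h : extV w (0 : (S → Fin n) → F) = 0 := by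
      funext J; unfold extV; split_ifs <;> rfl
    rw [Set.mem_ofPred_eq, h]; exact Submodule.zero_mem _
  add_mem' := by
    intro a b ha hb
    have h : extV w (a + b) = extV w a + extV w b := by
      funext J; unfold extV; simp only [Pi.add_apply]; split_ifs <;> simp
    rw [Set.mem_ofPred_eq, h]; exact Submodule.add_mem _ ha hb
  smul_mem' := by
    intro c a ha
    have h : extV w (c • a) = c • extV w a := by
      funext J; unfold extV; simp only [Pi.smul_apply]; split_ifs <;> simp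
    rw [Set.mem_ofPred_eq, h]; exact Submodule.smul_mem _ c ha

/-- the forms on `V` with values in `End W` in the system -/
def MEV (E : Matrix (Fin w) (Fin w) F) (A : ∀ k : ℕ, Submodule F ((Fin k → Fin n ⊕ Fin w) → F))
    (S : Type) : Submodule F ((S → Fin n) → Matrix (Fin w) (Fin w) F) where
  carrier := {G | extE E G ∈ gen A (S ⊕ Bool)}
  zero_mem' := by
    have h : extE E (0 : (S → Fin n) → Matrix (Fin w) (Fin w) F) = 0 := by
      funext J; unfold extE; simp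
    rw [Set.mem_ofPred_eq, h]; exact Submodule.zero_mem _
  add_mem' := by
    intro a b ha hb
    have h : extE E (a + b) = extE E a + extE E b := by
      funext J; unfold extE; simp only [Pi.add_apply, Matrix.mul_add]; split_ifs <;> simp
    rw [Set.mem_ofPred_eq, h]; exact Submodule.add_mem _ ha hb
  smul_mem' := by
    intro c a ha
    have h : extE E (c • a) = c • extE E a := by
      funext J; unfold extE; simp only [Pi.smul_apply, Matrix.mul_smul]; split_ifs <;> simp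
    rw [Set.mem_ofPred_eq, h]; exact Submodule.smul_mem _ c ha

end tot

/-- (TOT) -/
def S_tot : Prop := ∀ (n w : ℕ) (V : HS n) (W : HW w)
  (A : ∀ k : ℕ, Submodule ℂ ((Fin k → Fin n ⊕ Fin w) → ℂ)),
  Sys (fromBlocks (mC V.Q)⁻¹ 0 0 (mC W.E)⁻¹) A →
  (∀ d : Matrix (Fin w) (Fin w) ℂ, (∀ σ : ℂ ≃+* ℂ, d * W.y.map σ = W.y.map σ * d) →
    (fun J : Fin 2 → Fin n ⊕ Fin w => fromBlocks 0 0 0 (mC W.E * d) (J 0) (J 1)) ∈ A 2) →
  ESys V W (MV A) (MEV (mC W.E) A)

/-- (CPX) complexification -/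
def S_cpx : Prop := ∀ (ι : Type) [Fintype ι] (R : Matrix ι ι ℚ)
  (A : ∀ k : ℕ, Submodule ℚ ((Fin k → ι) → ℚ)), Sys R A →
  Sys (R.map fun q : ℚ => (q : ℂ)) fun k => cspan (A k)

/-- (DSC) a space of vectors stable under the automorphisms of the complex numbers is spanned by
rational vectors -/
def S_dsc : Prop := ∀ (ι : Type) [Finite ι] (L : Submodule ℂ (ι → ℂ)),
  (∀ (σ : ℂ ≃+* ℂ), ∀ v ∈ L, (fun i => σ (v i)) ∈ L) →
  L ≤ Submodule.span ℂ {v | v ∈ L ∧ ∃ r : ι → ℚ, v = fun i => (r i : ℂ)}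

/-- (DSC2) -/
def S_dsc2 : Prop := ∀ (ι : Type) [Finite ι] (L : Submodule ℚ (ι → ℚ)) (r : ι → ℚ),
  (fun i => (r i : ℂ)) ∈ Submodule.span ℂ ((fun (r : ι → ℚ) (i : ι) => (r i : ℂ)) '' L) → r ∈ L

end

end Pool.Agent.Y89.KS
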