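import Pool.Agent.Y89.KS.Ef

/-!
# Generalised Clifford relations
-/

open Matrix Finset Function

set_option linter.unusedSectionVars false

namespace Pool.Agent.Y89.KS

noncomputable section

open Pool.Agent.W544.PG (HS HW mC cspan cx)

section
variable {n : ℕ} {V : HS n} {e f : Fin n → ℂ}

theorem EF.fe (h : EF V e f) : qq V f e = 1 := by rw [qq_comm, h.ef]

theorem EF.xe (h : EF V e f) : V.x *ᵥ e = e := by
  rw [h.x, h.fe, h.ee, one_smul, zero_smul, sub_zero]

theorem EF.xf (h : EF V e f) : V.x *ᵥ f = -f := by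
  rw [h.x, h.ff, h.ef, one_smul, zero_smul, zero_sub]

theorem EF.ker (h : EF V e f) {u : Fin n → ℂ} (hu : V.x *ᵥ u = 0) :
    qq V e u = 0 ∧ qq V f u = 0 := by
  have h1 := h.x u
  rw [hu] at h1
  constructor
  · have h2 := congrArg (qq V e) h1
    rw [qq_sub, qq_smul, qq_smul, h.ee, h.ef, mul_zero, zero_sub, mul_one] at h2
    have h3 : qq V e 0 = 0 := by simp [qq]
    rw [h3] at h2
    exact (neg_eq_zero.1 h2.symm)
  · have h2 := congrArg (qq V f) h1
    rw [qq_sub, qq_smul, qq_smul, h.fe, h.ff, mul_zero, sub_zero, mul_one] at h2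
    have h3 : qq V f 0 = 0 := by simp [qq]
    rw [h3] at h2
    exact h2.symm

/-- the projection to the kernel of the Hodge operator -/
theorem EF.ker' (h : EF V e f) (u : Fin n → ℂ) :
    V.x *ᵥ (u - qq V f u • e - qq V e u • f) = 0 := by
  rw [Matrix.mulVec_sub, Matrix.mulVec_sub, Matrix.mulVec_smul, Matrix.mulVec_smul, h.xe, h.xf,
    h.x, smul_neg]
  abel

theorem g0_skew (V : HS n) {z : Matrix (Fin n) (Fin n) ℂ} (hz : z ∈ g0 V) :
    zᵀ * mC V.Q + mC V.Q * z = 0 := by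
  let L : Submodule ℂ (Matrix (Fin n) (Fin n) ℂ) :=
    { carrier := {z | zᵀ * mC V.Q + mC V.Q * z = 0}
      zero_mem' := by simp
      add_mem' := by
        intro a b ha hb
        rw [Set.mem_ofPred_eq] at *
        rw [transpose_add, Matrix.add_mul, Matrix.mul_add,
          show aᵀ * mC V.Q + bᵀ * mC V.Q + (mC V.Q * a + mC V.Q * b) =
            (aᵀ * mC V.Q + mC V.Q * a) + (bᵀ * mC V.Q + mC V.Q * b) by abel, ha, hb, add_zero]
      smul_mem' := by
        intro c a ha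
        rw [Set.mem_ofPred_eq] at *
        rw [transpose_smul, Matrix.smul_mul, Matrix.mul_smul, ← smul_add, ha, smul_zero] }
  refine hz L ?_ ?_
  · intro a ha b hb
    have ha' : aᵀ * mC V.Q = -(mC V.Q * a) := eq_neg_of_add_eq_zero_left ha
    have hb' : bᵀ * mC V.Q = -(mC V.Q * b) := eq_neg_of_add_eq_zero_left hb
    show (a * b - b * a)ᵀ * mC V.Q + mC V.Q * (a * b - b * a) = 0
    rw [transpose_sub, transpose_mul, transpose_mul, Matrix.sub_mul, Matrix.mul_assoc,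
      Matrix.mul_assoc, ha', hb', Matrix.mul_neg, Matrix.mul_neg, ← Matrix.mul_assoc,
      ← Matrix.mul_assoc, ha', hb', Matrix.mul_sub]
    simp only [Matrix.neg_mul, Matrix.mul_assoc]
    abel
  · intro σ
    have h := congrArg (fun M : Matrix (Fin n) (Fin n) ℂ => M.map σ) V.skew
    have h1 : ∀ M N : Matrix (Fin n) (Fin n) ℂ, (M * N).map σ = M.map σ * N.map σ :=
      fun M N => Matrix.map_mul
    have h3 : (mC V.Q).map σ = mC V.Q := by
      ext a b
      simp [mC]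
    have h2 : (V.xᵀ * mC V.Q + mC V.Q * V.x).map σ =
        (V.x.map σ)ᵀ * mC V.Q + mC V.Q * V.x.map σ := by
      rw [Matrix.map_add σ (fun a b => map_add σ a b), h1, h1, h3]
      rfl
    simp only [h2] at h
    show (V.x.map σ)ᵀ * mC V.Q + mC V.Q * V.x.map σ = 0
    rw [h]
    ext a b
    simp

/-- properties of self-adjoint blocks -/
theorem Blk0.self {P : Matrix (Fin n) (Fin n) ℂ} (hP : Blk0 V P) (hs : adV V P = P)
    (hx : V.x ≠ 0) : V.x * P = V.x ∧ P * V.x = V.x ∧ P.map (starRingEnd ℂ) = P ∧ 3 ≤ P.rank := by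
  rcases hP.type with ⟨-, h1, h2, h3⟩ | ⟨h1, h2, h3⟩
  · refine ⟨h1, ?_, h2, h3⟩
    have hx' : V.x ∈ g0 V := fun L _ h => by
      have := h (RingEquiv.refl ℂ)
      have h4 : V.x.map (RingEquiv.refl ℂ) = V.x := by
        ext a b
        simp
      rwa [h4] at this
    rw [← hP.comm _ hx', h1]
  · exfalso
    rw [hs] at h1 h3
    have h4 : P = 0 := by rw [← hP.idem, h1]
    rw [h4, Matrix.mul_zero, add_zero] at h3
    exact hx h3.symm

theorem mem_x (V : HS n) : V.x ∈ g0 V := fun L _ h => by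
  have := h (RingEquiv.refl ℂ)
  have h4 : V.x.map (RingEquiv.refl ℂ) = V.x := by
    ext a b
    simp
  rwa [h4] at this

theorem Blk0.wdg {P : Matrix (Fin n) (Fin n) ℂ} (hP : Blk0 V P) (hs : adV V P = P)
    {a b : Fin n → ℂ} (ha : P *ᵥ a = a) (hb : P *ᵥ b = b) : wdg (mC V.Q) a b ∈ g0 V := by
  have h := hP.wedge a b
  rwa [hs, ha, hb] at h

section rel
variable {N : Type} [Fintype N] [DecidableEq N]

/-- eigenvectors of `ad y` with the eigenvalues `2` and `-2` vanish -/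
theorem ad_two {y T : Matrix N N ℂ} (hy : (4 : ℂ) • (y * y) = 1) {c : ℂ} (hc : c = 2 ∨ c = -2)
    (h : y * T - T * y = c • T) : T = 0 := by
  have hc2 : c * c = 4 := by rcases hc with rfl | rfl <;> norm_num
  have h1 : y * y = (1 / 4 : ℂ) • (1 : Matrix N N ℂ) := by
    rw [← hy, smul_smul]; norm_num
  have h2 : y * T = T * y + c • T := by rw [← h]; abel
  have h3 : y * (y * T) = (1 / 4 : ℂ) • T := by
    rw [← Matrix.mul_assoc, h1, Matrix.smul_mul, Matrix.one_mul]
  have h4 : T * y * y = (1 / 4 : ℂ) • T := by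
    rw [Matrix.mul_assoc, h1, Matrix.mul_smul, Matrix.mul_one]
  have h5 : y * (y * T) = T * y * y + c • (T * y) + (c • (T * y) + (c * c) • T) := by
    rw [h2, Matrix.mul_add, Matrix.mul_smul, ← Matrix.mul_assoc, h2, Matrix.add_mul,
      Matrix.smul_mul, smul_add, smul_smul]
  rw [h3, h4, hc2] at h5
  have h6 : c • (T * y) = (-2 : ℂ) • T := by
    have h7 : (2 : ℂ) • (c • (T * y)) + (4 : ℂ) • T = 0 := by
      have h8 : (1 / 4 : ℂ) • T - (1 / 4 : ℂ) • T =
        c • (T * y) + (c • (T * y) + (4 : ℂ) • T) := by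
        nth_rewrite 1 [h5]
        abel
      rw [sub_self] at h8
      rw [two_smul, add_assoc]
      exact h8.symm
    have h9 : (2 : ℂ) • (c • (T * y)) = (-4 : ℂ) • T := by
      rw [neg_smul]
      exact eq_neg_of_add_eq_zero_left h7
    have h10 := congrArg (fun M => (1 / 2 : ℂ) • M) h9
    simp only [smul_smul] at h10
    rw [smul_smul] at *
    have h11 : (1 / 2 * (2 * c) : ℂ) = c := by ring
    have h12 : (1 / 2 * (-4) : ℂ) = -2 := by norm_num
    rw [← mul_assoc] at h10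
    rw [mul_assoc, h11, h12] at h10
    exact h10
  have h7 : (c * c) • (T * y * y) = (4 : ℂ) • T := by
    have h8 : (c • (T * y)) * y = ((-2 : ℂ) • T) * y := by rw [h6]
    rw [Matrix.smul_mul, Matrix.smul_mul] at h8
    have h9 := congrArg (fun M => c • M) h8
    simp only [smul_smul] at h9
    rw [h9, mul_comm, ← smul_smul, h6, smul_smul]
    norm_num
  rw [h4, hc2, smul_smul] at h7
  have h8 : (4 * (1 / 4) : ℂ) = 1 := by norm_num
  rw [h8, one_smul] at h7
  have h9 : (3 : ℂ) • T = 0 := by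
    have : (3 : ℂ) • T = (4 : ℂ) • T - T := by module
    rw [this, ← h7, sub_self]
  exact (smul_eq_zero.1 h9).resolve_left (by norm_num)

/-- The generalised Clifford relations. -/
theorem beta_rel {P : Matrix (Fin n) (Fin n) ℂ} (hP : Blk0 V P) (hs : adV V P = P) (hx : V.x ≠ 0)
    (hef : EF V e f) {Φ Ψ : (Fin n → ℂ) →ₗ[ℂ] Matrix N N ℂ}
    (hL : ∀ z ∈ g0 V, ∃ b : Matrix N N ℂ, (∀ v, b * Φ v - Φ v * b = Φ (z *ᵥ v)) ∧
      ∀ v, b * Ψ v - Ψ v * b = Ψ (z *ᵥ v))
    {y : Matrix N N ℂ} (hy : (4 : ℂ) • (y * y) = 1)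
    (hyL : (∀ v, y * Φ v - Φ v * y = Φ (V.x *ᵥ v)) ∧ ∀ v, y * Ψ v - Ψ v * y = Ψ (V.x *ᵥ v))
    {u v : Fin n → ℂ} (hu : P *ᵥ u = u) (hv : P *ᵥ v = v) :
    Φ u * Ψ v + Φ v * Ψ u = qq V u v • (Φ e * Ψ f + Φ f * Ψ e) := by
  obtain ⟨hxP, hPx, -, -⟩ := hP.self hs hx
  have hPe : P *ᵥ e = e := by
    rw [← hef.xe, Matrix.mulVec_mulVec, hPx]
  have hPf : P *ᵥ f = f := by
    have h1 : P *ᵥ (-f) = -f := by rw [← hef.xf, Matrix.mulVec_mulVec, hPx]
    rw [Matrix.mulVec_neg, neg_inj] at h1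
    exact h1
  have hT : ∀ a b : Fin n → ℂ, ∀ c : ℂ, V.x *ᵥ a = c • a → V.x *ᵥ b = c • b →
      y * (Φ a * Ψ b) - (Φ a * Ψ b) * y = (2 * c) • (Φ a * Ψ b) := by
    intro a b c ha hb
    have h1 := hyL.1 a
    have h2 := hyL.2 b
    rw [ha, map_smul] at h1
    rw [hb, map_smul] at h2
    have h3 : y * (Φ a * Ψ b) - (Φ a * Ψ b) * y =
        (y * Φ a - Φ a * y) * Ψ b + Φ a * (y * Ψ b - Ψ b * y) := by noncomm_ring
    rw [h3, h1, h2, Matrix.smul_mul, Matrix.mul_smul, ← add_smul, two_mul]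
  have hee : Φ e * Ψ e = 0 := by
    apply ad_two hy (Or.inl rfl)
    have h := hT e e 1 (by rw [one_smul, hef.xe]) (by rw [one_smul, hef.xe])
    rwa [mul_one] at h
  have hff : Φ f * Ψ f = 0 := by
    apply ad_two hy (Or.inr rfl)
    have h := hT f f (-1) (by rw [neg_one_smul, hef.xf]) (by rw [neg_one_smul, hef.xf])
    rwa [mul_neg, mul_one] at h
  -- the symmetric bilinear map
  let β : (Fin n → ℂ) → (Fin n → ℂ) → Matrix N N ℂ := fun u v => Φ u * Ψ v + Φ v * Ψ u
  have hβc : ∀ u v, β u v = β v u := fun u v => add_comm _ _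
  have hβa : ∀ u v v', β u (v + v') = β u v + β u v' := by
    intro u v v'
    simp only [β, map_add]
    noncomm_ring
  have hβs : ∀ (c : ℂ) (u v : Fin n → ℂ), β u (c • v) = c • β u v := by
    intro c u v
    simp only [β, map_smul, Matrix.smul_mul, Matrix.mul_smul, smul_add]
  have hβz : ∀ u, β u 0 = 0 := by
    intro u
    simp only [β, map_zero, Matrix.zero_mul, Matrix.mul_zero, add_zero]
  have hβn : ∀ u v, β u (-v) = -β u v := by
    intro u v
    rw [← neg_one_smul ℂ v, hβs, neg_one_smul]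
  have hder : ∀ z ∈ g0 V, ∀ a b, β a b = 0 → β (z *ᵥ a) b + β a (z *ᵥ b) = 0 := by
    intro z hz a b hab
    obtain ⟨d, hd1, hd2⟩ := hL z hz
    have h1 : β (z *ᵥ a) b + β a (z *ᵥ b) = d * β a b - β a b * d := by
      simp only [β, ← hd1, ← hd2]
      noncomm_ring
    rw [h1, hab, Matrix.mul_zero, Matrix.zero_mul, sub_zero]
  have hβee : β e e = 0 := by
    simp only [β, hee, add_zero]
  have hβff : β f f = 0 := by
    simp only [β, hff, add_zero]
  have hβe : ∀ u, P *ᵥ u = u → V.x *ᵥ u = 0 → β u e = 0 := by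
    intro u hu hxu
    have h1 := hder _ (hP.wdg hs hu hPf) e e hβee
    obtain ⟨h2, h3⟩ := hef.ker hxu
    have h4 : wdg (mC V.Q) u f *ᵥ e = u := by
      rw [wdg_mulVec, hef.fe, qq_comm V u e, h2, one_smul, zero_smul, sub_zero]
    rw [h4, hβc e u, ← two_smul ℂ] at h1
    exact (smul_eq_zero.1 h1).resolve_left (by norm_num)
  have hβf : ∀ u, P *ᵥ u = u → V.x *ᵥ u = 0 → β u f = 0 := by
    intro u hu hxu
    have h1 := hder _ (hP.wdg hs hu hPe) f f hβff
    obtain ⟨h2, h3⟩ := hef.ker hxu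
    have h4 : wdg (mC V.Q) u e *ᵥ f = u := by
      rw [wdg_mulVec, hef.ef, qq_comm V u f, h3, one_smul, zero_smul, sub_zero]
    rw [h4, hβc f u, ← two_smul ℂ] at h1
    exact (smul_eq_zero.1 h1).resolve_left (by norm_num)
  have hβuw : ∀ u w, P *ᵥ u = u → V.x *ᵥ u = 0 → P *ᵥ w = w → V.x *ᵥ w = 0 →
      β u w = qq V u w • β e f := by
    intro u w hu hxu hw hxw
    have h1 := hder _ (hP.wdg hs hw hPf) u e (hβe u hu hxu)
    obtain ⟨h2, h3⟩ := hef.ker hxu
    obtain ⟨h2', h3'⟩ := hef.ker hxw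
    have h4 : wdg (mC V.Q) w f *ᵥ u = -(qq V w u • f) := by
      rw [wdg_mulVec, h3, zero_smul, zero_sub]
    have h5 : wdg (mC V.Q) w f *ᵥ e = w := by
      rw [wdg_mulVec, hef.fe, qq_comm V w e, h2', one_smul, zero_smul, sub_zero]
    rw [h4, h5, hβc _ e, hβn, hβs, qq_comm V w u] at h1
    rw [eq_comm, ← sub_eq_zero, ← neg_eq_zero, ← h1]
    abel
  -- the general case
  set a := qq V f u with ha
  set b := qq V e u with hb
  set a' := qq V f v with ha'
  set b' := qq V e v with hb'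
  set u0 := u - a • e - b • f with hu0
  set v0 := v - a' • e - b' • f with hv0
  have hxu0 : V.x *ᵥ u0 = 0 := hef.ker' u
  have hxv0 : V.x *ᵥ v0 = 0 := hef.ker' v
  have hPu0 : P *ᵥ u0 = u0 := by
    rw [hu0, Matrix.mulVec_sub, Matrix.mulVec_sub, Matrix.mulVec_smul, Matrix.mulVec_smul, hPe,
      hPf, hu]
  have hPv0 : P *ᵥ v0 = v0 := by
    rw [hv0, Matrix.mulVec_sub, Matrix.mulVec_sub, Matrix.mulVec_smul, Matrix.mulVec_smul, hPe,
      hPf, hv]
  have hue : u = u0 + a • e + b • f := by rw [hu0]; abel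
  have hve : v = v0 + a' • e + b' • f := by rw [hv0]; abel
  clear_value u0 v0 a b a' b'
  show β u v = qq V u v • β e f
  obtain ⟨k1, k2⟩ := hef.ker hxu0
  obtain ⟨k3, k4⟩ := hef.ker hxv0
  have hq : qq V u v = qq V u0 v0 + a * b' + b * a' := by
    rw [hue, hve]
    simp only [qq_add, qq_add', qq_smul, qq_smul', hef.ee, hef.ff, hef.ef, hef.fe, k1, k2, k3, k4,
      qq_comm V u0 e, qq_comm V u0 f]
    ring
  have hβ' : ∀ u u' v, β (u + u') v = β u v + β u' v := by
    intro u u' v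
    rw [hβc, hβa, hβc v, hβc v]
  have hβs' : ∀ (c : ℂ) (u v : Fin n → ℂ), β (c • u) v = c • β u v := by
    intro c u v
    rw [hβc, hβs, hβc v]
  rw [hq, hue, hve]
  simp only [hβa, hβ', hβs, hβs', hβee, hβff, hβe u0 hPu0 hxu0, hβf u0 hPu0 hxu0,
    hβc e v0, hβc f v0, hβe v0 hPv0 hxv0, hβf v0 hPv0 hxv0, hβuw u0 v0 hPu0 hxu0 hPv0 hxv0,
    hβc f e, smul_zero, add_zero, zero_add, add_smul, smul_smul]
  rw [mul_comm a' b, mul_comm b' a]
  abel

end rel

end

end

end Pool.Agent.Y89.KS
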