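import Pool.Agent.Y89.KS.Ext

/-!
# Extension by zero of forms with values in the bilinear forms on `W`
-/

open Matrix Finset Function

set_option linter.unusedSectionVars false

namespace Pool.Agent.Y89.KS

section
variable {F : Type} [Field F] {n w : ℕ} {S : Type}

/-- the index function given by `K` and two indices in the second summand -/
def jn (K : S → Fin n) (a b : Fin w) : S ⊕ Bool → Fin n ⊕ Fin w :=
  Sum.elim (fun s => Sum.inl (K s)) fun i => Sum.inr (cond i b a)

theorem extE_jn (E : Matrix (Fin w) (Fin w) F) (G : (S → Fin n) → Matrix (Fin w) (Fin w) F)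
    (K : S → Fin n) (a b : Fin w) : extE E G (jn K a b) = (E * G K) a b := by
  have h : (∀ s, ((jn K a b) (Sum.inl s)).isLeft = true) ∧
      ∀ i, ((jn K a b) (Sum.inr i)).isRight = true := ⟨fun _ => rfl, fun _ => rfl⟩
  exact (dif_pos h).trans rfl

theorem lrE (J : S ⊕ Bool → Fin n ⊕ Fin w) : (∃ (K : S → Fin n) (a b : Fin w), J = jn K a b) ∨
    (∃ s b, J (Sum.inl s) = Sum.inr b) ∨ ∃ i a, J (Sum.inr i) = Sum.inl a := by
  rcases lr (fun s => J (Sum.inl s)) with ⟨K, hK⟩ | h
  · rcases h1 : J (Sum.inr false) with a | a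
    · exact Or.inr (Or.inr ⟨_, _, h1⟩)
    · rcases h2 : J (Sum.inr true) with b | b
      · exact Or.inr (Or.inr ⟨_, _, h2⟩)
      · left
        refine ⟨K, a, b, ?_⟩
        funext s
        rcases s with s | s
        · exact congrFun hK s
        · cases s
          · exact h1
          · exact h2
  · exact Or.inr (Or.inl h)

theorem extE_inl (E : Matrix (Fin w) (Fin w) F) (G : (S → Fin n) → Matrix (Fin w) (Fin w) F)
    {J : S ⊕ Bool → Fin n ⊕ Fin w} {s : S} {b : Fin w} (h : J (Sum.inl s) = Sum.inr b) :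
    extE E G J = 0 := by
  unfold extE
  rw [dif_neg]
  rintro ⟨h1, -⟩
  have := h1 s
  rw [h] at this
  simp at this

theorem extE_inr (E : Matrix (Fin w) (Fin w) F) (G : (S → Fin n) → Matrix (Fin w) (Fin w) F)
    {J : S ⊕ Bool → Fin n ⊕ Fin w} {i : Bool} {a : Fin n} (h : J (Sum.inr i) = Sum.inl a) :
    extE E G J = 0 := by
  unfold extE
  rw [dif_neg]
  rintro ⟨-, h1⟩
  have := h1 i
  rw [h] at this
  simp at this

theorem extE_eq {E : Matrix (Fin w) (Fin w) F} {G : (S → Fin n) → Matrix (Fin w) (Fin w) F}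
    {g : (S ⊕ Bool → Fin n ⊕ Fin w) → F}
    (h1 : ∀ (K : S → Fin n) (a b : Fin w), g (jn K a b) = (E * G K) a b)
    (h2 : ∀ (J : S ⊕ Bool → Fin n ⊕ Fin w) (s : S) (b : Fin w), J (Sum.inl s) = Sum.inr b → g J = 0)
    (h3 : ∀ (J : S ⊕ Bool → Fin n ⊕ Fin w) (i : Bool) (a : Fin n),
      J (Sum.inr i) = Sum.inl a → g J = 0) :
    extE E G = g := by
  funext J
  rcases lrE J with ⟨K, a, b, rfl⟩ | ⟨s, b, hs⟩ | ⟨i, a, hi⟩
  · rw [extE_jn, h1]
  · rw [extE_inl E G hs, h2 J s b hs]
  · rw [extE_inr E G hi, h3 J i a hi]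

end

end Pool.Agent.Y89.KS
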