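import Pool.Agent.Y89.KS.ExtE
import Pool.Agent.Y89.KS.Gen

/-!
# The forms with values in `End W`
-/

open Matrix Finset Function

set_option linter.unusedSectionVars false

namespace Pool.Agent.Y89.KS

noncomputable section

open Pool.Agent.W544.PG (HS HW mC cspan cx)

section
variable {F : Type} [Field F] {n w : ℕ}

theorem gsysV {R : Matrix (Fin n) (Fin n) F} {R' : Matrix (Fin w) (Fin w) F}
    {A : ∀ k : ℕ, Submodule F ((Fin k → Fin n ⊕ Fin w) → F)}
    (hA : GSys (fromBlocks R 0 0 R') (gen A)) : GSys R (MV A) where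
  unit S _ f := hA.unit S _
  mul S S' f g hf hg := by
    show extV w _ ∈ gen A _
    have h := hA.mul S S' _ _ hf hg
    convert h using 1
    apply extV_eq
    · intro K
      rw [← extV_inl (w := w) f, ← extV_inl (w := w) g]
    · intro J s b hs
      rcases s with s | s
      · rw [extV_inr f hs, zero_mul]
      · rw [extV_inr g hs, mul_zero]
  reidx S S' e f hf := by
    show extV w _ ∈ gen A _
    have h := hA.reidx S S' e _ hf
    convert h using 1
    apply extV_eq
    · intro K
      rw [← extV_inl (w := w) f]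
    · intro J s b hs
      have h1 : (fun s => J (e s)) (e.symm s) = Sum.inr b := by
        show J (e (e.symm s)) = _
        rw [Equiv.apply_symm_apply, hs]
      rw [extV_inr f h1]
  con S f hf := by
    show extV w _ ∈ gen A _
    have h := hA.con S _ hf
    convert h using 1
    apply extV_eq
    · intro K
      simp only [Fintype.sum_sum_type, fromBlocks_apply₁₁, fromBlocks_apply₁₂, fromBlocks_apply₂₁,
        Matrix.zero_apply, zero_mul, Finset.sum_const_zero, add_zero]
      have h1 : ∀ q, extV w f (Sum.elim (fun s => Sum.inl (K s)) fun b =>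
          cond b (Sum.inr q) (Sum.inr q)) = 0 := fun q =>
        extV_inr f (s := Sum.inr true) (b := q) rfl
      have h2 : ∀ p q, extV w f (Sum.elim (fun s => Sum.inl (K s)) fun b =>
          cond b (Sum.inr q) (Sum.inr p)) = 0 := fun p q =>
        extV_inr f (s := Sum.inr true) (b := q) rfl
      simp only [h2, mul_zero, Finset.sum_const_zero, add_zero]
      refine Finset.sum_congr rfl fun p _ => Finset.sum_congr rfl fun q _ => ?_
      congr 1
      rw [← extV_inl (w := w) f]
      congr 1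
      funext s
      rcases s with s | s
      · rfl
      · cases s <;> rfl
    · intro J s b hs
      refine Finset.sum_eq_zero fun p _ => Finset.sum_eq_zero fun q _ => ?_
      rw [extV_inr f (s := Sum.inl s) (b := b) hs, mul_zero]

theorem sum_blk (R : Matrix (Fin n) (Fin n) F) (R' : Matrix (Fin w) (Fin w) F)
    (f : Fin n ⊕ Fin w → Fin n ⊕ Fin w → F) (hf : ∀ p q, f (Sum.inl p) q = 0) :
    ∑ p, ∑ q, fromBlocks R 0 0 R' p q * f p q = ∑ p, ∑ q, R' p q * f (Sum.inr p) (Sum.inr q) := by
  simp only [Fintype.sum_sum_type, hf, mul_zero, Finset.sum_const_zero, zero_add,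
    fromBlocks_apply₂₁, fromBlocks_apply₂₂, Matrix.zero_apply, zero_mul]

/-- the reindexing for the product -/
def eMul (S S' : Type) : (S ⊕ Bool) ⊕ (S' ⊕ Bool) ≃ ((S ⊕ S') ⊕ Bool) ⊕ Bool where
  toFun := Sum.elim (Sum.elim (fun s => Sum.inl (Sum.inl (Sum.inl s)))
      fun i => cond i (Sum.inr false) (Sum.inl (Sum.inr false)))
    (Sum.elim (fun s => Sum.inl (Sum.inl (Sum.inr s)))
      fun i => cond i (Sum.inl (Sum.inr true)) (Sum.inr true))
  invFun := Sum.elim (Sum.elim (Sum.elim (fun s => Sum.inl (Sum.inl s))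
      fun s => Sum.inr (Sum.inl s)) fun i => cond i (Sum.inr (Sum.inr true)) (Sum.inl (Sum.inr false)))
    fun i => cond i (Sum.inr (Sum.inr false)) (Sum.inl (Sum.inr true))
  left_inv := by rintro ((s | (_ | _)) | (s | (_ | _))) <;> rfl
  right_inv := by rintro (((s | s) | (_ | _)) | (_ | _)) <;> rfl

theorem me_mul {R : Matrix (Fin n) (Fin n) F} {E : Matrix (Fin w) (Fin w) F}
    (hE : E⁻¹ * E = 1)
    {A : ∀ k : ℕ, Submodule F ((Fin k → Fin n ⊕ Fin w) → F)}
    (hA : GSys (fromBlocks R 0 0 E⁻¹) (gen A)) (S S' : Type)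
    (f : (S → Fin n) → Matrix (Fin w) (Fin w) F) (g : (S' → Fin n) → Matrix (Fin w) (Fin w) F)
    (hf : f ∈ MEV E A S) (hg : g ∈ MEV E A S') :
    (fun J : S ⊕ S' → Fin n => f (fun s => J (Sum.inl s)) * g (fun s => J (Sum.inr s))) ∈
      MEV E A (S ⊕ S') := by
  show extE E _ ∈ gen A _
  have h := hA.con _ _ (hA.reidx _ _ (eMul S S') _ (hA.mul _ _ _ _ hf hg))
  convert h using 1
  apply extE_eq
  · intro K a b
    rw [sum_blk]
    · have h1 : ∀ p q : Fin w, (fun s => (Sum.elim (jn K a b) fun i => cond i (Sum.inr q)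
          (Sum.inr p) : ((S ⊕ S') ⊕ Bool) ⊕ Bool → Fin n ⊕ Fin w) (eMul S S' (Sum.inl s))) =
          jn (fun s => K (Sum.inl s)) a p := by
        intro p q
        funext s
        rcases s with s | (_ | _) <;> rfl
      have h2 : ∀ p q : Fin w, (fun s => (Sum.elim (jn K a b) fun i => cond i (Sum.inr q)
          (Sum.inr p) : ((S ⊕ S') ⊕ Bool) ⊕ Bool → Fin n ⊕ Fin w) (eMul S S' (Sum.inr s))) =
          jn (fun s => K (Sum.inr s)) q b := by
        intro p q
        funext s
        rcases s with s | (_ | _) <;> rfl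
      simp only [h1, h2, extE_jn]
      have h3 : E * (f (fun s => K (Sum.inl s)) * g (fun s => K (Sum.inr s))) =
          E * f (fun s => K (Sum.inl s)) * E⁻¹ * (E * g (fun s => K (Sum.inr s))) := by
        rw [Matrix.mul_assoc (E * f _) E⁻¹, ← Matrix.mul_assoc E⁻¹ E, hE, Matrix.one_mul,
          Matrix.mul_assoc]
      rw [h3, Matrix.mul_apply]
      rw [Finset.sum_comm]
      refine Finset.sum_congr rfl fun q _ => ?_
      rw [Matrix.mul_apply (M := E * f _), Finset.sum_mul]
      refine Finset.sum_congr rfl fun p _ => ?_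
      ring
    · intro p q
      rw [extE_inr E f (i := true) (a := p) rfl, zero_mul]
  · intro J s b hs
    refine Finset.sum_eq_zero fun p _ => Finset.sum_eq_zero fun q _ => ?_
    rcases s with s | s
    · rw [extE_inl E f (s := s) (b := b) hs, zero_mul, mul_zero]
    · rw [extE_inl E g (s := s) (b := b) hs, mul_zero, mul_zero]
  · intro J i a hi
    refine Finset.sum_eq_zero fun p _ => Finset.sum_eq_zero fun q _ => ?_
    cases i
    · rw [extE_inr E f (i := false) (a := a) hi, zero_mul, mul_zero]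
    · rw [extE_inr E g (i := true) (a := a) hi, mul_zero, mul_zero]

theorem me_smul {R : Matrix (Fin n) (Fin n) F} {R' E : Matrix (Fin w) (Fin w) F}
    {A : ∀ k : ℕ, Submodule F ((Fin k → Fin n ⊕ Fin w) → F)}
    (hA : GSys (fromBlocks R 0 0 R') (gen A)) (S S' : Type)
    (f : (S → Fin n) → F) (g : (S' → Fin n) → Matrix (Fin w) (Fin w) F)
    (hf : f ∈ MV A S) (hg : g ∈ MEV E A S') :
    (fun J : S ⊕ S' → Fin n => f (fun s => J (Sum.inl s)) • g (fun s => J (Sum.inr s))) ∈
      MEV E A (S ⊕ S') := by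
  show extE E _ ∈ gen A _
  have h := hA.reidx _ _ (Equiv.sumAssoc S S' Bool).symm _ (hA.mul _ _ _ _ hf hg)
  convert h using 1
  apply extE_eq
  · intro K a b
    have h2 : (fun s => jn K a b ((Equiv.sumAssoc S S' Bool).symm (Sum.inr s))) =
        jn (fun s => K (Sum.inr s)) a b := by
      funext s
      rcases s with s | (_ | _) <;> rfl
    have h1 : (fun s => jn K a b ((Equiv.sumAssoc S S' Bool).symm (Sum.inl s))) =
        fun s => Sum.inl (K (Sum.inl s)) := by
      funext s
      rfl
    simp only [h1, h2, extE_jn, extV_inl]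
    rw [Matrix.mul_smul, Matrix.smul_apply, smul_eq_mul]
  · intro J s b hs
    rcases s with s | s
    · rw [extV_inr f (s := s) (b := b) hs, zero_mul]
    · rw [extE_inl E g (s := s) (b := b) hs, mul_zero]
  · intro J i a hi
    rw [extE_inr E g (i := i) (a := a) hi, mul_zero]

theorem me_reidx {R : Matrix (Fin n) (Fin n) F} {R' E : Matrix (Fin w) (Fin w) F}
    {A : ∀ k : ℕ, Submodule F ((Fin k → Fin n ⊕ Fin w) → F)}
    (hA : GSys (fromBlocks R 0 0 R') (gen A)) (S S' : Type) (e : S ≃ S')
    (f : (S → Fin n) → Matrix (Fin w) (Fin w) F) (hf : f ∈ MEV E A S) :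
    (fun J : S' → Fin n => f (fun s => J (e s))) ∈ MEV E A S' := by
  show extE E _ ∈ gen A _
  have h := hA.reidx _ _ (Equiv.sumCongr e (Equiv.refl Bool)) _ hf
  convert h using 1
  apply extE_eq
  · intro K a b
    have h2 : (fun s => jn K a b (Equiv.sumCongr e (Equiv.refl Bool) s)) =
        jn (fun s => K (e s)) a b := by
      funext s
      rcases s with s | (_ | _) <;> rfl
    simp only [h2, extE_jn]
  · intro J s b hs
    have h1 : (fun s => J (Equiv.sumCongr e (Equiv.refl Bool) s)) (Sum.inl (e.symm s)) =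
        Sum.inr b := by
      show J (Sum.inl (e (e.symm s))) = _
      rw [Equiv.apply_symm_apply, hs]
    rw [extE_inl E f h1]
  · intro J i a hi
    rw [extE_inr E f (i := i) (a := a) hi]

/-- the reindexing for the contraction -/
def eCon (S : Type) : (S ⊕ Bool) ⊕ Bool ≃ (S ⊕ Bool) ⊕ Bool where
  toFun := Sum.elim (Sum.elim (fun s => Sum.inl (Sum.inl s)) fun i => Sum.inr i)
    fun i => Sum.inl (Sum.inr i)
  invFun := Sum.elim (Sum.elim (fun s => Sum.inl (Sum.inl s)) fun i => Sum.inr i)
    fun i => Sum.inl (Sum.inr i)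
  left_inv := by rintro ((s | s) | s) <;> rfl
  right_inv := by rintro ((s | s) | s) <;> rfl

theorem sum_blk' (R : Matrix (Fin n) (Fin n) F) (R' : Matrix (Fin w) (Fin w) F)
    (f : Fin n ⊕ Fin w → Fin n ⊕ Fin w → F) (hf : ∀ p q, f (Sum.inr p) q = 0) :
    ∑ p, ∑ q, fromBlocks R 0 0 R' p q * f p q = ∑ p, ∑ q, R p q * f (Sum.inl p) (Sum.inl q) := by
  simp only [Fintype.sum_sum_type, hf, mul_zero, Finset.sum_const_zero, add_zero,
    fromBlocks_apply₁₂, fromBlocks_apply₁₁, Matrix.zero_apply, zero_mul]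

theorem me_con {R : Matrix (Fin n) (Fin n) F} {R' E : Matrix (Fin w) (Fin w) F}
    {A : ∀ k : ℕ, Submodule F ((Fin k → Fin n ⊕ Fin w) → F)}
    (hA : GSys (fromBlocks R 0 0 R') (gen A)) (S : Type)
    (f : (S ⊕ Bool → Fin n) → Matrix (Fin w) (Fin w) F) (hf : f ∈ MEV E A (S ⊕ Bool)) :
    (fun J : S → Fin n => ∑ p, ∑ q, R p q • f (Sum.elim J fun b => cond b q p)) ∈ MEV E A S := by
  show extE E _ ∈ gen A _
  have h := hA.con _ _ (hA.reidx _ _ (eCon S) _ hf)
  convert h using 1
  apply extE_eq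
  · intro K a b
    rw [sum_blk']
    · have h2 : ∀ p q : Fin n, (fun s => (Sum.elim (jn K a b) fun i => cond i (Sum.inl q)
          (Sum.inl p) : (S ⊕ Bool) ⊕ Bool → Fin n ⊕ Fin w) (eCon S s)) =
          jn (Sum.elim K fun i => cond i q p) a b := by
        intro p q
        funext s
        rcases s with (s | (_ | _)) | (_ | _) <;> rfl
      simp only [h2, extE_jn, Matrix.mul_sum, Matrix.mul_smul, Matrix.sum_apply,
        Matrix.smul_apply, smul_eq_mul]
    · intro p q
      rw [extE_inl E f (s := Sum.inr false) (b := p) rfl]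
  · intro J s b hs
    refine Finset.sum_eq_zero fun p _ => Finset.sum_eq_zero fun q _ => ?_
    rw [extE_inl E f (s := Sum.inl s) (b := b) hs, mul_zero]
  · intro J i a hi
    refine Finset.sum_eq_zero fun p _ => Finset.sum_eq_zero fun q _ => ?_
    rw [extE_inr E f (i := i) (a := a) hi, mul_zero]

theorem me_tr {R : Matrix (Fin n) (Fin n) F} {E : Matrix (Fin w) (Fin w) F}
    (hE : E⁻¹ * E = 1) (hEt : (E⁻¹)ᵀ = -E⁻¹)
    {A : ∀ k : ℕ, Submodule F ((Fin k → Fin n ⊕ Fin w) → F)}
    (hA : GSys (fromBlocks R 0 0 E⁻¹) (gen A)) (S : Type)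
    (f : (S → Fin n) → Matrix (Fin w) (Fin w) F) (hf : f ∈ MEV E A S) :
    (fun J : S → Fin n => (f J).trace) ∈ MV A S := by
  show extV w _ ∈ gen A _
  have h := (gen A S).smul_mem (-1) (hA.con _ _ hf)
  convert h using 1
  apply extV_eq
  · intro K
    rw [Pi.smul_apply, sum_blk]
    · have h2 : ∀ p q : Fin w, (Sum.elim (fun s => Sum.inl (K s)) fun i => cond i (Sum.inr q)
          (Sum.inr p) : S ⊕ Bool → Fin n ⊕ Fin w) = jn K p q := by
        intro p q
        funext s
        rcases s with s | (_ | _) <;> rfl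
      simp only [h2, extE_jn]
      have h3 : f K = -((E⁻¹)ᵀ * (E * f K)) := by
        rw [hEt, Matrix.neg_mul, neg_neg, ← Matrix.mul_assoc, hE, Matrix.one_mul]
      conv_rhs => rw [h3]
      rw [Matrix.trace_neg, Matrix.trace, neg_smul, one_smul]
      congr 1
      simp only [Matrix.diag_apply, Matrix.mul_apply (M := (E⁻¹)ᵀ), Matrix.transpose_apply]
      rw [Finset.sum_comm]
    · intro p q
      rw [extE_inr E f (i := false) (a := p) rfl]
  · intro J s b hs
    rw [Pi.smul_apply]
    rw [Finset.sum_eq_zero, smul_zero]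
    intro p _
    refine Finset.sum_eq_zero fun q _ => ?_
    rw [extE_inl E f (s := s) (b := b) hs, mul_zero]

theorem me_dag {R : Matrix (Fin n) (Fin n) F} {R' E : Matrix (Fin w) (Fin w) F}
    (hE : E * E⁻¹ = 1) (hEt : Eᵀ = -E)
    {A : ∀ k : ℕ, Submodule F ((Fin k → Fin n ⊕ Fin w) → F)}
    (hA : GSys (fromBlocks R 0 0 R') (gen A)) (S : Type)
    (f : (S → Fin n) → Matrix (Fin w) (Fin w) F) (hf : f ∈ MEV E A S) :
    (fun J : S → Fin n => E⁻¹ * (f J)ᵀ * E) ∈ MEV E A S := by
  show extE E _ ∈ gen A _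
  have h := (gen A _).smul_mem (-1)
    (hA.reidx _ _ (Equiv.sumCongr (Equiv.refl S) Equiv.boolNot) _ hf)
  convert h using 1
  apply extE_eq
  · intro K a b
    have h2 : (fun s => jn K a b (Equiv.sumCongr (Equiv.refl S) Equiv.boolNot s)) =
        jn K b a := by
      funext s
      rcases s with s | (_ | _) <;> rfl
    rw [Pi.smul_apply, h2, extE_jn, ← Matrix.mul_assoc, ← Matrix.mul_assoc, hE, Matrix.one_mul,
      neg_smul, one_smul]
    have h3 : (f K)ᵀ * E = -(E * f K)ᵀ := by
      rw [transpose_mul, hEt, Matrix.mul_neg, neg_neg]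
    rw [h3]
    rfl
  · intro J s b hs
    rw [Pi.smul_apply, extE_inl E f (J := fun s => J (Equiv.sumCongr (Equiv.refl S)
      Equiv.boolNot s)) (s := s) (b := b) hs, smul_zero]
  · intro J i a hi
    rw [Pi.smul_apply, extE_inr E f (J := fun s => J (Equiv.sumCongr (Equiv.refl S)
      Equiv.boolNot s)) (i := !i) (a := a) (by
      show J (Sum.inr (!!i)) = _
      rw [Bool.not_not, hi]), smul_zero]

theorem me_const {R : Matrix (Fin n) (Fin n) F} {R' E : Matrix (Fin w) (Fin w) F}
    {A : ∀ k : ℕ, Submodule F ((Fin k → Fin n ⊕ Fin w) → F)}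
    (hA : GSys (fromBlocks R 0 0 R') (gen A)) (S : Type) [IsEmpty S]
    (d : Matrix (Fin w) (Fin w) F)
    (hd : (fun J : Fin 2 → Fin n ⊕ Fin w => fromBlocks 0 0 0 (E * d) (J 0) (J 1)) ∈
      gen A (Fin 2)) :
    (fun _ : S → Fin n => d) ∈ MEV E A S := by
  show extE E _ ∈ gen A _
  let e : Fin 2 ≃ S ⊕ Bool :=
    { toFun := ![Sum.inr false, Sum.inr true]
      invFun := Sum.elim (fun s => isEmptyElim s) fun i => cond i 1 0
      left_inv := by intro i; fin_cases i <;> rfl
      right_inv := by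
        rintro (i | i)
        · exact isEmptyElim i
        · cases i <;> rfl }
  have h := hA.reidx _ _ e _ hd
  convert h using 1
  apply extE_eq
  · intro K a b
    rfl
  · intro J s b hs
    exact isEmptyElim s
  · intro J i a hi
    show fromBlocks 0 0 0 (E * d) (J (Sum.inr false)) (J (Sum.inr true)) = 0
    rcases h0 : J (Sum.inr false) with p | p <;> rcases h1 : J (Sum.inr true) with q | q <;>
      try rfl
    cases i
    · rw [h0] at hi; cases hi
    · rw [h1] at hi; cases hi

end

theorem tot : S_tot := by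
  intro n w V W A hA hd
  have hG := (gsys_gen hA)
  have hEE : mC W.E * (mC W.E)⁻¹ = 1 ∧ (mC W.E)⁻¹ * mC W.E = 1 := by
    have hdet : (mC W.E).det ≠ 0 := by
      intro h0
      have h1 : (mC W.E * ((2 * Complex.I) • W.y)).det = 0 := by
        rw [det_mul, h0, zero_mul]
      obtain ⟨v, hv, hv0⟩ := Matrix.exists_mulVec_eq_zero_iff.2 h1
      have := W.pos v hv
      rw [hv0] at this
      simp at this
    exact ⟨Matrix.mul_nonsing_inv _ (isUnit_iff_ne_zero.2 hdet),
      Matrix.nonsing_inv_mul _ (isUnit_iff_ne_zero.2 hdet)⟩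
  have hEt : (mC W.E)ᵀ = -mC W.E := by
    have h : (W.Eᵀ).map (fun q : ℚ => (q : ℂ)) = (-W.E).map (fun q : ℚ => (q : ℂ)) := by
      rw [W.alt]
    have h' : (mC W.E)ᵀ = (W.Eᵀ).map (fun q : ℚ => (q : ℂ)) := rfl
    rw [h', h, mC]
    ext a b
    simp
  have hEt' : ((mC W.E)⁻¹)ᵀ = -(mC W.E)⁻¹ := by
    rw [Matrix.transpose_nonsing_inv, hEt]
    apply Matrix.inv_eq_right_inv
    rw [Matrix.neg_mul, Matrix.mul_neg, neg_neg, hEE.1]
  exact
    { sys := gsysV hG
      const := fun S _ d h => me_const hG S d ((mem_gen_fin hA).2 (hd d h))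
      mul := me_mul hEE.2 hG
      smul := me_smul hG
      reidx := me_reidx hG
      con := me_con hG
      tr := me_tr hEE.2 hEt' hG
      dag := me_dag hEE.1 hEt hG }

end

end Pool.Agent.Y89.KS
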