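import Pool.Agent.Y89.KS.Defs4

/-!
# Hodge classes on powers of varieties of K3 type: definitions and statements of the parts, V
-/

open Matrix Finset

namespace Pool.Agent.Y89.KS

noncomputable section

open Pool.Agent.W544.PG (HS HW mC cspan cx)

section sys
variable {F : Type} [Field F] {ι ι' : Type} [Fintype ι] [Fintype ι']

/-- the system on `ι ⊕ Unit` obtained by adding trivial variables -/
def plus (M : ∀ S : Type, Submodule F ((S → ι) → F)) (S : Type) :
    Submodule F ((S → ι ⊕ Unit) → F) where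
  carrier := {h | ∀ pat : S → Bool, (fun L : {s // pat s = false} → ι =>
    h (fun s => if hs : pat s = false then Sum.inl (L ⟨s, hs⟩) else Sum.inr ())) ∈
      M {s // pat s = false}}
  zero_mem' := fun _ => (M _).zero_mem
  add_mem' := fun ha hb pat => (M _).add_mem (ha pat) (hb pat)
  smul_mem' := fun c _ ha pat => (M _).smul_mem c (ha pat)

/-- (PLUS) -/
def S_plus : Prop := ∀ (F : Type) [Field F] (ι : Type) [Fintype ι] (R : Matrix ι ι F)
  (M : ∀ S : Type, Submodule F ((S → ι) → F)), GSys R M → ∀ κ : F,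
  GSys (fromBlocks R 0 0 (Matrix.of fun _ _ : Unit => κ)) (plus M)

/-- the system on `U` obtained from a map of `U` to the tensor square of `ι` -/
def tens {U : Type} [Fintype U] (M : ∀ S : Type, Submodule F ((S → ι) → F))
    (K : U → ι → ι → F) (k : ℕ) : Submodule F ((Fin k → U) → F) where
  carrier := {f | (fun L : Fin k × Bool → ι =>
    ∑ J : Fin k → U, f J * ∏ s, K (J s) (L (s, false)) (L (s, true))) ∈ M (Fin k × Bool)}
  zero_mem' := by
    have h : (fun L : Fin k × Bool → ι => ∑ J : Fin k → U, (0 : (Fin k → U) → F) J *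
        ∏ s, K (J s) (L (s, false)) (L (s, true))) = 0 := by
      funext L
      simp
    rw [Set.mem_ofPred_eq, h]
    exact Submodule.zero_mem _
  add_mem' := by
    intro a b ha hb
    have h : (fun L : Fin k × Bool → ι => ∑ J : Fin k → U, (a + b) J *
        ∏ s, K (J s) (L (s, false)) (L (s, true))) =
        (fun L : Fin k × Bool → ι => ∑ J : Fin k → U, a J *
        ∏ s, K (J s) (L (s, false)) (L (s, true))) + fun L : Fin k × Bool → ι =>
        ∑ J : Fin k → U, b J * ∏ s, K (J s) (L (s, false)) (L (s, true)) := by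
      funext L
      simp only [Pi.add_apply, add_mul, Finset.sum_add_distrib]
    rw [Set.mem_ofPred_eq, h]
    exact Submodule.add_mem _ ha hb
  smul_mem' := by
    intro c a ha
    have h : (fun L : Fin k × Bool → ι => ∑ J : Fin k → U, (c • a) J *
        ∏ s, K (J s) (L (s, false)) (L (s, true))) =
        c • fun L : Fin k × Bool → ι => ∑ J : Fin k → U, a J *
        ∏ s, K (J s) (L (s, false)) (L (s, true)) := by
      funext L
      simp only [Pi.smul_apply, smul_eq_mul, mul_assoc, ← Finset.mul_sum]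
    rw [Set.mem_ofPred_eq, h]
    exact Submodule.smul_mem _ c ha

/-- (TENS) -/
def S_tens : Prop := ∀ (F : Type) [Field F] (ι : Type) [Fintype ι]
  (M : ∀ S : Type, Submodule F ((S → ι) → F)) (R₀ : Matrix ι ι F), GSys R₀ M →
  ∀ (U : Type) [Fintype U] (R' : Matrix U U F) (K : U → ι → ι → F)
  (T : Type) [Fintype T] (Rl Rr : T → Matrix ι ι F) (cr : T → Bool) (c : T → F),
  (∀ t, GSys (Rl t) M) → (∀ t, GSys (Rr t) M) →
  (∀ u u', R' u u' = ∑ t, c t * ∑ a, ∑ a', ∑ b, ∑ b', K u a b * K u' a' b' *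
    cond (cr t) (Rl t a b' * Rr t b a') (Rl t a a' * Rr t b b')) →
  Sys R' (tens M K)

/-- the system on `ι'` obtained from the maps `H d` -/
def cov {D : Type} (A : ∀ k : ℕ, Submodule F ((Fin k → ι) → F)) (H : D → Matrix ι' ι F) (k : ℕ) :
    Submodule F ((Fin k → ι') → F) where
  carrier := {f | ∀ c : Fin k → D,
    (fun J : Fin k → ι => ∑ J' : Fin k → ι', f J' * ∏ s, H (c s) (J' s) (J s)) ∈ A k}
  zero_mem' := by
    intro c
    have h : (fun J : Fin k → ι => ∑ J' : Fin k → ι', (0 : (Fin k → ι') → F) J' *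
        ∏ s, H (c s) (J' s) (J s)) = 0 := by
      funext L
      simp
    rw [h]
    exact Submodule.zero_mem _
  add_mem' := by
    intro a b ha hb c
    have h : (fun J : Fin k → ι => ∑ J' : Fin k → ι', (a + b) J' *
        ∏ s, H (c s) (J' s) (J s)) =
        (fun J : Fin k → ι => ∑ J' : Fin k → ι', a J' * ∏ s, H (c s) (J' s) (J s)) +
        fun J : Fin k → ι => ∑ J' : Fin k → ι', b J' * ∏ s, H (c s) (J' s) (J s) := by
      funext L
      simp only [Pi.add_apply, add_mul, Finset.sum_add_distrib]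
    rw [h]
    exact Submodule.add_mem _ (ha c) (hb c)
  smul_mem' := by
    intro t a ha c
    have h : (fun J : Fin k → ι => ∑ J' : Fin k → ι', (t • a) J' *
        ∏ s, H (c s) (J' s) (J s)) =
        t • fun J : Fin k → ι => ∑ J' : Fin k → ι', a J' * ∏ s, H (c s) (J' s) (J s) := by
      funext L
      simp only [Pi.smul_apply, smul_eq_mul, mul_assoc, ← Finset.mul_sum]
    rw [h]
    exact Submodule.smul_mem _ t (ha c)

/-- (COV) -/
def S_cov : Prop := ∀ (F : Type) [Field F] (ι ι' D : Type) [Fintype ι] [Fintype ι'] [Fintype D]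
  (R : Matrix ι ι F) (A : ∀ k : ℕ, Submodule F ((Fin k → ι) → F)), Sys R A →
  ∀ (H : D → Matrix ι' ι F) (ρ : D → D → F),
  Sys (∑ d, ∑ d', ρ d d' • (H d * R * (H d')ᵀ)) (cov A H)

/-- (GTS) from systems indexed by types to systems indexed by numbers -/
def S_gts : Prop := ∀ (F : Type) [Field F] (ι : Type) [Fintype ι] (R : Matrix ι ι F)
  (M : ∀ S : Type, Submodule F ((S → ι) → F)), GSys R M → Sys R fun k => M (Fin k)

end sys

/-- (MIXG) the mixed forms, general version -/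
def S_mixG : Prop := ∀ (n w : ℕ) (V : HS n) (E : Matrix (Fin w) (Fin w) ℂ)
  (y : (ℂ ≃+* ℂ) → Matrix (Fin w) (Fin w) ℂ) (γ γ' : Fin n → Matrix (Fin w) (Fin w) ℂ)
  (m : ℕ) (d d' : Fin m → Matrix (Fin w) (Fin w) ℂ) (c : ℂ),
  IsUnit E.det → (∀ σ, (y σ)ᵀ * E + E * y σ = 0) →
  (4 : ℂ) • (y (RingEquiv.refl ℂ) * y (RingEquiv.refl ℂ)) = 1 →
  (∀ σ v, y σ * γ v - γ v * y σ = ∑ p, (V.x.map σ) p v • γ p) →
  (∀ i, γ' i = c • ∑ j, (mC V.Q)⁻¹ i j • γ j) →
  (∀ σ l, d l * y σ = y σ * d l) → (∀ σ l, d' l * y σ = y σ * d' l) →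
  (∀ f : Matrix (Fin w) (Fin w) ℂ,
    ∑ k ∈ Finset.range (n + 1), cS γ γ' d d' k f = 0 → f = 0) →
  ∀ M : ∀ S : Type, Submodule ℂ ((S → Fin n ⊕ Fin w) → ℂ),
  GSys (fromBlocks (mC V.Q)⁻¹ 0 0 E⁻¹) M →
  (∀ (S : Type) [Fintype S] [DecidableEq S] (f : (S → Fin n) → ℂ),
    (∀ z ∈ g0 V, der z f = 0) → extV w f ∈ M S) →
  (∀ d : Matrix (Fin w) (Fin w) ℂ, (∀ σ : ℂ ≃+* ℂ, d * y σ = y σ * d) →
    extE E (fun _ : Empty → Fin n => d) ∈ M (Empty ⊕ Bool)) →
  extE E (fun J : Fin 1 → Fin n => γ (J 0)) ∈ M (Fin 1 ⊕ Bool) →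
  ∀ (S : Type) [Fintype S] [DecidableEq S] (f : (S → Fin n ⊕ Fin w) → ℂ),
    (∀ σ : ℂ ≃+* ℂ, der (fromBlocks (V.x.map σ) 0 0 (y σ)) f = 0) → f ∈ M S

/-- (SQRT) -/
def S_sqrt : Prop := ∀ (N : Type) [Fintype N] [DecidableEq N] (Z : Matrix N N ℂ),
  IsUnit Z.det → ∃ S : Matrix N N ℂ, S * S = Z ∧ ∀ X : Matrix N N ℂ, X * Z = Z * X → X * S = S * X

end

end Pool.Agent.Y89.KS
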