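import Pool.Agent.W544.PG.Defs6

/-!
# Positivity of the polarisation of `W`
-/

open Matrix Finset Function

set_option linter.unusedSectionVars false

namespace Pool.Agent.Y89.KS

noncomputable section

open Pool.Agent.W544.PG (HS HW mC cspan cx)

section pos
variable {N : Type} [Fintype N] [DecidableEq N]

open scoped MatrixOrder ComplexOrder in
theorem pos_root (h : Matrix N N ℂ) (hh : hᴴ = h)
    (hp : ∀ v : N → ℂ, v ≠ 0 → 0 < (star v ⬝ᵥ (h *ᵥ v)).re) :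
    ∃ C : Matrix N N ℂ, h = Cᴴ * C := by
  have h1 : h.PosDef := by
    rw [posDef_iff_dotProduct_mulVec]
    refine ⟨hh, fun v hv => ?_⟩
    have h2 := hp v hv
    have h3 : (star v ⬝ᵥ (h *ᵥ v)).im = 0 := by
      have h4 : star (star v ⬝ᵥ (h *ᵥ v)) = star v ⬝ᵥ (h *ᵥ v) := by
        rw [← star_dotProduct_star, star_star, star_mulVec, hh, ← dotProduct_mulVec]
      exact Complex.conj_eq_iff_im.1 h4
    rw [Complex.lt_def]
    exact ⟨h2, h3.symm⟩
  obtain ⟨C, hC⟩ := CStarAlgebra.nonneg_iff_eq_star_mul_self.mp h1.posSemidef.nonneg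
  exact ⟨C, hC⟩

open scoped ComplexOrder in
theorem pos_trace (h h' : Matrix N N ℂ) (hh : hᴴ = h) (hi' : h' * h = 1)
    (hp : ∀ v : N → ℂ, v ≠ 0 → 0 < (star v ⬝ᵥ (h *ᵥ v)).re) (A : Matrix N N ℂ)
    (hA : (A * (h' * Aᴴ * h)).trace = 0) : A = 0 := by
  obtain ⟨C, hC⟩ := pos_root h hh hp
  obtain ⟨C', hC'⟩ : ∃ C', C' = h' * Cᴴ := ⟨_, rfl⟩
  have hC1 : C' * C = 1 := by rw [hC', Matrix.mul_assoc, ← hC, hi']
  have hC2 : C * C' = 1 := mul_eq_one_comm.1 hC1
  have h1 : h' = C' * C'ᴴ := by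
    have h3 : Cᴴ * C'ᴴ = 1 := by
      rw [← conjTranspose_mul, hC1, conjTranspose_one]
    calc h' = h' * (Cᴴ * C'ᴴ) := by rw [h3, Matrix.mul_one]
      _ = C' * C'ᴴ := by rw [hC', ← Matrix.mul_assoc]
  have h4 : ((C * A * C') * (C * A * C')ᴴ).trace = 0 := by
    have h5 : (C * A * C') * (C * A * C')ᴴ = C * (A * C' * C'ᴴ * Aᴴ * Cᴴ) := by
      rw [conjTranspose_mul, conjTranspose_mul]
      simp only [Matrix.mul_assoc]
    have h6 : A * C' * C'ᴴ * Aᴴ * Cᴴ * C = A * (h' * Aᴴ * h) := by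
      rw [h1, hC]
      simp only [Matrix.mul_assoc]
    rw [h5, Matrix.trace_mul_comm, h6, hA]
  have h5 := trace_mul_conjTranspose_self_eq_zero_iff.1 h4
  calc A = (C' * C) * A * (C' * C) := by rw [hC1, Matrix.one_mul, Matrix.mul_one]
    _ = C' * (C * A * C') * C := by simp only [Matrix.mul_assoc]
    _ = 0 := by rw [h5, Matrix.mul_zero, Matrix.zero_mul]

end pos

section
variable {w : ℕ}

theorem mC_mul' {m : ℕ} (a b : Matrix (Fin m) (Fin m) ℚ) : mC (a * b) = mC a * mC b := by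
  unfold mC
  exact Matrix.map_mul (f := algebraMap ℚ ℂ)

theorem Et (W : HW w) : (mC W.E)ᵀ = -mC W.E := by
  have h : (W.Eᵀ).map (fun q : ℚ => (q : ℂ)) = (-W.E).map (fun q : ℚ => (q : ℂ)) := by
    rw [W.alt]
  have h' : (mC W.E)ᵀ = (W.Eᵀ).map (fun q : ℚ => (q : ℂ)) := rfl
  rw [h', h, mC]
  ext a b
  simp

theorem Edet (W : HW w) : (mC W.E).det ≠ 0 := by
  intro h0
  have h1 : (mC W.E * ((2 * Complex.I) • W.y)).det = 0 := by
    rw [det_mul, h0, zero_mul]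
  obtain ⟨v, hv, hv0⟩ := Matrix.exists_mulVec_eq_zero_iff.2 h1
  have := W.pos v hv
  rw [hv0] at this
  simp at this

theorem Einv (W : HW w) : mC W.E * (mC W.E)⁻¹ = 1 :=
  Matrix.mul_nonsing_inv _ (isUnit_iff_ne_zero.2 (Edet W))

theorem Einv' (W : HW w) : (mC W.E)⁻¹ * mC W.E = 1 :=
  Matrix.nonsing_inv_mul _ (isUnit_iff_ne_zero.2 (Edet W))

/-- the adjoint for the form of `W` -/
def dg (W : HW w) (A : Matrix (Fin w) (Fin w) ℂ) : Matrix (Fin w) (Fin w) ℂ :=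
  (mC W.E)⁻¹ * Aᵀ * mC W.E

theorem dg_mul (W : HW w) (A B : Matrix (Fin w) (Fin w) ℂ) : dg W (A * B) = dg W B * dg W A := by
  unfold dg
  rw [transpose_mul]
  calc (mC W.E)⁻¹ * (Bᵀ * Aᵀ) * mC W.E = (mC W.E)⁻¹ * Bᵀ * 1 * Aᵀ * mC W.E := by
        simp only [Matrix.mul_assoc, Matrix.one_mul]
    _ = _ := by rw [← Einv W]; simp only [Matrix.mul_assoc]

theorem dg_dg (W : HW w) (A : Matrix (Fin w) (Fin w) ℂ) : dg W (dg W A) = A := by
  unfold dg
  have h1 : ((mC W.E)⁻¹)ᵀ = -(mC W.E)⁻¹ := by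
    rw [Matrix.transpose_nonsing_inv, Et]
    apply Matrix.inv_eq_right_inv
    rw [Matrix.neg_mul, Matrix.mul_neg, neg_neg, Einv]
  rw [transpose_mul, transpose_mul, transpose_transpose, Et, h1]
  calc (mC W.E)⁻¹ * (-mC W.E * (A * -(mC W.E)⁻¹)) * mC W.E =
      ((mC W.E)⁻¹ * mC W.E) * A * ((mC W.E)⁻¹ * mC W.E) := by
        simp only [Matrix.mul_assoc, Matrix.neg_mul, Matrix.mul_neg, neg_neg]
    _ = A := by rw [Einv', Matrix.one_mul, Matrix.mul_one]

theorem dg_add (W : HW w) (A B : Matrix (Fin w) (Fin w) ℂ) : dg W (A + B) = dg W A + dg W B := by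
  unfold dg
  rw [transpose_add, Matrix.mul_add, Matrix.add_mul]

theorem dg_neg (W : HW w) (A : Matrix (Fin w) (Fin w) ℂ) : dg W (-A) = -dg W A := by
  unfold dg
  rw [transpose_neg, Matrix.mul_neg, Matrix.neg_mul]

theorem dg_sub (W : HW w) (A B : Matrix (Fin w) (Fin w) ℂ) : dg W (A - B) = dg W A - dg W B := by
  rw [sub_eq_add_neg, dg_add, dg_neg, sub_eq_add_neg]

theorem dg_smul (W : HW w) (c : ℂ) (A : Matrix (Fin w) (Fin w) ℂ) :
    dg W (c • A) = c • dg W A := by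
  unfold dg
  rw [transpose_smul, Matrix.mul_smul, Matrix.smul_mul]

/-- the adjoint as a linear map -/
def dgL (W : HW w) : Matrix (Fin w) (Fin w) ℂ →ₗ[ℂ] Matrix (Fin w) (Fin w) ℂ where
  toFun := dg W
  map_add' := dg_add W
  map_smul' := dg_smul W

theorem mul_map' (σ : ℂ ≃+* ℂ) {m : ℕ} (M N : Matrix (Fin m) (Fin m) ℂ) :
    (M * N).map σ = M.map σ * N.map σ := Matrix.map_mul

theorem mC_map' (σ : ℂ ≃+* ℂ) {m : ℕ} (M : Matrix (Fin m) (Fin m) ℚ) : (mC M).map σ = mC M := by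
  ext a b
  simp [mC]

theorem Einv_map (W : HW w) (σ : ℂ ≃+* ℂ) : ((mC W.E)⁻¹).map σ = (mC W.E)⁻¹ := by
  have h2 := congrArg (fun N : Matrix (Fin w) (Fin w) ℂ => N.map σ) (Einv W)
  simp only [mul_map', mC_map', Matrix.map_one _ (map_zero σ) (map_one σ)] at h2
  calc ((mC W.E)⁻¹).map σ = (mC W.E)⁻¹ * mC W.E * ((mC W.E)⁻¹).map σ := by
        rw [Einv', Matrix.one_mul]
    _ = (mC W.E)⁻¹ := by rw [Matrix.mul_assoc, h2, Matrix.mul_one]

theorem dg_map (W : HW w) (σ : ℂ ≃+* ℂ) (A : Matrix (Fin w) (Fin w) ℂ) :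
    dg W (A.map σ) = (dg W A).map σ := by
  unfold dg
  rw [mul_map', mul_map', mC_map', Einv_map]
  rfl

theorem dg_y (W : HW w) (σ : ℂ ≃+* ℂ) : dg W (W.y.map σ) = -W.y.map σ := by
  rw [dg_map]
  have h : dg W W.y = -W.y := by
    unfold dg
    rw [Matrix.mul_assoc, eq_neg_of_add_eq_zero_left W.skew, Matrix.mul_neg, ← Matrix.mul_assoc,
      Einv', Matrix.one_mul]
  rw [h]
  ext a b
  simp

/-- complex conjugation -/
abbrev cc : ℂ ≃+* ℂ := (starRingAut : ℂ ≃+* ℂ)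

theorem y_cc (W : HW w) : W.y.map cc = -W.y := W.real

/-- the hermitian form of `W` is positive -/
theorem posW (W : HW w) (A : Matrix (Fin w) (Fin w) ℂ) (hA : A * W.y = W.y * A)
    (h0 : (A * dg W (A.map cc)).trace = 0) : A = 0 := by
  have hy4 : ((2 * Complex.I) • W.y) * ((2 * Complex.I) • W.y) = -1 := by
    rw [Matrix.smul_mul, Matrix.mul_smul, smul_smul]
    have h1 : (2 * Complex.I) * (2 * Complex.I) = -4 := by
      linear_combination 4 * Complex.I_mul_I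
    rw [h1, neg_smul, W.sq]
  set J := (2 * Complex.I) • W.y with hJ
  have hJA : A.map cc * J = J * A.map cc := by
    have h1 : (A * W.y).map cc = (W.y * A).map cc := by rw [hA]
    rw [mul_map', mul_map', y_cc] at h1
    rw [Matrix.mul_neg, Matrix.neg_mul, neg_inj] at h1
    rw [hJ, Matrix.mul_smul, Matrix.smul_mul, h1]
  have hdJ : dg W (A.map cc) * J = J * dg W (A.map cc) := by
    have h1 := congrArg (dg W) hJA
    have h2 : dg W J = -J := by
      rw [hJ, dg_smul]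
      have h3 : dg W W.y = -W.y := by
        have h4 := dg_y W (RingEquiv.refl ℂ)
        have h5 : W.y.map (RingEquiv.refl ℂ) = W.y := by
          ext a b
          simp
        rwa [h5] at h4
      rw [h3, smul_neg]
    rw [dg_mul, dg_mul, h2, Matrix.neg_mul, Matrix.mul_neg, neg_inj] at h1
    exact h1.symm
  have hyH : W.yᴴ = -W.yᵀ := by
    have h1 := congrArg Matrix.transpose W.real
    rw [transpose_neg] at h1
    rw [← h1]
    rfl
  have hEH : (mC W.E)ᴴ = -mC W.E := by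
    rw [← Et W]
    ext a b
    simp [mC]
  have hJH : Jᴴ = (2 * Complex.I) • W.yᵀ := by
    rw [hJ, conjTranspose_smul, hyH]
    have h1 : star (2 * Complex.I) = -(2 * Complex.I) := by
      simp
    rw [h1, smul_neg, neg_smul, neg_neg]
  have hh : (mC W.E * J)ᴴ = mC W.E * J := by
    rw [conjTranspose_mul, hEH, hJH, Matrix.mul_neg, Matrix.smul_mul,
      eq_neg_of_add_eq_zero_left W.skew, smul_neg, neg_neg, hJ, Matrix.mul_smul]
  apply pos_trace (mC W.E * J) (-J * (mC W.E)⁻¹) hh _ W.pos A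
  · rw [← h0]
    congr 2
    have h1 : Aᴴ = (A.map cc)ᵀ := rfl
    calc -J * (mC W.E)⁻¹ * Aᴴ * (mC W.E * J) = -(J * ((mC W.E)⁻¹ * (A.map cc)ᵀ * mC W.E) * J) := by
          rw [h1]
          simp only [Matrix.mul_assoc, Matrix.neg_mul]
      _ = -(dg W (A.map cc) * J * J) := by
          rw [hdJ]
          rfl
      _ = dg W (A.map cc) := by
          rw [Matrix.mul_assoc, hy4, Matrix.mul_neg, Matrix.mul_one, neg_neg]
  · calc -J * (mC W.E)⁻¹ * (mC W.E * J) = -(J * ((mC W.E)⁻¹ * mC W.E) * J) := by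
          simp only [Matrix.mul_assoc, Matrix.neg_mul]
      _ = 1 := by
          rw [Einv', Matrix.mul_one, hy4, neg_neg]

/-- self-adjoint operators are not nilpotent -/
theorem self_pow (W : HW w) (S : Matrix (Fin w) (Fin w) ℂ) (hS : S * W.y = W.y * S)
    (hs : dg W (S.map cc) = S) (h0 : S ≠ 0) (k : ℕ) : S ^ k ≠ 0 := by
  have h1 : ∀ j : ℕ, S ^ (2 ^ j) ≠ 0 ∧ S ^ (2 ^ j) * W.y = W.y * S ^ (2 ^ j) ∧
      dg W ((S ^ (2 ^ j)).map cc) = S ^ (2 ^ j) := by
    intro j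
    induction j with
    | zero => simpa using ⟨h0, hS, hs⟩
    | succ j ih =>
      obtain ⟨h2, h3, h4⟩ := ih
      have h5 : S ^ (2 ^ (j + 1)) = S ^ (2 ^ j) * S ^ (2 ^ j) := by
        rw [← pow_add]
        congr 1
        ring
      rw [h5]
      refine ⟨fun h6 => h2 (posW W _ h3 ?_), ?_, ?_⟩
      · rw [h4, h6, Matrix.trace_zero]
      · rw [Matrix.mul_assoc, h3, ← Matrix.mul_assoc, h3, Matrix.mul_assoc]
      · rw [mul_map', dg_mul, h4]
  intro hk
  apply (h1 k).1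
  have h2 : k ≤ 2 ^ k := Nat.lt_two_pow_self.le
  obtain ⟨c, hc⟩ := Nat.exists_eq_add_of_le h2
  rw [hc, pow_add, hk, zero_mul]

end

end

end Pool.Agent.Y89.KS
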