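import Mathlib

/-!
# Orthonormal bases of complex quadratic spaces
-/

open Matrix Finset Function

namespace Pool.Agent.Y89.KS

theorem sym_zero {m : ℕ} (S : Matrix (Fin m) (Fin m) ℂ) (hs : Sᵀ = S)
    (h : ∀ v, v ⬝ᵥ (S *ᵥ v) = 0) : S = 0 := by
  have h0 : ∀ i, S i i = 0 := by
    intro i
    have := h (Pi.single i 1)
    simpa using this
  ext i j
  have h1 := h (Pi.single i 1 + Pi.single j 1)
  simp only [Matrix.mulVec_add, dotProduct_add, add_dotProduct, Matrix.mulVec_single_one,
    single_one_dotProduct, Matrix.col_apply, h0] at h1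
  have h2 : S j i = S i j := by
    have := congrFun (congrFun hs i) j
    rwa [Matrix.transpose_apply] at this
  rw [h2] at h1
  rw [Matrix.zero_apply]
  linear_combination h1 / 2

theorem orth {m : ℕ} (B : Matrix (Fin m) (Fin m) ℂ) (hs : Bᵀ = B) (hB : B.det ≠ 0) :
    ∃ U U' : Matrix (Fin m) (Fin m) ℂ, Uᵀ * B * U = 1 ∧ U * U' = 1 ∧ U' * U = 1 := by
  let b := Matrix.toBilin' B
  have hsymm : ∀ u v, b u v = b v u := by
    intro u v
    simp only [b, Matrix.toBilin'_apply']
    rw [Matrix.dotProduct_mulVec, ← Matrix.mulVec_transpose, hs, dotProduct_comm]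
  have hass : QuadraticMap.associated (R := ℂ) b.toQuadraticMap = b :=
    QuadraticMap.associated_left_inverse (S := ℂ) hsymm
  have hnd : (QuadraticMap.associated (R := ℂ) b.toQuadraticMap).SeparatingLeft := by
    rw [hass]
    have h1 := (LinearMap.BilinForm.nondegenerate_toBilin'_iff_det_ne_zero (M := B)).2 hB
    exact h1.1
  have h := QuadraticForm.equivalent_weightedSumSquares_of_isAlgClosed b.toQuadraticMap hnd
  rw [Module.finrank_fin_fun] at h
  obtain ⟨e⟩ := h
  have hq : ∀ v, b v v = ∑ i, e v i * e v i := by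
    intro v
    have h1 := e.map_app v
    rw [QuadraticMap.weightedSumSquares_apply] at h1
    simp only [Pi.one_apply, one_smul] at h1
    rw [h1]
    rfl
  let e' : (Fin m → ℂ) ≃ₗ[ℂ] (Fin m → ℂ) := e.toLinearEquiv
  refine ⟨LinearMap.toMatrix' e'.symm.toLinearMap, LinearMap.toMatrix' e'.toLinearMap, ?_, ?_, ?_⟩
  · rw [← sub_eq_zero]
    apply sym_zero
    · rw [transpose_sub, transpose_mul, transpose_mul, transpose_transpose, hs, transpose_one,
        Matrix.mul_assoc]
    · intro v
      rw [Matrix.sub_mulVec, dotProduct_sub, Matrix.one_mulVec, ← Matrix.mulVec_mulVec,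
        ← Matrix.mulVec_mulVec, LinearMap.toMatrix'_mulVec, sub_eq_zero]
      have h1 := hq (e'.symm v)
      have h2 : e (e'.symm v) = v := e'.apply_symm_apply v
      rw [h2] at h1
      simp only [b, Matrix.toBilin'_apply'] at h1
      rw [Matrix.dotProduct_mulVec, Matrix.vecMul_transpose, LinearMap.toMatrix'_mulVec]
      rw [LinearEquiv.coe_coe]
      rw [h1]
      rfl
  · rw [← LinearMap.toMatrix'_comp, LinearEquiv.symm_comp, LinearMap.toMatrix'_id]
  · rw [← LinearMap.toMatrix'_comp, LinearEquiv.comp_symm, LinearMap.toMatrix'_id]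

end Pool.Agent.Y89.KS
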