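import Pool.Agent.Y89.KS.Anti
import Pool.Agent.Y89.KS.Orth
import Pool.Agent.Y89.KS.Defs2

/-!
# Determinants from Clifford relations
-/

open Matrix Finset Function

set_option linter.unusedSectionVars false

namespace Pool.Agent.Y89.KS

noncomputable section

open Pool.Agent.W544.PG (HS HW mC cspan cx)

/-- forms with values in an algebra of matrices -/
structure ASys {n : ℕ} {N : Type} [Fintype N] [DecidableEq N] (b : (ℂ ≃+* ℂ) → Matrix N N ℂ)
    (M : ∀ S : Type, Submodule ℂ ((S → Fin n) → ℂ))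
    (MA : ∀ S : Type, Submodule ℂ ((S → Fin n) → Matrix N N ℂ)) : Prop where
  const : ∀ (S : Type) [IsEmpty S] (d : Matrix N N ℂ),
    (∀ σ : ℂ ≃+* ℂ, d * b σ = b σ * d) → (fun _ : S → Fin n => d) ∈ MA S
  mul : ∀ (S S' : Type) (F : (S → Fin n) → Matrix N N ℂ) (G : (S' → Fin n) → Matrix N N ℂ),
    F ∈ MA S → G ∈ MA S' →
    (fun J : S ⊕ S' → Fin n => F (fun s => J (Sum.inl s)) * G (fun s => J (Sum.inr s))) ∈
      MA (S ⊕ S')
  reidx : ∀ (S S' : Type) (e : S ≃ S') (F : (S → Fin n) → Matrix N N ℂ), F ∈ MA S →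
    (fun J : S' → Fin n => F (fun s => J (e s))) ∈ MA S'
  tr : ∀ (S : Type) (F : (S → Fin n) → Matrix N N ℂ), F ∈ MA S → (fun J => (F J).trace) ∈ M S

section
variable {n : ℕ} {N : Type} [Fintype N] [DecidableEq N] {b : (ℂ ≃+* ℂ) → Matrix N N ℂ}
    {M : ∀ S : Type, Submodule ℂ ((S → Fin n) → ℂ)}
    {MA : ∀ S : Type, Submodule ℂ ((S → Fin n) → Matrix N N ℂ)}

/-- the linear map given by a family of matrices -/
def gam {m : ℕ} (Γ : Fin m → Matrix N N ℂ) : (Fin m → ℂ) →ₗ[ℂ] Matrix N N ℂ where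
  toFun v := ∑ i, v i • Γ i
  map_add' u v := by simp only [Pi.add_apply, add_smul, Finset.sum_add_distrib]
  map_smul' c v := by simp only [Pi.smul_apply, smul_eq_mul, mul_smul, ← Finset.smul_sum,
    RingHom.id_apply]

theorem gam_apply {m : ℕ} (Γ : Fin m → Matrix N N ℂ) (v : Fin m → ℂ) :
    gam Γ v = ∑ i, v i • Γ i := rfl

theorem gam_single {m : ℕ} (Γ : Fin m → Matrix N N ℂ) (i : Fin m) :
    gam Γ (Pi.single i 1) = Γ i := by
  rw [gam_apply, Finset.sum_eq_single i]
  · rw [Pi.single_eq_same, one_smul]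
  · intro j _ hj
    rw [Pi.single_eq_of_ne hj, zero_smul]
  · intro h
    exact absurd (Finset.mem_univ i) h

/-- products of linear forms with values in the matrices -/
theorem prod_mem (hM : ASys b M MA) (G0 : Fin n → Matrix N N ℂ)
    (hG : (fun J : Fin 1 → Fin n => G0 (J 0)) ∈ MA (Fin 1)) (k : ℕ) :
    (fun J : Fin k → Fin n => (List.ofFn fun i => G0 (J i)).prod) ∈ MA (Fin k) := by
  induction k with
  | zero =>
    have h := hM.const (Fin 0) 1 (fun σ => by rw [Matrix.one_mul, Matrix.mul_one])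
    convert h using 1
    funext J
    simp
  | succ k ih =>
    let e : Fin 1 ⊕ Fin k ≃ Fin (k + 1) := (finSumFinEquiv).trans (finCongr (Nat.add_comm 1 k))
    have h := hM.reidx _ _ e _ (hM.mul _ _ _ _ hG ih)
    convert h using 1
    funext J
    rw [List.ofFn_succ, List.prod_cons]
    have h0 : e (Sum.inl 0) = 0 := rfl
    have h1 : ∀ i : Fin k, e (Sum.inr i) = i.succ := by
      intro i
      apply Fin.ext
      simp [e]
    simp only [h0, h1]

/-- multiplication by a constant -/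
theorem mul_const (hM : ASys b M MA) {S : Type} (F : (S → Fin n) → Matrix N N ℂ) (hF : F ∈ MA S)
    (d : Matrix N N ℂ) (hd : ∀ σ : ℂ ≃+* ℂ, d * b σ = b σ * d) :
    (fun J => F J * d) ∈ MA S :=
  hM.reidx _ _ (Equiv.sumEmpty S (Fin 0)) _ (hM.mul _ _ _ _ hF (hM.const (Fin 0) d hd))

/-- the multilinear product -/
def TT {m : ℕ} (γ : Fin m → Matrix N N ℂ) :
    MultilinearMap ℂ (fun _ : Fin m => Fin m → ℂ) (Matrix N N ℂ) :=
  (MultilinearMap.mkPiAlgebraFin ℂ m (Matrix N N ℂ)).compLinearMap fun _ => gam γ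

theorem TT_apply {m : ℕ} (γ : Fin m → Matrix N N ℂ) (v : Fin m → Fin m → ℂ) :
    TT γ v = (List.ofFn fun i => gam γ (v i)).prod := by
  simp [TT]

/-- its alternating version -/
def AA {m : ℕ} (γ : Fin m → Matrix N N ℂ) : (Fin m → ℂ) [⋀^Fin m]→ₗ[ℂ] (Matrix N N ℂ) :=
  MultilinearMap.alternatization (TT γ)

theorem AA_apply {m : ℕ} (γ : Fin m → Matrix N N ℂ) (v : Fin m → Fin m → ℂ) :
    AA γ v = ∑ σ : Equiv.Perm (Fin m), (Equiv.Perm.sign σ : ℤ) •
      (List.ofFn fun i => gam γ (v (σ i))).prod := by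
  unfold AA
  rw [MultilinearMap.alternatization_apply]
  refine Finset.sum_congr rfl fun σ _ => ?_
  rw [MultilinearMap.domDomCongr_apply, TT_apply]
  rfl

/-- the standard basis -/
def bas (m : ℕ) : Fin m → Fin m → ℂ := fun i => Pi.single i 1

theorem AA_bas {m : ℕ} (γ : Fin m → Matrix N N ℂ) (h : ∀ i j, i ≠ j → γ i * γ j = -(γ j * γ i)) :
    AA γ (bas m) = (m.factorial : ℂ) • (List.ofFn γ).prod := by
  rw [AA_apply]
  have h1 : ∀ σ : Equiv.Perm (Fin m), (Equiv.Perm.sign σ : ℤ) •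
      (List.ofFn fun i => gam γ (bas m (σ i))).prod = (List.ofFn γ).prod := by
    intro σ
    simp only [bas, gam_single]
    rw [ofFn_perm γ h σ, smul_smul, ← Units.val_mul, Int.units_mul_self, Units.val_one, one_smul]
  simp only [h1]
  rw [Finset.sum_const, Finset.card_univ, Fintype.card_perm, Fintype.card_fin, Nat.cast_smul_eq_nsmul]

/-- the derivation given by `c` -/
theorem AA_der {m : ℕ} (γ : Fin m → Matrix N N ℂ) (c : Matrix N N ℂ) (z : Matrix (Fin m) (Fin m) ℂ)
    (h : ∀ i, c * γ i - γ i * c = gam γ (z *ᵥ Pi.single i 1)) :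
    c * AA γ (bas m) - AA γ (bas m) * c = z.trace • AA γ (bas m) := by
  have h1 : c * AA γ (bas m) - AA γ (bas m) * c =
      ∑ i, AA γ (update (bas m) i (z *ᵥ bas m i)) := by
    simp only [AA_apply]
    rw [Finset.mul_sum, Finset.sum_mul, ← Finset.sum_sub_distrib, Finset.sum_comm]
    refine Finset.sum_congr rfl fun σ _ => ?_
    rw [mul_smul_comm, smul_mul_assoc, ← smul_sub, leib, ← Finset.smul_sum]
    congr 1
    refine Eq.trans ?_ (Equiv.sum_comp σ _)
    refine Finset.sum_congr rfl fun i _ => ?_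
    congr 2
    funext j
    by_cases hj : j = i
    · subst hj
      rw [update_self, update_self]
      simp only [bas, gam_single]
      exact h _
    · rw [update_of_ne hj, update_of_ne (fun h' => hj (σ.injective h'))]
  have h2 : ∀ i, AA γ (update (bas m) i (z *ᵥ bas m i)) = z i i • AA γ (bas m) := by
    intro i
    have h3 : z *ᵥ bas m i = ∑ j, z j i • bas m j := by
      funext a
      simp [bas, Finset.sum_apply, Pi.single_apply]
    rw [h3, (AA γ).map_update_sum]
    rw [Finset.sum_eq_single i]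
    · rw [(AA γ).map_update_smul, update_eq_self]
    · intro j _ hj
      rw [(AA γ).map_update_smul, (AA γ).map_update_self _ hj.symm, smul_zero]
    · intro h'
      exact absurd (Finset.mem_univ i) h'
  rw [h1]
  simp only [h2]
  rw [← Finset.sum_smul]
  rfl

theorem gam_comp {m : ℕ} (Γ : Fin n → Matrix N N ℂ) (H : Matrix (Fin n) (Fin m) ℂ)
    (v : Fin m → ℂ) : gam (fun a => gam Γ (H *ᵥ Pi.single a 1)) v = gam Γ (H *ᵥ v) := by
  rw [gam_apply]
  simp only [← map_smul]
  rw [← map_sum]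
  congr 1
  simp only [← Matrix.mulVec_smul]
  rw [← Matrix.mulVec_sum]
  congr 1
  funext i
  simp [Finset.sum_apply, Pi.single_apply]

/-- The determinant of a self-adjoint block belongs to the system if there is a family of matrices
satisfying the Clifford relations on it. -/
theorem det_mem (hM : ASys b M MA) {Q R P : Matrix (Fin n) (Fin n) ℂ} (hQ : Qᵀ = Q)
    (hQR : Q * R = 1) (hPQ : Pᵀ * Q = Q * P) {x : (ℂ ≃+* ℂ) → Matrix (Fin n) (Fin n) ℂ}
    (hxP : ∀ σ, x σ * P = P * x σ) (hxQ : ∀ σ, (x σ)ᵀ * Q + Q * x σ = 0)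
    {Γ : Fin n → Matrix N N ℂ}
    (hΓ : (fun J : Fin 1 → Fin n => gam Γ (P *ᵥ Pi.single (J 0) 1)) ∈ MA (Fin 1))
    (hb : ∀ σ v, b σ * gam Γ v - gam Γ v * b σ = gam Γ (x σ *ᵥ v))
    {Z : Matrix N N ℂ}
    (hZ : ∀ u v, P *ᵥ u = u → P *ᵥ v = v → gam Γ u * gam Γ v + gam Γ v * gam Γ u = (u ⬝ᵥ Q *ᵥ v) • Z)
    (hZc : ∀ u, P *ᵥ u = u → Z * gam Γ u = gam Γ u * Z) (hZn : ∀ k, Z ^ k ≠ 0)
    (hadj : ∀ d : Matrix N N ℂ, (∀ σ, d * b σ = b σ * d) → d ≠ 0 →
      ∃ d' : Matrix N N ℂ, (∀ σ, d' * b σ = b σ * d') ∧ (d * d').trace ≠ 0)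
    {m : ℕ} {G : Matrix (Fin m) (Fin n) ℂ} {H : Matrix (Fin n) (Fin m) ℂ} (hHG : H * G = P)
    (hGH : G * H = 1) : (fun J : Fin m → Fin n => (G.submatrix id J).det) ∈ M (Fin m) := by
  -- an orthonormal basis
  have hB : (Hᵀ * Q * H) * (G * R * Gᵀ) = 1 := by
    calc Hᵀ * Q * H * (G * R * Gᵀ) = Hᵀ * (Q * (H * G)) * R * Gᵀ := by
          simp only [Matrix.mul_assoc]
      _ = Hᵀ * Pᵀ * (Q * R) * Gᵀ := by rw [hHG, ← hPQ]; simp only [Matrix.mul_assoc]
      _ = (G * (P * H))ᵀ := by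
          rw [hQR, Matrix.mul_one, transpose_mul, transpose_mul]
      _ = 1 := by
          rw [← hHG, Matrix.mul_assoc, hGH, Matrix.mul_one, hGH, transpose_one]
  have hBs : (Hᵀ * Q * H)ᵀ = Hᵀ * Q * H := by
    rw [transpose_mul, transpose_mul, transpose_transpose, hQ, Matrix.mul_assoc]
  have hBd : (Hᵀ * Q * H).det ≠ 0 := by
    intro h0
    have := congrArg Matrix.det hB
    rw [det_mul, h0, zero_mul, det_one] at this
    exact zero_ne_one this
  obtain ⟨U, U', hU, hUU, hUU'⟩ := orth _ hBs hBd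
  set H' := H * U with hH'
  set G' := U' * G with hG'
  have hHG' : H' * G' = P := by
    rw [hH', hG', Matrix.mul_assoc, ← Matrix.mul_assoc U, hUU, Matrix.one_mul, hHG]
  have hGH' : G' * H' = 1 := by
    rw [hH', hG', Matrix.mul_assoc, ← Matrix.mul_assoc G, hGH, Matrix.one_mul, hUU']
  have hQH' : H'ᵀ * Q * H' = 1 := by
    rw [hH', transpose_mul, ← hU]
    simp only [Matrix.mul_assoc]
  have hPH' : P * H' = H' := by
    rw [← hHG', Matrix.mul_assoc, hGH', Matrix.mul_one]
  have hPv : ∀ v, P *ᵥ (H' *ᵥ v) = H' *ᵥ v := fun v => by rw [Matrix.mulVec_mulVec, hPH']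
  clear_value H' G'
  set γ : Fin m → Matrix N N ℂ := fun a => gam Γ (H' *ᵥ Pi.single a 1) with hγ
  have hγv : ∀ v, gam γ v = gam Γ (H' *ᵥ v) := fun v => gam_comp Γ H' v
  have hrel : ∀ i j, γ i * γ j + γ j * γ i = (if i = j then 1 else 0 : ℂ) • Z := by
    intro i j
    rw [hγ, hZ _ _ (hPv _) (hPv _)]
    congr 1
    have h1 := congrFun (congrFun hQH' i) j
    rw [Matrix.one_apply] at h1
    rw [← h1, Matrix.mulVec_mulVec, Matrix.mulVec_single_one, Matrix.mulVec_single_one,
      Matrix.mul_assoc]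
    rfl
  have hanti : ∀ i j, i ≠ j → γ i * γ j = -(γ j * γ i) := by
    intro i j hij
    have h1 := hrel i j
    rw [if_neg hij, zero_smul] at h1
    exact eq_neg_of_add_eq_zero_left h1
  have hsq : ∀ i, γ i * γ i = (1 / 2 : ℂ) • Z := by
    intro i
    have h1 := hrel i i
    rw [if_pos rfl, one_smul] at h1
    rw [← h1, ← two_smul ℂ, smul_smul]
    norm_num
  set om := (List.ofFn γ).prod with hom
  have hom0 : om ≠ 0 := by
    intro h0
    have h1 := prod_rev ((1 / 2 : ℂ) • Z) (List.ofFn γ) (by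
      intro a ha
      obtain ⟨i, rfl⟩ := (List.mem_ofFn' _ _).1 ha
      rw [smul_mul_assoc, mul_smul_comm]
      congr 1
      exact hZc _ (hPv _)) (by
      intro a ha
      obtain ⟨i, rfl⟩ := (List.mem_ofFn' _ _).1 ha
      exact hsq i)
    rw [← hom, h0, zero_mul, smul_pow] at h1
    have h2 := hZn (List.ofFn γ).length
    have h3 : ((1 / 2 : ℂ) ^ (List.ofFn γ).length) ≠ 0 := pow_ne_zero _ (by norm_num)
    exact (smul_ne_zero h3 h2) h1.symm
  have hA : AA γ (bas m) = (m.factorial : ℂ) • om := AA_bas γ hanti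
  have hA0 : AA γ (bas m) ≠ 0 := by
    rw [hA]
    exact smul_ne_zero (by exact_mod_cast m.factorial_ne_zero) hom0
  have hAc : ∀ σ, AA γ (bas m) * b σ = b σ * AA γ (bas m) := by
    intro σ
    have h1 := AA_der γ (b σ) (G' * x σ * H') (by
      intro i
      rw [hγv, hγ]
      simp only
      rw [hb σ]
      congr 1
      have h0 : x σ * H' = H' * (G' * x σ * H') := by
        rw [← Matrix.mul_assoc, ← Matrix.mul_assoc, hHG', ← hxP σ, Matrix.mul_assoc, hPH']
      rw [Matrix.mulVec_mulVec, Matrix.mulVec_mulVec, h0])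
    have h2 : (G' * x σ * H').trace = 0 := by
      have h3 : (G' * x σ * H').trace = (x σ * P).trace := by
        rw [Matrix.trace_mul_comm, ← Matrix.mul_assoc, hHG', Matrix.trace_mul_comm]
      have hRQ : R * Q = 1 := mul_eq_one_comm.1 hQR
      have h4 : (x σ * P).trace = -(x σ * P).trace := by
        calc (x σ * P).trace = ((x σ * P)ᵀ).trace := (Matrix.trace_transpose _).symm
          _ = (Pᵀ * (x σ)ᵀ).trace := by rw [transpose_mul]
          _ = (Pᵀ * (x σ)ᵀ * Q * R).trace := by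
              rw [Matrix.mul_assoc _ Q R, hQR, Matrix.mul_one]
          _ = -(R * (Q * (P * x σ))).trace := by
              rw [Matrix.mul_assoc Pᵀ, eq_neg_of_add_eq_zero_left (hxQ σ), Matrix.mul_neg,
                ← Matrix.mul_assoc, hPQ, Matrix.trace_mul_comm, Matrix.mul_neg,
                Matrix.trace_neg, Matrix.mul_assoc]
          _ = -(x σ * P).trace := by
              rw [← Matrix.mul_assoc, hRQ, Matrix.one_mul, Matrix.trace_mul_comm]
      rw [h3]
      linear_combination h4 / 2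
    rw [h2, zero_smul] at h1
    exact (sub_eq_zero.1 h1).symm
  obtain ⟨d', hd', htr⟩ := hadj _ hAc hA0
  -- the form
  let T' : Matrix N N ℂ →ₗ[ℂ] ℂ := (Matrix.traceLinearMap N ℂ ℂ).comp (LinearMap.mulRight ℂ d')
  have hform : ∀ v : Fin m → Fin m → ℂ, (AA γ v * d').trace =
      (AA γ (bas m) * d').trace * (Matrix.of v).det := by
    intro v
    have h1 := AlternatingMap.eq_smul_basis_det (Pi.basisFun ℂ (Fin m))
      (T'.compAlternatingMap (AA γ))
    have h2 := congrArg (fun f => f v) h1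
    rw [Pi.basisFun_det] at h2
    simp only [LinearMap.compAlternatingMap_apply, AlternatingMap.smul_apply, smul_eq_mul] at h2
    have h3 : (⇑(Pi.basisFun ℂ (Fin m)) : Fin m → Fin m → ℂ) = bas m := by
      funext i
      rw [Pi.basisFun_apply]
      rfl
    rw [h3] at h2
    exact h2
  have hmem : (fun J : Fin m → Fin n => (AA γ (fun i a => G' a (J i)) * d').trace) ∈ M (Fin m) := by
    apply hM.tr
    apply mul_const hM _ _ d' hd'
    have h1 : ∀ J : Fin m → Fin n, AA γ (fun i a => G' a (J i)) =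
        ∑ σ : Equiv.Perm (Fin m), (Equiv.Perm.sign σ : ℤ) •
          (List.ofFn fun i => gam Γ (P *ᵥ Pi.single (J (σ i)) 1)).prod := by
      intro J
      rw [AA_apply]
      refine Finset.sum_congr rfl fun σ _ => ?_
      have h4 : ∀ i, gam γ (fun a => G' a (J (σ i))) = gam Γ (P *ᵥ Pi.single (J (σ i)) 1) := by
        intro i
        have h5 : (fun a => G' a (J (σ i))) = G' *ᵥ Pi.single (J (σ i)) 1 := by
          rw [Matrix.mulVec_single_one]
          rfl
        rw [hγv, h5, Matrix.mulVec_mulVec, hHG']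
      simp only [h4]
    simp only [h1]
    have h2 : (fun J : Fin m → Fin n => ∑ σ : Equiv.Perm (Fin m), (Equiv.Perm.sign σ : ℤ) •
          (List.ofFn fun i => gam Γ (P *ᵥ Pi.single (J (σ i)) 1)).prod) =
        ∑ σ : Equiv.Perm (Fin m), (Equiv.Perm.sign σ : ℤ) • fun J : Fin m → Fin n =>
          (List.ofFn fun i => gam Γ (P *ᵥ Pi.single (J (σ i)) 1)).prod := by
      funext J
      rw [Finset.sum_apply]
      rfl
    rw [h2]
    refine Submodule.sum_mem _ fun σ _ => ?_
    apply zsmul_mem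
    exact hM.reidx _ _ σ _ (prod_mem hM (fun j => gam Γ (P *ᵥ Pi.single j 1)) hΓ m)
  have hfin : (fun J : Fin m → Fin n => (G.submatrix id J).det) =
      (U.det / (AA γ (bas m) * d').trace) •
        fun J : Fin m → Fin n => (AA γ (fun i a => G' a (J i)) * d').trace := by
    funext J
    have h1 : (Matrix.of fun (i : Fin m) (a : Fin m) => G' a (J i)).det =
        (G'.submatrix id J).det := by
      rw [← Matrix.det_transpose]
      rfl
    have h2 : G.submatrix id J = U * (G'.submatrix id J) := by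
      have h3 : G = U * G' := by
        rw [hG', ← Matrix.mul_assoc, hUU, Matrix.one_mul]
      conv_lhs => rw [h3]
      rfl
    show _ = (U.det / (AA γ (bas m) * d').trace) *
      (AA γ (fun i a => G' a (J i)) * d').trace
    rw [hform (fun i a => G' a (J i)), h1, h2, det_mul]
    field_simp
  rw [hfin]
  exact Submodule.smul_mem _ _ hmem

end

end

end Pool.Agent.Y89.KS
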