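import Pool.Agent.Y89.KS.Beta
import Pool.Agent.Y89.KS.Herm
import Pool.Agent.Y89.KS.Det

/-!
# Determinants from a morphism to `End H^1(A)`
-/

open Matrix Finset Function

set_option linter.unusedSectionVars false

namespace Pool.Agent.Y89.KS

noncomputable section

open Pool.Agent.W544.PG (HS HW mC cspan cx)

section
variable {n w : ℕ}

/-- the system of forms with values in two by two block matrices -/
def M2 (ME : ∀ S : Type, Submodule ℂ ((S → Fin n) → Matrix (Fin w) (Fin w) ℂ)) (S : Type) :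
    Submodule ℂ ((S → Fin n) → Matrix (Fin w ⊕ Fin w) (Fin w ⊕ Fin w) ℂ) where
  carrier := {F | (fun J => (F J).toBlocks₁₁) ∈ ME S ∧ (fun J => (F J).toBlocks₁₂) ∈ ME S ∧
    (fun J => (F J).toBlocks₂₁) ∈ ME S ∧ (fun J => (F J).toBlocks₂₂) ∈ ME S}
  zero_mem' := ⟨(ME S).zero_mem, (ME S).zero_mem, (ME S).zero_mem, (ME S).zero_mem⟩
  add_mem' := fun ⟨a, b, c, d⟩ ⟨a', b', c', d'⟩ => ⟨(ME S).add_mem a a', (ME S).add_mem b b',
    (ME S).add_mem c c', (ME S).add_mem d d'⟩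
  smul_mem' := fun t _ ⟨a, b, c, d⟩ => ⟨(ME S).smul_mem t a, (ME S).smul_mem t b,
    (ME S).smul_mem t c, (ME S).smul_mem t d⟩

theorem tb_mul (A B : Matrix (Fin w ⊕ Fin w) (Fin w ⊕ Fin w) ℂ) :
    (A * B).toBlocks₁₁ = A.toBlocks₁₁ * B.toBlocks₁₁ + A.toBlocks₁₂ * B.toBlocks₂₁ ∧
    (A * B).toBlocks₁₂ = A.toBlocks₁₁ * B.toBlocks₁₂ + A.toBlocks₁₂ * B.toBlocks₂₂ ∧
    (A * B).toBlocks₂₁ = A.toBlocks₂₁ * B.toBlocks₁₁ + A.toBlocks₂₂ * B.toBlocks₂₁ ∧
    (A * B).toBlocks₂₂ = A.toBlocks₂₁ * B.toBlocks₁₂ + A.toBlocks₂₂ * B.toBlocks₂₂ := by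
  have h : A * B = fromBlocks A.toBlocks₁₁ A.toBlocks₁₂ A.toBlocks₂₁ A.toBlocks₂₂ *
    fromBlocks B.toBlocks₁₁ B.toBlocks₁₂ B.toBlocks₂₁ B.toBlocks₂₂ := by
    rw [fromBlocks_toBlocks, fromBlocks_toBlocks]
  rw [h, fromBlocks_multiply]
  exact ⟨rfl, rfl, rfl, rfl⟩

/-- the partner of `y` -/
def bb (W : HW w) (σ : ℂ ≃+* ℂ) : Matrix (Fin w ⊕ Fin w) (Fin w ⊕ Fin w) ℂ :=
  fromBlocks (W.y.map σ) 0 0 (W.y.map σ)

theorem bb_comm (W : HW w) (σ : ℂ ≃+* ℂ) (d : Matrix (Fin w ⊕ Fin w) (Fin w ⊕ Fin w) ℂ) :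
    d * bb W σ = bb W σ * d ↔ (d.toBlocks₁₁ * W.y.map σ = W.y.map σ * d.toBlocks₁₁ ∧
      d.toBlocks₁₂ * W.y.map σ = W.y.map σ * d.toBlocks₁₂) ∧
      (d.toBlocks₂₁ * W.y.map σ = W.y.map σ * d.toBlocks₂₁ ∧
      d.toBlocks₂₂ * W.y.map σ = W.y.map σ * d.toBlocks₂₂) := by
  constructor
  · intro h
    obtain ⟨h1, h2, h3, h4⟩ := tb_mul d (bb W σ)
    obtain ⟨k1, k2, k3, k4⟩ := tb_mul (bb W σ) d
    rw [h] at h1 h2 h3 h4
    rw [h1] at k1
    rw [h2] at k2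
    rw [h3] at k3
    rw [h4] at k4
    simp only [bb, toBlocks_fromBlocks₁₁, toBlocks_fromBlocks₁₂, toBlocks_fromBlocks₂₁,
      toBlocks_fromBlocks₂₂, Matrix.mul_zero, Matrix.zero_mul, add_zero, zero_add] at k1 k2 k3 k4
    exact ⟨⟨k1, k2⟩, k3, k4⟩
  · rintro ⟨⟨h1, h2⟩, h3, h4⟩
    have h : d = fromBlocks d.toBlocks₁₁ d.toBlocks₁₂ d.toBlocks₂₁ d.toBlocks₂₂ :=
      (fromBlocks_toBlocks d).symm
    rw [h]
    unfold bb
    rw [fromBlocks_multiply, fromBlocks_multiply]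
    simp only [Matrix.mul_zero, Matrix.zero_mul, add_zero, zero_add, h1, h2, h3, h4]

theorem asys2 {V : HS n} {W : HW w} {M : ∀ S : Type, Submodule ℂ ((S → Fin n) → ℂ)}
    {ME : ∀ S : Type, Submodule ℂ ((S → Fin n) → Matrix (Fin w) (Fin w) ℂ)}
    (hM : ESys V W M ME) : ASys (bb W) M (M2 ME) where
  const S _ d hd := by
    have h := fun σ => (bb_comm W σ d).1 (hd σ)
    exact ⟨hM.const S _ fun σ => (h σ).1.1, hM.const S _ fun σ => (h σ).1.2,
      hM.const S _ fun σ => (h σ).2.1, hM.const S _ fun σ => (h σ).2.2⟩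
  mul S S' F G hF hG := by
    obtain ⟨a, b, c, d⟩ := hF
    obtain ⟨a', b', c', d'⟩ := hG
    have e := fun J : S ⊕ S' → Fin n =>
      tb_mul (F (fun s => J (Sum.inl s))) (G (fun s => J (Sum.inr s)))
    refine ⟨?_, ?_, ?_, ?_⟩
    · have h := (ME _).add_mem (hM.mul _ _ _ _ a a') (hM.mul _ _ _ _ b c')
      have h' : (fun J : S ⊕ S' → Fin n => (F (fun s => J (Sum.inl s)) *
        G (fun s => J (Sum.inr s))).toBlocks₁₁) = _ := funext fun J => (e J).1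
      rw [h']
      exact h
    · have h := (ME _).add_mem (hM.mul _ _ _ _ a b') (hM.mul _ _ _ _ b d')
      have h' : (fun J : S ⊕ S' → Fin n => (F (fun s => J (Sum.inl s)) *
        G (fun s => J (Sum.inr s))).toBlocks₁₂) = _ := funext fun J => (e J).2.1
      rw [h']
      exact h
    · have h := (ME _).add_mem (hM.mul _ _ _ _ c a') (hM.mul _ _ _ _ d c')
      have h' : (fun J : S ⊕ S' → Fin n => (F (fun s => J (Sum.inl s)) *
        G (fun s => J (Sum.inr s))).toBlocks₂₁) = _ := funext fun J => (e J).2.2.1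
      rw [h']
      exact h
    · have h := (ME _).add_mem (hM.mul _ _ _ _ c b') (hM.mul _ _ _ _ d d')
      have h' : (fun J : S ⊕ S' → Fin n => (F (fun s => J (Sum.inl s)) *
        G (fun s => J (Sum.inr s))).toBlocks₂₂) = _ := funext fun J => (e J).2.2.2
      rw [h']
      exact h
  reidx S S' e F hF := ⟨hM.reidx _ _ e _ hF.1, hM.reidx _ _ e _ hF.2.1,
    hM.reidx _ _ e _ hF.2.2.1, hM.reidx _ _ e _ hF.2.2.2⟩
  tr S F hF := by
    have h : (fun J => (F J).trace) =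
        (fun J => (F J).toBlocks₁₁.trace) + fun J => (F J).toBlocks₂₂.trace := by
      funext J
      simp [Matrix.trace, Fintype.sum_sum_type, Matrix.toBlocks₁₁, Matrix.toBlocks₂₂]
    rw [h]
    exact (M S).add_mem (hM.tr _ _ hF.1) (hM.tr _ _ hF.2.2.2)

theorem dg_comm {W : HW w} {d : Matrix (Fin w) (Fin w) ℂ}
    (hd : ∀ σ : ℂ ≃+* ℂ, d * W.y.map σ = W.y.map σ * d) (σ : ℂ ≃+* ℂ) :
    dg W (d.map cc) * W.y.map σ = W.y.map σ * dg W (d.map cc) := by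
  have h1 := congrArg (fun M : Matrix (Fin w) (Fin w) ℂ => M.map cc) (hd (σ.trans cc))
  simp only [mul_map'] at h1
  have h2 : (W.y.map (σ.trans cc)).map cc = W.y.map σ := by
    ext a b
    simp
  rw [h2] at h1
  have h3 := congrArg (dg W) h1
  rw [dg_mul, dg_mul, dg_y, Matrix.neg_mul, Matrix.mul_neg, neg_inj] at h3
  exact h3.symm

theorem map_refl' {ι κ : Type} (M : Matrix ι κ ℂ) : M.map (RingEquiv.refl ℂ) = M := by
  ext a b
  simp

/-- the adjoint element -/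
theorem adj2 (W : HW w) (d : Matrix (Fin w ⊕ Fin w) (Fin w ⊕ Fin w) ℂ)
    (hd : ∀ σ : ℂ ≃+* ℂ, d * bb W σ = bb W σ * d) (h0 : d ≠ 0) :
    ∃ d' : Matrix (Fin w ⊕ Fin w) (Fin w ⊕ Fin w) ℂ,
      (∀ σ : ℂ ≃+* ℂ, d' * bb W σ = bb W σ * d') ∧ (d * d').trace ≠ 0 := by
  have h := fun σ => (bb_comm W σ d).1 (hd σ)
  have hy : ∀ a : Matrix (Fin w) (Fin w) ℂ, (∀ σ : ℂ ≃+* ℂ, a * W.y.map σ = W.y.map σ * a) →
      a ≠ 0 → (a * dg W (a.map cc)).trace ≠ 0 := by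
    intro a ha ha0 h1
    apply ha0
    apply posW W a _ h1
    have := ha (RingEquiv.refl ℂ)
    rwa [map_refl'] at this
  have hb : d.toBlocks₁₁ ≠ 0 ∨ d.toBlocks₁₂ ≠ 0 ∨ d.toBlocks₂₁ ≠ 0 ∨ d.toBlocks₂₂ ≠ 0 := by
    by_contra hc
    push Not at hc
    obtain ⟨h1, h2, h3, h4⟩ := hc
    apply h0
    rw [← fromBlocks_toBlocks d, h1, h2, h3, h4]
    exact fromBlocks_zero
  have htr : ∀ a b c e : Matrix (Fin w) (Fin w) ℂ,
      (d * fromBlocks a b c e).trace = (d.toBlocks₁₁ * a).trace + (d.toBlocks₁₂ * c).trace +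
        ((d.toBlocks₂₁ * b).trace + (d.toBlocks₂₂ * e).trace) := by
    intro a b c e
    nth_rewrite 1 [← fromBlocks_toBlocks d]
    rw [fromBlocks_multiply]
    simp [Matrix.trace, Fintype.sum_sum_type, Finset.sum_add_distrib]
  rcases hb with h1 | h1 | h1 | h1
  · refine ⟨fromBlocks (dg W (d.toBlocks₁₁.map cc)) 0 0 0, fun σ => ?_, ?_⟩
    · rw [bb_comm]
      simp only [toBlocks_fromBlocks₁₁, toBlocks_fromBlocks₁₂, toBlocks_fromBlocks₂₁,
        toBlocks_fromBlocks₂₂, Matrix.mul_zero, Matrix.zero_mul, and_self, and_true]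
      exact dg_comm (fun σ => (h σ).1.1) σ
    · rw [htr]
      simp only [Matrix.mul_zero, Matrix.trace_zero, add_zero, zero_add]
      exact hy _ (fun σ => (h σ).1.1) h1
  · refine ⟨fromBlocks 0 0 (dg W (d.toBlocks₁₂.map cc)) 0, fun σ => ?_, ?_⟩
    · rw [bb_comm]
      simp only [toBlocks_fromBlocks₁₁, toBlocks_fromBlocks₁₂, toBlocks_fromBlocks₂₁,
        toBlocks_fromBlocks₂₂, Matrix.mul_zero, Matrix.zero_mul, and_self, and_true, true_and]
      exact dg_comm (fun σ => (h σ).1.2) σ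
    · rw [htr]
      simp only [Matrix.mul_zero, Matrix.trace_zero, add_zero, zero_add]
      exact hy _ (fun σ => (h σ).1.2) h1
  · refine ⟨fromBlocks 0 (dg W (d.toBlocks₂₁.map cc)) 0 0, fun σ => ?_, ?_⟩
    · rw [bb_comm]
      simp only [toBlocks_fromBlocks₁₁, toBlocks_fromBlocks₁₂, toBlocks_fromBlocks₂₁,
        toBlocks_fromBlocks₂₂, Matrix.mul_zero, Matrix.zero_mul, and_self, and_true, true_and]
      exact dg_comm (fun σ => (h σ).2.1) σ
    · rw [htr]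
      simp only [Matrix.mul_zero, Matrix.trace_zero, add_zero, zero_add]
      exact hy _ (fun σ => (h σ).2.1) h1
  · refine ⟨fromBlocks 0 0 0 (dg W (d.toBlocks₂₂.map cc)), fun σ => ?_, ?_⟩
    · rw [bb_comm]
      simp only [toBlocks_fromBlocks₁₁, toBlocks_fromBlocks₁₂, toBlocks_fromBlocks₂₁,
        toBlocks_fromBlocks₂₂, Matrix.mul_zero, Matrix.zero_mul, and_self, true_and]
      exact dg_comm (fun σ => (h σ).2.2) σ
    · rw [htr]
      simp only [Matrix.mul_zero, Matrix.trace_zero, zero_add]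
      exact hy _ (fun σ => (h σ).2.2) h1

/-- the partners of the elements of the Lie algebra -/
theorem partner {V : HS n} {W : HW w} {Φ Ψ : (Fin n → ℂ) →ₗ[ℂ] Matrix (Fin w) (Fin w) ℂ}
    (h1 : ∀ (σ : ℂ ≃+* ℂ) (v), W.y.map σ * Φ v - Φ v * W.y.map σ = Φ (V.x.map σ *ᵥ v))
    (h2 : ∀ (σ : ℂ ≃+* ℂ) (v), W.y.map σ * Ψ v - Ψ v * W.y.map σ = Ψ (V.x.map σ *ᵥ v)) :
    ∀ z ∈ g0 V, ∃ b : Matrix (Fin w) (Fin w) ℂ, (∀ v, b * Φ v - Φ v * b = Φ (z *ᵥ v)) ∧
      ∀ v, b * Ψ v - Ψ v * b = Ψ (z *ᵥ v) := by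
  intro z hz
  let L : Submodule ℂ (Matrix (Fin n) (Fin n) ℂ) :=
    { carrier := {z | ∃ b : Matrix (Fin w) (Fin w) ℂ, (∀ v, b * Φ v - Φ v * b = Φ (z *ᵥ v)) ∧
        ∀ v, b * Ψ v - Ψ v * b = Ψ (z *ᵥ v)}
      zero_mem' := ⟨0, fun v => by simp, fun v => by simp⟩
      add_mem' := by
        rintro a a' ⟨b, hb1, hb2⟩ ⟨b', hb1', hb2'⟩
        refine ⟨b + b', fun v => ?_, fun v => ?_⟩
        · rw [Matrix.add_mulVec, map_add, ← hb1, ← hb1']
          noncomm_ring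
        · rw [Matrix.add_mulVec, map_add, ← hb2, ← hb2']
          noncomm_ring
      smul_mem' := by
        rintro c a ⟨b, hb1, hb2⟩
        refine ⟨c • b, fun v => ?_, fun v => ?_⟩
        · rw [Matrix.smul_mulVec, map_smul, ← hb1, Matrix.smul_mul, Matrix.mul_smul, smul_sub]
        · rw [Matrix.smul_mulVec, map_smul, ← hb2, Matrix.smul_mul, Matrix.mul_smul, smul_sub] }
  refine hz L ?_ ?_
  · rintro a ⟨b, hb1, hb2⟩ a' ⟨b', hb1', hb2'⟩
    refine ⟨b * b' - b' * b, fun v => ?_, fun v => ?_⟩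
    · rw [Matrix.sub_mulVec, map_sub, ← Matrix.mulVec_mulVec, ← Matrix.mulVec_mulVec, ← hb1,
        ← hb1', ← hb1', ← hb1]
      noncomm_ring
    · rw [Matrix.sub_mulVec, map_sub, ← Matrix.mulVec_mulVec, ← Matrix.mulVec_mulVec, ← hb2,
        ← hb2', ← hb2', ← hb2]
      noncomm_ring
  · intro σ
    exact ⟨W.y.map σ, h1 σ, h2 σ⟩

theorem conj_rel {V : HS n} {W : HW w} {φ : Fin n → Matrix (Fin w) (Fin w) ℚ}
    (hφ : ∀ j, W.y * mC (φ j) - mC (φ j) * W.y = ∑ i, V.x i j • mC (φ i)) (σ : ℂ ≃+* ℂ)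
    (v : Fin n → ℂ) : W.y.map σ * gam (fun i => mC (φ i)) v - gam (fun i => mC (φ i)) v * W.y.map σ =
      gam (fun i => mC (φ i)) (V.x.map σ *ᵥ v) := by
  have h1 : ∀ j, W.y.map σ * mC (φ j) - mC (φ j) * W.y.map σ =
      ∑ i, (V.x.map σ) i j • mC (φ i) := by
    intro j
    have h2 := congrArg (fun M : Matrix (Fin w) (Fin w) ℂ => M.map σ) (hφ j)
    have h3 : ∀ a b : Matrix (Fin w) (Fin w) ℂ, (a - b).map σ = a.map σ - b.map σ := by
      intro a b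
      ext p q
      simp
    simp only [h3, mul_map', mC_map'] at h2
    rw [h2]
    ext p q
    simp [Matrix.sum_apply, mC]
  rw [gam_apply, gam_apply, Finset.mul_sum, Finset.sum_mul, ← Finset.sum_sub_distrib]
  have h4 : ∀ j, W.y.map σ * (v j • mC (φ j)) - (v j • mC (φ j)) * W.y.map σ =
      v j • ∑ i, (V.x.map σ) i j • mC (φ i) := by
    intro j
    rw [← h1, smul_sub, Matrix.mul_smul, Matrix.smul_mul]
  simp only [h4, Finset.smul_sum, smul_smul]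
  rw [Finset.sum_comm]
  refine Finset.sum_congr rfl fun i _ => ?_
  rw [← Finset.sum_smul]
  congr 1
  rw [Matrix.mulVec, dotProduct]
  exact Finset.sum_congr rfl fun j _ => mul_comm _ _

/-- the rational adjoint -/
def dgQ (W : HW w) (A : Matrix (Fin w) (Fin w) ℚ) : Matrix (Fin w) (Fin w) ℚ :=
  W.E⁻¹ * Aᵀ * W.E

theorem mC_dgQ (W : HW w) (A : Matrix (Fin w) (Fin w) ℚ) : mC (dgQ W A) = dg W (mC A) := by
  unfold dgQ dg
  rw [mC_mul', mC_mul']
  have h1 : mC (W.E⁻¹) = (mC W.E)⁻¹ := by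
    symm
    apply Matrix.inv_eq_left_inv
    have h2 : W.E⁻¹ * W.E = 1 := by
      apply Matrix.nonsing_inv_mul
      rw [isUnit_iff_ne_zero]
      intro h0
      apply Edet W
      have h := RingHom.map_det (algebraMap ℚ ℂ) W.E
      rw [h0, map_zero] at h
      exact h.symm
    rw [← mC_mul', h2]
    ext a b
    by_cases h : a = b
    · subst h; simp [mC]
    · simp [mC, h]
  rw [h1]
  rfl

theorem dg_gam (W : HW w) (φ : Fin n → Matrix (Fin w) (Fin w) ℚ) (v : Fin n → ℂ) :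
    dg W (gam (fun i => mC (φ i)) v) = gam (fun i => mC (dgQ W (φ i))) v := by
  have h : ∀ A, dg W A = dgL W A := fun _ => rfl
  rw [gam_apply, gam_apply, h, map_sum]
  refine Finset.sum_congr rfl fun i _ => ?_
  rw [map_smul, ← h, mC_dgQ]

end

end

end Pool.Agent.Y89.KS
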