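import Pool.Agent.Y89.KS.Abt

/-!
# Determinants from a morphism to `End H^1(A)`, II
-/

open Matrix Finset Function

set_option linter.unusedSectionVars false

namespace Pool.Agent.Y89.KS

noncomputable section

open Pool.Agent.W544.PG (HS HW mC cspan cx)

section
variable {n w : ℕ}

theorem dgQ_rel {V : HS n} {W : HW w} {φ : Fin n → Matrix (Fin w) (Fin w) ℚ}
    (hφ : ∀ j, W.y * mC (φ j) - mC (φ j) * W.y = ∑ i, V.x i j • mC (φ i)) (j : Fin n) :
    W.y * mC (dgQ W (φ j)) - mC (dgQ W (φ j)) * W.y = ∑ i, V.x i j • mC (dgQ W (φ i)) := by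
  have h1 := congrArg (dgL W) (hφ j)
  rw [map_sub, map_sum] at h1
  simp only [map_smul] at h1
  have h : ∀ A, dgL W A = dg W A := fun _ => rfl
  simp only [h, dg_mul, ← mC_dgQ] at h1
  have h2 : dg W W.y = -W.y := by
    have h4 := dg_y W (RingEquiv.refl ℂ)
    rwa [map_refl'] at h4
  rw [h2] at h1
  rw [← h1]
  noncomm_ring

/-- real vectors in the block killed by the Hodge operator -/
theorem exists_real {V : HS n} {P : Matrix (Fin n) (Fin n) ℂ} (hxP : P * P = P)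
    (hPc : P.map (starRingEnd ℂ) = P) (hr : 3 ≤ P.rank) {e f : Fin n → ℂ} (hef : EF V e f) :
    ∃ v : Fin n → ℂ, v ≠ 0 ∧ P *ᵥ v = v ∧ V.x *ᵥ v = 0 ∧ star v = v := by
  -- a vector of the block orthogonal to both eigenvectors
  have h1 : ∃ v : Fin n → ℂ, v ≠ 0 ∧ P *ᵥ v = v ∧ qq V e v = 0 ∧ qq V f v = 0 := by
    let T : LinearMap.range P.mulVecLin →ₗ[ℂ] (Fin 2 → ℂ) :=
      { toFun := fun v => ![qq V e v, qq V f v]
        map_add' := by
          intro a b
          funext i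
          fin_cases i <;> simp [qq_add]
        map_smul' := by
          intro c a
          funext i
          fin_cases i <;> simp [qq_smul] }
    have h2 : LinearMap.ker T ≠ ⊥ := by
      apply LinearMap.ker_ne_bot_of_finrank_lt
      rw [Module.finrank_fin_fun]
      exact lt_of_lt_of_le (by norm_num) hr
    obtain ⟨v, hv, hv0⟩ := Submodule.exists_mem_ne_zero_of_ne_bot h2
    refine ⟨v, fun h => hv0 (Subtype.ext h), ?_, ?_, ?_⟩
    · obtain ⟨u, hu⟩ := v.2
      rw [← hu, Matrix.mulVecLin_apply, Matrix.mulVec_mulVec, hxP]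
    · have := congrFun (LinearMap.mem_ker.1 hv) 0
      simpa [T] using this
    · have := congrFun (LinearMap.mem_ker.1 hv) 1
      simpa [T] using this
  obtain ⟨v, hv0, hv1, hv2, hv3⟩ := h1
  have hxv : V.x *ᵥ v = 0 := by rw [hef.x, hv2, hv3, zero_smul, zero_smul, sub_zero]
  have hsP : ∀ u : Fin n → ℂ, P *ᵥ star u = star (P *ᵥ u) := by
    intro u
    rw [← hPc]
    funext i
    simp [Matrix.mulVec, dotProduct]
    refine Finset.sum_congr rfl fun j _ => ?_
    have := congrFun (congrFun hPc i) j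
    rw [Matrix.map_apply] at this
    rw [this]
  have hsx : ∀ u : Fin n → ℂ, V.x *ᵥ star u = -star (V.x *ᵥ u) := by
    intro u
    funext i
    simp only [Matrix.mulVec, dotProduct, Pi.star_apply, Pi.neg_apply, star_sum, star_mul']
    rw [← Finset.sum_neg_distrib]
    refine Finset.sum_congr rfl fun j _ => ?_
    have := congrFun (congrFun V.real i) j
    rw [Matrix.map_apply, Matrix.neg_apply] at this
    have h2 : star (V.x i j) = -V.x i j := this
    rw [h2]
    ring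
  by_cases h : v + star v = 0
  · refine ⟨Complex.I • v, ?_, ?_, ?_, ?_⟩
    · exact smul_ne_zero Complex.I_ne_zero hv0
    · rw [Matrix.mulVec_smul, hv1]
    · rw [Matrix.mulVec_smul, hxv, smul_zero]
    · rw [star_smul]
      have h1 : star v = -v := by
        rw [eq_neg_iff_add_eq_zero, add_comm, h]
      rw [h1]
      simp
  · refine ⟨v + star v, h, ?_, ?_, ?_⟩
    · rw [Matrix.mulVec_add, hsP, hv1]
    · rw [Matrix.mulVec_add, hsx, hxv]
      simp
    · rw [star_add, star_star, add_comm]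

/-- the form is definite on the real kernel of the Hodge operator -/
theorem real_ne {V : HS n} {v : Fin n → ℂ} (hv : v ≠ 0) (hx : V.x *ᵥ v = 0) (hr : star v = v) :
    qq V v v ≠ 0 := by
  have h1 := V.pos v hv
  rw [hr, ← Matrix.mulVec_mulVec, Matrix.sub_mulVec, Matrix.smul_mulVec, ← Matrix.mulVec_mulVec,
    hx, Matrix.mulVec_zero, smul_zero, zero_sub, Matrix.one_mulVec, Matrix.mulVec_neg,
    dotProduct_neg] at h1
  intro h2
  have h3 : v ⬝ᵥ (mC V.Q *ᵥ v) = 0 := h2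
  rw [h3] at h1
  simp at h1

theorem gam_blk (a b : Fin n → Matrix (Fin w) (Fin w) ℂ) (v : Fin n → ℂ) :
    gam (fun i => fromBlocks 0 (a i) (b i) 0 : Fin n → Matrix (Fin w ⊕ Fin w) (Fin w ⊕ Fin w) ℂ) v =
      fromBlocks 0 (gam a v) (gam b v) 0 := by
  rw [gam_apply, gam_apply, gam_apply]
  ext i j
  rw [Matrix.sum_apply]
  rcases i with i | i <;> rcases j with j | j <;>
    simp [Matrix.sum_apply]

theorem abt : S_abt := by
  intro n w V W hV φ hφ hne P hP hs M ME hM hmem m G H hHG hGH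
  have hx : V.x ≠ 0 := by
    intro h
    rw [h, Matrix.zero_mul, Matrix.trace_zero] at hV
    norm_num at hV
  obtain ⟨hxP, hPx, hPc, hr⟩ := hP.self hs hx
  obtain ⟨e, f, hef⟩ := exists_ef V hV
  obtain ⟨Φ, hΦ⟩ : ∃ Φ, Φ = gam (fun i => mC (φ i)) := ⟨_, rfl⟩
  obtain ⟨Ψ, hΨ⟩ : ∃ Ψ, Ψ = gam (fun i => mC (dgQ W (φ i))) := ⟨_, rfl⟩
  have h1 : ∀ (σ : ℂ ≃+* ℂ) (v), W.y.map σ * Φ v - Φ v * W.y.map σ = Φ (V.x.map σ *ᵥ v) := by
    rw [hΦ]
    exact conj_rel hφ
  have h2 : ∀ (σ : ℂ ≃+* ℂ) (v), W.y.map σ * Ψ v - Ψ v * W.y.map σ = Ψ (V.x.map σ *ᵥ v) := by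
    rw [hΨ]
    exact conj_rel (dgQ_rel hφ)
  have hdg : ∀ v, dg W (Φ v) = Ψ v := by
    intro v
    rw [hΦ, hΨ, dg_gam]
  have hpar := partner h1 h2
  have hpar' := partner h2 h1
  have hy1 : ∀ v, W.y * Φ v - Φ v * W.y = Φ (V.x *ᵥ v) := by
    intro v
    have := h1 (RingEquiv.refl ℂ) v
    rwa [map_refl', map_refl'] at this
  have hy2 : ∀ v, W.y * Ψ v - Ψ v * W.y = Ψ (V.x *ᵥ v) := by
    intro v
    have := h2 (RingEquiv.refl ℂ) v
    rwa [map_refl', map_refl'] at this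
  obtain ⟨Z, hZdef⟩ : ∃ Z, Z = Φ e * Ψ f + Φ f * Ψ e := ⟨_, rfl⟩
  obtain ⟨Z', hZdef'⟩ : ∃ Z', Z' = Ψ e * Φ f + Ψ f * Φ e := ⟨_, rfl⟩
  have rel1 : ∀ u v, P *ᵥ u = u → P *ᵥ v = v → Φ u * Ψ v + Φ v * Ψ u = qq V u v • Z := by
    intro u v hu hv
    rw [hZdef]
    exact beta_rel hP hs hx hef hpar W.sq ⟨hy1, hy2⟩ hu hv
  have rel2 : ∀ u v, P *ᵥ u = u → P *ᵥ v = v → Ψ u * Φ v + Ψ v * Φ u = qq V u v • Z' := by
    intro u v hu hv
    rw [hZdef']
    exact beta_rel hP hs hx hef hpar' W.sq ⟨hy2, hy1⟩ hu hv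
  have sq1 : ∀ u, P *ᵥ u = u → Φ u * Ψ u = (qq V u u / 2) • Z := by
    intro u hu
    have h := rel1 u u hu hu
    rw [← two_smul ℂ] at h
    rw [div_eq_inv_mul, ← smul_smul, ← h, smul_smul]
    norm_num
  have sq2 : ∀ u, P *ᵥ u = u → Ψ u * Φ u = (qq V u u / 2) • Z' := by
    intro u hu
    have h := rel2 u u hu hu
    rw [← two_smul ℂ] at h
    rw [div_eq_inv_mul, ← smul_smul, ← h, smul_smul]
    norm_num
  obtain ⟨v0, hv0, hPv0, hxv0, hrv0⟩ := exists_real hP.idem hPc hr hef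
  have hq0 : qq V v0 v0 ≠ 0 := real_ne hv0 hxv0 hrv0
  -- commutation with the central element
  have hcen : ∀ (A B : (Fin n → ℂ) →ₗ[ℂ] Matrix (Fin w) (Fin w) ℂ) (Z Z' : Matrix (Fin w) (Fin w) ℂ),
      (∀ u, P *ᵥ u = u → A u * B u = (qq V u u / 2) • Z) →
      (∀ u, P *ᵥ u = u → B u * A u = (qq V u u / 2) • Z') →
      ∀ u, P *ᵥ u = u → Z * A u = A u * Z' := by
    intro A B Z Z' hA hB u hu
    have hD : ∀ u, P *ᵥ u = u → qq V u u ≠ 0 → Z * A u - A u * Z' = 0 := by
      intro u hu hq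
      have h3 : (qq V u u / 2) • (Z * A u - A u * Z') = 0 := by
        rw [smul_sub, ← Matrix.smul_mul, ← Matrix.mul_smul, ← hA u hu, ← hB u hu,
          Matrix.mul_assoc, sub_self]
      exact (smul_eq_zero.1 h3).resolve_left (div_ne_zero hq (by norm_num))
    rw [← sub_eq_zero]
    by_cases hq : qq V u u = 0
    · have h4 := hD v0 hPv0 hq0
      by_cases h5 : qq V (u + v0) (u + v0) = 0
      · have h6 : qq V (u - v0) (u - v0) ≠ 0 := by
          intro h7
          simp only [qq_add, qq_add', qq_sub, qq_sub', hq, qq_comm V v0 u] at h5 h7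
          apply hq0
          linear_combination (h5 + h7) / 2
        have h8 := hD (u - v0) (by rw [Matrix.mulVec_sub, hu, hPv0]) h6
        rw [map_sub] at h8
        calc Z * A u - A u * Z' = (Z * (A u - A v0) - (A u - A v0) * Z') +
              (Z * A v0 - A v0 * Z') := by noncomm_ring
          _ = 0 := by rw [h8, h4, add_zero]
      · have h8 := hD (u + v0) (by rw [Matrix.mulVec_add, hu, hPv0]) h5
        rw [map_add] at h8
        calc Z * A u - A u * Z' = (Z * (A u + A v0) - (A u + A v0) * Z') -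
              (Z * A v0 - A v0 * Z') := by noncomm_ring
          _ = 0 := by rw [h8, h4, sub_zero]
    · exact hD u hu hq
  have hc1 := hcen Φ Ψ Z Z' sq1 sq2
  have hc2 := hcen Ψ Φ Z' Z sq2 sq1
  -- the central element is not nilpotent
  have hΦ0 : Φ v0 ≠ 0 := by
    intro h0
    have h3 : ∀ u, P *ᵥ u = u → Φ u = 0 := by
      intro u hu
      obtain ⟨b, hb, -⟩ := hpar _ (hP.wdg hs hu hPv0)
      have h4 := hb v0
      rw [h0, Matrix.mul_zero, Matrix.zero_mul, sub_zero, wdg_mulVec, map_sub, map_smul, map_smul,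
        h0, smul_zero, sub_zero] at h4
      exact (smul_eq_zero.1 h4.symm).resolve_left hq0
    obtain ⟨j, hj⟩ := hne
    apply hj
    rw [← hφ j]
    have h5 := hy1 (Pi.single j 1)
    have h6 : Φ (Pi.single j 1) = mC (φ j) := by
      rw [hΦ, gam_single]
    rw [h6] at h5
    rw [h5]
    apply h3
    rw [Matrix.mulVec_mulVec, hPx]
  have hΦcc : (Φ v0).map cc = Φ v0 := by
    rw [hΦ, gam_apply]
    ext i j
    rw [Matrix.map_apply, Matrix.sum_apply, map_sum]
    refine Finset.sum_congr rfl fun k _ => ?_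
    rw [Matrix.smul_apply, smul_eq_mul, map_mul]
    have h3 : cc (v0 k) = v0 k := congrFun hrv0 k
    have h4 : cc (mC (φ k) i j) = mC (φ k) i j := by
      simp [mC]
    rw [h3, h4]
  have hΦy : Φ v0 * W.y = W.y * Φ v0 := by
    have h3 := hy1 v0
    rw [hxv0, map_zero] at h3
    exact (sub_eq_zero.1 h3).symm
  have hΨy : Ψ v0 * W.y = W.y * Ψ v0 := by
    have h3 := hy2 v0
    rw [hxv0, map_zero] at h3
    exact (sub_eq_zero.1 h3).symm
  have hZn : ∀ k, Z ^ k ≠ 0 := by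
    intro k hk
    have hS : ∀ k, (Φ v0 * Ψ v0) ^ k ≠ 0 := by
      apply self_pow W
      · rw [Matrix.mul_assoc, hΨy, ← Matrix.mul_assoc, hΦy, Matrix.mul_assoc]
      · rw [mul_map', ← hdg, dg_mul, ← dg_map, dg_dg, hΦcc]
      · intro h3
        apply hΦ0
        apply posW W _ hΦy
        rw [hΦcc, hdg, h3, Matrix.trace_zero]
    apply hS k
    rw [sq1 v0 hPv0, smul_pow, hk, smul_zero]
  -- the final application
  have hQdet : IsUnit (mC V.Q).det := isUnit_iff_ne_zero.2 (Qdet V)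
  have hPQ : Pᵀ * mC V.Q = mC V.Q * P := by
    have h3 : (mC V.Q)⁻¹ * Pᵀ * mC V.Q = P := hs
    calc Pᵀ * mC V.Q = (mC V.Q * (mC V.Q)⁻¹) * (Pᵀ * mC V.Q) := by
          rw [Matrix.mul_nonsing_inv _ hQdet, Matrix.one_mul]
      _ = mC V.Q * ((mC V.Q)⁻¹ * Pᵀ * mC V.Q) := by simp only [Matrix.mul_assoc]
      _ = mC V.Q * P := by rw [h3]
  refine det_mem (asys2 hM) (Q := mC V.Q) (R := (mC V.Q)⁻¹) (P := P)
    (x := fun σ => V.x.map σ)
    (Γ := fun i => fromBlocks 0 (mC (φ i)) (mC (dgQ W (φ i))) 0)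
    (Z := fromBlocks Z 0 0 Z') (Qt V) (Matrix.mul_nonsing_inv _ hQdet) hPQ ?_ ?_ ?_ ?_ ?_ ?_ ?_
    ?_ hHG hGH
  · intro σ
    exact hP.comm _ (fun L _ h => h σ)
  · intro σ
    exact g0_skew V (fun L _ h => h σ)
  · -- membership
    have h3 : ∀ v, gam (fun i => fromBlocks 0 (mC (φ i)) (mC (dgQ W (φ i))) 0 :
        Fin n → Matrix (Fin w ⊕ Fin w) (Fin w ⊕ Fin w) ℂ) v = fromBlocks 0 (Φ v) (Ψ v) 0 := by
      intro v
      rw [gam_blk, hΦ, hΨ]
    have h4 : ∀ J : Fin 1 → Fin n, Φ (P *ᵥ Pi.single (J 0) 1) = ∑ i, P i (J 0) • mC (φ i) := by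
      intro J
      rw [hΦ, gam_apply]
      refine Finset.sum_congr rfl fun i _ => ?_
      rw [Matrix.mulVec_single_one]
      rfl
    simp only [h3]
    refine ⟨?_, ?_, ?_, ?_⟩
    · exact (ME _).zero_mem
    · show (fun J : Fin 1 → Fin n => Φ (P *ᵥ Pi.single (J 0) 1)) ∈ ME (Fin 1)
      simp only [h4]
      exact hmem
    · show (fun J : Fin 1 → Fin n => Ψ (P *ᵥ Pi.single (J 0) 1)) ∈ ME (Fin 1)
      simp only [← hdg, h4]
      exact hM.dag _ _ hmem
    · exact (ME _).zero_mem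
  · intro σ v
    rw [gam_blk, gam_blk, ← hΦ, ← hΨ, ← h1, ← h2]
    unfold bb
    rw [fromBlocks_multiply, fromBlocks_multiply]
    simp only [Matrix.mul_zero, Matrix.zero_mul, add_zero, zero_add]
    ext i j
    rcases i with i | i <;> rcases j with j | j <;> simp
  · intro u v hu hv
    rw [gam_blk, gam_blk, ← hΦ, ← hΨ, fromBlocks_multiply, fromBlocks_multiply, fromBlocks_add,
      fromBlocks_smul]
    simp only [Matrix.mul_zero, Matrix.zero_mul, add_zero, zero_add, smul_zero]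
    rw [rel1 u v hu hv, rel2 u v hu hv]
    rfl
  · intro u hu
    rw [gam_blk, ← hΦ, ← hΨ, fromBlocks_multiply, fromBlocks_multiply]
    simp only [Matrix.mul_zero, Matrix.zero_mul, add_zero, zero_add]
    rw [hc1 u hu, hc2 u hu]
  · intro k
    rw [Matrix.fromBlocks_diagonal_pow]
    intro h3
    apply hZn k
    have h4 := congrArg Matrix.toBlocks₁₁ h3
    rw [toBlocks_fromBlocks₁₁] at h4
    exact h4
  · exact adj2 W

end

end

end Pool.Agent.Y89.KS
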