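import Mathlib

/-!
# Products of anticommuting elements
-/

open Matrix Finset Function

namespace Pool.Agent.Y89.KS

section
variable {B : Type} [Ring B]

theorem ofFn_swap (m : ℕ) (g : Fin (m + 1) → B) (i : Fin m)
    (h : g i.castSucc * g i.succ = -(g i.succ * g i.castSucc)) :
    (List.ofFn fun j => g (Equiv.swap i.castSucc i.succ j)).prod = -(List.ofFn g).prod := by
  induction m with
  | zero => exact i.elim0
  | succ m ih =>
    induction i using Fin.cases with
    | zero =>
      rw [List.ofFn_succ, List.ofFn_succ, List.ofFn_succ, List.ofFn_succ, List.prod_cons,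
        List.prod_cons, List.prod_cons, List.prod_cons]
      have h0 : Equiv.swap (0 : Fin (m + 1)).castSucc (0 : Fin (m + 1)).succ 0 = Fin.succ 0 := by
        rw [Fin.castSucc_zero, Equiv.swap_apply_left]
      have h1 : Equiv.swap (0 : Fin (m + 1)).castSucc (0 : Fin (m + 1)).succ (Fin.succ 0) = 0 := by
        rw [Fin.castSucc_zero, Equiv.swap_apply_right]
      have h2 : ∀ j : Fin m, Equiv.swap (0 : Fin (m + 1)).castSucc (0 : Fin (m + 1)).succ
          j.succ.succ = j.succ.succ := by
        intro j
        rw [Fin.castSucc_zero, Equiv.swap_apply_of_ne_of_ne]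
        · exact Fin.succ_ne_zero _
        · intro h'
          exact Fin.succ_ne_zero _ (Fin.succ_injective _ h')
      simp only [h0, h1, h2]
      rw [Fin.castSucc_zero] at h
      rw [← mul_assoc, ← mul_assoc, h, neg_mul, neg_neg]
    | succ i =>
      rw [List.ofFn_succ, List.ofFn_succ (f := g), List.prod_cons, List.prod_cons]
      have h0 : Equiv.swap i.succ.castSucc i.succ.succ 0 = 0 := by
        rw [Equiv.swap_apply_of_ne_of_ne]
        · rw [← Fin.succ_castSucc]
          exact (Fin.succ_ne_zero _).symm
        · exact (Fin.succ_ne_zero _).symm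
      have h1 : ∀ j : Fin (m + 1), Equiv.swap i.succ.castSucc i.succ.succ j.succ =
          (Equiv.swap i.castSucc i.succ j).succ := by
        intro j
        rw [← Fin.succ_castSucc, Equiv.swap_apply_def, Equiv.swap_apply_def]
        simp only [Fin.succ_inj]
        split_ifs <;> rfl
      simp only [h0, h1]
      rw [ih (fun j => g j.succ) i (by
        have h' := h
        rw [← Fin.succ_castSucc] at h'
        exact h'), mul_neg]

/-- the product of anticommuting elements is alternating -/
theorem ofFn_perm {m : ℕ} (g : Fin m → B) (h : ∀ i j, i ≠ j → g i * g j = -(g j * g i))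
    (σ : Equiv.Perm (Fin m)) :
    (List.ofFn fun j => g (σ j)).prod = (Equiv.Perm.sign σ : ℤ) • (List.ofFn g).prod := by
  cases m with
  | zero =>
    have : σ = 1 := Subsingleton.elim _ _
    rw [this]
    simp
  | succ m =>
    have hσ : σ ∈ Submonoid.closure
        (Set.range fun i : Fin m ↦ Equiv.swap i.castSucc i.succ) := by
      rw [Equiv.Perm.mclosure_swap_castSucc_succ]
      exact Submonoid.mem_top _
    induction hσ using Submonoid.closure_induction_right with
    | one => simp
    | mul_right τ hτ s hs ih =>
      obtain ⟨i, rfl⟩ := hs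
      have h1 := ofFn_swap m (fun j => g (τ j)) i (h _ _ (by
        intro h'
        have := τ.injective h'
        exact absurd this (Fin.castSucc_lt_succ).ne))
      have h2 : (fun j => g ((τ * Equiv.swap i.castSucc i.succ) j)) =
        fun j => g (τ (Equiv.swap i.castSucc i.succ j)) := rfl
      rw [h2]
      refine h1.trans ?_
      rw [ih, Equiv.Perm.sign_mul, Equiv.Perm.sign_swap (Fin.castSucc_lt_succ).ne]
      simp

theorem prod_rev (z : B) (l : List B) (hz : ∀ a ∈ l, z * a = a * z) (h : ∀ a ∈ l, a * a = z) :
    l.prod * l.reverse.prod = z ^ l.length := by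
  induction l with
  | nil => simp
  | cons a l ih =>
    rw [List.prod_cons, List.reverse_cons, List.prod_append, List.prod_singleton,
      List.length_cons]
    have h1 := ih (fun b hb => hz b (List.mem_cons_of_mem _ hb))
      (fun b hb => h b (List.mem_cons_of_mem _ hb))
    have h2 : a * z ^ l.length = z ^ l.length * a :=
      (Commute.pow_left (hz a List.mem_cons_self) l.length).symm
    calc a * l.prod * (l.reverse.prod * a) = a * (l.prod * l.reverse.prod) * a := by
          simp only [mul_assoc]
      _ = z ^ l.length * (a * a) := by rw [h1, h2, mul_assoc]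
      _ = z ^ (l.length + 1) := by rw [h a List.mem_cons_self, pow_succ]

theorem leib (m : ℕ) (g : Fin m → B) (b : B) :
    b * (List.ofFn g).prod - (List.ofFn g).prod * b =
      ∑ i, (List.ofFn (update g i (b * g i - g i * b))).prod := by
  induction m with
  | zero => simp
  | succ m ih =>
    rw [Fin.sum_univ_succ, List.ofFn_succ, List.prod_cons, List.ofFn_succ, List.prod_cons,
      update_self]
    have h1 : ∀ i : Fin m, (List.ofFn (update g i.succ (b * g i.succ - g i.succ * b))).prod =
        g 0 * (List.ofFn (update (fun j => g j.succ) i (b * g i.succ - g i.succ * b))).prod := by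
      intro i
      rw [List.ofFn_succ, List.prod_cons, update_of_ne (Fin.succ_ne_zero _).symm]
      congr 3
      funext j
      by_cases hj : j = i
      · subst hj
        simp
      · rw [update_of_ne (fun h' => hj (Fin.succ_injective _ h')), update_of_ne hj]
    simp only [h1]
    rw [← Finset.mul_sum, ← ih (fun j => g j.succ)]
    have h2 : (fun i : Fin m => update g 0 (b * g 0 - g 0 * b) i.succ) = fun i => g i.succ := by
      funext i
      rw [update_of_ne (Fin.succ_ne_zero _)]
    rw [h2]
    noncomm_ring

end

end Pool.Agent.Y89.KS
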