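import Pool.Agent.Y89.KS.Defs2
import Pool.Agent.W655.PG.Desc

/-!
# Galois descent and complexification
-/

open Matrix Finset

namespace Pool.Agent.Y89.KS

open Pool.Agent.W544.PG (cspan cx)

theorem dsc : S_dsc := by
  intro ι _ L hL
  classical
  have := Fintype.ofFinite ι
  -- the support of a vector
  let sp : (ι → ℂ) → Finset ι := fun v => Finset.univ.filter fun i => v i ≠ 0
  have mem_sp : ∀ v i, i ∈ sp v ↔ v i ≠ 0 := by
    intro v i
    simp [sp]
  have key : ∀ (k : ℕ) (v : ι → ℂ), v ∈ L → (sp v).card = k →
      v ∈ Submodule.span ℂ {v | v ∈ L ∧ ∃ r : ι → ℚ, v = fun i => (r i : ℂ)} := by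
    intro k
    induction k using Nat.strong_induction_on with
    | _ k ih =>
      intro v hv hk
      by_cases hv0 : v = 0
      · rw [hv0]; exact Submodule.zero_mem _
      have hex : ∃ m, ∃ w : ι → ℂ, w ∈ L ∧ w ≠ 0 ∧ sp w ⊆ sp v ∧ (sp w).card = m :=
        ⟨_, v, hv, hv0, subset_rfl, rfl⟩
      obtain ⟨u, hu, hu0, huv, hum⟩ := Nat.find_spec hex
      have hmin : ∀ w : ι → ℂ, w ∈ L → sp w ⊆ sp v → (sp w).card < (sp u).card → w = 0 := by
        intro w hw hwv hlt
        by_contra hw0
        rw [hum] at hlt
        exact Nat.find_min hex hlt ⟨w, hw, hw0, hwv, rfl⟩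
      obtain ⟨i, hi⟩ : ∃ i, u i ≠ 0 := by
        by_contra hcon
        push Not at hcon
        exact hu0 (funext hcon)
      obtain ⟨w, hw⟩ : ∃ w : ι → ℂ, w = (u i)⁻¹ • u := ⟨_, rfl⟩
      have hwL : w ∈ L := by rw [hw]; exact L.smul_mem _ hu
      have hwi : w i = 1 := by rw [hw]; simp [hi]
      have hspw : sp w = sp u := by
        ext j
        rw [mem_sp, mem_sp, hw]
        simp [hi]
      have hfix : ∀ (τ : ℂ ≃+* ℂ) (j : ι), τ (w j) = w j := by
        intro τ
        have h1 : (fun j => τ (w j)) - w = 0 := by
          apply hmin _ (L.sub_mem (hL τ w hwL) hwL)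
          · refine subset_trans ?_ huv
            intro j hj
            rw [mem_sp] at hj
            rw [← hspw, mem_sp]
            intro h0
            apply hj
            simp [h0]
          · apply Finset.card_lt_card
            rw [Finset.ssubset_iff_of_subset]
            · refine ⟨i, by rw [mem_sp]; exact hi, ?_⟩
              rw [mem_sp]
              simp [hwi]
            · intro j hj
              rw [mem_sp] at hj
              rw [← hspw, mem_sp]
              intro h0
              apply hj
              simp [h0]
        intro j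
        have := congrFun h1 j
        simpa [sub_eq_zero] using this
      have hrat : ∀ j, ∃ q : ℚ, (q : ℂ) = w j := fun j =>
        Pool.Agent.W655.PG.rat_of_fixed fun τ => hfix τ j
      choose r hr using hrat
      have hws : w ∈ Submodule.span ℂ {v | v ∈ L ∧ ∃ r : ι → ℚ, v = fun i => (r i : ℂ)} :=
        Submodule.subset_span ⟨hwL, r, funext fun j => (hr j).symm⟩
      have hi' : i ∈ sp v := huv (by rw [mem_sp]; exact hi)
      have hlast := ih (sp (v - v i • w)).card ?_ (v - v i • w)
        (L.sub_mem hv (L.smul_mem _ hwL)) rfl
      · have := Submodule.add_mem _ hlast (Submodule.smul_mem _ (v i) hws)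
        simpa using this
      · rw [← hk]
        apply Finset.card_lt_card
        rw [Finset.ssubset_iff_of_subset]
        · refine ⟨i, hi', ?_⟩
          rw [mem_sp]
          simp [hwi]
        · intro j hj
          by_contra hj'
          have h1 : v j = 0 := by
            by_contra h
            exact hj' ((mem_sp v j).2 h)
          have h2 : w j = 0 := by
            by_contra h
            exact hj' (huv (by rw [← hspw]; exact (mem_sp w j).2 h))
          rw [mem_sp] at hj
          apply hj
          simp [h1, h2]
  intro v hv
  exact key _ v hv rfl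

theorem dsc2 : S_dsc2 := by
  intro ι _ L r hr
  classical
  have := Fintype.ofFinite ι
  by_contra hrL
  obtain ⟨ℓ, h1, h2⟩ := Submodule.exists_le_ker_of_notMem hrL
  let e : (ι → ℂ) →ₗ[ℂ] ℂ :=
    { toFun := fun v => ∑ i, v i * ((ℓ (Pi.single i 1) : ℚ) : ℂ)
      map_add' := by intro v w; simp [add_mul, Finset.sum_add_distrib]
      map_smul' := by intro c v; simp [mul_assoc, Finset.mul_sum] }
  have he : ∀ s : ι → ℚ, e (fun i => (s i : ℂ)) = ((ℓ s : ℚ) : ℂ) := by
    intro s
    show ∑ i, (s i : ℂ) * ((ℓ (Pi.single i 1) : ℚ) : ℂ) = _
    have hs : ℓ s = ∑ i, s i * ℓ (Pi.single i 1) := by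
      conv_lhs => rw [← LinearMap.sum_single_apply (fun _ : ι => ℚ) s]
      rw [map_sum]
      refine Finset.sum_congr rfl fun i _ => ?_
      have : (Pi.single i (s i) : ι → ℚ) = s i • (Pi.single i 1 : ι → ℚ) := by
        rw [← Pi.single_smul, smul_eq_mul, mul_one]
      rw [this, map_smul, smul_eq_mul]
    rw [hs]
    push_cast
    rfl
  have h0 : ∀ v ∈ Submodule.span ℂ ((fun (r : ι → ℚ) (i : ι) => (r i : ℂ)) '' (L : Set (ι → ℚ))),
      e v = 0 := by
    intro v hv
    induction hv using Submodule.span_induction with
    | mem v hv =>
      obtain ⟨s, hs, rfl⟩ := hv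
      show e (fun i => (s i : ℂ)) = 0
      rw [he, LinearMap.mem_ker.1 (h2 hs), Rat.cast_zero]
    | zero => exact map_zero e
    | add v w _ _ hv hw => rw [map_add, hv, hw, add_zero]
    | smul c v _ hv => rw [map_smul, hv, smul_zero]
  have h3 := h0 _ hr
  rw [he] at h3
  exact h1 (by exact_mod_cast h3)

theorem cpx : S_cpx := by
  intro ι _ R A hA
  refine ⟨?_, ?_, ?_, ?_⟩
  · refine Submodule.subset_span ⟨_, hA.unit, ?_⟩
    funext J
    simp [cx]
  · intro k l f g hf hg
    unfold cspan at hf
    induction hf using Submodule.span_induction with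
    | mem f hf =>
      obtain ⟨f, hf, rfl⟩ := hf
      unfold cspan at hg
      induction hg using Submodule.span_induction with
      | mem g hg =>
        obtain ⟨g, hg, rfl⟩ := hg
        refine Submodule.subset_span ⟨_, hA.mul k l f g hf hg, ?_⟩
        funext J
        simp [cx]
      | zero =>
        convert Submodule.zero_mem _ using 1
        funext J
        simp
      | add a b _ _ ha hb =>
        convert Submodule.add_mem _ ha hb using 1
        funext J
        simp [mul_add]
      | smul c a _ ha =>
        convert Submodule.smul_mem _ c ha using 1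
        funext J
        simp only [Pi.smul_apply, smul_eq_mul]
        ring
    | zero =>
      convert Submodule.zero_mem _ using 1
      funext J
      simp
    | add a b _ _ ha hb =>
      convert Submodule.add_mem _ ha hb using 1
      funext J
      simp [add_mul]
    | smul c a _ ha =>
      convert Submodule.smul_mem _ c ha using 1
      funext J
      simp only [Pi.smul_apply, smul_eq_mul]
      ring
  · intro k σ f hf
    unfold cspan at hf
    induction hf using Submodule.span_induction with
    | mem f hf =>
      obtain ⟨f, hf, rfl⟩ := hf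
      exact Submodule.subset_span ⟨_, hA.perm k σ f hf, rfl⟩
    | zero => exact Submodule.zero_mem _
    | add a b _ _ ha hb => exact Submodule.add_mem _ ha hb
    | smul c a _ ha => exact Submodule.smul_mem _ c ha
  · intro k f hf
    unfold cspan at hf
    induction hf using Submodule.span_induction with
    | mem f hf =>
      obtain ⟨f, hf, rfl⟩ := hf
      refine Submodule.subset_span ⟨_, hA.con k f hf, ?_⟩
      funext J
      simp [cx]
    | zero =>
      convert Submodule.zero_mem _ using 1
      funext J
      simp
    | add a b _ _ ha hb =>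
      convert Submodule.add_mem _ ha hb using 1
      funext J
      simp [mul_add, Finset.sum_add_distrib]
    | smul c a _ ha =>
      convert Submodule.smul_mem _ c ha using 1
      funext J
      simp only [Pi.smul_apply, smul_eq_mul, Finset.mul_sum]
      exact Finset.sum_congr rfl fun p _ => Finset.sum_congr rfl fun q _ => by ring

end Pool.Agent.Y89.KS
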