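import Pool.Agent.Y89.KS.Ext
import Pool.Agent.Y89.KS.Gen
import Pool.Agent.Y89.KS.Desc
import Pool.Agent.W101.PG.Hk

/-!
# Assembly
-/

open Matrix Finset Function

set_option linter.unusedSectionVars false

namespace Pool.Agent.Y89.KS

noncomputable section

open Pool.Agent.W544.PG (HS HW mC cspan cx Kil S_hk S_lie)

section
variable {n w : ℕ}

/-- the Hodge operator of `V ⊕ W` -/
def Xop (V : HS n) (W : HW w) : Matrix (Fin n ⊕ Fin w) (Fin n ⊕ Fin w) ℂ :=
  fromBlocks V.x 0 0 W.y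

/-- A rational form in `k` variables on `V ⊕ W` is a Hodge class: it is killed by the Hodge
operator. -/
def IsHodge (V : HS n) (W : HW w) {k : ℕ} (t : (Fin k → Fin n ⊕ Fin w) → ℚ) : Prop :=
  ∀ J : Fin k → Fin n ⊕ Fin w,
    ∑ j, ∑ p, Xop V W p (J j) * (t (Function.update J j p) : ℂ) = 0

/-- the trilinear form on `V × W × W` given by bilinear forms on `W` -/
def tri (c : Fin n → Matrix (Fin w) (Fin w) ℚ) : (Fin 3 → Fin n ⊕ Fin w) → ℚ :=
  fun J => Sum.elim (fun i => fromBlocks 0 0 0 (c i) (J 1) (J 2)) (fun _ => 0) (J 0)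

/-- Systems of classes with the formal properties of the algebraic classes on the products of
copies of `X` and `A`. -/
structure Cycles (V : HS n) (W : HW w)
    (A : ∀ k : ℕ, Submodule ℚ ((Fin k → Fin n ⊕ Fin w) → ℚ)) : Prop where
  sys : Sys (fromBlocks V.Q 0 0 W.E)⁻¹ A
  linear : ∀ t : (Fin 1 → Fin n ⊕ Fin w) → ℚ, IsHodge V W t → t ∈ A 1
  diagonal : (fun J : Fin 2 → Fin n ⊕ Fin w => fromBlocks V.Q 0 0 0 (J 0) (J 1)) ∈ A 2
  lefschetz : ∀ N : Matrix (Fin w) (Fin w) ℚ,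
    IsHodge V W (fun J : Fin 2 → Fin n ⊕ Fin w => fromBlocks 0 0 0 N (J 0) (J 1)) →
    (fun J : Fin 2 → Fin n ⊕ Fin w => fromBlocks 0 0 0 N (J 0) (J 1)) ∈ A 2

theorem detQ (V : HS n) : (mC V.Q).det ≠ 0 := by
  intro h0
  have h1 : (mC V.Q * ((2 : ℂ) • (V.x * V.x) - 1)).det = 0 := by
    rw [det_mul, h0, zero_mul]
  obtain ⟨v, hv, hv0⟩ := Matrix.exists_mulVec_eq_zero_iff.2 h1
  have := V.pos v hv
  rw [hv0] at this
  simp at this

theorem detE (W : HW w) : (mC W.E).det ≠ 0 := by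
  intro h0
  have h1 : (mC W.E * ((2 * Complex.I) • W.y)).det = 0 := by
    rw [det_mul, h0, zero_mul]
  obtain ⟨v, hv, hv0⟩ := Matrix.exists_mulVec_eq_zero_iff.2 h1
  have := W.pos v hv
  rw [hv0] at this
  simp at this

theorem QR (V : HS n) : mC V.Q * (mC V.Q)⁻¹ = 1 :=
  Matrix.mul_nonsing_inv _ (isUnit_iff_ne_zero.2 (detQ V))

theorem RQ (V : HS n) : (mC V.Q)⁻¹ * mC V.Q = 1 :=
  Matrix.nonsing_inv_mul _ (isUnit_iff_ne_zero.2 (detQ V))

theorem ER (W : HW w) : mC W.E * (mC W.E)⁻¹ = 1 :=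
  Matrix.mul_nonsing_inv _ (isUnit_iff_ne_zero.2 (detE W))

theorem RE (W : HW w) : (mC W.E)⁻¹ * mC W.E = 1 :=
  Matrix.nonsing_inv_mul _ (isUnit_iff_ne_zero.2 (detE W))

theorem mC_det {m : ℕ} (M : Matrix (Fin m) (Fin m) ℚ) : (mC M).det = ((M.det : ℚ) : ℂ) := by
  have h := RingHom.map_det (algebraMap ℚ ℂ) M
  rw [eq_comm] at h
  exact h

theorem Rtot (V : HS n) (W : HW w) :
    ((fromBlocks V.Q 0 0 W.E)⁻¹).map (fun q : ℚ => (q : ℂ)) =
      fromBlocks (mC V.Q)⁻¹ 0 0 (mC W.E)⁻¹ := by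
  have hQ : V.Q.det ≠ 0 := by
    intro h; exact detQ V (by rw [mC_det, h, Rat.cast_zero])
  have hE : W.E.det ≠ 0 := by
    intro h; exact detE W (by rw [mC_det, h, Rat.cast_zero])
  have h1 : (fromBlocks V.Q 0 0 W.E) * (fromBlocks V.Q 0 0 W.E)⁻¹ = 1 := by
    apply Matrix.mul_nonsing_inv
    rw [det_fromBlocks_zero₂₁]
    exact isUnit_iff_ne_zero.2 (mul_ne_zero hQ hE)
  have h2 := congrArg (fun M : Matrix (Fin n ⊕ Fin w) (Fin n ⊕ Fin w) ℚ =>
    M.map (algebraMap ℚ ℂ)) h1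
  simp only [Matrix.map_mul] at h2
  rw [fromBlocks_map, Matrix.map_zero _ (map_zero _), Matrix.map_zero _ (map_zero _),
    Matrix.map_one _ (map_zero _) (map_one _)] at h2
  have h3 : fromBlocks (mC V.Q)⁻¹ 0 0 (mC W.E)⁻¹ * fromBlocks (mC V.Q) 0 0 (mC W.E) = 1 := by
    rw [fromBlocks_multiply]
    simp only [Matrix.mul_zero, Matrix.zero_mul, add_zero, zero_add, RQ, RE, fromBlocks_one]
  have h4 : fromBlocks (mC V.Q) 0 0 (mC W.E) *
      ((fromBlocks V.Q 0 0 W.E)⁻¹).map (algebraMap ℚ ℂ) = 1 := h2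
  calc ((fromBlocks V.Q 0 0 W.E)⁻¹).map (fun q : ℚ => (q : ℂ))
      = fromBlocks (mC V.Q)⁻¹ 0 0 (mC W.E)⁻¹ * fromBlocks (mC V.Q) 0 0 (mC W.E) *
        ((fromBlocks V.Q 0 0 W.E)⁻¹).map (fun q : ℚ => (q : ℂ)) := by rw [h3, Matrix.one_mul]
    _ = fromBlocks (mC V.Q)⁻¹ 0 0 (mC W.E)⁻¹ := by
        rw [Matrix.mul_assoc]
        have : fromBlocks (mC V.Q) 0 0 (mC W.E) *
          ((fromBlocks V.Q 0 0 W.E)⁻¹).map (fun q : ℚ => (q : ℂ)) = 1 := h4
        rw [this, Matrix.mul_one]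

/-- the complexified system -/
abbrev AC (A : ∀ k : ℕ, Submodule ℚ ((Fin k → Fin n ⊕ Fin w) → ℚ)) :
    ∀ k : ℕ, Submodule ℂ ((Fin k → Fin n ⊕ Fin w) → ℂ) := fun k => cspan (A k)

theorem sysC {V : HS n} {W : HW w} {A : ∀ k : ℕ, Submodule ℚ ((Fin k → Fin n ⊕ Fin w) → ℚ)}
    (hA : Cycles V W A) : Sys (fromBlocks (mC V.Q)⁻¹ 0 0 (mC W.E)⁻¹) (AC A) := by
  have h := cpx _ _ _ hA.sys
  rw [Rtot] at h
  exact h

theorem der_cx {V : HS n} {W : HW w} {k : ℕ} {t : (Fin k → Fin n ⊕ Fin w) → ℚ} :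
    IsHodge V W t ↔ der (Xop V W) (cx t) = 0 := by
  constructor
  · intro h
    funext J
    exact h J
  · intro h J
    exact congrFun h J

/-- conjugates -/
theorem der_map {ι : Type} [Fintype ι] {S : Type} [Fintype S] [DecidableEq S] (σ : ℂ ≃+* ℂ)
    (z : Matrix ι ι ℂ) (f : (S → ι) → ℂ) :
    der (z.map σ) (fun J => σ (f J)) = fun J => σ (der z f J) := by
  funext J
  simp [der, sl]

theorem der_cx_conj {ι : Type} [Fintype ι] {k : ℕ} (σ : ℂ ≃+* ℂ) (z : Matrix ι ι ℂ)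
    (t : (Fin k → ι) → ℚ) (h : der z (cx t) = 0) : der (z.map σ) (cx t) = 0 := by
  have h1 := der_map σ z (cx t)
  have h2 : (fun J => σ (cx t J)) = cx t := by
    funext J
    simp [cx]
  rw [h2, h] at h1
  rw [h1]
  funext J
  simp

/-- Complex forms killed by all conjugates of the Hodge operator, with support in `pat`, are
combinations of rational ones. -/
theorem inv_span {ι : Type} [Fintype ι] (X : Matrix ι ι ℂ) {k : ℕ}
    (pat : (Fin k → ι) → Prop) (f : (Fin k → ι) → ℂ) (hf : ∀ σ : ℂ ≃+* ℂ, der (X.map σ) f = 0)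
    (hp : ∀ J, f J ≠ 0 → pat J) :
    f ∈ Submodule.span ℂ {g | ∃ t : (Fin k → ι) → ℚ, der X (cx t) = 0 ∧
      (∀ J, t J ≠ 0 → pat J) ∧ g = cx t} := by
  let L : Submodule ℂ ((Fin k → ι) → ℂ) :=
    { carrier := {f | (∀ σ : ℂ ≃+* ℂ, der (X.map σ) f = 0) ∧ ∀ J, f J ≠ 0 → pat J}
      zero_mem' := ⟨fun σ => by funext J; simp [der, sl], fun J h => absurd rfl h⟩
      add_mem' := by
        rintro a b ⟨ha, ha'⟩ ⟨hb, hb'⟩
        refine ⟨fun σ => ?_, fun J h => ?_⟩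
        · funext J
          have h1 := congrFun (ha σ) J
          have h2 := congrFun (hb σ) J
          simp only [der, sl, Pi.add_apply, mul_add, Finset.sum_add_distrib, Pi.zero_apply] at *
          rw [h1, h2, add_zero]
        · by_contra hJ
          apply h
          have h1 : a J = 0 := by by_contra h'; exact hJ (ha' J h')
          have h2 : b J = 0 := by by_contra h'; exact hJ (hb' J h')
          rw [Pi.add_apply, h1, h2, add_zero]
      smul_mem' := by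
        rintro c a ⟨ha, ha'⟩
        refine ⟨fun σ => ?_, fun J h => ?_⟩
        · funext J
          have h1 := congrFun (ha σ) J
          simp only [der, sl, Pi.smul_apply, smul_eq_mul, Pi.zero_apply] at *
          have h2 : ∀ j p, X.map σ p (J j) * (c * a (update J j p)) =
              c * (X.map σ p (J j) * a (update J j p)) := fun j p => by ring
          simp only [h2, ← Finset.mul_sum]
          rw [h1, mul_zero]
        · apply ha'
          intro h'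
          apply h
          rw [Pi.smul_apply, h', smul_zero] }
  have hL : ∀ (σ : ℂ ≃+* ℂ), ∀ v ∈ L, (fun i => σ (v i)) ∈ L := by
    rintro σ v ⟨hv, hv'⟩
    refine ⟨fun τ => ?_, fun J h => hv' J fun h' => h (by show σ (v J) = 0; rw [h', map_zero])⟩
    have h1 := der_map σ (X.map (τ.trans σ.symm)) v
    have h2 : (X.map (τ.trans σ.symm)).map σ = X.map τ := by
      ext a b
      simp
    rw [h2, hv] at h1
    rw [h1]
    funext J
    simp
  have h := dsc _ L hL (show f ∈ L from ⟨hf, hp⟩)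
  refine Submodule.span_mono ?_ h
  rintro g ⟨⟨hg, hg'⟩, r, rfl⟩
  refine ⟨r, ?_, ?_, rfl⟩
  · have := hg (RingEquiv.refl ℂ)
    have h2 : X.map (RingEquiv.refl ℂ) = X := by
      ext a b
      simp
    rwa [h2] at this
  · intro J hJ
    refine hg' J ?_
    show (r J : ℂ) ≠ 0
    exact_mod_cast hJ

end

end

end Pool.Agent.Y89.KS
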