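import Pool.Agent.Y89.KS.Asm
import Pool.Agent.W696.PG.DE2

/-!
# Assembly: powers of varieties of K3 type with a morphism to `End H^1(A)`
-/

open Matrix Finset Function

set_option linter.unusedSectionVars false

namespace Pool.Agent.Y89.KS

noncomputable section

open Pool.Agent.W544.PG (HS HW mC cspan cx Kil S_hk S_lie)

section gal
variable {n w : ℕ}

theorem x_mem (V : HS n) (σ : ℂ ≃+* ℂ) : V.x.map σ ∈ g0 V := fun _ _ h => h σ

theorem map_refl {ι κ : Type} (M : Matrix ι κ ℂ) : M.map (RingEquiv.refl ℂ) = M := by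
  ext a b
  simp

theorem x_mem' (V : HS n) : V.x ∈ g0 V := by
  have h := x_mem V (RingEquiv.refl ℂ)
  rwa [map_refl] at h

theorem mC_map (σ : ℂ ≃+* ℂ) {m : ℕ} (M : Matrix (Fin m) (Fin m) ℚ) : (mC M).map σ = mC M := by
  ext a b
  simp [mC]

theorem inv_map' (σ : ℂ ≃+* ℂ) {m : ℕ} {M : Matrix (Fin m) (Fin m) ℚ} (h : (mC M).det ≠ 0) :
    ((mC M)⁻¹).map σ = (mC M)⁻¹ := by
  have h1 : mC M * (mC M)⁻¹ = 1 := Matrix.mul_nonsing_inv _ (isUnit_iff_ne_zero.2 h)
  have h2 := congrArg (fun N : Matrix (Fin m) (Fin m) ℂ => N.map σ) h1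
  simp only [Matrix.map_mul, mC_map, Matrix.map_one _ (map_zero σ) (map_one σ)] at h2
  have h3 : (mC M)⁻¹ * mC M = 1 := Matrix.nonsing_inv_mul _ (isUnit_iff_ne_zero.2 h)
  calc ((mC M)⁻¹).map σ = (mC M)⁻¹ * mC M * ((mC M)⁻¹).map σ := by rw [h3, Matrix.one_mul]
    _ = (mC M)⁻¹ := by rw [Matrix.mul_assoc, h2, Matrix.mul_one]

theorem mul_map (σ : ℂ ≃+* ℂ) {m : ℕ} (M N : Matrix (Fin m) (Fin m) ℂ) :
    (M * N).map σ = M.map σ * N.map σ := by
  rw [Matrix.map_mul]

theorem adV_map (V : HS n) (σ : ℂ ≃+* ℂ) (P : Matrix (Fin n) (Fin n) ℂ) :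
    adV V (P.map σ) = (adV V P).map σ := by
  unfold adV adj
  rw [mul_map, mul_map, mC_map, inv_map' σ (detQ V)]
  rfl

theorem adV_adV (V : HS n) (P : Matrix (Fin n) (Fin n) ℂ) : adV V (adV V P) = P := by
  unfold adV adj
  have hQ : (mC V.Q)ᵀ = mC V.Q := by
    show (V.Q.map _)ᵀ = _
    rw [← Matrix.transpose_map, V.symm]
    rfl
  have hR : ((mC V.Q)⁻¹)ᵀ = (mC V.Q)⁻¹ := by rw [Matrix.transpose_nonsing_inv, hQ]
  rw [transpose_mul, transpose_mul, transpose_transpose, hQ, hR]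
  calc (mC V.Q)⁻¹ * (mC V.Q * (P * (mC V.Q)⁻¹)) * mC V.Q =
      ((mC V.Q)⁻¹ * mC V.Q) * P * ((mC V.Q)⁻¹ * mC V.Q) := by simp only [Matrix.mul_assoc]
    _ = P := by rw [RQ, Matrix.one_mul, Matrix.mul_one]

theorem map_inj (σ : ℂ ≃+* ℂ) {ι κ : Type} {M N : Matrix ι κ ℂ} (h : M.map σ = N.map σ) : M = N := by
  ext a b
  have := congrFun (congrFun h a) b
  simpa using this

theorem map_symm (σ : ℂ ≃+* ℂ) {ι κ : Type} (M : Matrix ι κ ℂ) : (M.map σ).map σ.symm = M := by
  ext a b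
  simp

theorem map_symm' (σ : ℂ ≃+* ℂ) {ι κ : Type} (M : Matrix ι κ ℂ) : (M.map σ.symm).map σ = M := by
  ext a b
  simp

theorem skewV (V : HS n) (σ : ℂ ≃+* ℂ) :
    (V.x.map σ)ᵀ * mC V.Q + mC V.Q * V.x.map σ = 0 := by
  have h := congrArg (fun M : Matrix (Fin n) (Fin n) ℂ => M.map σ) V.skew
  have h2 : (V.xᵀ * mC V.Q + mC V.Q * V.x).map σ =
      (V.x.map σ)ᵀ * mC V.Q + mC V.Q * V.x.map σ := by
    rw [Matrix.map_add σ (fun a b => map_add σ a b), mul_map, mul_map, mC_map]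
    rfl
  simp only [h2] at h
  rw [h]
  ext a b
  simp

theorem skewW (W : HW w) (σ : ℂ ≃+* ℂ) :
    (W.y.map σ)ᵀ * mC W.E + mC W.E * W.y.map σ = 0 := by
  have h := congrArg (fun M : Matrix (Fin w) (Fin w) ℂ => M.map σ) W.skew
  have h2 : (W.yᵀ * mC W.E + mC W.E * W.y).map σ =
      (W.y.map σ)ᵀ * mC W.E + mC W.E * W.y.map σ := by
    rw [Matrix.map_add σ (fun a b => map_add σ a b), mul_map, mul_map, mC_map]
    rfl
  simp only [h2] at h
  rw [h]
  ext a b
  simp

theorem Xop_map (V : HS n) (W : HW w) (σ : ℂ ≃+* ℂ) :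
    (Xop V W).map σ = fromBlocks (V.x.map σ) 0 0 (W.y.map σ) := by
  unfold Xop
  rw [fromBlocks_map, Matrix.map_zero _ (map_zero σ), Matrix.map_zero _ (map_zero σ)]

end gal

section forms
variable {F : Type} [Field F] {ι : Type} [Fintype ι]

theorem bil_der (z B : Matrix ι ι F) :
    der z (fun J : Fin 2 → ι => B (J 0) (J 1)) = fun J => (zᵀ * B + B * z) (J 0) (J 1) := by
  funext J
  simp only [der, sl, Fin.sum_univ_two, Matrix.add_apply, Matrix.mul_apply,
    Matrix.transpose_apply]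
  have h1 : ∀ p, update J 0 p 1 = J 1 := fun p => update_of_ne (by decide) _ _
  have h2 : ∀ p, update J 1 p 0 = J 0 := fun p => update_of_ne (by decide) _ _
  simp only [update_self, h1, h2, mul_comm (B (J 0) _)]

/-- products of two linear forms -/
theorem mem_lin2 {R : Matrix ι ι F} {M : ∀ S : Type, Submodule F ((S → ι) → F)} (hM : GSys R M)
    {f g : ι → F} (hf : (fun J : Fin 1 → ι => f (J 0)) ∈ M (Fin 1))
    (hg : (fun J : Fin 1 → ι => g (J 0)) ∈ M (Fin 1)) :
    (fun J : Fin 2 → ι => f (J 0) * g (J 1)) ∈ M (Fin 2) := by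
  have h := hM.reidx _ (Fin 2) (finSumFinEquiv : Fin 1 ⊕ Fin 1 ≃ Fin (1 + 1)) _
    (hM.mul _ _ _ _ hf hg)
  exact h

end forms

section main
variable {n w : ℕ} {V : HS n} {W : HW w}
  {A : ∀ k : ℕ, Submodule ℚ ((Fin k → Fin n ⊕ Fin w) → ℚ)}

theorem cx_mem {k : ℕ} {t : (Fin k → Fin n ⊕ Fin w) → ℚ} (h : t ∈ A k) : cx t ∈ AC A k :=
  Submodule.subset_span ⟨t, h, rfl⟩

/-- the complex bilinear forms on `W` -/
theorem const_mem (hA : Cycles V W A) (d : Matrix (Fin w) (Fin w) ℂ)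
    (hd : ∀ σ : ℂ ≃+* ℂ, d * W.y.map σ = W.y.map σ * d) :
    (fun J : Fin 2 → Fin n ⊕ Fin w => fromBlocks 0 0 0 (mC W.E * d) (J 0) (J 1)) ∈ AC A 2 := by
  have h1 := inv_span (Xop V W) (fun J : Fin 2 → Fin n ⊕ Fin w =>
    (J 0).isRight = true ∧ (J 1).isRight = true)
    (fun J : Fin 2 → Fin n ⊕ Fin w => fromBlocks 0 0 0 (mC W.E * d) (J 0) (J 1)) ?_ ?_
  · refine Submodule.span_le.2 ?_ h1
    rintro g ⟨t, ht, htp, rfl⟩
    have e : t = fun J : Fin 2 → Fin n ⊕ Fin w =>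
        fromBlocks 0 0 0 (Matrix.of fun a b => t ![Sum.inr a, Sum.inr b]) (J 0) (J 1) := by
      funext J
      by_cases hJ : (J 0).isRight = true ∧ (J 1).isRight = true
      · obtain ⟨a, ha⟩ := Sum.isRight_iff.1 hJ.1
        obtain ⟨b, hb⟩ := Sum.isRight_iff.1 hJ.2
        rw [ha, hb, fromBlocks_apply₂₂, Matrix.of_apply]
        congr 1
        funext i
        fin_cases i
        · exact ha
        · exact hb
      · have h0 : t J = 0 := by
          by_contra h
          exact hJ (htp J h)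
        rw [h0]
        rcases h2 : J 0 with a | a <;> rcases h3 : J 1 with b | b <;>
          simp [fromBlocks] at hJ ⊢
        exact absurd (hJ (by rw [h2]; rfl)) (by rw [h3]; simp)
    apply cx_mem
    rw [e]
    apply hA.lefschetz
    rw [← e]
    exact der_cx.2 ht
  · intro σ
    rw [Xop_map, bil_der]
    have h2 : (fromBlocks (V.x.map σ) 0 0 (W.y.map σ))ᵀ * fromBlocks 0 0 0 (mC W.E * d) +
        fromBlocks 0 0 0 (mC W.E * d) * fromBlocks (V.x.map σ) 0 0 (W.y.map σ) = 0 := by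
      rw [fromBlocks_transpose, fromBlocks_multiply, fromBlocks_multiply, fromBlocks_add]
      simp only [Matrix.mul_zero, Matrix.zero_mul, Matrix.transpose_zero, add_zero, zero_add]
      have h3 := skewW W σ
      have h4 : (W.y.map σ)ᵀ * (mC W.E * d) + mC W.E * d * W.y.map σ = 0 := by
        rw [← Matrix.mul_assoc, eq_neg_of_add_eq_zero_left h3, Matrix.mul_assoc (mC W.E) d,
          hd σ, ← Matrix.mul_assoc, Matrix.neg_mul, neg_add_cancel]
      rw [h4]
      exact fromBlocks_zero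
    rw [h2]
    rfl
  · intro J hJ
    rcases h2 : J 0 with a | a <;> rcases h3 : J 1 with b | b <;>
      simp [fromBlocks, h2, h3] at hJ ⊢

theorem esys (htot : S_tot) (hA : Cycles V W A) : ESys V W (MV (AC A)) (MEV (mC W.E) (AC A)) :=
  htot n w V W (AC A) (sysC hA) (const_mem hA)

theorem mem_MV {k : ℕ} (hA : Cycles V W A) (f : (Fin k → Fin n) → ℂ) :
    f ∈ MV (w := w) (AC A) (Fin k) ↔ extV w f ∈ AC A k := by
  show extV w f ∈ gen (AC A) (Fin k) ↔ _
  rw [mem_gen_fin (sysC hA)]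

/-- linear invariants -/
theorem lin_mem (hA : Cycles V W A) (f : (Fin 1 → Fin n) → ℂ) (hf : ∀ z ∈ g0 V, der z f = 0) :
    f ∈ MV (w := w) (AC A) (Fin 1) := by
  rw [mem_MV hA]
  have h1 := inv_span (Xop V W) (fun _ => True) (extV w f) (by
    intro σ
    rw [Xop_map, der_extV, hf _ (x_mem V σ)]
    apply extV_eq
    · intro K; rfl
    · intro J s b _; rfl) (fun _ _ => trivial)
  refine Submodule.span_le.2 ?_ h1
  rintro g ⟨t, ht, -, rfl⟩
  exact cx_mem (hA.linear t (der_cx.2 ht))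

/-- the systems are stable under the automorphisms of the complex numbers -/
theorem gal_AC (σ : ℂ ≃+* ℂ) {k : ℕ} {f : (Fin k → Fin n ⊕ Fin w) → ℂ} (hf : f ∈ AC A k) :
    (fun J => σ (f J)) ∈ AC A k := by
  unfold AC cspan at hf ⊢
  induction hf using Submodule.span_induction with
  | mem f hf =>
    obtain ⟨t, ht, rfl⟩ := hf
    refine Submodule.subset_span ⟨t, ht, ?_⟩
    funext J
    simp [cx]
  | zero =>
    convert Submodule.zero_mem _ using 1
    funext J
    simp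
  | add a b _ _ ha hb =>
    convert Submodule.add_mem _ ha hb using 1
    funext J
    simp
  | smul c a _ ha =>
    convert Submodule.smul_mem _ (σ c) ha using 1
    funext J
    simp

theorem gal_MV (σ : ℂ ≃+* ℂ) {S : Type} {f : (S → Fin n) → ℂ}
    (hf : f ∈ MV (w := w) (AC A) S) : (fun J => σ (f J)) ∈ MV (w := w) (AC A) S := by
  have h : extV w (fun J => σ (f J)) = fun J => σ (extV w f J) := by
    apply extV_eq
    · intro K
      rw [extV_inl]
    · intro J s b hs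
      rw [extV_inr f hs, map_zero]
  show extV w (fun J => σ (f J)) ∈ gen (AC A) S
  rw [h]
  intro k e
  exact gal_AC σ (hf k e)

/-- a bilinear form on `V` as a form on `V ⊕ W` -/
theorem extV_bil {F : Type} [Field F] (B : Matrix (Fin n) (Fin n) F) :
    extV w (fun J : Fin 2 → Fin n => B (J 0) (J 1)) =
      fun J : Fin 2 → Fin n ⊕ Fin w => fromBlocks B 0 0 0 (J 0) (J 1) := by
  apply extV_eq
  · intro K; rfl
  · intro J s b hs
    fin_cases s
    · simp only [Fin.zero_eta, Fin.mk_one] at hs ⊢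
      rw [hs]
      rcases J 1 with c | c <;> simp [fromBlocks]
    · simp only [Fin.mk_one] at hs ⊢
      rw [hs]
      rcases J 0 with c | c <;> simp [fromBlocks]

/-- the bilinear forms, if the Hodge conjecture holds for `X × X` -/
theorem bil_mem_hc (hA : Cycles V W A)
    (h2 : ∀ N : Matrix (Fin n) (Fin n) ℚ,
      IsHodge V W (fun J : Fin 2 → Fin n ⊕ Fin w => fromBlocks N 0 0 0 (J 0) (J 1)) →
      (fun J : Fin 2 → Fin n ⊕ Fin w => fromBlocks N 0 0 0 (J 0) (J 1)) ∈ A 2)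
    (B : Matrix (Fin n) (Fin n) ℂ)
    (hB : ∀ σ : ℂ ≃+* ℂ, (V.x.map σ)ᵀ * B + B * V.x.map σ = 0) :
    (fun J : Fin 2 → Fin n => B (J 0) (J 1)) ∈ MV (w := w) (AC A) (Fin 2) := by
  rw [mem_MV hA, extV_bil]
  have h1 := inv_span (Xop V W) (fun J : Fin 2 → Fin n ⊕ Fin w =>
    (J 0).isLeft = true ∧ (J 1).isLeft = true)
    (fun J : Fin 2 → Fin n ⊕ Fin w => fromBlocks B 0 0 0 (J 0) (J 1)) ?_ ?_
  · refine Submodule.span_le.2 ?_ h1
    rintro g ⟨t, ht, htp, rfl⟩
    have e : t = fun J : Fin 2 → Fin n ⊕ Fin w =>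
        fromBlocks (Matrix.of fun a b => t ![Sum.inl a, Sum.inl b]) 0 0 0 (J 0) (J 1) := by
      funext J
      by_cases hJ : (J 0).isLeft = true ∧ (J 1).isLeft = true
      · obtain ⟨a, ha⟩ := Sum.isLeft_iff.1 hJ.1
        obtain ⟨b, hb⟩ := Sum.isLeft_iff.1 hJ.2
        rw [ha, hb, fromBlocks_apply₁₁, Matrix.of_apply]
        congr 1
        funext i
        fin_cases i
        · exact ha
        · exact hb
      · have h0 : t J = 0 := by
          by_contra h
          exact hJ (htp J h)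
        rw [h0]
        rcases h2 : J 0 with a | a <;> rcases h3 : J 1 with b | b <;>
          simp [fromBlocks] at hJ ⊢
        exact absurd (hJ (by rw [h2]; rfl)) (by rw [h3]; simp)
    apply cx_mem
    rw [e]
    apply h2
    rw [← e]
    exact der_cx.2 ht
  · intro σ
    rw [Xop_map, bil_der]
    have h2 : (fromBlocks (V.x.map σ) 0 0 (W.y.map σ))ᵀ * fromBlocks B 0 0 0 +
        fromBlocks B 0 0 0 * fromBlocks (V.x.map σ) 0 0 (W.y.map σ) = 0 := by
      rw [fromBlocks_transpose, fromBlocks_multiply, fromBlocks_multiply, fromBlocks_add]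
      simp only [Matrix.mul_zero, Matrix.zero_mul, Matrix.transpose_zero, add_zero, zero_add]
      rw [hB σ]
      exact fromBlocks_zero
    rw [h2]
    rfl
  · intro J hJ
    rcases h2 : J 0 with a | a <;> rcases h3 : J 1 with b | b <;>
      simp [fromBlocks, h2, h3] at hJ ⊢

theorem Q_mem (hA : Cycles V W A) :
    (fun J : Fin 2 → Fin n => mC V.Q (J 0) (J 1)) ∈ MV (w := w) (AC A) (Fin 2) := by
  rw [mem_MV hA, extV_bil]
  have h := cx_mem hA.diagonal
  have e : cx (fun J : Fin 2 → Fin n ⊕ Fin w => fromBlocks V.Q 0 0 0 (J 0) (J 1)) =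
      fun J : Fin 2 → Fin n ⊕ Fin w => fromBlocks (mC V.Q) 0 0 0 (J 0) (J 1) := by
    funext J
    unfold cx
    rcases h0 : J 0 with a | a <;> rcases h1 : J 1 with b | b <;> simp [fromBlocks, mC, h0, h1]
  rw [e] at h
  exact h

end main

end

end Pool.Agent.Y89.KS
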