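import Pool.Agent.Y89.KS.AsmB
import Pool.Agent.Y89.KS.ExtE

/-!
# Assembly: the powers of varieties of K3 type
-/

open Matrix Finset Function

set_option linter.unusedSectionVars false

namespace Pool.Agent.Y89.KS

noncomputable section

open Pool.Agent.W544.PG (HS HW mC cspan cx Kil S_hk S_lie)

section
variable {n w : ℕ}

theorem der_kil {k : ℕ} (z : Matrix (Fin n) (Fin n) ℂ) (t : (Fin k → Fin n) → ℚ) :
    der z (cx t) = 0 ↔ Kil z t := by
  constructor
  · intro h J
    exact congrFun h J
  · intro h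
    funext J
    exact h J

theorem der_add {ι : Type} [Fintype ι] {S : Type} [Fintype S] [DecidableEq S]
    (a b : Matrix ι ι ℂ) (f : (S → ι) → ℂ) : der (a + b) f = der a f + der b f := by
  funext J
  simp only [der, sl, Matrix.add_apply, add_mul, Finset.sum_add_distrib, Pi.add_apply]

theorem der_smul {ι : Type} [Fintype ι] {S : Type} [Fintype S] [DecidableEq S]
    (c : ℂ) (a : Matrix ι ι ℂ) (f : (S → ι) → ℂ) : der (c • a) f = c • der a f := by
  funext J
  simp only [der, sl, Matrix.smul_apply, smul_eq_mul, mul_assoc, ← Finset.mul_sum,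
    Pi.smul_apply]

theorem der_zero {ι : Type} [Fintype ι] {S : Type} [Fintype S] [DecidableEq S]
    (f : (S → ι) → ℂ) : der (0 : Matrix ι ι ℂ) f = 0 := by
  funext J
  simp only [der, sl, Matrix.zero_apply, zero_mul, Finset.sum_const_zero, Pi.zero_apply]

theorem kil_g0 (V : HS n) {k : ℕ} {t : (Fin k → Fin n) → ℚ} (ht : V.IsHodge t) :
    ∀ z ∈ g0 V, der z (cx t) = 0 := by
  intro z hz
  let L : Submodule ℂ (Matrix (Fin n) (Fin n) ℂ) :=
    { carrier := {z | der z (cx t) = 0}
      zero_mem' := der_zero _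
      add_mem' := by
        intro a b ha hb
        rw [Set.mem_ofPred_eq] at *
        rw [der_add, ha, hb, add_zero]
      smul_mem' := by
        intro c a ha
        rw [Set.mem_ofPred_eq] at *
        rw [der_smul, ha, smul_zero] }
  refine hz L ?_ ?_
  · intro a ha b hb
    exact (der_kil _ _).2 (Pool.Agent.W101.PG.lie n k t a b ((der_kil _ _).1 ha)
      ((der_kil _ _).1 hb))
  · intro σ
    exact der_cx_conj σ V.x t ((der_kil _ _).2 ((Pool.Agent.W101.PG.hk n k V t).1 ht))

theorem extV_cx {k : ℕ} (t : (Fin k → Fin n) → ℚ) :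
    extV w (cx t) = cx (extV w t) := by
  apply extV_eq
  · intro K
    show ((extV w t _ : ℚ) : ℂ) = _
    rw [extV_inl]
    rfl
  · intro J s b hs
    show ((extV w t J : ℚ) : ℂ) = 0
    rw [extV_inr t hs, Rat.cast_zero]

/-- the homomorphism `V → End W` given by a trilinear form -/
def phi (W : HW w) (c : Fin n → Matrix (Fin w) (Fin w) ℚ) (i : Fin n) :
    Matrix (Fin w) (Fin w) ℚ := W.E⁻¹ * c i

theorem detE' (W : HW w) : W.E.det ≠ 0 := by
  intro h; exact detE W (by rw [mC_det, h, Rat.cast_zero])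

theorem E_phi (W : HW w) (c : Fin n → Matrix (Fin w) (Fin w) ℚ) (i : Fin n) :
    W.E * phi W c i = c i := by
  unfold phi
  rw [← Matrix.mul_assoc, Matrix.mul_nonsing_inv _ (isUnit_iff_ne_zero.2 (detE' W)),
    Matrix.one_mul]

theorem mC_mul {m : ℕ} (a b : Matrix (Fin m) (Fin m) ℚ) : mC (a * b) = mC a * mC b := by
  unfold mC
  exact Matrix.map_mul (f := algebraMap ℚ ℂ)

theorem tri_rel {V : HS n} {W : HW w} {c : Fin n → Matrix (Fin w) (Fin w) ℚ}
    (h : IsHodge V W (tri c)) (j : Fin n) :
    ∑ i, V.x i j • mC (c i) + (W.yᵀ * mC (c j) + mC (c j) * W.y) = 0 := by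
  ext a b
  have h1 := h ![Sum.inl j, Sum.inr a, Sum.inr b]
  simp only [Fin.sum_univ_three, Fintype.sum_sum_type, Xop] at h1
  have e0 : ∀ p, (tri c (update ![Sum.inl j, Sum.inr a, Sum.inr b] 0 (Sum.inl p)) : ℚ) =
      c p a b := by
    intro p
    simp [tri, update]
  have e1 : ∀ p, (tri c (update ![Sum.inl j, Sum.inr a, Sum.inr b] 1 (Sum.inr p)) : ℚ) =
      c j p b := by
    intro p
    simp [tri, update]
  have e2 : ∀ p, (tri c (update ![Sum.inl j, Sum.inr a, Sum.inr b] 2 (Sum.inr p)) : ℚ) =
      c j a p := by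
    intro p
    simp [tri, update]
  simp only [e0, e1, e2] at h1
  simp only [Matrix.cons_val_zero, Matrix.cons_val_one, Matrix.cons_val, fromBlocks_apply₁₁,
    fromBlocks_apply₁₂, fromBlocks_apply₂₁, fromBlocks_apply₂₂, Matrix.zero_apply, zero_mul,
    Finset.sum_const_zero, add_zero, zero_add] at h1
  simp only [Matrix.add_apply, Matrix.sum_apply, Matrix.smul_apply, Matrix.mul_apply,
    Matrix.transpose_apply, Matrix.zero_apply, smul_eq_mul, mC, Matrix.map_apply]
  rw [← h1, add_assoc]
  congr 2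
  exact Finset.sum_congr rfl fun p _ => mul_comm _ _

theorem phi_rel {V : HS n} {W : HW w} {c : Fin n → Matrix (Fin w) (Fin w) ℚ}
    (h : IsHodge V W (tri c)) (j : Fin n) :
    W.y * mC (phi W c j) - mC (phi W c j) * W.y = ∑ i, V.x i j • mC (phi W c i) := by
  have h1 := tri_rel h j
  have h2 : ∀ i, mC (c i) = mC W.E * mC (phi W c i) := fun i => by rw [← mC_mul, E_phi]
  simp only [h2] at h1
  have h3 : W.yᵀ * mC W.E = -(mC W.E * W.y) := eq_neg_of_add_eq_zero_left W.skew
  rw [← Matrix.mul_assoc, h3] at h1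
  have h4 : mC W.E * (∑ i, V.x i j • mC (phi W c i) + (-(W.y * mC (phi W c j)) +
      mC (phi W c j) * W.y)) = 0 := by
    rw [← h1, Matrix.mul_add, Matrix.mul_add, Matrix.mul_sum]
    simp only [Matrix.mul_smul, Matrix.mul_neg, Matrix.neg_mul, Matrix.mul_assoc]
  have h5 : (∑ i, V.x i j • mC (phi W c i) + (-(W.y * mC (phi W c j)) +
      mC (phi W c j) * W.y)) = 0 := by
    rw [← Matrix.one_mul (∑ i, V.x i j • mC (phi W c i) + _), ← RE W, Matrix.mul_assoc, h4,
      Matrix.mul_zero]
  rw [sub_eq_add_neg, eq_comm, ← sub_eq_zero, ← h5]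
  abel

/-- the trilinear form as a form with values in `End W` -/
theorem phi_mem {V : HS n} {W : HW w} {A : ∀ k : ℕ, Submodule ℚ ((Fin k → Fin n ⊕ Fin w) → ℚ)}
    (hA : Cycles V W A) {c : Fin n → Matrix (Fin w) (Fin w) ℚ} (h : tri c ∈ A 3) :
    (fun J : Fin 1 → Fin n => mC (phi W c (J 0))) ∈ MEV (mC W.E) (AC A) (Fin 1) := by
  show extE (mC W.E) (fun J : Fin 1 → Fin n => mC (phi W c (J 0))) ∈ gen (AC A) (Fin 1 ⊕ Bool)
  let e : Fin 3 ≃ Fin 1 ⊕ Bool :=
    { toFun := ![Sum.inl 0, Sum.inr false, Sum.inr true]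
      invFun := Sum.elim (fun _ => 0) (fun b => cond b 2 1)
      left_inv := by intro i; fin_cases i <;> rfl
      right_inv := by
        rintro (i | b)
        · fin_cases i; rfl
        · cases b <;> rfl }
  rw [mem_gen_iff (sysC hA) e]
  have h1 : (fun J : Fin 3 → Fin n ⊕ Fin w =>
      extE (mC W.E) (fun J : Fin 1 → Fin n => mC (phi W c (J 0))) (fun s => J (e.symm s))) =
      cx (tri c) := by
    have h2 : extE (mC W.E) (fun J : Fin 1 → Fin n => mC (phi W c (J 0))) =
        fun J => cx (tri c) (fun s => J (e s)) := by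
      apply extE_eq
      · intro K a b
        rw [← mC_mul, E_phi]
        rfl
      · intro J s b hs
        have hs' : J (e 0) = Sum.inr b := by
          fin_cases s
          exact hs
        simp [cx, tri, hs']
      · intro J i a hi
        have h3 : (J (e 1)).isLeft = true ∨ (J (e 2)).isLeft = true := by
          cases i
          · left
            show (J (Sum.inr false)).isLeft = true
            rw [hi]; rfl
          · right
            show (J (Sum.inr true)).isLeft = true
            rw [hi]; rfl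
        simp only [cx, tri]
        rcases J (e 0) with p | p
        · rcases h4 : J (e 1) with q | q <;> rcases h5 : J (e 2) with r | r <;>
            simp [fromBlocks, h4, h5] at h3 ⊢
        · simp
    rw [h2]
    funext J
    simp only [Equiv.symm_apply_apply]
  rw [h1]
  exact cx_mem h

end

end

end Pool.Agent.Y89.KS
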