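import Pool.Agent.Y89.KS.AsmC

/-!
# Assembly: the powers of varieties of K3 type, main step
-/

open Matrix Finset Function

set_option linter.unusedSectionVars false

namespace Pool.Agent.Y89.KS

noncomputable section

open Pool.Agent.W544.PG (HS HW mC cspan cx Kil S_hk S_lie)

section
variable {n w : ℕ}

/-- composition of a form with values in `End W` with an endomorphism of `V` -/
theorem comp_mem {V : HS n} {W : HW w} {M : ∀ S : Type, Submodule ℂ ((S → Fin n) → ℂ)}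
    {ME : ∀ S : Type, Submodule ℂ ((S → Fin n) → Matrix (Fin w) (Fin w) ℂ)}
    (hM : ESys V W M ME) {P : Matrix (Fin n) (Fin n) ℂ}
    (hP : (fun J : Fin 2 → Fin n => (Pᵀ * mC V.Q) (J 0) (J 1)) ∈ M (Fin 2))
    {φ : Fin n → Matrix (Fin w) (Fin w) ℂ}
    (hφ : (fun J : Fin 1 → Fin n => φ (J 0)) ∈ ME (Fin 1)) :
    (fun J : Fin 1 → Fin n => ∑ i, P i (J 0) • φ i) ∈ ME (Fin 1) := by
  let e : Fin 2 ⊕ Fin 1 ≃ Fin 1 ⊕ Bool :=
    { toFun := Sum.elim ![Sum.inl 0, Sum.inr false] (fun _ => Sum.inr true)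
      invFun := Sum.elim (fun _ => Sum.inl 0) (fun b => cond b (Sum.inr 0) (Sum.inl 1))
      left_inv := by rintro (i | i) <;> fin_cases i <;> rfl
      right_inv := by
        rintro (i | b)
        · fin_cases i; rfl
        · cases b <;> rfl }
  have h1 := hM.con _ _ (hM.reidx _ _ e _ (hM.smul _ _ _ _ hP hφ))
  convert h1 using 1
  funext J
  show ∑ i, P i (J 0) • φ i =
    ∑ p, ∑ q, (mC V.Q)⁻¹ p q • ((Pᵀ * mC V.Q) (J 0) p • φ q)
  rw [Finset.sum_comm]
  refine Finset.sum_congr rfl fun q _ => ?_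
  simp only [smul_smul]
  rw [← Finset.sum_smul]
  congr 1
  have h2 : Pᵀ * mC V.Q * (mC V.Q)⁻¹ = Pᵀ := by
    rw [Matrix.mul_assoc, QR, Matrix.mul_one]
  have h3 := congrFun (congrFun h2 (J 0)) q
  rw [Matrix.mul_apply, Matrix.transpose_apply] at h3
  rw [← h3]
  exact Finset.sum_congr rfl fun p _ => mul_comm _ _

/-- swapping the variables -/
theorem swap_mem {V : HS n} {M : ∀ S : Type, Submodule ℂ ((S → Fin n) → ℂ)}
    (hM : GSys (mC V.Q)⁻¹ M) {B : Matrix (Fin n) (Fin n) ℂ}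
    (hB : (fun J : Fin 2 → Fin n => B (J 0) (J 1)) ∈ M (Fin 2)) :
    (fun J : Fin 2 → Fin n => Bᵀ (J 0) (J 1)) ∈ M (Fin 2) :=
  hM.reidx _ _ (Equiv.swap 0 1 : Fin 2 ≃ Fin 2) _ hB

/-- Main step: the Hodge classes on the powers of `X` are in the system. -/
theorem core (hfft : S_fft) (hblk : S_blk) (habt : S_abt) (htot : S_tot)
    {V : HS n} {W : HW w} (hV : (V.x * V.x).trace = 2)
    {A : ∀ k : ℕ, Submodule ℚ ((Fin k → Fin n ⊕ Fin w) → ℚ)} (hA : Cycles V W A)
    {P : Matrix (Fin n) (Fin n) ℂ} (hP : Blk0 V P)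
    (hB : (fun J : Fin 2 → Fin n => (Pᵀ * mC V.Q) (J 0) (J 1)) ∈ MV (w := w) (AC A) (Fin 2))
    {c : Fin n → Matrix (Fin w) (Fin w) ℚ} (hc : tri c ∈ A 3) (hh : IsHodge V W (tri c))
    (hne : ∃ j, ∑ i, V.x i j • mC (c i) ≠ 0)
    {k : ℕ} {t : (Fin k → Fin n) → ℚ} (ht : V.IsHodge t) : extV w t ∈ A k := by
  have hx : V.x ≠ 0 := by
    intro h
    rw [h, Matrix.zero_mul, Matrix.trace_zero] at hV
    norm_num at hV
  have hE := esys htot hA
  obtain ⟨m, pr, N, hbl, hpr⟩ := hblk n V P hP hx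
  have hne' : ∃ j, ∑ i, V.x i j • mC (phi W c i) ≠ 0 := by
    obtain ⟨j, hj⟩ := hne
    refine ⟨j, fun h => hj ?_⟩
    have h2 : ∀ i, mC (c i) = mC W.E * mC (phi W c i) := fun i => by rw [← mC_mul, E_phi]
    simp only [h2, ← Matrix.mul_smul]
    rw [← Matrix.mul_sum, h, Matrix.mul_zero]
  have hQs : (mC V.Q)ᵀ = mC V.Q := hbl.symm
  have hswap : ∀ σ : ℂ ≃+* ℂ, (((adV V P).map σ)ᵀ * mC V.Q) = ((P.map σ)ᵀ * mC V.Q)ᵀ := by
    intro σ
    rw [← adV_map]
    unfold adV adj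
    rw [transpose_mul, transpose_mul, transpose_mul, transpose_transpose, hQs,
      Matrix.transpose_nonsing_inv, hQs]
    rw [Matrix.mul_assoc, Matrix.mul_assoc, RQ, Matrix.mul_one]
  have hgal : ∀ σ : ℂ ≃+* ℂ,
      (fun J : Fin 2 → Fin n => ((P.map σ)ᵀ * mC V.Q) (J 0) (J 1)) ∈
        MV (w := w) (AC A) (Fin 2) := by
    intro σ
    have h1 := gal_MV σ hB
    have h2 : (P.map σ)ᵀ * mC V.Q = (Pᵀ * mC V.Q).map σ := by
      rw [mul_map, mC_map]
      rfl
    rw [h2]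
    exact h1
  have hmain := hfft (Fin n) (mC V.Q) (mC V.Q)⁻¹ (g0 V) (Fin m) pr N hbl (MV (w := w) (AC A))
    hE.sys (fun f hf => lin_mem hA f hf) ?_ ?_ (Fin k) (cx t) (kil_g0 V ht)
  · have h1 := (mem_MV hA _).1 hmain
    rw [extV_cx] at h1
    exact dsc2 _ _ _ h1
  · intro i hi
    obtain ⟨σ, hσ | hσ⟩ := hpr i hi
    · rw [hσ]
      exact hgal σ
    · rw [hσ, hswap]
      exact swap_mem hE.sys (hgal σ)
  · intro i hi hself m' G H hHG hGH
    obtain ⟨σ, hσ⟩ := hpr i hi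
    have hPP : adV V P = P ∧ pr i = P.map σ := by
      have h1 : adV V (pr i) = pr i := hself
      rcases hσ with hσ | hσ
      · refine ⟨?_, hσ⟩
        rw [hσ, adV_map] at h1
        exact map_inj σ h1
      · rw [hσ, adV_map, adV_adV] at h1
        have h2 := map_inj σ h1
        exact ⟨h2.symm, by rw [hσ, ← h2]⟩
    obtain ⟨hsa, hprσ⟩ := hPP
    have hdet := habt n w V W hV (phi W c) (phi_rel hh) hne' P hP hsa _ _ hE
      (comp_mem hE hB (phi_mem hA hc)) m' (G.map σ.symm) (H.map σ.symm) (by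
        have h1 : (H * G).map σ.symm = H.map σ.symm * G.map σ.symm := Matrix.map_mul
        rw [← h1, hHG, hprσ, map_symm]) (by
        have h1 : (G * H).map σ.symm = G.map σ.symm * H.map σ.symm := Matrix.map_mul
        rw [← h1, hGH, Matrix.map_one _ (map_zero _) (map_one _)])
    have h3 := gal_MV σ hdet
    convert h3 using 1
    funext J
    have h4 : σ (((G.map σ.symm).submatrix id J).det) =
        (((G.map σ.symm).submatrix id J).map σ).det := RingHom.map_det (σ : ℂ →+* ℂ) _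
    rw [h4]
    congr 1
    ext a b
    simp

end

end

end Pool.Agent.Y89.KS
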