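import Pool.Agent.Y89.KS.AsmD

/-!
# Assembly: Hodge structures without endomorphisms
-/

open Matrix Finset Function

set_option linter.unusedSectionVars false

namespace Pool.Agent.Y89.KS

noncomputable section

open Pool.Agent.W544.PG (HS HW mC cspan cx Kil S_hk S_lie)

section
variable {n w : ℕ}

/-- The endomorphisms of the transcendental part are scalars. -/
def NoEnd (V : HS n) : Prop := ∀ P : Matrix (Fin n) (Fin n) ℚ, mC P * V.x = V.x * mC P →
  ∃ c : ℚ, mC P * V.x = (c : ℂ) • V.x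

theorem scal {V : HS n} (hV : NoEnd V) {C : Matrix (Fin n) (Fin n) ℂ}
    (hC : ∀ σ : ℂ ≃+* ℂ, C * V.x.map σ = V.x.map σ * C) :
    ∃ a : ℂ, ∀ τ : ℂ ≃+* ℂ, C * V.x.map τ = a • V.x.map τ := by
  have h := Pool.Agent.W696.PG.de2 n V C hC
  clear hC
  induction h using Submodule.span_induction with
  | mem D hD =>
    obtain ⟨P, rfl, hP⟩ := hD
    obtain ⟨c, hc⟩ := hV P hP
    refine ⟨c, fun τ => ?_⟩
    have h1 := congrArg (fun M : Matrix (Fin n) (Fin n) ℂ => M.map τ) hc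
    simp only [mul_map, mC_map] at h1
    rw [h1]
    ext a b
    simp
  | zero => exact ⟨0, fun τ => by simp⟩
  | add a b _ _ ha hb =>
    obtain ⟨a', ha'⟩ := ha
    obtain ⟨b', hb'⟩ := hb
    exact ⟨a' + b', fun τ => by rw [Matrix.add_mul, ha', hb', add_smul]⟩
  | smul t a _ ha =>
    obtain ⟨a', ha'⟩ := ha
    exact ⟨t * a', fun τ => by rw [Matrix.smul_mul, ha', smul_smul]⟩

/-- the bilinear form of a block on which the Lie algebra is zero -/
theorem null_mem {V : HS n} {W : HW w} {A : ∀ k : ℕ, Submodule ℚ ((Fin k → Fin n ⊕ Fin w) → ℚ)}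
    (htot : S_tot) (hA : Cycles V W A) {p : Matrix (Fin n) (Fin n) ℂ} (hpp : p * p = p)
    (hc : ∀ z ∈ g0 V, z * p = p * z) (hn : ∀ z ∈ g0 V, z * p = 0)
    (hs : ∀ z ∈ g0 V, zᵀ * mC V.Q + mC V.Q * z = 0) :
    (fun J : Fin 2 → Fin n => (pᵀ * mC V.Q) (J 0) (J 1)) ∈ MV (w := w) (AC A) (Fin 2) := by
  have hE := esys htot hA
  have h1 : (fun J : Fin 2 → Fin n => (pᵀ * mC V.Q) (J 0) (J 1)) =
      ∑ c, fun J : Fin 2 → Fin n => p c (J 0) * (pᵀ * mC V.Q) c (J 1) := by
    funext J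
    rw [Finset.sum_apply]
    have h2 : pᵀ * mC V.Q = pᵀ * (pᵀ * mC V.Q) := by
      rw [← Matrix.mul_assoc, ← transpose_mul, hpp]
    conv_lhs => rw [h2]
    rw [Matrix.mul_apply]
    rfl
  rw [h1]
  refine Submodule.sum_mem _ fun c _ => ?_
  refine mem_lin2 hE.sys (f := fun a => p c a) (g := fun b => (pᵀ * mC V.Q) c b) ?_ ?_
  · refine lin_mem hA _ fun z hz => ?_
    funext J
    have h2 : p * z = 0 := by rw [← hc z hz, hn z hz]
    have h3 := congrFun (congrFun h2 c) (J 0)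
    simp only [der, sl, Fin.sum_univ_one, Fin.isValue, update_self, Pi.zero_apply]
    rw [Matrix.mul_apply, Matrix.zero_apply] at h3
    rw [← h3]
    refine Finset.sum_congr rfl fun q _ => ?_
    exact mul_comm _ _
  · refine lin_mem hA _ fun z hz => ?_
    funext J
    have h2 : pᵀ * mC V.Q * z = 0 := by
      rw [Matrix.mul_assoc, eq_neg_of_add_eq_zero_right (hs z hz), Matrix.mul_neg,
        ← Matrix.mul_assoc, ← transpose_mul, hn z hz, transpose_zero, Matrix.zero_mul, neg_zero]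
    have h3 := congrFun (congrFun h2 c) (J 0)
    simp only [der, sl, Fin.sum_univ_one, Fin.isValue, update_self, Pi.zero_apply]
    rw [Matrix.mul_apply, Matrix.zero_apply] at h3
    rw [← h3]
    refine Finset.sum_congr rfl fun q _ => ?_
    exact mul_comm _ _

theorem adV_mul (V : HS n) (A B : Matrix (Fin n) (Fin n) ℂ) :
    adV V (A * B) = adV V B * adV V A := by
  unfold adV adj
  rw [transpose_mul]
  calc (mC V.Q)⁻¹ * (Bᵀ * Aᵀ) * mC V.Q = (mC V.Q)⁻¹ * Bᵀ * 1 * Aᵀ * mC V.Q := by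
        simp only [Matrix.mul_assoc, Matrix.one_mul]
    _ = _ := by rw [← QR V]; simp only [Matrix.mul_assoc]

theorem adV_x (V : HS n) : adV V V.x = -V.x := by
  unfold adV adj
  rw [Matrix.mul_assoc, eq_neg_of_add_eq_zero_left V.skew, Matrix.mul_neg, ← Matrix.mul_assoc, RQ,
    Matrix.one_mul]

theorem adV_smul (V : HS n) (c : ℂ) (A : Matrix (Fin n) (Fin n) ℂ) :
    adV V (c • A) = c • adV V A := by
  unfold adV adj
  rw [transpose_smul, Matrix.mul_smul, Matrix.smul_mul]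

/-- the bilinear form of the block, without endomorphisms -/
theorem scal_mem (hblk : S_blk) (htot : S_tot) {V : HS n} {W : HW w}
    (hV : (V.x * V.x).trace = 2) (hsc : NoEnd V)
    {A : ∀ k : ℕ, Submodule ℚ ((Fin k → Fin n ⊕ Fin w) → ℚ)} (hA : Cycles V W A)
    {P : Matrix (Fin n) (Fin n) ℂ} (hP : Blk0 V P) :
    (fun J : Fin 2 → Fin n => (Pᵀ * mC V.Q) (J 0) (J 1)) ∈ MV (w := w) (AC A) (Fin 2) := by
  have hx : V.x ≠ 0 := by
    intro h
    rw [h, Matrix.zero_mul, Matrix.trace_zero] at hV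
    norm_num at hV
  obtain ⟨m, pr, N, hbl, hpr⟩ := hblk n V P hP hx
  have hcomm : ∀ σ : ℂ ≃+* ℂ, P * V.x.map σ = V.x.map σ * P := fun σ =>
    (hP.comm _ (x_mem V σ)).symm
  obtain ⟨a, ha⟩ := scal hsc hcomm
  have ha1 : P * V.x = a • V.x := by
    have := ha (RingEquiv.refl ℂ)
    rwa [map_refl] at this
  have hxP : V.x * P = a • V.x := by
    rw [← ha1]
    exact hP.comm _ (x_mem' V)
  have haa : a = 0 ∨ a = 1 := by
    have h1 : a • (a • V.x) = a • V.x := by
      rw [← ha1, ← Matrix.mul_smul, ← ha1, ← Matrix.mul_assoc, hP.idem]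
    rw [smul_smul, ← sub_eq_zero, ← sub_smul] at h1
    have h2 := (smul_eq_zero.1 h1).resolve_right hx
    have h3 : a * (a - 1) = 0 := by linear_combination h2
    rcases mul_eq_zero.1 h3 with h | h
    · exact Or.inl h
    · exact Or.inr (sub_eq_zero.1 h)
  have hs : adV V P = P ∧ a = 1 := by
    rcases hP.type with ⟨h1, h2, -, -⟩ | ⟨-, -, h3⟩
    · refine ⟨h1, ?_⟩
      rcases haa with h | h
      · rw [h, zero_smul, h2] at hxP
        exact absurd hxP hx
      · exact h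
    · exfalso
      have h4 := congrArg (adV V) ha1
      rw [adV_mul, adV_smul, adV_x, Matrix.neg_mul, smul_neg, neg_inj] at h4
      rw [hxP, h4, ← add_smul] at h3
      have h5 : (a + a - 1) • V.x = 0 := by rw [sub_smul, h3, one_smul, sub_self]
      have h6 := (smul_eq_zero.1 h5).resolve_right hx
      rcases haa with h | h <;> rw [h] at h6 <;> norm_num at h6
  obtain ⟨hs, ha1'⟩ := hs
  rw [ha1'] at ha
  simp only [one_smul] at ha
  have hprx : ∀ i, ¬ N i → ∃ σ : ℂ ≃+* ℂ, pr i = P.map σ := by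
    intro i hi
    obtain ⟨σ, h | h⟩ := hpr i hi
    · exact ⟨σ, h⟩
    · rw [hs] at h
      exact ⟨σ, h⟩
  have hprx' : ∀ i, ¬ N i → pr i * V.x = V.x := by
    intro i hi
    obtain ⟨σ, h⟩ := hprx i hi
    have h1 := congrArg (fun M : Matrix (Fin n) (Fin n) ℂ => M.map σ) (ha σ.symm)
    simp only [mul_map, map_symm'] at h1
    rw [h, h1]
  have hprN : ∀ i, N i → pr i * V.x = 0 := by
    intro i hi
    rw [← hbl.comm i _ (x_mem' V), hbl.nul i hi _ (x_mem' V)]
  have hidem : ∀ i, pr i * pr i = pr i := by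
    intro i
    have h1 : pr i * ∑ j, pr j = pr i := by rw [hbl.sum, Matrix.mul_one]
    rw [Finset.mul_sum, Finset.sum_eq_single i] at h1
    · exact h1
    · intro j _ hj
      exact hbl.orth i j hj.symm
    · intro h
      exact absurd (Finset.mem_univ i) h
  have hex : ∃ i, ¬ N i := by
    by_contra h
    push Not at h
    apply hx
    rw [← Matrix.one_mul V.x, ← hbl.sum, Finset.sum_mul]
    exact Finset.sum_eq_zero fun i _ => hprN i (h i)
  obtain ⟨i0, hi0⟩ := hex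
  have huniq : ∀ j, j ≠ i0 → N j := by
    intro j hj
    by_contra hN
    apply hx
    rw [← hprx' j hN, ← hprx' i0 hi0, ← Matrix.mul_assoc, hbl.orth j i0 hj, Matrix.zero_mul]
  have hE := esys htot hA
  have hi0m : (fun J : Fin 2 → Fin n => ((pr i0)ᵀ * mC V.Q) (J 0) (J 1)) ∈
      MV (w := w) (AC A) (Fin 2) := by
    have h1 : (pr i0)ᵀ * mC V.Q = mC V.Q - ∑ j ∈ Finset.univ.erase i0, (pr j)ᵀ * mC V.Q := by
      rw [eq_sub_iff_add_eq, Finset.add_sum_erase (f := fun j => (pr j)ᵀ * mC V.Q) _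
        (Finset.mem_univ i0), ← Finset.sum_mul, ← Matrix.transpose_sum, hbl.sum, transpose_one,
        Matrix.one_mul]
    have h2 : (fun J : Fin 2 → Fin n => ((pr i0)ᵀ * mC V.Q) (J 0) (J 1)) =
        (fun J : Fin 2 → Fin n => mC V.Q (J 0) (J 1)) -
          ∑ j ∈ Finset.univ.erase i0, fun J : Fin 2 → Fin n => ((pr j)ᵀ * mC V.Q) (J 0) (J 1) := by
      funext J
      rw [h1, Matrix.sub_apply, Matrix.sum_apply, Pi.sub_apply, Finset.sum_apply]
    rw [h2]
    refine Submodule.sub_mem _ (Q_mem hA) (Submodule.sum_mem _ fun j hj => ?_)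
    have hN := huniq j (Finset.ne_of_mem_erase hj)
    exact null_mem htot hA (hidem j) (hbl.comm j) (hbl.nul j hN) hbl.skew
  obtain ⟨σ, hσ⟩ := hprx i0 hi0
  have h1 := gal_MV σ.symm hi0m
  have h2 : Pᵀ * mC V.Q = ((pr i0)ᵀ * mC V.Q).map σ.symm := by
    rw [mul_map, mC_map, hσ]
    congr 1
    ext a b
    simp
  rw [h2]
  exact h1

/-- HC for `X × X` -/
def HC2 (V : HS n) (W : HW w) (A : ∀ k : ℕ, Submodule ℚ ((Fin k → Fin n ⊕ Fin w) → ℚ)) : Prop :=
  ∀ N : Matrix (Fin n) (Fin n) ℚ,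
    IsHodge V W (fun J : Fin 2 → Fin n ⊕ Fin w => fromBlocks N 0 0 0 (J 0) (J 1)) →
    (fun J : Fin 2 → Fin n ⊕ Fin w => fromBlocks N 0 0 0 (J 0) (J 1)) ∈ A 2

theorem thmB (hfft : S_fft) (hblk0 : S_blk0) (hblk : S_blk) (habt : S_abt) (htot : S_tot)
    {V : HS n} {W : HW w} (hV : (V.x * V.x).trace = 2)
    {A : ∀ k : ℕ, Submodule ℚ ((Fin k → Fin n ⊕ Fin w) → ℚ)} (hA : Cycles V W A)
    (h2 : NoEnd V ∨ HC2 V W A)
    {c : Fin n → Matrix (Fin w) (Fin w) ℚ} (hc : tri c ∈ A 3) (hh : IsHodge V W (tri c))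
    (hne : ∃ j, ∑ i, V.x i j • mC (c i) ≠ 0)
    {k : ℕ} {t : (Fin k → Fin n) → ℚ} (ht : V.IsHodge t) : extV w t ∈ A k := by
  obtain ⟨P, hP⟩ := hblk0 n V hV
  refine core hfft hblk habt htot hV hA hP ?_ hc hh hne ht
  rcases h2 with h2 | h2
  · exact scal_mem hblk htot hV h2 hA hP
  · refine bil_mem_hc hA h2 _ fun σ => ?_
    have h3 : P * V.x.map σ = V.x.map σ * P := (hP.comm _ (x_mem V σ)).symm
    rw [← Matrix.mul_assoc, ← transpose_mul, h3, transpose_mul, Matrix.mul_assoc,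
      eq_neg_of_add_eq_zero_left (skewV V σ), Matrix.mul_neg, Matrix.mul_assoc, neg_add_cancel]

end

end

end Pool.Agent.Y89.KS
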