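import Pool.Agent.Y89.KS.Defs2

/-!
# Hodge classes on powers of varieties of K3 type: definitions and statements of the parts, III
-/

open Matrix Finset

namespace Pool.Agent.Y89.KS

noncomputable section

open Pool.Agent.W544.PG (HS HW mC cspan cx)

/-- the operators of the expansion in Clifford monomials -/
def cS {N : Type} [Fintype N] [DecidableEq N] {n m : ℕ} (γ γ' : Fin n → Matrix N N ℂ)
    (d d' : Fin m → Matrix N N ℂ) : ℕ → Matrix N N ℂ → Matrix N N ℂ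
  | 0, f => ∑ l, (f * d' l).trace • d l
  | k + 1, f => ∑ i, cS γ γ' d d' k (f * γ i) * γ' i

/-- (CEXP) -/
def S_cexp : Prop := ∀ (N : Type) [Fintype N] [DecidableEq N] (n : ℕ)
  (Q R : Matrix (Fin n) (Fin n) ℂ) (Γ : Fin n → Matrix N N ℂ), Qᵀ = Q → Q * R = 1 →
  (∀ i j, Γ i * Γ j + Γ j * Γ i = (2 * Q i j) • (1 : Matrix N N ℂ)) →
  ∃ (m : ℕ) (d d' : Fin m → Matrix N N ℂ),
    (∀ l i j, d l * (Γ i * Γ j) = Γ i * Γ j * d l) ∧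
    (∀ l i j, d' l * (Γ i * Γ j) = Γ i * Γ j * d' l) ∧
    ∀ f : Matrix N N ℂ,
      ∑ k ∈ Finset.range (n + 1), cS Γ (fun i => ∑ j, R i j • Γ j) d d' k f = 0 → f = 0

/-- (MIX) the mixed forms -/
def S_mix : Prop := ∀ (n w : ℕ) (V : HS n) (W : HW w)
  (Γ : Fin n → Matrix (Fin w) (Fin w) ℚ) (c : ℚ), Cliff V W Γ c →
  ∀ M : ∀ S : Type, Submodule ℂ ((S → Fin n ⊕ Fin w) → ℂ),
  GSys (fromBlocks (mC V.Q)⁻¹ 0 0 (mC W.E)⁻¹) M →
  (∀ (S : Type) [Fintype S] [DecidableEq S] (f : (S → Fin n) → ℂ),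
    (∀ z ∈ g0 V, der z f = 0) → extV w f ∈ M S) →
  (∀ d : Matrix (Fin w) (Fin w) ℂ, (∀ σ : ℂ ≃+* ℂ, d * W.y.map σ = W.y.map σ * d) →
    extE (mC W.E) (fun _ : Empty → Fin n => d) ∈ M (Empty ⊕ Bool)) →
  extE (mC W.E) (fun J : Fin 1 → Fin n => mC (Γ (J 0))) ∈ M (Fin 1 ⊕ Bool) →
  ∀ (S : Type) [Fintype S] [DecidableEq S] (f : (S → Fin n ⊕ Fin w) → ℂ),
    (∀ σ : ℂ ≃+* ℂ, der (fromBlocks (V.x.map σ) 0 0 (W.y.map σ)) f = 0) → f ∈ M S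

end

end Pool.Agent.Y89.KS
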