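import Pool.Agent.Y89.KS.Spin
import Pool.Agent.Y89.KS.Abt

/-!
# The bilinear forms and determinants of the blocks from the Kuga-Satake class
-/

open Matrix Finset Function

set_option linter.unusedSectionVars false

namespace Pool.Agent.Y89.KS

noncomputable section

open Pool.Agent.W544.PG (HS HW mC cspan cx)

section
variable {n w : ℕ} {V : HS n} {W : HW w} {Γ : Fin n → Matrix (Fin w) (Fin w) ℚ} {c : ℚ}

/-- the spin representation in the Clifford module -/
abbrev sp (V : HS n) (Γ : Fin n → Matrix (Fin w) (Fin w) ℚ) (c : ℚ)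
    (z : Matrix (Fin n) (Fin n) ℂ) : Matrix (Fin w) (Fin w) ℂ :=
  spin (c : ℂ) (mC V.Q)⁻¹ (fun i => mC (Γ i)) z

theorem Cliff.c0 (h : Cliff V W Γ c) : (c : ℂ) ≠ 0 := by exact_mod_cast h.ne

theorem Cliff.relC (h : Cliff V W Γ c) (i j : Fin n) :
    mC (Γ i) * mC (Γ j) + mC (Γ j) * mC (Γ i) =
      (2 * (c : ℂ) * mC V.Q i j) • (1 : Matrix (Fin w) (Fin w) ℂ) := by
  have h1 := congrArg mC (h.rel i j)
  have h2 : ∀ a b : Matrix (Fin w) (Fin w) ℚ, mC (a + b) = mC a + mC b := by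
    intro a b
    ext p q
    simp [mC]
  rw [h2, mC_mul', mC_mul'] at h1
  rw [h1]
  ext p q
  by_cases hpq : p = q
  · subst hpq
    simp [mC]
  · simp [mC, hpq]

theorem QRV (V : HS n) : mC V.Q * (mC V.Q)⁻¹ = 1 :=
  Matrix.mul_nonsing_inv _ (isUnit_iff_ne_zero.2 (Qdet V))

theorem Qinv_map (V : HS n) (σ : ℂ ≃+* ℂ) : ((mC V.Q)⁻¹).map σ = (mC V.Q)⁻¹ := by
  have hRQ : (mC V.Q)⁻¹ * mC V.Q = 1 := mul_eq_one_comm.1 (QRV V)
  have h2 := congrArg (fun N : Matrix (Fin n) (Fin n) ℂ => N.map σ) (QRV V)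
  simp only [mul_map', mC_map', Matrix.map_one _ (map_zero σ) (map_one σ)] at h2
  calc ((mC V.Q)⁻¹).map σ = (mC V.Q)⁻¹ * mC V.Q * ((mC V.Q)⁻¹).map σ := by
        rw [hRQ, Matrix.one_mul]
    _ = (mC V.Q)⁻¹ := by rw [Matrix.mul_assoc, h2, Matrix.mul_one]

theorem Cliff.y (h : Cliff V W Γ c) (σ : ℂ ≃+* ℂ) : W.y.map σ = sp V Γ c (V.x.map σ) := by
  rw [h.hodge]
  unfold sp spin
  ext p q
  rw [Matrix.map_apply, Matrix.smul_apply, Matrix.smul_apply, smul_eq_mul, smul_eq_mul, map_mul,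
    Matrix.sum_apply, Matrix.sum_apply, map_sum]
  have h1 : σ (1 / (4 * (c : ℂ))) = 1 / (4 * (c : ℂ)) := by
    rw [map_div₀, map_one, map_mul, map_ofNat, map_ratCast]
  rw [h1]
  congr 1
  refine Finset.sum_congr rfl fun i _ => ?_
  rw [Matrix.sum_apply, Matrix.sum_apply, map_sum]
  refine Finset.sum_congr rfl fun j _ => ?_
  rw [Matrix.smul_apply, Matrix.smul_apply, smul_eq_mul, smul_eq_mul, map_mul]
  have h2 : σ ((V.x * (mC V.Q)⁻¹) i j) = (V.x.map σ * (mC V.Q)⁻¹) i j := by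
    have h3 : (V.x * (mC V.Q)⁻¹).map σ = V.x.map σ * (mC V.Q)⁻¹ := by
      rw [mul_map', Qinv_map]
    rw [← h3]
    rfl
  have h4 : σ ((mC (Γ i) * mC (Γ j)) p q) = (mC (Γ i) * mC (Γ j)) p q := by
    have h3 : (mC (Γ i) * mC (Γ j)).map σ = mC (Γ i) * mC (Γ j) := by
      rw [mul_map', mC_map', mC_map']
    conv_rhs => rw [← h3]
    rfl
  rw [h2, h4]

theorem Cliff.comm (h : Cliff V W Γ c) {z : Matrix (Fin n) (Fin n) ℂ}
    (hz : zᵀ * mC V.Q + mC V.Q * z = 0) (v : Fin n → ℂ) :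
    sp V Γ c z * gam (fun i => mC (Γ i)) v - gam (fun i => mC (Γ i)) v * sp V Γ c z =
      gam (fun i => mC (Γ i)) (z *ᵥ v) :=
  spin_comm (Qt V) (QRV V) h.c0 h.relC hz v

theorem xskew (V : HS n) (σ : ℂ ≃+* ℂ) :
    (V.x.map σ)ᵀ * mC V.Q + mC V.Q * V.x.map σ = 0 := g0_skew V (fun _ _ h => h σ)

theorem Cliff.b (h : Cliff V W Γ c) (σ : ℂ ≃+* ℂ) (v : Fin n → ℂ) :
    W.y.map σ * gam (fun i => mC (Γ i)) v - gam (fun i => mC (Γ i)) v * W.y.map σ =
      gam (fun i => mC (Γ i)) (V.x.map σ *ᵥ v) := by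
  rw [h.y σ]
  exact h.comm (xskew V σ) v

/-- the bilinear form from the trace -/
theorem form_mem (h : Cliff V W Γ c) {M : ∀ S : Type, Submodule ℂ ((S → Fin n) → ℂ)}
    {ME : ∀ S : Type, Submodule ℂ ((S → Fin n) → Matrix (Fin w) (Fin w) ℂ)}
    (hM : ESys V W M ME) (hΓ : (fun J : Fin 1 → Fin n => mC (Γ (J 0))) ∈ ME (Fin 1))
    {P : Matrix (Fin n) (Fin n) ℂ}
    (hP : (fun J : Fin 1 → Fin n => gam (fun i => mC (Γ i)) (P *ᵥ Pi.single (J 0) 1)) ∈
      ME (Fin 1)) :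
    (fun J : Fin 2 → Fin n => (Pᵀ * mC V.Q) (J 0) (J 1)) ∈ M (Fin 2) := by
  have h1 := hM.sys.reidx _ (Fin 2) (finSumFinEquiv : Fin 1 ⊕ Fin 1 ≃ Fin (1 + 1)) _
    (hM.tr _ _ (hM.mul _ _ _ _ hP hΓ))
  have h2 : (fun J : Fin 2 → Fin n => (Pᵀ * mC V.Q) (J 0) (J 1)) =
      (1 / ((c : ℂ) * w)) • fun J : Fin 2 → Fin n =>
        (gam (fun i => mC (Γ i)) (P *ᵥ Pi.single (J 0) 1) * mC (Γ (J 1))).trace := by
    funext J
    rw [Pi.smul_apply, smul_eq_mul]
    have h3 := gam_rel h.relC (P *ᵥ Pi.single (J 0) 1) (Pi.single (J 1) 1)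
    rw [gam_single] at h3
    have h4 := congrArg Matrix.trace h3
    rw [Matrix.trace_add, Matrix.trace_mul_comm (mC (Γ (J 1))), Matrix.trace_smul,
      Matrix.trace_smul, Matrix.trace_one, Fintype.card_fin, smul_eq_mul, smul_eq_mul] at h4
    have h5 : P *ᵥ Pi.single (J 0) 1 ⬝ᵥ mC V.Q *ᵥ Pi.single (J 1) 1 =
        (Pᵀ * mC V.Q) (J 0) (J 1) := by
      rw [Matrix.mulVec_single_one, Matrix.mulVec_single_one]
      rfl
    rw [h5] at h4
    have hw : (w : ℂ) ≠ 0 := by exact_mod_cast h.pos.ne'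
    have hc := h.c0
    have h6 : (gam (fun i => mC (Γ i)) (P *ᵥ Pi.single (J 0) 1) * mC (Γ (J 1))).trace =
        (Pᵀ * mC V.Q) (J 0) (J 1) * (c * w) := by
      linear_combination h4 / 2
    rw [h6]
    field_simp
  rw [h2]
  exact Submodule.smul_mem _ _ h1

/-- commutator with a constant -/
theorem ad_mem {M : ∀ S : Type, Submodule ℂ ((S → Fin n) → ℂ)}
    {ME : ∀ S : Type, Submodule ℂ ((S → Fin n) → Matrix (Fin w) (Fin w) ℂ)}
    (hM : ESys V W M ME) {d d' : Matrix (Fin w) (Fin w) ℂ}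
    (hd : ∀ σ : ℂ ≃+* ℂ, d * W.y.map σ = W.y.map σ * d)
    (hd' : ∀ σ : ℂ ≃+* ℂ, d' * W.y.map σ = W.y.map σ * d')
    {S : Type} {F : (S → Fin n) → Matrix (Fin w) (Fin w) ℂ} (hF : F ∈ ME S) :
    (fun J => d * F J * d') ∈ ME S := by
  have h1 := hM.reidx _ _ (Equiv.emptySum Empty S) _
    (hM.mul _ _ _ _ (hM.const Empty d hd) hF)
  have h2 := hM.reidx _ _ (Equiv.sumEmpty S Empty) _
    (hM.mul _ _ _ _ h1 (hM.const Empty d' hd'))
  exact h2

theorem adV_comm {z P : Matrix (Fin n) (Fin n) ℂ} (hz : zᵀ * mC V.Q + mC V.Q * z = 0)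
    (h : z * P = P * z) : z * adV V P = adV V P * z := by
  have hRQ : (mC V.Q)⁻¹ * mC V.Q = 1 := mul_eq_one_comm.1 (QRV V)
  have hRz : z * (mC V.Q)⁻¹ = -((mC V.Q)⁻¹ * zᵀ) := by
    calc z * (mC V.Q)⁻¹ = (mC V.Q)⁻¹ * (mC V.Q * z) * (mC V.Q)⁻¹ := by
          rw [← Matrix.mul_assoc, hRQ, Matrix.one_mul]
      _ = -((mC V.Q)⁻¹ * zᵀ) := by
          rw [eq_neg_of_add_eq_zero_right hz, Matrix.mul_neg, Matrix.neg_mul, Matrix.mul_assoc,
            Matrix.mul_assoc, QRV, Matrix.mul_one]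
  unfold adV adj
  calc z * ((mC V.Q)⁻¹ * Pᵀ * mC V.Q) = (z * (mC V.Q)⁻¹) * Pᵀ * mC V.Q := by
        simp only [Matrix.mul_assoc]
    _ = -((mC V.Q)⁻¹ * (P * z)ᵀ * mC V.Q) := by
        rw [hRz, transpose_mul]
        simp only [Matrix.neg_mul, Matrix.mul_assoc]
    _ = -((mC V.Q)⁻¹ * Pᵀ * (zᵀ * mC V.Q)) := by
        rw [← h, transpose_mul]
        simp only [Matrix.mul_assoc]
    _ = (mC V.Q)⁻¹ * Pᵀ * mC V.Q * z := by
        rw [eq_neg_of_add_eq_zero_left hz]
        simp only [Matrix.mul_neg, neg_neg, Matrix.mul_assoc]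

theorem asys1 {V : HS n} {W : HW w} {M : ∀ S : Type, Submodule ℂ ((S → Fin n) → ℂ)}
    {ME : ∀ S : Type, Submodule ℂ ((S → Fin n) → Matrix (Fin w) (Fin w) ℂ)}
    (hM : ESys V W M ME) : ASys (fun σ => W.y.map σ) M ME where
  const S _ d hd := hM.const S d hd
  mul := hM.mul
  reidx := hM.reidx
  tr := hM.tr

/-- the volume element of a self-adjoint block -/
theorem vol {Q R P : Matrix (Fin n) (Fin n) ℂ} {N : Type} [Fintype N] [DecidableEq N] {c : ℂ}
    {G : Fin n → Matrix N N ℂ} (hQ : Qᵀ = Q)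
    (hQR : Q * R = 1) (hPP : P * P = P) (hPQ : Pᵀ * Q = Q * P) (hc : c ≠ 0)
    (h : ∀ i j, G i * G j + G j * G i = (2 * c * Q i j) • (1 : Matrix N N ℂ)) :
    ∃ (ω ω' : Matrix N N ℂ) (ε : ℂ), ε * ε = 1 ∧ ω * ω' = 1 ∧ ω' * ω = 1 ∧
      (∀ v, P *ᵥ v = v → ω * gam G v = ε • (gam G v * ω)) ∧
      (∀ v, P *ᵥ v = 0 → ω * gam G v = -ε • (gam G v * ω)) ∧
      ∀ (z : Matrix (Fin n) (Fin n) ℂ) (b : Matrix N N ℂ), z * P = P * z →
        zᵀ * Q + Q * z = 0 → (∀ v, b * gam G v - gam G v * b = gam G (z *ᵥ v)) →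
        ω * b = b * ω := by
  obtain ⟨m, K, H, hHK, hKH, hQH⟩ := frame hQ hQR hPP hPQ
  have hPH : P * H = H := by
    rw [← hHK, Matrix.mul_assoc, hKH, Matrix.mul_one]
  have hPv : ∀ v, P *ᵥ (H *ᵥ v) = H *ᵥ v := fun v => by rw [Matrix.mulVec_mulVec, hPH]
  obtain ⟨γ, hγ⟩ : ∃ γ : Fin m → Matrix N N ℂ, γ = fun a => gam G (H *ᵥ Pi.single a 1) := ⟨_, rfl⟩
  have hγv : ∀ v, gam γ v = gam G (H *ᵥ v) := fun v => by rw [hγ]; exact gam_comp G H v
  have hrel : ∀ i j, γ i * γ j + γ j * γ i =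
      (if i = j then 1 else 0 : ℂ) • ((2 * c) • (1 : Matrix N N ℂ)) := by
    intro i j
    rw [hγ, gam_rel h]
    congr 1
    have h1 := congrFun (congrFun hQH i) j
    rw [Matrix.one_apply] at h1
    rw [← h1, Matrix.mulVec_mulVec, Matrix.mulVec_single_one, Matrix.mulVec_single_one,
      Matrix.mul_assoc]
    rfl
  have hanti : ∀ i j, i ≠ j → γ i * γ j = -(γ j * γ i) := by
    intro i j hij
    have h1 := hrel i j
    rw [if_neg hij, zero_smul] at h1
    exact eq_neg_of_add_eq_zero_left h1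
  have hsq : ∀ i, γ i * γ i = c • (1 : Matrix N N ℂ) := by
    intro i
    have h1 := hrel i i
    rw [if_pos rfl, one_smul, ← two_smul ℂ] at h1
    have h2 := congrArg (fun M => (1 / 2 : ℂ) • M) h1
    simp only [smul_smul] at h2
    norm_num at h2
    rw [h2]
    congr 1
    ring
  obtain ⟨om, hom⟩ : ∃ om, om = (List.ofFn γ).prod := ⟨_, rfl⟩
  have hprod : om * (List.ofFn γ).reverse.prod = (c ^ m) • (1 : Matrix N N ℂ) := by
    rw [hom, prod_rev (c • (1 : Matrix N N ℂ)) (List.ofFn γ), List.length_ofFn, smul_pow, one_pow]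
    · intro a _
      rw [Matrix.smul_mul, Matrix.mul_smul, Matrix.one_mul, Matrix.mul_one]
    · intro a ha
      obtain ⟨i, rfl⟩ := (List.mem_ofFn' _ _).1 ha
      exact hsq i
  have hinv : om * ((c ^ m)⁻¹ • (List.ofFn γ).reverse.prod) = 1 := by
    rw [Matrix.mul_smul, hprod, smul_smul, inv_mul_cancel₀ (pow_ne_zero _ hc), one_smul]
  have hinv' := mul_eq_one_comm.1 hinv
  refine ⟨om, (c ^ m)⁻¹ • (List.ofFn γ).reverse.prod, (-1) * (-1) ^ m, ?_, hinv, hinv', ?_, ?_, ?_⟩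
  · have : ((-1 : ℂ) ^ m) * (-1) ^ m = 1 := by rw [← pow_add, ← two_mul, pow_mul]; norm_num
    linear_combination this
  · intro v hv
    have h1 : v = H *ᵥ (K *ᵥ v) := by rw [Matrix.mulVec_mulVec, hHK, hv]
    -- enough for basis vectors
    have h2 : ∀ a, om * γ a = ((-1) * (-1) ^ m : ℂ) • (γ a * om) := by
      intro a
      have h3 := sign_prod (γ a) γ (fun i => if i = a then 1 else -1) (by
        intro i
        by_cases hi : i = a
        · subst hi
          rw [if_pos rfl, one_smul]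
        · rw [if_neg hi, neg_one_smul]
          exact hanti _ _ (Ne.symm hi))
      have h4 : ∏ i, (if i = a then 1 else -1 : ℂ) = (-1) * (-1) ^ m := by
        rw [Finset.prod_ite]
        simp only [Finset.prod_const_one, one_mul, Finset.prod_const]
        have h5 : (Finset.univ.filter fun i => ¬ i = a).card + 1 = m := by
          rw [Finset.filter_not, Finset.card_sdiff_of_subset (Finset.subset_univ _)]
          simp only [Finset.card_univ, Fintype.card_fin]
          have h6 : (Finset.univ.filter fun i => i = a).card = 1 := by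
            rw [Finset.filter_eq']
            simp
          rw [h6]
          have := a.pos
          omega
        conv_rhs => rw [← h5]
        rw [pow_succ]
        ring
      rw [← hom, h4] at h3
      rw [h3, smul_smul]
      have : ((-1) * (-1) ^ m : ℂ) * ((-1) * (-1) ^ m) = 1 := by
        have : ((-1 : ℂ) ^ m) * (-1) ^ m = 1 := by rw [← pow_add, ← two_mul, pow_mul]; norm_num
        linear_combination this
      rw [this, one_smul]
    rw [h1, ← hγv, gam_apply, Finset.mul_sum, Finset.sum_mul, Finset.smul_sum]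
    refine Finset.sum_congr rfl fun a _ => ?_
    rw [Matrix.mul_smul, h2, Matrix.smul_mul, smul_comm]
  · intro v hv
    have h2 : ∀ a, gam G v * γ a = (-1 : ℂ) • (γ a * gam G v) := by
      intro a
      have h3 := gam_rel h v (H *ᵥ Pi.single a 1)
      have h4 : v ⬝ᵥ Q *ᵥ (H *ᵥ Pi.single a 1) = 0 := by
        rw [← hPv, Matrix.mulVec_mulVec _ Q P, ← hPQ, ← Matrix.mulVec_mulVec, Matrix.dotProduct_mulVec,
          Matrix.vecMul_transpose, hv, zero_dotProduct]
      rw [h4, zero_smul] at h3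
      rw [hγ, neg_one_smul]
      exact eq_neg_of_add_eq_zero_left h3
    have h3 := sign_prod (gam G v) γ (fun _ => -1) h2
    rw [← hom, Finset.prod_const, Finset.card_univ, Fintype.card_fin] at h3
    rw [h3, smul_smul]
    have : (-((-1) * (-1) ^ m) : ℂ) * (-1) ^ m = 1 := by
      have : ((-1 : ℂ) ^ m) * (-1) ^ m = 1 := by rw [← pow_add, ← two_mul, pow_mul]; norm_num
      linear_combination this
    rw [this, one_smul]
  · intro z b hzP hzQ hb
    have h1 := AA_der γ b (K * z * H) (by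
      intro i
      rw [hγv, hγ]
      simp only
      rw [hb]
      have h0 : z * H = H * (K * z * H) := by
        rw [← Matrix.mul_assoc, ← Matrix.mul_assoc, hHK, ← hzP, Matrix.mul_assoc, hPH]
      rw [Matrix.mulVec_mulVec, Matrix.mulVec_mulVec, h0])
    have h2 : (K * z * H).trace = 0 := by
      have h3 : (K * z * H).trace = (z * P).trace := by
        rw [Matrix.trace_mul_comm, ← Matrix.mul_assoc, hHK, Matrix.trace_mul_comm]
      have hRQ : R * Q = 1 := mul_eq_one_comm.1 hQR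
      have h4 : (z * P).trace = -(z * P).trace := by
        calc (z * P).trace = ((z * P)ᵀ).trace := (Matrix.trace_transpose _).symm
          _ = (Pᵀ * zᵀ).trace := by rw [transpose_mul]
          _ = (Pᵀ * zᵀ * Q * R).trace := by
              rw [Matrix.mul_assoc _ Q R, hQR, Matrix.mul_one]
          _ = -(R * (Q * (P * z))).trace := by
              rw [Matrix.mul_assoc Pᵀ, eq_neg_of_add_eq_zero_left hzQ, Matrix.mul_neg,
                ← Matrix.mul_assoc, hPQ, Matrix.trace_mul_comm, Matrix.mul_neg,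
                Matrix.trace_neg, Matrix.mul_assoc]
          _ = -(z * P).trace := by
              rw [← Matrix.mul_assoc, hRQ, Matrix.one_mul, Matrix.trace_mul_comm]
      rw [h3]
      linear_combination h4 / 2
    rw [h2, zero_smul, AA_bas γ hanti, ← hom, Matrix.mul_smul, Matrix.smul_mul, ← smul_sub] at h1
    have h3 := (smul_eq_zero.1 h1).resolve_left (by exact_mod_cast m.factorial_ne_zero)
    exact (sub_eq_zero.1 h3).symm

theorem ks : S_ks := by
  intro n w V W Γ c h M ME hM hΓ P hPP hPx hcase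
  have hgΓ : ∀ J : Fin 1 → Fin n, mC (Γ (J 0)) = gam (fun i => mC (Γ i)) (Pi.single (J 0) 1) := by
    intro J
    rw [gam_single]
  -- the form with the projection
  have hmem : (fun J : Fin 1 → Fin n => gam (fun i => mC (Γ i)) (P *ᵥ Pi.single (J 0) 1)) ∈
      ME (Fin 1) := by
    rcases hcase with hs | ⟨h1, h2⟩
    · have hPQ : Pᵀ * mC V.Q = mC V.Q * P := by
        have h3 : (mC V.Q)⁻¹ * Pᵀ * mC V.Q = P := hs
        calc Pᵀ * mC V.Q = (mC V.Q * (mC V.Q)⁻¹) * (Pᵀ * mC V.Q) := by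
              rw [QRV, Matrix.one_mul]
          _ = mC V.Q * ((mC V.Q)⁻¹ * Pᵀ * mC V.Q) := by simp only [Matrix.mul_assoc]
          _ = mC V.Q * P := by rw [h3]
      obtain ⟨ω, ω', ε, hε, hω1, hω2, hin, hker, hcom⟩ := vol (Qt V) (QRV V) hPP hPQ h.c0 h.relC
      have hωy : ∀ σ : ℂ ≃+* ℂ, ω * W.y.map σ = W.y.map σ * ω := fun σ =>
        hcom _ _ (hPx σ) (xskew V σ) (h.b σ)
      have hωy' : ∀ σ : ℂ ≃+* ℂ, ω' * W.y.map σ = W.y.map σ * ω' := by
        intro σ
        calc ω' * W.y.map σ = ω' * W.y.map σ * (ω * ω') := by rw [hω1, Matrix.mul_one]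
          _ = ω' * (W.y.map σ * ω) * ω' := by simp only [Matrix.mul_assoc]
          _ = (ω' * ω) * (W.y.map σ * ω') := by rw [← hωy σ]; simp only [Matrix.mul_assoc]
          _ = W.y.map σ * ω' := by rw [hω2, Matrix.one_mul]
      have h3 := (ME (Fin 1)).smul_mem (1 / 2 : ℂ) ((ME (Fin 1)).add_mem hΓ
        ((ME (Fin 1)).smul_mem ε (ad_mem hM hωy hωy' hΓ)))
      convert h3 using 1
      funext J
      rw [Pi.smul_apply, Pi.add_apply, Pi.smul_apply, hgΓ]
      obtain ⟨u, hu⟩ : ∃ u : Fin n → ℂ, u = Pi.single (J 0) 1 := ⟨_, rfl⟩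
      rw [← hu]
      have h4 : u = P *ᵥ u + (u - P *ᵥ u) := by abel
      have h5 : P *ᵥ (P *ᵥ u) = P *ᵥ u := by rw [Matrix.mulVec_mulVec, hPP]
      have h6 : P *ᵥ (u - P *ᵥ u) = 0 := by rw [Matrix.mulVec_sub, h5, sub_self]
      have h7 := hin _ h5
      have h8 := hker _ h6
      have h9 : gam (fun i => mC (Γ i)) u = gam (fun i => mC (Γ i)) (P *ᵥ u) +
          gam (fun i => mC (Γ i)) (u - P *ᵥ u) := by
        rw [← map_add, ← h4]
      have h10 : ∀ a b : Matrix (Fin w) (Fin w) ℂ, ∀ t : ℂ, ω * a = t • (b * ω) →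
          ω * a * ω' = t • b := by
        intro a b t hab
        rw [hab, Matrix.smul_mul, Matrix.mul_assoc, hω1, Matrix.mul_one]
      have h12 : ∀ a b : Matrix (Fin w) (Fin w) ℂ,
          (1 / 2 : ℂ) • (a + b + ε • (ε • a + -ε • b)) = a := by
        intro a b
        have h11 : ε • (ε • a + -ε • b) = a - b := by
          rw [smul_add, smul_smul, smul_smul, mul_neg, hε, one_smul, neg_one_smul, sub_eq_add_neg]
        have h13 : a + b + (a - b) = (2 : ℂ) • a := by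
          rw [two_smul]
          abel
        rw [h11, h13, smul_smul]
        norm_num
      rw [h9, Matrix.mul_add, Matrix.add_mul, h10 _ _ _ h7, h10 _ _ _ h8, h12]
    · have hPc : ∀ σ : ℂ ≃+* ℂ, V.x.map σ * adV V P = adV V P * V.x.map σ := fun σ =>
        adV_comm (xskew V σ) (hPx σ)
      obtain ⟨D, hD⟩ : ∃ D, D = P - adV V P := ⟨_, rfl⟩
      have hRQ : (mC V.Q)⁻¹ * mC V.Q = 1 := mul_eq_one_comm.1 (QRV V)
      have hQa : mC V.Q * adV V P = Pᵀ * mC V.Q := by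
        unfold adV adj
        rw [← Matrix.mul_assoc, ← Matrix.mul_assoc, QRV, Matrix.one_mul]
      have hRt : ((mC V.Q)⁻¹)ᵀ = (mC V.Q)⁻¹ := by
        rw [Matrix.transpose_nonsing_inv, Qt]
      have hat : (adV V P)ᵀ * mC V.Q = mC V.Q * P := by
        unfold adV adj
        rw [transpose_mul, transpose_mul, transpose_transpose, Qt, hRt, Matrix.mul_assoc,
          Matrix.mul_assoc, hRQ, Matrix.mul_one]
      have hDs : Dᵀ * mC V.Q + mC V.Q * D = 0 := by
        rw [hD, transpose_sub, Matrix.sub_mul, Matrix.mul_sub, hat, hQa]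
        abel
      have hDx : ∀ σ : ℂ ≃+* ℂ, D * V.x.map σ = V.x.map σ * D := by
        intro σ
        rw [hD, Matrix.sub_mul, Matrix.mul_sub, hPx, hPc]
      have hsD : ∀ σ : ℂ ≃+* ℂ, sp V Γ c D * W.y.map σ = W.y.map σ * sp V Γ c D := by
        intro σ
        rw [h.y σ, ← sub_eq_zero]
        unfold sp
        rw [spin_spin (Qt V) (QRV V) h.c0 h.relC hDs, hDx σ, sub_self]
        unfold spin
        simp
      have hone : ∀ σ : ℂ ≃+* ℂ, (1 : Matrix (Fin w) (Fin w) ℂ) * W.y.map σ = W.y.map σ * 1 := by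
        intro σ
        rw [Matrix.one_mul, Matrix.mul_one]
      have hstep : ∀ B : Matrix (Fin n) (Fin n) ℂ,
          (fun J : Fin 1 → Fin n => gam (fun i => mC (Γ i)) (B *ᵥ Pi.single (J 0) 1)) ∈
            ME (Fin 1) →
          (fun J : Fin 1 → Fin n => gam (fun i => mC (Γ i)) ((D * B) *ᵥ Pi.single (J 0) 1)) ∈
            ME (Fin 1) := by
        intro B hB
        have h3 := (ME (Fin 1)).sub_mem (ad_mem hM hsD hone hB) (ad_mem hM hone hsD hB)
        convert h3 using 1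
        funext J
        rw [Pi.sub_apply, Matrix.mul_one, Matrix.one_mul, h.comm hDs, Matrix.mulVec_mulVec]
      have h3 := hstep 1 (by
        simp only [Matrix.one_mulVec]
        simp only [← hgΓ]
        exact hΓ)
      have h4 := hstep _ h3
      have h5 := (ME (Fin 1)).smul_mem (1 / 2 : ℂ) ((ME (Fin 1)).add_mem h3 h4)
      convert h5 using 1
      funext J
      rw [Pi.smul_apply, Pi.add_apply, ← map_add, ← map_smul, ← Matrix.add_mulVec,
        ← Matrix.smul_mulVec]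
      congr 2
      have h6 : adV V P * adV V P = adV V P := by
        have h7 : adV V (P * P) = adV V P * adV V P := by
          unfold adV adj
          rw [transpose_mul]
          calc (mC V.Q)⁻¹ * (Pᵀ * Pᵀ) * mC V.Q = (mC V.Q)⁻¹ * Pᵀ * 1 * Pᵀ * mC V.Q := by
                simp only [Matrix.mul_assoc, Matrix.one_mul]
            _ = _ := by rw [← QRV V]; simp only [Matrix.mul_assoc]
        rw [← h7, hPP]
      have h8 : D * (D * 1) = P + adV V P := by
        rw [Matrix.mul_one, hD, Matrix.sub_mul, Matrix.mul_sub, Matrix.mul_sub, hPP, h2, h1, h6]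
        abel
      rw [h8, Matrix.mul_one, hD]
      have h9 : P - adV V P + (P + adV V P) = (2 : ℂ) • P := by
        rw [two_smul]
        abel
      rw [h9, smul_smul]
      norm_num
  refine ⟨form_mem h hM hΓ hmem, fun hs m G H hHG hGH => ?_⟩
  have hPQ : Pᵀ * mC V.Q = mC V.Q * P := by
    have h3 : (mC V.Q)⁻¹ * Pᵀ * mC V.Q = P := hs
    calc Pᵀ * mC V.Q = (mC V.Q * (mC V.Q)⁻¹) * (Pᵀ * mC V.Q) := by
          rw [QRV, Matrix.one_mul]
      _ = mC V.Q * ((mC V.Q)⁻¹ * Pᵀ * mC V.Q) := by simp only [Matrix.mul_assoc]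
      _ = mC V.Q * P := by rw [h3]
  have : Nonempty (Fin w) := ⟨⟨0, h.pos⟩⟩
  refine det_mem (asys1 hM) (Qt V) (QRV V) hPQ hPx (xskew V) (Γ := fun i => mC (Γ i)) hmem h.b
    (Z := (2 * (c : ℂ)) • (1 : Matrix (Fin w) (Fin w) ℂ)) (fun u v _ _ => gam_rel h.relC u v)
    (fun u _ => by rw [Matrix.smul_mul, Matrix.mul_smul, Matrix.one_mul, Matrix.mul_one])
    (fun k => ?_) (fun d hd hd0 => ?_) hHG hGH
  · rw [smul_pow, one_pow]
    exact smul_ne_zero (pow_ne_zero _ (mul_ne_zero two_ne_zero h.c0)) one_ne_zero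
  · refine ⟨dg W (d.map cc), dg_comm hd, fun h0 => hd0 (posW W _ ?_ h0)⟩
    have := hd (RingEquiv.refl ℂ)
    rwa [map_refl'] at this

end

end

end Pool.Agent.Y89.KS
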