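import Pool.Agent.Y89.KS.MainB
import Pool.Agent.Y89.KS.Ks
import Pool.Agent.Y89.KS.Defs3

/-!
# Assembly: the Kuga-Satake class
-/

open Matrix Finset Function

set_option linter.unusedSectionVars false

namespace Pool.Agent.Y89.KS

noncomputable section

open Pool.Agent.W544.PG (HS HW mC cspan cx Kil S_hk S_lie)

section
variable {n w : ℕ}

theorem phi_E (W : HW w) (Γ : Fin n → Matrix (Fin w) (Fin w) ℚ) (i : Fin n) :
    phi W (fun i => W.E * Γ i) i = Γ i := by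
  unfold phi
  rw [← Matrix.mul_assoc, Matrix.nonsing_inv_mul _ (isUnit_iff_ne_zero.2 (detE' W)),
    Matrix.one_mul]

theorem thmA (hmix : S_mix) {V : HS n} {W : HW w} (hV : (V.x * V.x).trace = 2)
    {A : ∀ k : ℕ, Submodule ℚ ((Fin k → Fin n ⊕ Fin w) → ℚ)} (hA : Cycles V W A)
    {Γ : Fin n → Matrix (Fin w) (Fin w) ℚ} {c : ℚ} (h : Cliff V W Γ c)
    (hc : tri (fun i => W.E * Γ i) ∈ A 3)
    {k : ℕ} {t : (Fin k → Fin n ⊕ Fin w) → ℚ} (ht : IsHodge V W t) : t ∈ A k := by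
  have hx : V.x ≠ 0 := by
    intro h
    rw [h, Matrix.zero_mul, Matrix.trace_zero] at hV
    norm_num at hV
  have hS := sysC hA
  have hG := gsys_gen hS
  have hE := esys tot hA
  have hΓ : (fun J : Fin 1 → Fin n => mC (Γ (J 0))) ∈ MEV (mC W.E) (AC A) (Fin 1) := by
    have h1 := phi_mem hA hc
    simp only [phi_E] at h1
    exact h1
  obtain ⟨P, hP⟩ := Pool.Agent.Y166.KS.blk0 n V hV
  obtain ⟨m, pr, N, hbl, hpr⟩ := Pool.Agent.Y175.KS.blk n V P hP hx
  have hidem : ∀ i, pr i * pr i = pr i := by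
    intro i
    have h1 : pr i * ∑ j, pr j = pr i := by rw [hbl.sum, Matrix.mul_one]
    rw [Finset.mul_sum, Finset.sum_eq_single i] at h1
    · exact h1
    · intro j _ hj
      exact hbl.orth i j hj.symm
    · intro h
      exact absurd (Finset.mem_univ i) h
  have hks : ∀ i, ¬ N i → (fun J : Fin 2 → Fin n => ((pr i)ᵀ * mC V.Q) (J 0) (J 1)) ∈
      MV (w := w) (AC A) (Fin 2) ∧ (adV V (pr i) = pr i → ∀ (m : ℕ) (G : Matrix (Fin m) (Fin n) ℂ)
      (H : Matrix (Fin n) (Fin m) ℂ), H * G = pr i → G * H = 1 →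
      (fun J : Fin m → Fin n => (G.submatrix id J).det) ∈ MV (w := w) (AC A) (Fin m)) := by
    intro i hi
    refine ks n w V W Γ c h _ _ hE hΓ (pr i) (hidem i) (fun σ => hbl.comm i _ (x_mem V σ)) ?_
    have hz : ∀ (σ : ℂ ≃+* ℂ) (a b : Matrix (Fin n) (Fin n) ℂ), a * b = 0 →
        a.map σ * b.map σ = 0 := by
      intro σ a b hab
      rw [← mul_map, hab]
      ext p q
      simp
    obtain ⟨σ, hσ | hσ⟩ := hpr i hi
    · rcases hP.type with ⟨h1, -, -, -⟩ | ⟨h1, h2, -⟩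
      · left
        rw [hσ, adV_map, h1]
      · right
        rw [hσ, adV_map]
        exact ⟨hz σ _ _ h1, hz σ _ _ h2⟩
    · rcases hP.type with ⟨h1, -, -, -⟩ | ⟨h1, h2, -⟩
      · left
        rw [hσ, adV_map, adV_adV, h1]
      · right
        rw [hσ, adV_map, adV_adV]
        exact ⟨hz σ _ _ h2, hz σ _ _ h1⟩
  have hmain := hmix n w V W Γ c h (gen (AC A)) hG
    (fun S _ _ f hf => Pool.Agent.Y166.KS.fft (Fin n) (mC V.Q) (mC V.Q)⁻¹ (g0 V) (Fin m) pr N hbl
      (MV (w := w) (AC A)) hE.sys (fun f hf => lin_mem hA f hf) (fun i hi => (hks i hi).1)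
      (fun i hi hs m G H h1 h2 => (hks i hi).2 hs m G H h1 h2) S f hf)
    (fun d hd => me_const hG Empty d ((mem_gen_fin hS).2 (const_mem hA d hd)))
    hΓ (Fin k) (cx t) (fun σ => by
      rw [← Xop_map]
      exact der_cx_conj σ _ t (der_cx.1 ht))
  exact dsc2 _ _ _ ((mem_gen_fin hS).1 hmain)

end

end

end Pool.Agent.Y89.KS
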