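import Pool.Agent.W544.PG.Defs6

/-!
# Hodge classes on powers of varieties of K3 type: definitions and statements of the parts

`F` is a field, `ι` the index set of a basis of a vector space, `(S → ι) → F` the space of the
multilinear forms in variables indexed by `S`.
-/

open Matrix Finset

namespace Pool.Agent.Y89.KS

noncomputable section

section sys
variable {F : Type} [Field F] {ι : Type} [Fintype ι]

/-- Spaces of forms in `k` variables closed under products, permutations of the variables and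
contractions with `R`. -/
structure Sys (R : Matrix ι ι F) (A : ∀ k : ℕ, Submodule F ((Fin k → ι) → F)) : Prop where
  unit : (fun _ => 1) ∈ A 0
  mul : ∀ (k l : ℕ) (f : (Fin k → ι) → F) (g : (Fin l → ι) → F), f ∈ A k → g ∈ A l →
    (fun J : Fin (k + l) → ι =>
      f (fun i => J (Fin.castAdd l i)) * g (fun i => J (Fin.natAdd k i))) ∈ A (k + l)
  perm : ∀ (k : ℕ) (σ : Equiv.Perm (Fin k)) (f : (Fin k → ι) → F), f ∈ A k →
    (fun J : Fin k → ι => f (fun i => J (σ i))) ∈ A k
  con : ∀ (k : ℕ) (f : (Fin (k + 2) → ι) → F), f ∈ A (k + 2) →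
    (fun J : Fin k → ι => ∑ p, ∑ q, R p q * f (Fin.append J ![p, q])) ∈ A k

/-- The same for variables indexed by arbitrary types. -/
structure GSys (R : Matrix ι ι F) (M : ∀ S : Type, Submodule F ((S → ι) → F)) : Prop where
  unit : ∀ (S : Type) [IsEmpty S] (f : (S → ι) → F), f ∈ M S
  mul : ∀ (S S' : Type) (f : (S → ι) → F) (g : (S' → ι) → F), f ∈ M S → g ∈ M S' →
    (fun J : S ⊕ S' → ι => f (fun s => J (Sum.inl s)) * g (fun s => J (Sum.inr s))) ∈ M (S ⊕ S')
  reidx : ∀ (S S' : Type) (e : S ≃ S') (f : (S → ι) → F), f ∈ M S →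
    (fun J : S' → ι => f (fun s => J (e s))) ∈ M S'
  con : ∀ (S : Type) (f : (S ⊕ Bool → ι) → F), f ∈ M (S ⊕ Bool) →
    (fun J : S → ι => ∑ p, ∑ q, R p q * f (Sum.elim J fun b => cond b q p)) ∈ M S

/-- The forms in variables indexed by `S` which belong to `A`. -/
def gen (A : ∀ k : ℕ, Submodule F ((Fin k → ι) → F)) (S : Type) : Submodule F ((S → ι) → F) where
  carrier := {f | ∀ (k : ℕ) (e : Fin k ≃ S),
    (fun J : Fin k → ι => f (fun s => J (e.symm s))) ∈ A k}
  zero_mem' := fun k _ => (A k).zero_mem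
  add_mem' := fun ha hb k e => (A k).add_mem (ha k e) (hb k e)
  smul_mem' := fun c _ ha k e => (A k).smul_mem c (ha k e)

/-- (GEN) -/
def S_gen : Prop := ∀ (F : Type) [Field F] (ι : Type) [Fintype ι] (R : Matrix ι ι F)
  (A : ∀ k : ℕ, Submodule F ((Fin k → ι) → F)), Sys R A →
  GSys R (gen A) ∧ ∀ (k : ℕ) (f : (Fin k → ι) → F), f ∈ gen A (Fin k) ↔ f ∈ A k

/-- the action of the matrix `z` on the variable `j` -/
def sl {S : Type} [DecidableEq S] (j : S) (z : Matrix ι ι F) (f : (S → ι) → F) : (S → ι) → F :=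
  fun J => ∑ p, z p (J j) * f (Function.update J j p)

/-- the action of `z` as a derivation -/
def der {S : Type} [Fintype S] [DecidableEq S] (z : Matrix ι ι F) (f : (S → ι) → F) :
    (S → ι) → F := fun J => ∑ j, sl j z f J

/-- the operator `a ∧ b` -/
def wdg (Q : Matrix ι ι F) (a b : ι → F) : Matrix ι ι F :=
  Matrix.vecMulVec a (Q *ᵥ b) - Matrix.vecMulVec b (Q *ᵥ a)

/-- the adjoint of `P` for the form `Q` with the inverse `R` -/
def adj (Q R P : Matrix ι ι F) : Matrix ι ι F := R * Pᵀ * Q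

/-- A decomposition of the space into blocks, stable under the set `g` of skew operators, such that
`g` is zero on the blocks `i` with `N i` and contains the operators `a ∧ b`, `a` in the block `i`
and `b` in the dual block, for the other blocks. -/
structure Blocks [DecidableEq ι] (Q R : Matrix ι ι F) (g : Set (Matrix ι ι F)) (κ : Type)
    [Fintype κ] (pr : κ → Matrix ι ι F) (N : κ → Prop) : Prop where
  QR : Q * R = 1
  symm : Qᵀ = Q
  sum : ∑ i, pr i = 1
  orth : ∀ i j, i ≠ j → pr i * pr j = 0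
  comm : ∀ i, ∀ z ∈ g, z * pr i = pr i * z
  skew : ∀ z ∈ g, zᵀ * Q + Q * z = 0
  nul : ∀ i, N i → ∀ z ∈ g, z * pr i = 0
  wedge : ∀ i, ¬ N i → ∀ a b, wdg Q (pr i *ᵥ a) (adj Q R (pr i) *ᵥ b) ∈ g
  type : ∀ i, ¬ N i → adj Q R (pr i) = pr i ∨ adj Q R (pr i) * pr i = 0

end sys

/-- (FFT) the first fundamental theorem: all invariants are generated by the linear ones, by the
forms of the blocks and by the determinants of the self-dual blocks -/
def S_fft : Prop := ∀ (ι : Type) [Fintype ι] [DecidableEq ι] (Q R : Matrix ι ι ℂ)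
  (g : Set (Matrix ι ι ℂ)) (κ : Type) [Fintype κ] (pr : κ → Matrix ι ι ℂ) (N : κ → Prop),
  Blocks Q R g κ pr N → ∀ M : ∀ S : Type, Submodule ℂ ((S → ι) → ℂ), GSys R M →
  (∀ f : (Fin 1 → ι) → ℂ, (∀ z ∈ g, der z f = 0) → f ∈ M (Fin 1)) →
  (∀ i, ¬ N i → (fun J : Fin 2 → ι => ((pr i)ᵀ * Q) (J 0) (J 1)) ∈ M (Fin 2)) →
  (∀ i, ¬ N i → adj Q R (pr i) = pr i → ∀ (m : ℕ) (G : Matrix (Fin m) ι ℂ)
    (H : Matrix ι (Fin m) ℂ), H * G = pr i → G * H = 1 →
    (fun J : Fin m → ι => (G.submatrix id J).det) ∈ M (Fin m)) →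
  ∀ (S : Type) [Fintype S] [DecidableEq S] (f : (S → ι) → ℂ), (∀ z ∈ g, der z f = 0) → f ∈ M S

end

end Pool.Agent.Y89.KS
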