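import Pool.Agent.Y89.KS.Defs3

/-!
# Hodge classes on powers of varieties of K3 type: definitions and statements of the parts, IV
-/

open Matrix Finset

namespace Pool.Agent.Y89.KS

noncomputable section

open Pool.Agent.W544.PG (HS HW mC cspan cx)

/-- generalised Clifford relations on the vectors in `L` -/
structure CRel {n : ℕ} (Q : Matrix (Fin n) (Fin n) ℂ) (L : Set (Fin n → ℂ)) {N : Type} [Fintype N]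
    [DecidableEq N] (Φ : (Fin n → ℂ) → Matrix N N ℂ) (Z : Matrix N N ℂ) : Prop where
  rel : ∀ u ∈ L, ∀ v ∈ L, Φ u * Φ v + Φ v * Φ u = (u ⬝ᵥ Q *ᵥ v) • Z
  cen : ∀ u ∈ L, Z * Φ u = Φ u * Z

/-- `y` acts on the `Φ v` as the operator `e ∧ f` on the vectors -/
structure YRel {n : ℕ} (Q : Matrix (Fin n) (Fin n) ℂ) (L : Set (Fin n → ℂ)) {N : Type} [Fintype N]
    [DecidableEq N] (Φ : (Fin n → ℂ) → Matrix N N ℂ) (Z : Matrix N N ℂ) (e f : Fin n → ℂ)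
    (y : Matrix N N ℂ) : Prop where
  sq : (4 : ℂ) • (y * y) = 1
  com : Z * y = y * Z
  der : ∀ v ∈ L, y * Φ v - Φ v * y = (f ⬝ᵥ Q *ᵥ v) • Φ e - (e ⬝ᵥ Q *ᵥ v) • Φ f

/-- (TR) universal traces -/
def S_tr : Prop := ∀ (n : ℕ) (Q : Matrix (Fin n) (Fin n) ℂ) (L : Set (Fin n → ℂ))
  (s : List ((Fin n → ℂ) × (Fin n → ℂ))), Qᵀ = Q →
  (∀ p ∈ s, p.1 ∈ L ∧ p.2 ∈ L ∧ p.1 ⬝ᵥ Q *ᵥ p.1 = 0 ∧ p.2 ⬝ᵥ Q *ᵥ p.2 = 0 ∧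
    p.1 ⬝ᵥ Q *ᵥ p.2 = 1) →
  ∃ u : ℂ, ∀ (N : Type) [Fintype N] [DecidableEq N] (Φ : (Fin n → ℂ) → Matrix N N ℂ)
    (Z : Matrix N N ℂ), CRel Q L Φ Z → ∀ ys : List (Matrix N N ℂ),
    List.Forall₂ (fun p y => YRel Q L Φ Z p.1 p.2 y) s ys →
    ∀ M : ℕ, (Z ^ (4 * s.length + M) * ys.prod).trace = u * (Z ^ (4 * s.length + M)).trace

/-- (PRJ) -/
def S_prj : Prop := ∀ (w : ℕ) (W : HW w) (ζ : Fin 2 → Matrix (Fin w) (Fin w) ℂ),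
  ∃ e : Matrix (Fin w) (Fin w) ℂ,
    e ∈ Submodule.span ℂ {g | ∃ l : List (ℂ ≃+* ℂ), g = (l.map fun σ : ℂ ≃+* ℂ => W.y.map σ).prod} ∧
    (∀ i, e * ζ i = ζ i) ∧
    ∀ X : Matrix (Fin w) (Fin w) ℂ,
      (∀ b : Matrix (Fin w) (Fin w) ℂ, (∀ σ : ℂ ≃+* ℂ, b * W.y.map σ = W.y.map σ * b) →
        ∀ i, X * b * ζ i = 0) → X * e = 0

end

end Pool.Agent.Y89.KS
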