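import Pool.Agent.Y89.KS.Defs2
import Pool.Agent.W927.PG.Coord

/-!
# The two eigenvectors of the Hodge operator
-/

open Matrix Finset Function

set_option linter.unusedSectionVars false

namespace Pool.Agent.Y89.KS

noncomputable section

open Pool.Agent.W544.PG (HS HW mC cspan cx)

section
variable {n : ℕ}

/-- the bilinear form -/
def qq (V : HS n) (u v : Fin n → ℂ) : ℂ := u ⬝ᵥ (mC V.Q *ᵥ v)

theorem Qt (V : HS n) : (mC V.Q)ᵀ = mC V.Q := by
  show (V.Q.map _)ᵀ = _
  rw [← Matrix.transpose_map, V.symm]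
  rfl

theorem qq_comm (V : HS n) (u v : Fin n → ℂ) : qq V u v = qq V v u := by
  unfold qq
  rw [Matrix.dotProduct_mulVec, ← Matrix.mulVec_transpose, Qt, dotProduct_comm]

theorem qq_add (V : HS n) (u v v' : Fin n → ℂ) : qq V u (v + v') = qq V u v + qq V u v' := by
  unfold qq
  rw [Matrix.mulVec_add, dotProduct_add]

theorem qq_sub (V : HS n) (u v v' : Fin n → ℂ) : qq V u (v - v') = qq V u v - qq V u v' := by
  unfold qq
  rw [Matrix.mulVec_sub, dotProduct_sub]

theorem qq_smul (V : HS n) (c : ℂ) (u v : Fin n → ℂ) : qq V u (c • v) = c * qq V u v := by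
  unfold qq
  rw [Matrix.mulVec_smul, dotProduct_smul, smul_eq_mul]

theorem qq_add' (V : HS n) (u u' v : Fin n → ℂ) : qq V (u + u') v = qq V u v + qq V u' v := by
  rw [qq_comm, qq_add, qq_comm V v, qq_comm V v]

theorem qq_sub' (V : HS n) (u u' v : Fin n → ℂ) : qq V (u - u') v = qq V u v - qq V u' v := by
  rw [qq_comm, qq_sub, qq_comm V v, qq_comm V v]

theorem qq_smul' (V : HS n) (c : ℂ) (u v : Fin n → ℂ) : qq V (c • u) v = c * qq V u v := by
  rw [qq_comm, qq_smul, qq_comm V v]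

theorem Qdet (V : HS n) : (mC V.Q).det ≠ 0 := by
  intro h0
  have h1 : (mC V.Q * ((2 : ℂ) • (V.x * V.x) - 1)).det = 0 := by
    rw [det_mul, h0, zero_mul]
  obtain ⟨v, hv, hv0⟩ := Matrix.exists_mulVec_eq_zero_iff.2 h1
  have := V.pos v hv
  rw [hv0] at this
  simp at this

/-- a vector is zero if it is orthogonal to everything -/
theorem qq_ext (V : HS n) {u v : Fin n → ℂ} (h : ∀ t, qq V t u = qq V t v) : u = v := by
  have h1 : mC V.Q *ᵥ u = mC V.Q *ᵥ v := by
    funext i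
    have := h (Pi.single i 1)
    simpa [qq] using this
  have h2 : (mC V.Q)⁻¹ * mC V.Q = 1 := Matrix.nonsing_inv_mul _ (isUnit_iff_ne_zero.2 (Qdet V))
  calc u = (1 : Matrix (Fin n) (Fin n) ℂ) *ᵥ u := (Matrix.one_mulVec u).symm
    _ = (mC V.Q)⁻¹ *ᵥ (mC V.Q *ᵥ u) := by rw [← h2, Matrix.mulVec_mulVec]
    _ = v := by rw [h1, Matrix.mulVec_mulVec, h2, Matrix.one_mulVec]

theorem qq_skew (V : HS n) {z : Matrix (Fin n) (Fin n) ℂ} (hz : zᵀ * mC V.Q + mC V.Q * z = 0)
    (u v : Fin n → ℂ) : qq V (z *ᵥ u) v = -qq V u (z *ᵥ v) := by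
  unfold qq
  rw [← Matrix.vecMul_transpose, ← Matrix.dotProduct_mulVec, Matrix.mulVec_mulVec,
    eq_neg_of_add_eq_zero_left hz, Matrix.neg_mulVec, dotProduct_neg, Matrix.mulVec_mulVec]

theorem wdg_mulVec (V : HS n) (a b v : Fin n → ℂ) :
    wdg (mC V.Q) a b *ᵥ v = qq V b v • a - qq V a v • b := by
  unfold wdg
  have h : ∀ c : Fin n → ℂ, (mC V.Q *ᵥ c) ⬝ᵥ v = qq V c v := by
    intro c
    rw [qq_comm]
    unfold qq
    rw [dotProduct_comm]
  rw [Matrix.sub_mulVec, Matrix.vecMulVec_mulVec, Matrix.vecMulVec_mulVec, h, h]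
  simp

/-- The eigenvectors of the Hodge operator. -/
structure EF (V : HS n) (e f : Fin n → ℂ) : Prop where
  ee : qq V e e = 0
  ff : qq V f f = 0
  ef : qq V e f = 1
  x : ∀ v, V.x *ᵥ v = qq V f v • e - qq V e v • f

theorem two_le (V : HS n) (hV : (V.x * V.x).trace = 2) : 2 ≤ n := by
  by_contra h
  have hn : n = 0 ∨ n = 1 := by omega
  rcases hn with rfl | rfl
  · simp [Matrix.trace] at hV
  · have h1 := congrFun (congrFun V.skew 0) 0
    have h2 := Qdet V
    rw [Matrix.det_fin_one] at h2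
    simp only [Matrix.add_apply, Matrix.mul_apply, Fin.sum_univ_one, Matrix.transpose_apply,
      Matrix.zero_apply] at h1
    have h3 : V.x 0 0 = 0 := by
      have h4 : 2 * (mC V.Q 0 0) * V.x 0 0 = 0 := by linear_combination h1
      rcases mul_eq_zero.1 h4 with h5 | h5
      · exact absurd (by simpa using h5) h2
      · exact h5
    rw [Matrix.trace_fin_one, Matrix.mul_apply, Fin.sum_univ_one, h3] at hV
    norm_num at hV

open Pool.Agent.W544.PG in
theorem exists_ef (V : HS n) (hV : (V.x * V.x).trace = 2) : ∃ e f, EF V e f := by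
  obtain ⟨q, rfl⟩ := Nat.exists_eq_add_of_le (two_le V hV)
  obtain ⟨g, hg1, -, hg3, hg4⟩ := Pool.Agent.W927.PG.coord (2 + q) 1 q V (by
    rw [hV]; norm_num) (by omega)
  set g' := gᴴ * V.H with hg'
  have hqq : ∀ a b, qq V (g *ᵥ a) (g *ᵥ b) = a ⬝ᵥ (B0 1 q *ᵥ b) := by
    intro a b
    unfold qq
    rw [← hg1, ← Matrix.vecMul_transpose, ← Matrix.dotProduct_mulVec, Matrix.mulVec_mulVec,
      Matrix.mulVec_mulVec, Matrix.mul_assoc]
  have hv : ∀ v, v = g *ᵥ (g' *ᵥ v) := by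
    intro v
    rw [Matrix.mulVec_mulVec, hg3, Matrix.one_mulVec]
  refine ⟨g *ᵥ Pi.single (Sum.inl 0) 1, g *ᵥ Pi.single (Sum.inr (Sum.inr 0)) 1, ?_, ?_, ?_, ?_⟩
  · rw [hqq]
    simp [B0]
  · rw [hqq]
    simp [B0]
  · rw [hqq]
    simp [B0]
  · intro v
    rw [hv v]
    set c := g' *ᵥ v
    rw [hqq, hqq, Matrix.mulVec_mulVec, hg4, ← Matrix.mulVec_mulVec, ← Matrix.mulVec_smul,
      ← Matrix.mulVec_smul, ← Matrix.mulVec_sub]
    congr 1
    funext i
    rcases i with i | i | i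
    · simp [x0, big0, B0, Matrix.mulVec, dotProduct, Matrix.one_apply, Pi.single_apply,
        Subsingleton.elim i 0]
    · simp [x0, big0, B0, Matrix.mulVec, dotProduct]
    · simp [x0, big0, B0, Matrix.mulVec, dotProduct, Matrix.one_apply, Pi.single_apply,
        Subsingleton.elim i 0]

end

end

end Pool.Agent.Y89.KS
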