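import Pool.Agent.Y89.KS.Defs5
import Pool.Agent.Y89.KS.Ks
import Pool.Agent.Y89.KS.Ef
import Pool.Agent.Y89.KS.AsmB

/-!
# Hodge classes on powers of varieties of K3 type: definitions and statements of the parts, VI
(the level of sub-Hodge structures)
-/

open Matrix Finset

namespace Pool.Agent.Y89.KS

noncomputable section

open Pool.Agent.W544.PG (HS HW mC cspan cx)

/-- the indices of the vectors of a frame: `e_a`, `f_a`, `o_i` -/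
abbrev Ix (α ω : Type) : Type := α ⊕ (α ⊕ ω)

/-- the involution `e_a ↔ f_a`, `o_i ↔ o_i` -/
def st {α ω : Type} : Ix α ω → Ix α ω
  | Sum.inl a => Sum.inr (Sum.inl a)
  | Sum.inr (Sum.inl a) => Sum.inl a
  | Sum.inr (Sum.inr i) => Sum.inr (Sum.inr i)

/-- `l` on `e_a`, `-l` on `f_a`, zero on `o_i` -/
def wt {α ω : Type} (l : α → ℤ) : Ix α ω → ℤ
  | Sum.inl a => l a
  | Sum.inr (Sum.inl a) => -l a
  | Sum.inr (Sum.inr _) => 0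

section frame
variable {n : ℕ} {α ω : Type}

/-- the operator `b_p ∧ b_q` -/
abbrev wg (V : HS n) (b : Ix α ω → Fin n → ℂ) (p q : Ix α ω) : Matrix (Fin n) (Fin n) ℂ :=
  wdg (mC V.Q) (b p) (b q)

/-- A frame: isotropic vectors `e_a`, `f_a` and vectors `o_i` such that the Lie algebra is spanned
by operators `b_p ∧ b_q`; `c` is an injective positive function on the indices `a`. -/
structure Frame (V : HS n) (c : α → ℤ) (b : Ix α ω → Fin n → ℂ) : Prop where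
  pos : ∀ a, 0 < c a
  inj : Function.Injective c
  dual : ∀ p, qq V (b p) (b (st p)) = 1
  orth : ∀ p q, q ≠ st p → qq V (b p) (b q) = 0
  span : ∀ z ∈ g0 V, z ∈ Submodule.span ℂ {z' | z' ∈ g0 V ∧ ∃ p q, z' = wg V b p q}
  cartan : ∀ a, wg V b (Sum.inl a) (Sum.inr (Sum.inl a)) ∈ g0 V
  opp : ∀ p q, wg V b p q ∈ g0 V → wg V b (st q) (st p) ∈ g0 V
  odd : ∀ i j : ω, i ≠ j → wg V b (Sum.inr (Sum.inr i)) (Sum.inr (Sum.inr j)) ∉ g0 V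
  top : ∀ a, ∃ (a₁ : α) (σ : ℂ ≃+* ℂ),
    (wg V b (Sum.inl a₁) (Sum.inr (Sum.inl a₁)) = V.x.map σ ∨
      wg V b (Sum.inl a₁) (Sum.inr (Sum.inl a₁)) = -V.x.map σ) ∧
    (a₁ = a ∨ c a < c a₁ ∧ wg V b (Sum.inl a₁) (Sum.inr (Sum.inl a)) ∈ g0 V)

/-- the weight `l` is dominant -/
def Dom (V : HS n) (c : α → ℤ) (b : Ix α ω → Fin n → ℂ) (l : α → ℤ) : Prop :=
  ∀ p q, wg V b p q ∈ g0 V → 0 < wt c p + wt c q → 0 ≤ wt l p + wt l q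

/-- `v` is a vector of weight `l / 2` killed by the positive operators -/
structure Highest (V : HS n) (c : α → ℤ) (b : Ix α ω → Fin n → ℂ) {E : Type} [AddCommGroup E]
    [Module ℂ E] (ρ : Matrix (Fin n) (Fin n) ℂ →ₗ[ℂ] Module.End ℂ E) (l : α → ℤ) (v : E) :
    Prop where
  car : ∀ a, ρ (wg V b (Sum.inl a) (Sum.inr (Sum.inl a))) v = ((l a : ℂ) / 2) • v
  kill : ∀ p q, wg V b p q ∈ g0 V → 0 < wt c p + wt c q → ρ (wg V b p q) v = 0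

/-- `ρ` is a representation of `g0 V` -/
def Rep (V : HS n) {E : Type} [AddCommGroup E] [Module ℂ E]
    (ρ : Matrix (Fin n) (Fin n) ℂ →ₗ[ℂ] Module.End ℂ E) : Prop :=
  ∀ z ∈ g0 V, ∀ z' ∈ g0 V, ρ (z * z' - z' * z) = ρ z * ρ z' - ρ z' * ρ z

end frame

/-- (CORE) -/
def S_core : Prop := ∀ (n : ℕ) (V : HS n) (α ω : Type) [Fintype α] [Fintype ω] (c : α → ℤ)
  (b : Ix α ω → Fin n → ℂ), Frame V c b →
  ∀ (E₁ E₂ : Type) [AddCommGroup E₁] [Module ℂ E₁] [FiniteDimensional ℂ E₁] [AddCommGroup E₂]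
  [Module ℂ E₂] [FiniteDimensional ℂ E₂] (ρ₁ : Matrix (Fin n) (Fin n) ℂ →ₗ[ℂ] Module.End ℂ E₁)
  (ρ₂ : Matrix (Fin n) (Fin n) ℂ →ₗ[ℂ] Module.End ℂ E₂), Rep V ρ₁ → Rep V ρ₂ →
  ∀ (B₁ : E₁ →ₗ⋆[ℂ] E₁ →ₗ[ℂ] ℂ) (B₂ : E₂ →ₗ⋆[ℂ] E₂ →ₗ[ℂ] ℂ),
  (∀ a, a ≠ 0 → 0 < (B₁ a a).re) → (∀ a, a ≠ 0 → 0 < (B₂ a a).re) →
  (∀ z ∈ g0 V, ∃ z' ∈ g0 V, (∀ a a', B₁ (ρ₁ z a) a' = B₁ a (ρ₁ z' a')) ∧
    ∀ a a', B₂ (ρ₂ z a) a' = B₂ a (ρ₂ z' a')) →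
  ∀ (v₁ : E₁) (v₂ : E₂) (l : α → ℤ), v₂ ≠ 0 → Highest V c b ρ₁ l v₁ → Highest V c b ρ₂ l v₂ →
  ∃ Φ : E₂ →ₗ[ℂ] E₁, (∀ z ∈ g0 V, ∀ s, Φ (ρ₂ z s) = ρ₁ z (Φ s)) ∧ Φ v₂ = v₁

/-- (TOP) existence of highest weight vectors -/
def S_top : Prop := ∀ (n : ℕ) (V : HS n) (α ω : Type) [Fintype α] [Fintype ω] (c : α → ℤ)
  (b : Ix α ω → Fin n → ℂ), Frame V c b →
  ∀ (E : Type) [AddCommGroup E] [Module ℂ E] [FiniteDimensional ℂ E]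
  (ρ : Matrix (Fin n) (Fin n) ℂ →ₗ[ℂ] Module.End ℂ E), Rep V ρ →
  ∀ (m : ℕ) (L : Submodule ℂ E), L ≠ ⊥ → (∀ z ∈ g0 V, ∀ v ∈ L, ρ z v ∈ L) →
  (∀ (σ : ℂ ≃+* ℂ), ∀ v ∈ L, v ≠ 0 → ∀ μ : ℂ, ρ (V.x.map σ) v = μ • v →
    ∃ j : ℕ, j ≤ m ∧ 2 * μ = (m : ℂ) - 2 * j) →
  ∃ v ∈ L, v ≠ 0 ∧ ∃ l : α → ℤ, (∀ a, |l a| ≤ m ∧ (2 : ℤ) ∣ m - l a) ∧ Dom V c b l ∧
    Highest V c b ρ l v

/-- (HYP) hyperbolic bases -/
def S_hyp : Prop := ∀ (n : ℕ) (Q R P : Matrix (Fin n) (Fin n) ℂ), Qᵀ = Q → Q * R = 1 →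
  P * P = P → adj Q R P = P → ∀ e f : Fin n → ℂ, P *ᵥ e = e → P *ᵥ f = f →
  e ⬝ᵥ Q *ᵥ e = 0 → f ⬝ᵥ Q *ᵥ f = 0 → e ⬝ᵥ Q *ᵥ f = 1 →
  ∃ (r O : ℕ) (b : Ix (Fin (r + 1)) (Fin O) → Fin n → ℂ), O ≤ 1 ∧
    b (Sum.inl 0) = e ∧ b (Sum.inr (Sum.inl 0)) = f ∧ (∀ p, P *ᵥ b p = b p) ∧
    (∀ p, b p ⬝ᵥ Q *ᵥ b (st p) = 1) ∧ (∀ p q, q ≠ st p → b p ⬝ᵥ Q *ᵥ b q = 0) ∧
    P = ∑ p, Matrix.vecMulVec (b p) (Q *ᵥ b (st p))

/-- (GLB) dual bases -/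
def S_glb : Prop := ∀ (n : ℕ) (Q R P : Matrix (Fin n) (Fin n) ℂ), Qᵀ = Q → Q * R = 1 →
  P * P = P → adj Q R P * P = 0 → ∀ e f : Fin n → ℂ, P *ᵥ e = e → adj Q R P *ᵥ f = f →
  e ⬝ᵥ Q *ᵥ f = 1 →
  ∃ (r : ℕ) (b b' : Fin (r + 1) → Fin n → ℂ), b 0 = e ∧ b' 0 = f ∧ (∀ a, P *ᵥ b a = b a) ∧
    (∀ a, adj Q R P *ᵥ b' a = b' a) ∧ (∀ a, b a ⬝ᵥ Q *ᵥ b' a = 1) ∧
    (∀ a a', a ≠ a' → b a ⬝ᵥ Q *ᵥ b' a' = 0) ∧
    P = ∑ a, Matrix.vecMulVec (b a) (Q *ᵥ b' a)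

/-- (FRAME) existence of frames -/
def S_frame : Prop := ∀ (n : ℕ) (V : HS n), (V.x * V.x).trace = 2 →
  ∃ (α ω : Type) (_ : Fintype α) (_ : Fintype ω) (c : α → ℤ) (b : Ix α ω → Fin n → ℂ),
    Frame V c b

section reps
variable {n w : ℕ}

/-- the action as a derivation, as a linear map -/
def derL {ι : Type} [Fintype ι] (k : ℕ) :
    Matrix ι ι ℂ →ₗ[ℂ] Module.End ℂ ((Fin k → ι) → ℂ) where
  toFun z :=
    { toFun := fun f => der z f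
      map_add' := by
        intro f g
        funext J
        simp only [der, sl, Pi.add_apply, mul_add, Finset.sum_add_distrib]
      map_smul' := by
        intro a f
        funext J
        simp only [der, sl, Pi.smul_apply, smul_eq_mul, RingHom.id_apply, Finset.mul_sum]
        refine Finset.sum_congr rfl fun j _ => Finset.sum_congr rfl fun p _ => ?_
        ring }
  map_add' := by
    intro z z'
    ext f J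
    simp only [der, sl, Matrix.add_apply, add_mul, Finset.sum_add_distrib, LinearMap.coe_mk,
      AddHom.coe_mk, LinearMap.add_apply, Pi.add_apply]
  map_smul' := by
    intro a z
    ext f J
    simp only [der, sl, Matrix.smul_apply, smul_eq_mul, LinearMap.coe_mk, AddHom.coe_mk,
      LinearMap.smul_apply, Pi.smul_apply, RingHom.id_apply, Finset.mul_sum, mul_assoc]

/-- the spin representation as a linear map -/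
def spL (V : HS n) (Γ : Fin n → Matrix (Fin w) (Fin w) ℚ) (c : ℚ) :
    Matrix (Fin n) (Fin n) ℂ →ₗ[ℂ] Matrix (Fin w) (Fin w) ℂ where
  toFun z := sp V Γ c z
  map_add' := by
    intro z z'
    unfold sp spin
    simp only [Matrix.add_mul, Matrix.add_apply, add_smul, Finset.sum_add_distrib, smul_add]
  map_smul' := by
    intro a z
    unfold sp spin
    simp only [Matrix.smul_mul, Matrix.smul_apply, smul_eq_mul, mul_smul, ← Finset.smul_sum,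
      RingHom.id_apply]
    rw [smul_comm]

/-- the operators on `V ⊕ W` -/
def totL (V : HS n) (Γ : Fin n → Matrix (Fin w) (Fin w) ℚ) (c : ℚ) :
    Matrix (Fin n) (Fin n) ℂ →ₗ[ℂ] Matrix (Fin n ⊕ Fin w) (Fin n ⊕ Fin w) ℂ where
  toFun z := fromBlocks z 0 0 (spL V Γ c z)
  map_add' := by
    intro z z'
    rw [map_add, fromBlocks_add, add_zero, add_zero]
  map_smul' := by
    intro a z
    rw [map_smul, fromBlocks_smul, smul_zero, smul_zero, RingHom.id_apply]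

/-- the representation on the forms in `k` variables on `V ⊕ W` -/
def rhoH (V : HS n) (Γ : Fin n → Matrix (Fin w) (Fin w) ℚ) (c : ℚ) (k : ℕ) :
    Matrix (Fin n) (Fin n) ℂ →ₗ[ℂ] Module.End ℂ ((Fin k → Fin n ⊕ Fin w) → ℂ) :=
  -(derL k ∘ₗ totL V Γ c)

/-- the representation on `W^{⊗ m}` -/
def rhoM (V : HS n) (Γ : Fin n → Matrix (Fin w) (Fin w) ℚ) (c : ℚ) (m : ℕ) :
    Matrix (Fin n) (Fin n) ℂ →ₗ[ℂ] Module.End ℂ ((Fin m → Fin w) → ℂ) :=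
  derL m ∘ₗ (Matrix.transposeLinearEquiv (Fin w) (Fin w) ℂ ℂ).toLinearMap ∘ₗ spL V Γ c

/-- the hermitian form of `V` -/
def HV (V : HS n) : Matrix (Fin n) (Fin n) ℂ := mC V.Q * ((2 : ℂ) • (V.x * V.x) - 1)

/-- the hermitian form of `W` -/
def HWm (W : HW w) : Matrix (Fin w) (Fin w) ℂ := mC W.E * ((2 * Complex.I) • W.y)

end reps

/-- (MODEL) highest weight vectors in the tensor powers of `W` -/
def S_model : Prop := ∀ (n w : ℕ) (V : HS n) (W : HW w)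
  (Γ : Fin n → Matrix (Fin w) (Fin w) ℚ) (c : ℚ), Cliff V W Γ c →
  (∀ z ∈ g0 V, (sp V Γ c z)ᵀ * mC W.E + mC W.E * sp V Γ c z = 0) →
  ∀ (α ω : Type) [Fintype α] [Fintype ω] (c' : α → ℤ) (b : Ix α ω → Fin n → ℂ), Frame V c' b →
  ∀ (m : ℕ) (l : α → ℤ), (∀ a, |l a| ≤ m ∧ (2 : ℤ) ∣ m - l a) → Dom V c' b l →
  ∃ v : (Fin m → Fin w) → ℂ, v ≠ 0 ∧ Highest V c' b (rhoM V Γ c m) l v

/-- (PD) positive definite forms on tensor powers -/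
def S_pd : Prop := ∀ (ι : Type) [Fintype ι] [DecidableEq ι] (G : Matrix ι ι ℂ), Gᴴ = G →
  (∀ v : ι → ℂ, v ≠ 0 → 0 < (star v ⬝ᵥ G *ᵥ v).re) → ∀ k : ℕ,
  ∃ B : ((Fin k → ι) → ℂ) →ₗ⋆[ℂ] ((Fin k → ι) → ℂ) →ₗ[ℂ] ℂ, (∀ f, f ≠ 0 → 0 < (B f f).re) ∧
    ∀ z z' : Matrix ι ι ℂ, G * z' = zᴴ * G → ∀ f g, B (der z f) g = B f (der z' g)

/-- (ADJ) adjoint operators -/
def S_adj : Prop := ∀ (n w : ℕ) (V : HS n) (W : HW w)
  (Γ : Fin n → Matrix (Fin w) (Fin w) ℚ) (c : ℚ), Cliff V W Γ c →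
  (∀ z ∈ g0 V, (sp V Γ c z)ᵀ * mC W.E + mC W.E * sp V Γ c z = 0) →
  ∀ z ∈ g0 V, ∃ z' ∈ g0 V, HV V * z' = zᴴ * HV V ∧
    HWm W * sp V Γ c z' = (sp V Γ c z)ᴴ * HWm W

/-- (BRK) brackets of derivations -/
def S_brk : Prop := ∀ (ι : Type) [Fintype ι] (k : ℕ) (z z' : Matrix ι ι ℂ),
  derL k z * derL k z' - derL k z' * derL k z = derL k (z' * z - z * z')

end

end Pool.Agent.Y89.KS
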