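import Pool.Agent.Y89.KS.Defs2

/-!
# Extension by zero of forms
-/

open Matrix Finset Function

set_option linter.unusedSectionVars false

namespace Pool.Agent.Y89.KS

section
variable {F : Type} [Field F] {n w : ℕ} {S : Type}

/-- every index function is in the first summand, or has a value in the second one -/
theorem lr (J : S → Fin n ⊕ Fin w) : (∃ K : S → Fin n, J = fun s => Sum.inl (K s)) ∨
    ∃ s b, J s = Sum.inr b := by
  by_cases h : ∃ s b, J s = Sum.inr b
  · exact Or.inr h
  · left
    push Not at h
    have h1 : ∀ s, ∃ a, J s = Sum.inl a := by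
      intro s
      rcases hs : J s with a | b
      · exact ⟨a, rfl⟩
      · exact absurd hs (h s b)
    choose K hK using h1
    exact ⟨K, funext hK⟩

theorem extV_inl (f : (S → Fin n) → F) (K : S → Fin n) :
    extV w f (fun s => Sum.inl (K s)) = f K := by
  have h : ∀ s, ((fun s => Sum.inl (K s) : S → Fin n ⊕ Fin w) s).isLeft = true := fun _ => rfl
  exact (dif_pos h).trans rfl

theorem extV_inr (f : (S → Fin n) → F) {J : S → Fin n ⊕ Fin w} {s : S} {b : Fin w}
    (h : J s = Sum.inr b) : extV w f J = 0 := by
  unfold extV
  rw [dif_neg]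
  intro h'
  have := h' s
  rw [h] at this
  simp at this

theorem extV_eq {f : (S → Fin n) → F} {g : (S → Fin n ⊕ Fin w) → F}
    (h1 : ∀ K : S → Fin n, g (fun s => Sum.inl (K s)) = f K)
    (h2 : ∀ (J : S → Fin n ⊕ Fin w) (s : S) (b : Fin w), J s = Sum.inr b → g J = 0) :
    extV w f = g := by
  funext J
  rcases lr J with ⟨K, rfl⟩ | ⟨s, b, hs⟩
  · rw [extV_inl, h1]
  · rw [extV_inr f hs, h2 J s b hs]

/-- the derivation given by a block diagonal matrix -/
theorem der_extV [Fintype S] [DecidableEq S] (z : Matrix (Fin n) (Fin n) F)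
    (z' : Matrix (Fin w) (Fin w) F) (f : (S → Fin n) → F) :
    der (fromBlocks z 0 0 z') (extV w f) = extV w (der z f) := by
  symm
  apply extV_eq
  · intro K
    unfold der sl
    refine Finset.sum_congr rfl fun j _ => ?_
    rw [Fintype.sum_sum_type]
    simp only [fromBlocks_apply₁₁, fromBlocks_apply₂₁, Matrix.zero_apply, zero_mul,
      Finset.sum_const_zero, add_zero]
    refine Finset.sum_congr rfl fun p _ => ?_
    congr 1
    have h : update (fun s => (Sum.inl (K s) : Fin n ⊕ Fin w)) j (Sum.inl p) =
        fun s => Sum.inl (update K j p s) := by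
      funext s
      by_cases hs : s = j
      · subst hs; simp
      · simp [update_of_ne hs]
    rw [h, extV_inl]
  · intro J s b hs
    unfold der sl
    refine Finset.sum_eq_zero fun j _ => Finset.sum_eq_zero fun p _ => ?_
    by_cases hj : s = j
    · subst hj
      rw [hs]
      rcases p with p | p
      · simp
      · rw [extV_inr f (b := p) (s := s) (by simp), mul_zero]
    · rw [extV_inr f (b := b) (s := s) (by rw [update_of_ne hj, hs]), mul_zero]

end

end Pool.Agent.Y89.KS
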