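import Pool.Agent.Y89.KS.AsmF
import Pool.Agent.Y175.KS.Mix
import Pool.Agent.Y678.KS.Cexp3

/-!
# The Hodge conjecture for products of a variety of K3 type with its Kuga-Satake variety
-/

open Matrix Finset Function

set_option linter.unusedSectionVars false

namespace Pool.Agent.Y89.KS

noncomputable section

open Pool.Agent.W544.PG (HS HW mC cspan cx Kil S_hk S_lie)

section
variable {n w : ℕ}

theorem mainA {V : HS n} {W : HW w} (hV : (V.x * V.x).trace = 2)
    {A : ∀ k : ℕ, Submodule ℚ ((Fin k → Fin n ⊕ Fin w) → ℚ)} (hA : Cycles V W A)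
    {Γ : Fin n → Matrix (Fin w) (Fin w) ℚ} {c : ℚ} (h : Cliff V W Γ c)
    (hc : tri (fun i => W.E * Γ i) ∈ A 3)
    {k : ℕ} {t : (Fin k → Fin n ⊕ Fin w) → ℚ} (ht : IsHodge V W t) : t ∈ A k :=
  thmA (Pool.Agent.Y175.KS.Mix.mix Pool.Agent.Y678.KS.cexp) hV hA h hc ht

end

end

end Pool.Agent.Y89.KS
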