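import Pool.Agent.Y89.KS.Defs6
import Pool.Agent.Y89.KS.MainA
import Pool.Agent.Y175.KS.MixA

/-!
# The generalized Hodge conjecture: representations
-/

open Matrix Finset Function

set_option linter.unusedSectionVars false

namespace Pool.Agent.Y89.KS

noncomputable section

open Pool.Agent.W544.PG (HS HW mC cspan cx Kil S_hk S_lie)

theorem brk : S_brk := by
  intro ι _ k z z'
  apply LinearMap.ext
  intro f
  exact (Pool.Agent.Y175.KS.Mix.der_lie z' z f).symm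

section g0
variable {n w : ℕ}

theorem g0_add (V : HS n) {z z' : Matrix (Fin n) (Fin n) ℂ} (h : z ∈ g0 V) (h' : z' ∈ g0 V) :
    z + z' ∈ g0 V := fun L hL hx => L.add_mem (h L hL hx) (h' L hL hx)

theorem g0_smul (V : HS n) (c : ℂ) {z : Matrix (Fin n) (Fin n) ℂ} (h : z ∈ g0 V) :
    c • z ∈ g0 V := fun L hL hx => L.smul_mem c (h L hL hx)

theorem g0_br (V : HS n) {z z' : Matrix (Fin n) (Fin n) ℂ} (h : z ∈ g0 V) (h' : z' ∈ g0 V) :
    z * z' - z' * z ∈ g0 V := fun L hL hx => hL _ (h L hL hx) _ (h' L hL hx)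

variable {V : HS n} {W : HW w} {Γ : Fin n → Matrix (Fin w) (Fin w) ℚ} {c : ℚ}

theorem Cliff.brk (h : Cliff V W Γ c) {z z' : Matrix (Fin n) (Fin n) ℂ} (hz : z ∈ g0 V) :
    sp V Γ c (z * z' - z' * z) = sp V Γ c z * sp V Γ c z' - sp V Γ c z' * sp V Γ c z :=
  (spin_spin (Qt V) (QRV V) h.c0 h.relC (g0_skew V hz)).symm

theorem Cliff.skew (h : Cliff V W Γ c) : ∀ z ∈ g0 V,
    (sp V Γ c z)ᵀ * mC W.E + mC W.E * sp V Γ c z = 0 := by
  intro z hz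
  let L : Submodule ℂ (Matrix (Fin n) (Fin n) ℂ) :=
    { carrier := {z | z ∈ g0 V ∧ (spL V Γ c z)ᵀ * mC W.E + mC W.E * spL V Γ c z = 0}
      zero_mem' := ⟨fun L _ _ => L.zero_mem, by simp⟩
      add_mem' := by
        rintro a b ⟨ha, ha'⟩ ⟨hb, hb'⟩
        refine ⟨g0_add V ha hb, ?_⟩
        rw [map_add, transpose_add, Matrix.add_mul, Matrix.mul_add, add_add_add_comm, ha', hb',
          add_zero]
      smul_mem' := by
        rintro t a ⟨ha, ha'⟩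
        refine ⟨g0_smul V t ha, ?_⟩
        rw [map_smul, transpose_smul, Matrix.smul_mul, Matrix.mul_smul, ← smul_add, ha',
          smul_zero] }
  refine (hz L ?_ ?_).2
  · rintro a ⟨ha, ha'⟩ b ⟨hb, hb'⟩
    refine ⟨g0_br V ha hb, ?_⟩
    change (sp V Γ c (a * b - b * a))ᵀ * mC W.E + mC W.E * sp V Γ c (a * b - b * a) = 0
    change (sp V Γ c a)ᵀ * mC W.E + mC W.E * sp V Γ c a = 0 at ha'
    change (sp V Γ c b)ᵀ * mC W.E + mC W.E * sp V Γ c b = 0 at hb'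
    rw [h.brk ha, transpose_sub, transpose_mul, transpose_mul]
    set A := sp V Γ c a
    set B := sp V Γ c b
    have h1 : Aᵀ * mC W.E = -(mC W.E * A) := eq_neg_of_add_eq_zero_left ha'
    have h2 : Bᵀ * mC W.E = -(mC W.E * B) := eq_neg_of_add_eq_zero_left hb'
    rw [Matrix.sub_mul, Matrix.mul_assoc, h1, Matrix.mul_neg, ← Matrix.mul_assoc, h2,
      Matrix.mul_assoc Aᵀ, h2, Matrix.mul_neg, ← Matrix.mul_assoc Aᵀ, h1]
    noncomm_ring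
  · intro σ
    refine ⟨x_mem V σ, ?_⟩
    change (sp V Γ c (V.x.map σ))ᵀ * mC W.E + mC W.E * sp V Γ c (V.x.map σ) = 0
    rw [← h.y σ]
    exact skewW W σ

theorem tot_br (h : Cliff V W Γ c) {z z' : Matrix (Fin n) (Fin n) ℂ} (hz : z ∈ g0 V) :
    totL V Γ c (z * z' - z' * z) =
      totL V Γ c z * totL V Γ c z' - totL V Γ c z' * totL V Γ c z := by
  change fromBlocks (z * z' - z' * z) 0 0 (sp V Γ c (z * z' - z' * z)) =
    fromBlocks z 0 0 (sp V Γ c z) * fromBlocks z' 0 0 (sp V Γ c z') -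
    fromBlocks z' 0 0 (sp V Γ c z') * fromBlocks z 0 0 (sp V Γ c z)
  rw [h.brk hz, fromBlocks_multiply, fromBlocks_multiply, sub_eq_add_neg (fromBlocks _ _ _ _),
    fromBlocks_neg, fromBlocks_add]
  simp [sub_eq_add_neg]

theorem repH (h : Cliff V W Γ c) (k : ℕ) : Rep V (rhoH V Γ c k) := by
  intro z hz z' hz'
  change -(derL k (totL V Γ c (z * z' - z' * z))) =
    (-(derL k (totL V Γ c z))) * (-(derL k (totL V Γ c z'))) -
    (-(derL k (totL V Γ c z'))) * (-(derL k (totL V Γ c z)))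
  have h1 := Pool.Agent.Y89.KS.brk (Fin n ⊕ Fin w) k (totL V Γ c z) (totL V Γ c z')
  rw [tot_br h hz]
  apply LinearMap.ext
  intro f
  have h2 := congrArg (fun T : Module.End ℂ ((Fin k → Fin n ⊕ Fin w) → ℂ) => T f) h1
  simp only [LinearMap.sub_apply, Module.End.mul_apply, LinearMap.neg_apply, map_neg, neg_neg,
    map_sub] at h2 ⊢
  rw [h2]
  abel

theorem repM (h : Cliff V W Γ c) (m : ℕ) : Rep V (rhoM V Γ c m) := by
  intro z hz z' hz'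
  change derL m (sp V Γ c (z * z' - z' * z))ᵀ = derL m (sp V Γ c z)ᵀ * derL m (sp V Γ c z')ᵀ -
    derL m (sp V Γ c z')ᵀ * derL m (sp V Γ c z)ᵀ
  rw [Pool.Agent.Y89.KS.brk, h.brk hz, transpose_sub, transpose_mul, transpose_mul]

theorem mC_ct {m : ℕ} (M : Matrix (Fin m) (Fin m) ℚ) : (mC M)ᴴ = (mC M)ᵀ := by
  ext a b
  simp [mC, Matrix.conjTranspose_apply]

theorem map_ct {m : ℕ} (M : Matrix (Fin m) (Fin m) ℂ) : Mᴴ = (M.map (starRingEnd ℂ))ᵀ := by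
  ext a b
  simp [Matrix.conjTranspose_apply]

theorem HV_herm (V : HS n) : (HV V)ᴴ = HV V := by
  have hx : V.xᴴ = -V.xᵀ := by rw [map_ct, V.real, Matrix.transpose_neg]
  have hs : V.xᵀ * mC V.Q = -(mC V.Q * V.x) := eq_neg_of_add_eq_zero_left V.skew
  unfold HV
  rw [conjTranspose_mul, mC_ct, Qt, conjTranspose_sub, conjTranspose_smul, conjTranspose_mul, hx,
    conjTranspose_one, neg_mul_neg, Matrix.sub_mul, Matrix.smul_mul, Matrix.mul_assoc, hs,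
    Matrix.mul_neg, ← Matrix.mul_assoc, hs, Matrix.mul_sub, Matrix.mul_smul, Matrix.one_mul,
    Matrix.mul_one, Matrix.neg_mul, neg_neg, Matrix.mul_assoc]
  simp

theorem HW_herm (W : HW w) : (HWm W)ᴴ = HWm W := by
  have hy : W.yᴴ = -W.yᵀ := by rw [map_ct, W.real, Matrix.transpose_neg]
  have hs : W.yᵀ * mC W.E = -(mC W.E * W.y) := eq_neg_of_add_eq_zero_left W.skew
  have hE : (mC W.E)ᵀ = -mC W.E := by
    ext a b
    have := congrFun (congrFun W.alt a) b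
    simp only [Matrix.transpose_apply, Matrix.neg_apply] at this
    simp [mC, Matrix.transpose_apply, this]
  unfold HWm
  rw [conjTranspose_mul, mC_ct, hE, conjTranspose_smul, hy, Matrix.mul_neg, Matrix.smul_mul,
    Matrix.neg_mul, hs, neg_neg, Matrix.mul_smul, ← smul_neg]
  simp

theorem HV_pos (V : HS n) (v : Fin n → ℂ) (hv : v ≠ 0) : 0 < (star v ⬝ᵥ HV V *ᵥ v).re :=
  V.pos v hv

theorem HW_pos (W : HW w) (v : Fin w → ℂ) (hv : v ≠ 0) : 0 < (star v ⬝ᵥ HWm W *ᵥ v).re :=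
  W.pos v hv

theorem sum_pos (V : HS n) (W : HW w) (v : Fin n ⊕ Fin w → ℂ) (hv : v ≠ 0) :
    0 < (star v ⬝ᵥ (fromBlocks (HV V) 0 0 (HWm W)) *ᵥ v).re := by
  have h1 : star v ⬝ᵥ (fromBlocks (HV V) 0 0 (HWm W)) *ᵥ v =
      star (v ∘ Sum.inl) ⬝ᵥ HV V *ᵥ (v ∘ Sum.inl) + star (v ∘ Sum.inr) ⬝ᵥ HWm W *ᵥ (v ∘ Sum.inr) := by
    conv_lhs => rw [fromBlocks_mulVec]
    simp only [dotProduct, Fintype.sum_sum_type, Sum.elim_inl, Sum.elim_inr, Matrix.zero_mulVec,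
      add_zero, zero_add]
    rfl
  have hV0 : v ∘ Sum.inl = 0 → star (v ∘ Sum.inl) ⬝ᵥ HV V *ᵥ (v ∘ Sum.inl) = 0 := by
    intro h
    rw [h, Matrix.mulVec_zero, dotProduct_zero]
  have hW0 : v ∘ Sum.inr = 0 → star (v ∘ Sum.inr) ⬝ᵥ HWm W *ᵥ (v ∘ Sum.inr) = 0 := by
    intro h
    rw [h, Matrix.mulVec_zero, dotProduct_zero]
  rw [h1, Complex.add_re]
  by_cases h2 : v ∘ Sum.inl = 0
  · rw [hV0 h2, Complex.zero_re, zero_add]
    refine HW_pos W _ fun h3 => hv ?_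
    funext i
    rcases i with i | i
    · exact congrFun h2 i
    · exact congrFun h3 i
  · by_cases h3 : v ∘ Sum.inr = 0
    · rw [hW0 h3, Complex.zero_re, add_zero]
      exact HV_pos V _ h2
    · exact add_pos (HV_pos V _ h2) (HW_pos W _ h3)

theorem detHW (W : HW w) : ((HWm W)ᵀ).det ≠ 0 := by
  rw [Matrix.det_transpose]
  intro h0
  obtain ⟨v, hv, hv0⟩ := Matrix.exists_mulVec_eq_zero_iff.2 h0
  have := HW_pos W v hv
  rw [hv0] at this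
  simp at this

theorem HT1 (W : HW w) : (HWm W)ᵀ * ((HWm W)ᵀ)⁻¹ = 1 :=
  Matrix.mul_nonsing_inv _ (isUnit_iff_ne_zero.2 (detHW W))

theorem HT2 (W : HW w) : ((HWm W)ᵀ)⁻¹ * (HWm W)ᵀ = 1 :=
  Matrix.nonsing_inv_mul _ (isUnit_iff_ne_zero.2 (detHW W))

theorem HTh (W : HW w) : ((HWm W)ᵀ)ᴴ = (HWm W)ᵀ := by
  conv_rhs => rw [← HW_herm W]
  rfl

theorem inv_pos (W : HW w) (v : Fin w → ℂ) (hv : v ≠ 0) :
    0 < (star v ⬝ᵥ ((HWm W)ᵀ)⁻¹ *ᵥ v).re := by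
  set u := ((HWm W)ᵀ)⁻¹ *ᵥ v with hu
  have h1 : v = (HWm W)ᵀ *ᵥ u := by
    rw [hu, Matrix.mulVec_mulVec, HT1, Matrix.one_mulVec]
  have hu0 : star u ≠ 0 := by
    intro h
    apply hv
    have : u = 0 := star_eq_zero.1 h
    rw [h1, this, Matrix.mulVec_zero]
  have h2 : star v ⬝ᵥ u = star (star u) ⬝ᵥ HWm W *ᵥ star u := by
    rw [h1, star_star, Matrix.star_mulVec, HTh, ← Matrix.dotProduct_mulVec,
      Matrix.dotProduct_mulVec, Matrix.vecMul_transpose, dotProduct_comm]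
  rw [h2]
  exact HW_pos W _ hu0

theorem tot_adj {z z' : Matrix (Fin n) (Fin n) ℂ} (h1 : HV V * z' = zᴴ * HV V)
    (h2 : HWm W * sp V Γ c z' = (sp V Γ c z)ᴴ * HWm W) :
    fromBlocks (HV V) 0 0 (HWm W) * totL V Γ c z' =
      (totL V Γ c z)ᴴ * fromBlocks (HV V) 0 0 (HWm W) := by
  change fromBlocks (HV V) 0 0 (HWm W) * fromBlocks z' 0 0 (sp V Γ c z') =
    (fromBlocks z 0 0 (sp V Γ c z))ᴴ * fromBlocks (HV V) 0 0 (HWm W)
  rw [fromBlocks_conjTranspose, fromBlocks_multiply, fromBlocks_multiply]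
  simp only [Matrix.mul_zero, Matrix.zero_mul, add_zero, zero_add, conjTranspose_zero, h1, h2]

theorem spT_adj {z z' : Matrix (Fin n) (Fin n) ℂ}
    (h2 : HWm W * sp V Γ c z' = (sp V Γ c z)ᴴ * HWm W) :
    ((HWm W)ᵀ)⁻¹ * (sp V Γ c z')ᵀ = ((sp V Γ c z)ᵀ)ᴴ * ((HWm W)ᵀ)⁻¹ := by
  have h3 : (sp V Γ c z')ᵀ * (HWm W)ᵀ = (HWm W)ᵀ * ((sp V Γ c z)ᵀ)ᴴ := by
    have := congrArg Matrix.transpose h2
    rw [transpose_mul, transpose_mul] at this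
    exact this
  calc ((HWm W)ᵀ)⁻¹ * (sp V Γ c z')ᵀ
      = ((HWm W)ᵀ)⁻¹ * ((sp V Γ c z')ᵀ * (HWm W)ᵀ) * ((HWm W)ᵀ)⁻¹ := by
        rw [Matrix.mul_assoc, Matrix.mul_assoc, HT1, Matrix.mul_one]
    _ = ((sp V Γ c z)ᵀ)ᴴ * ((HWm W)ᵀ)⁻¹ := by
        rw [h3, ← Matrix.mul_assoc, HT2, Matrix.one_mul]

theorem herm (hpd : S_pd) (hadj : S_adj) (h : Cliff V W Γ c) (k m : ℕ) :
    ∃ (B₁ : ((Fin k → Fin n ⊕ Fin w) → ℂ) →ₗ⋆[ℂ] ((Fin k → Fin n ⊕ Fin w) → ℂ) →ₗ[ℂ] ℂ)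
      (B₂ : ((Fin m → Fin w) → ℂ) →ₗ⋆[ℂ] ((Fin m → Fin w) → ℂ) →ₗ[ℂ] ℂ),
      (∀ a, a ≠ 0 → 0 < (B₁ a a).re) ∧ (∀ a, a ≠ 0 → 0 < (B₂ a a).re) ∧
      ∀ z ∈ g0 V, ∃ z' ∈ g0 V,
        (∀ a a', B₁ (rhoH V Γ c k z a) a' = B₁ a (rhoH V Γ c k z' a')) ∧
        ∀ a a', B₂ (rhoM V Γ c m z a) a' = B₂ a (rhoM V Γ c m z' a') := by
  obtain ⟨B₁, h1, h1'⟩ := hpd _ (fromBlocks (HV V) 0 0 (HWm W))
    (by rw [fromBlocks_conjTranspose, HV_herm, HW_herm]; simp) (sum_pos V W) k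
  obtain ⟨B₂, h2, h2'⟩ := hpd _ ((HWm W)ᵀ)⁻¹ (by
    rw [Matrix.conjTranspose_nonsing_inv, HTh]) (inv_pos W) m
  refine ⟨B₁, B₂, h1, h2, fun z hz => ?_⟩
  obtain ⟨z', hz', e1, e2⟩ := hadj n w V W Γ c h h.skew z hz
  refine ⟨z', hz', fun a a' => ?_, fun a a' => ?_⟩
  · have e3 := h1' _ _ (tot_adj e1 e2) a a'
    change B₁ (-(der (totL V Γ c z) a)) a' = B₁ a (-(der (totL V Γ c z') a'))
    rw [map_neg, map_neg, LinearMap.neg_apply, e3]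
  · exact h2' _ _ (spT_adj e2) a a'

end g0

end

end Pool.Agent.Y89.KS
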