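import Pool.Agent.Y89.KS.AsmE
import Pool.Agent.Y89.KS.Abt2
import Pool.Agent.Y89.KS.Tot
import Pool.Agent.Y166.KS.Fft
import Pool.Agent.Y166.KS.Blk0
import Pool.Agent.Y175.KS.Blk

/-!
# The Hodge conjecture for the powers of a variety of K3 type: main theorem
-/

open Matrix Finset Function

set_option linter.unusedSectionVars false

namespace Pool.Agent.Y89.KS

noncomputable section

open Pool.Agent.W544.PG (HS HW mC cspan cx Kil S_hk S_lie)

section
variable {n w : ℕ}

/-- classes supported on `V` are extensions by zero of Hodge classes of `V` -/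
theorem supp_ext {V : HS n} {W : HW w} {k : ℕ} {t : (Fin k → Fin n ⊕ Fin w) → ℚ}
    (ht : IsHodge V W t) (hs : ∀ J, t J ≠ 0 → ∀ j, (J j).isLeft = true) :
    ∃ t' : (Fin k → Fin n) → ℚ, V.IsHodge t' ∧ extV w t' = t := by
  refine ⟨fun K => t fun j => Sum.inl (K j), ?_, ?_⟩
  · rw [Pool.Agent.W101.PG.hk]
    intro K
    have h := ht fun j => Sum.inl (K j)
    rw [← h]
    refine Finset.sum_congr rfl fun j _ => ?_
    rw [Fintype.sum_sum_type]
    have h1 : ∀ b : Fin w, Xop V W (Sum.inr b) (Sum.inl (K j)) = 0 := fun b => rfl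
    simp only [h1, zero_mul, Finset.sum_const_zero, add_zero]
    refine Finset.sum_congr rfl fun p _ => ?_
    have h2 : update (fun j => (Sum.inl (K j) : Fin n ⊕ Fin w)) j (Sum.inl p) =
        fun i => Sum.inl (update K j p i) := by
      funext i
      by_cases hi : i = j
      · subst hi; simp
      · rw [update_of_ne hi, update_of_ne hi]
    rw [h2]
    rfl
  · apply extV_eq
    · intro K
      rfl
    · intro J s b hJ
      by_contra h
      have h1 := hs J h s
      rw [hJ] at h1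
      simp at h1

theorem mainB {V : HS n} {W : HW w} (hV : (V.x * V.x).trace = 2)
    {A : ∀ k : ℕ, Submodule ℚ ((Fin k → Fin n ⊕ Fin w) → ℚ)} (hA : Cycles V W A)
    (h2 : NoEnd V ∨ ∀ t : (Fin 2 → Fin n ⊕ Fin w) → ℚ, IsHodge V W t →
      (∀ J, t J ≠ 0 → ∀ j, (J j).isLeft = true) → t ∈ A 2)
    {c : Fin n → Matrix (Fin w) (Fin w) ℚ} (hc : tri c ∈ A 3) (hh : IsHodge V W (tri c))
    (hne : ∃ j, ∑ i, V.x i j • mC (c i) ≠ 0)
    {k : ℕ} {t : (Fin k → Fin n ⊕ Fin w) → ℚ} (ht : IsHodge V W t)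
    (hs : ∀ J, t J ≠ 0 → ∀ j, (J j).isLeft = true) : t ∈ A k := by
  obtain ⟨t', ht', rfl⟩ := supp_ext ht hs
  refine thmB Pool.Agent.Y166.KS.fft Pool.Agent.Y166.KS.blk0 Pool.Agent.Y175.KS.blk abt tot hV hA
    ?_ hc hh hne ht'
  refine h2.imp id fun h2 N hN => h2 _ hN fun J hJ j => ?_
  rcases h0 : J 0 with a | a <;> rcases h1 : J 1 with b | b
  · fin_cases j
    · simp [h0]
    · simp [h1]
  all_goals simp [fromBlocks, h0, h1] at hJ

end

end

end Pool.Agent.Y89.KS
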