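import Pool.Agent.Y89.KS.MainA
import Pool.Agent.Y89.KS.Defs5

/-!
# The Hodge conjecture for the powers of a Kuga-Satake variety
-/

open Matrix Finset Function

set_option linter.unusedSectionVars false

namespace Pool.Agent.Y89.KS

noncomputable section

open Pool.Agent.W544.PG (HS HW mC cspan cx Kil S_hk S_lie)

section lin
variable {F : Type} [Field F] {ι : Type} [Fintype ι]

theorem GSys.sub {R R' : Matrix ι ι F} {M : ∀ S : Type, Submodule F ((S → ι) → F)}
    (h : GSys R M) (h' : GSys R' M) : GSys (R - R') M where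
  unit := h.unit
  mul := h.mul
  reidx := h.reidx
  con S f hf := by
    have := (M S).sub_mem (h.con S f hf) (h'.con S f hf)
    convert this using 1
    funext J
    simp [sub_mul, Finset.sum_sub_distrib]

theorem mem_plus_of {M : ∀ S : Type, Submodule F ((S → ι) → F)} {S : Type} (p0 : S → Bool)
    {h : (S → ι ⊕ Unit) → F} (h0 : ∀ L : S → ι ⊕ Unit, ∀ s, (L s).isLeft = p0 s → h L = 0)
    (h1 : (fun L : {s // p0 s = false} → ι =>
      h (fun s => if hs : p0 s = false then Sum.inl (L ⟨s, hs⟩) else Sum.inr ())) ∈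
      M {s // p0 s = false}) : h ∈ plus M S := by
  intro pat
  by_cases hp : pat = p0
  · subst hp
    exact h1
  · obtain ⟨s, hs⟩ := Function.ne_iff.1 hp
    have h2 : (fun L : {s // pat s = false} → ι =>
        h (fun s => if hs : pat s = false then Sum.inl (L ⟨s, hs⟩) else Sum.inr ())) = 0 := by
      funext L
      refine h0 _ s ?_
      by_cases h3 : pat s = false
      · simp only [h3, dif_pos, Sum.isLeft_inl]
        rw [h3] at hs
        cases h4 : p0 s
        · exact absurd h4.symm hs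
        · rfl
      · simp only [h3]
        simp only [Bool.not_eq_false] at h3
        rw [h3] at hs
        cases h4 : p0 s
        · rfl
        · exact absurd h4.symm hs
    rw [h2]
    exact Submodule.zero_mem _

end lin

section
variable {n w : ℕ}

theorem dQ (V : HS n) : V.Q.det ≠ 0 := by
  intro h; exact detQ V (by rw [mC_det, h, Rat.cast_zero])

theorem dE (W : HW w) : W.E.det ≠ 0 := by
  intro h; exact detE W (by rw [mC_det, h, Rat.cast_zero])

/-- the matrices `M^i = ∑_j (Q⁻¹)_{ij} E Γ_j` -/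
def up (V : HS n) (W : HW w) (Γ : Fin n → Matrix (Fin w) (Fin w) ℚ) (i : Fin n) :
    Matrix (Fin w) (Fin w) ℚ := ∑ j, V.Q⁻¹ i j • (W.E * Γ j)

/-- the map of `V ⊕ W` to the tensor square of `W ⊕ ℚ` -/
def KE (V : HS n) (W : HW w) (Γ : Fin n → Matrix (Fin w) (Fin w) ℚ) :
    Fin n ⊕ Fin w → Matrix (Fin w ⊕ Unit) (Fin w ⊕ Unit) ℚ
  | Sum.inl i => fromBlocks (up V W Γ i) 0 0 0
  | Sum.inr c => fromBlocks 0 (Matrix.of fun a _ => if a = c then 1 else 0) 0 0

theorem cross_tr {ι : Type} [Fintype ι] (K K' L R : Matrix ι ι ℚ) :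
    ∑ a, ∑ a', ∑ b, ∑ b', K a b * K' a' b' * (L a b' * R b a') = (K * R * K' * Lᵀ).trace := by
  simp only [Matrix.trace, Matrix.diag, Matrix.mul_apply, Finset.sum_mul, Matrix.transpose_apply]
  refine Finset.sum_congr rfl fun a _ => ?_
  have h1 : ∀ a' : ι, ∑ b, ∑ b', K a b * K' a' b' * (L a b' * R b a') =
    ∑ b', ∑ b, K a b * R b a' * K' a' b' * L a b' := by
    intro a'
    rw [Finset.sum_comm]
    refine Finset.sum_congr rfl fun b' _ => Finset.sum_congr rfl fun b _ => ?_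
    ring
  simp only [h1]
  rw [Finset.sum_comm]

theorem straight_tr {ι : Type} [Fintype ι] (K K' L R : Matrix ι ι ℚ) :
    ∑ a, ∑ a', ∑ b, ∑ b', K a b * K' a' b' * (L a a' * R b b') = (K * R * K'ᵀ * Lᵀ).trace := by
  simp only [Matrix.trace, Matrix.diag, Matrix.mul_apply, Finset.sum_mul, Matrix.transpose_apply]
  refine Finset.sum_congr rfl fun a _ => Finset.sum_congr rfl fun a' _ => ?_
  rw [Finset.sum_comm]
  refine Finset.sum_congr rfl fun b' _ => Finset.sum_congr rfl fun b _ => ?_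
  ring

theorem inv_blocks (V : HS n) (W : HW w) :
    (fromBlocks V.Q 0 0 W.E)⁻¹ = fromBlocks V.Q⁻¹ 0 0 W.E⁻¹ := by
  apply Matrix.inv_eq_right_inv
  rw [fromBlocks_multiply]
  simp only [Matrix.mul_zero, Matrix.zero_mul, add_zero, zero_add]
  rw [Matrix.mul_nonsing_inv _ (isUnit_iff_ne_zero.2 (dQ V)),
    Matrix.mul_nonsing_inv _ (isUnit_iff_ne_zero.2 (dE W)), fromBlocks_one]

theorem Qinv_symm (V : HS n) : (V.Q⁻¹)ᵀ = V.Q⁻¹ := by
  rw [Matrix.transpose_nonsing_inv, V.symm]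

theorem Einv_skew (W : HW w) : (W.E⁻¹)ᵀ = -W.E⁻¹ := by
  rw [Matrix.transpose_nonsing_inv, W.alt]
  apply Matrix.inv_eq_right_inv
  rw [neg_mul_neg, Matrix.mul_nonsing_inv _ (isUnit_iff_ne_zero.2 (dE W))]

theorem tr_ΓΓ {V : HS n} {W : HW w} {Γ : Fin n → Matrix (Fin w) (Fin w) ℚ} {c : ℚ}
    (h : Cliff V W Γ c) (i j : Fin n) : (Γ i * Γ j).trace = c * w * V.Q i j := by
  have h1 := congrArg Matrix.trace (h.rel i j)
  rw [Matrix.trace_add, Matrix.trace_mul_comm (Γ j), Matrix.trace_smul, Matrix.trace_one,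
    Fintype.card_fin, smul_eq_mul] at h1
  linarith

theorem tr_up {V : HS n} {W : HW w} {Γ : Fin n → Matrix (Fin w) (Fin w) ℚ} {c : ℚ}
    (h : Cliff V W Γ c) (i i' : Fin n) :
    (up V W Γ i * W.E⁻¹ * up V W Γ i' * (W.E⁻¹)ᵀ).trace = -(c * w * V.Q⁻¹ i i') := by
  have h1 : up V W Γ i * W.E⁻¹ * up V W Γ i' * (W.E⁻¹)ᵀ =
      ∑ j, ∑ j', (V.Q⁻¹ i j * V.Q⁻¹ i' j') • -(W.E * (Γ j * Γ j') * W.E⁻¹) := by
    unfold up
    rw [Finset.sum_mul, Finset.sum_mul, Finset.sum_mul]
    refine Finset.sum_congr rfl fun j _ => ?_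
    rw [Finset.mul_sum, Finset.sum_mul]
    refine Finset.sum_congr rfl fun j' _ => ?_
    rw [Einv_skew, smul_mul_assoc, smul_mul_smul_comm, smul_mul_assoc, Matrix.mul_neg]
    congr 2
    rw [show W.E * Γ j * W.E⁻¹ * (W.E * Γ j') = W.E * Γ j * (W.E⁻¹ * W.E) * Γ j' by
      simp only [Matrix.mul_assoc], Matrix.nonsing_inv_mul _ (isUnit_iff_ne_zero.2 (dE W)),
      Matrix.mul_one, Matrix.mul_assoc W.E]
  rw [h1, Matrix.trace_sum]
  have h2 : ∀ j, (∑ j', (V.Q⁻¹ i j * V.Q⁻¹ i' j') • -(W.E * (Γ j * Γ j') * W.E⁻¹)).trace =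
      -(c * w) * (V.Q⁻¹ i j * ∑ j', V.Q j j' * V.Q⁻¹ j' i') := by
    intro j
    rw [Matrix.trace_sum, Finset.mul_sum, Finset.mul_sum]
    refine Finset.sum_congr rfl fun j' _ => ?_
    rw [Matrix.trace_smul, Matrix.trace_neg, Matrix.trace_mul_comm, ← Matrix.mul_assoc,
      Matrix.nonsing_inv_mul _ (isUnit_iff_ne_zero.2 (dE W)), Matrix.one_mul, tr_ΓΓ h,
      smul_eq_mul, show V.Q⁻¹ i' j' = V.Q⁻¹ j' i' from congrFun (congrFun (Qinv_symm V) j') i']
    ring
  simp only [h2]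
  rw [← Finset.mul_sum]
  have h3 : ∑ j, V.Q⁻¹ i j * ∑ j', V.Q j j' * V.Q⁻¹ j' i' = V.Q⁻¹ i i' := by
    have : (V.Q⁻¹ * (V.Q * V.Q⁻¹)) i i' = V.Q⁻¹ i i' := by
      rw [Matrix.mul_nonsing_inv _ (isUnit_iff_ne_zero.2 (dQ V)), Matrix.mul_one]
    exact this
  rw [h3]
  ring

theorem trace_fb {ι κ : Type} [Fintype ι] [Fintype κ] (A : Matrix ι ι ℚ) (B : Matrix ι κ ℚ)
    (C : Matrix κ ι ℚ) (D : Matrix κ κ ℚ) : (fromBlocks A B C D).trace = A.trace + D.trace := by
  simp [Matrix.trace, Fintype.sum_sum_type]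

/-- the contractions on the tensor square -/
def Rc (W : HW w) (b : Bool) : Matrix (Fin w ⊕ Unit) (Fin w ⊕ Unit) ℚ :=
  cond b (fromBlocks W.E⁻¹ 0 0 0) (fromBlocks 0 0 0 1)

theorem con_id {V : HS n} {W : HW w} {Γ : Fin n → Matrix (Fin w) (Fin w) ℚ} {c : ℚ}
    (h : Cliff V W Γ c) (u u' : Fin n ⊕ Fin w) :
    (fromBlocks V.Q 0 0 W.E)⁻¹ u u' = ∑ t : Bool, (cond t (-(c * w)⁻¹) 1) *
      ∑ a, ∑ a', ∑ b, ∑ b', KE V W Γ u a b * KE V W Γ u' a' b' *
      cond t (Rc W true a b' * Rc W t b a') (Rc W true a a' * Rc W t b b') := by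
  have hw : (w : ℚ) ≠ 0 := by
    have := h.pos
    positivity
  rw [Fintype.sum_bool]
  simp only [cond_true, cond_false]
  rw [cross_tr, straight_tr, inv_blocks]
  unfold Rc
  simp only [cond_true, cond_false]
  rcases u with i | a <;> rcases u' with i' | a'
  · have h1 : (fromBlocks (up V W Γ i) 0 0 (0 : Matrix Unit Unit ℚ) * fromBlocks W.E⁻¹ 0 0 0 *
        fromBlocks (up V W Γ i') 0 0 0 * (fromBlocks W.E⁻¹ 0 0 0)ᵀ).trace =
        -(c * w * V.Q⁻¹ i i') := by
      rw [fromBlocks_multiply, fromBlocks_multiply, fromBlocks_transpose, fromBlocks_multiply,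
        trace_fb]
      simp only [Matrix.mul_zero, Matrix.zero_mul, add_zero, Matrix.transpose_zero,
        Matrix.trace_zero]
      exact tr_up h i i'
    have h2 : (fromBlocks (up V W Γ i) 0 0 (0 : Matrix Unit Unit ℚ) * fromBlocks 0 0 0 1 *
        (fromBlocks (up V W Γ i') 0 0 0)ᵀ * (fromBlocks W.E⁻¹ 0 0 0)ᵀ).trace = 0 := by
      rw [fromBlocks_multiply, fromBlocks_transpose, fromBlocks_multiply, fromBlocks_transpose,
        fromBlocks_multiply, trace_fb]
      simp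
    simp only [KE]
    rw [h1, h2, fromBlocks_apply₁₁]
    have := h.ne
    field_simp
    ring
  · simp only [KE]
    rw [fromBlocks_apply₁₂]
    simp only [fromBlocks_multiply, fromBlocks_transpose, trace_fb]
    simp
  · simp only [KE]
    rw [fromBlocks_apply₂₁]
    simp only [fromBlocks_multiply, fromBlocks_transpose, trace_fb]
    simp
  · simp only [KE]
    rw [fromBlocks_apply₂₂]
    simp only [fromBlocks_multiply, fromBlocks_transpose, trace_fb]
    simp [Matrix.trace, Matrix.mul_apply]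

/-- a rational form on `W` is a Hodge class -/
def HodgeW (W : HW w) {k : ℕ} (t : (Fin k → Fin w) → ℚ) : Prop :=
  ∀ J : Fin k → Fin w, ∑ j, ∑ p, W.y p (J j) * (t (Function.update J j p) : ℂ) = 0

/-- systems of classes with the formal properties of the algebraic classes on the powers of `A` -/
structure CyclesW (W : HW w) (B : ∀ k : ℕ, Submodule ℚ ((Fin k → Fin w) → ℚ)) : Prop where
  sys : Sys W.E⁻¹ B
  lefschetz : ∀ N : Matrix (Fin w) (Fin w) ℚ,
    HodgeW W (fun J : Fin 2 → Fin w => N (J 0) (J 1)) →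
    (fun J : Fin 2 → Fin w => N (J 0) (J 1)) ∈ B 2

/-- the class `Θ` -/
def theta (V : HS n) (W : HW w) (Γ : Fin n → Matrix (Fin w) (Fin w) ℚ) :
    (Fin 4 → Fin w) → ℚ :=
  fun J => ∑ i, ∑ j, V.Q⁻¹ i j * (W.E * Γ i) (J 0) (J 1) * (W.E * Γ j) (J 2) (J 3)

theorem mem_pat {B : ∀ k : ℕ, Submodule ℚ ((Fin k → Fin w) → ℚ)}
    {R : Matrix (Fin w) (Fin w) ℚ} (hB : Sys R B) {k m : ℕ}
    (p0 : Fin k × Bool → Bool) (l : Fin m → Fin k × Bool) (r : Fin k × Bool → Fin m)
    (h1 : ∀ j, p0 (l j) = false) (h2 : ∀ j, r (l j) = j) (h3 : ∀ s, p0 s = false → l (r s) = s)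
    {h : (Fin k × Bool → Fin w ⊕ Unit) → ℚ} (h0 : ∀ L s, (L s).isLeft = p0 s → h L = 0)
    {g : (Fin m → Fin w) → ℚ} (hg : g ∈ B m)
    (h4 : ∀ J : Fin m → Fin w,
      h (fun s => if p0 s = false then Sum.inl (J (r s)) else Sum.inr ()) = g J) :
    h ∈ plus (gen B) (Fin k × Bool) := by
  refine mem_plus_of p0 h0 ?_
  let e₀ : Fin m ≃ {s // p0 s = false} :=
    ⟨fun j => ⟨l j, h1 j⟩, fun s => r s.1, h2, fun s => Subtype.ext (h3 s.1 s.2)⟩
  rw [mem_gen_iff hB e₀]
  convert hg using 1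
  funext J
  rw [← h4 J]
  rfl

theorem sum_cons {α : Type} [Fintype α] {k : ℕ} (f : (Fin (k + 1) → α) → ℚ) :
    ∑ J, f J = ∑ a, ∑ J : Fin k → α, f (Fin.cons a J) := by
  rw [← (Fin.consEquiv fun _ : Fin (k + 1) => α).sum_comp, Fintype.sum_prod_type]
  rfl

section
variable {V : HS n} {W : HW w} {Γ : Fin n → Matrix (Fin w) (Fin w) ℚ} {c : ℚ}
  {B : ∀ k : ℕ, Submodule ℚ ((Fin k → Fin w) → ℚ)}

/-- the system on `V ⊕ W` -/
abbrev AE (V : HS n) (W : HW w) (Γ : Fin n → Matrix (Fin w) (Fin w) ℚ)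
    (B : ∀ k : ℕ, Submodule ℚ ((Fin k → Fin w) → ℚ)) (k : ℕ) :
    Submodule ℚ ((Fin k → Fin n ⊕ Fin w) → ℚ) := tens (plus (gen B)) (KE V W Γ) k

theorem mem_tens {F : Type} [Field F] {ι U : Type} [Fintype ι] [Fintype U]
    {M : ∀ S : Type, Submodule F ((S → ι) → F)} {K : U → ι → ι → F} {k : ℕ}
    {f : (Fin k → U) → F} : f ∈ tens M K k ↔ (fun L : Fin k × Bool → ι =>
      ∑ J : Fin k → U, f J * ∏ s, K (J s) (L (s, false)) (L (s, true))) ∈ M (Fin k × Bool) :=
  Iff.rfl

theorem KE_inl0 (i : Fin n) (a b : Fin w ⊕ Unit) (h : a.isLeft = false ∨ b.isLeft = false) :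
    KE V W Γ (Sum.inl i) a b = 0 := by
  rcases a with a | a <;> rcases b with b | b <;> simp [KE] at h ⊢

theorem KE_inl (i : Fin n) (a b : Fin w) :
    KE V W Γ (Sum.inl i) (Sum.inl a) (Sum.inl b) = up V W Γ i a b := rfl

theorem KE_inr0 (c : Fin w) (a b : Fin w ⊕ Unit) (h : a.isLeft = false ∨ b.isLeft = true) :
    KE V W Γ (Sum.inr c) a b = 0 := by
  rcases a with a | a <;> rcases b with b | b <;> simp [KE] at h ⊢

theorem KE_inr (c a : Fin w) (b : Unit) :
    KE V W Γ (Sum.inr c) (Sum.inl a) (Sum.inr b) = if a = c then 1 else 0 := rfl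

theorem lef_mem (hB : CyclesW W B) (N : Matrix (Fin w) (Fin w) ℚ)
    (hN : HodgeW W (fun J : Fin 2 → Fin w => N (J 0) (J 1))) :
    (fun J : Fin 2 → Fin n ⊕ Fin w => fromBlocks 0 0 0 N (J 0) (J 1)) ∈ AE V W Γ B 2 := by
  have key : ∀ L : Fin 2 × Bool → Fin w ⊕ Unit,
      ∑ J : Fin 2 → Fin n ⊕ Fin w, fromBlocks 0 0 0 N (J 0) (J 1) *
        ∏ s, KE V W Γ (J s) (L (s, false)) (L (s, true)) =
      ∑ a, ∑ b, N a b * (KE V W Γ (Sum.inr a) (L (0, false)) (L (0, true)) *
        KE V W Γ (Sum.inr b) (L (1, false)) (L (1, true))) := by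
    intro L
    rw [sum_cons]
    simp only [sum_cons, Fin.prod_univ_two, Fintype.sum_sum_type, Fintype.sum_unique]
    simp
  refine mem_tens.2 ?_
  refine mem_pat hB.sys (fun s => s.2) (fun j => (j, false)) (fun s => s.1) (by simp) (by simp)
    (by rintro ⟨a, b⟩ h; simpa using h.symm) ?_ (hB.lefschetz N hN) ?_
  · intro L s hs
    rw [key]
    refine Finset.sum_eq_zero fun a _ => Finset.sum_eq_zero fun b _ => ?_
    obtain ⟨i, t⟩ := s
    have h01 : i = 0 ∨ i = 1 := by fin_cases i <;> simp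
    rcases h01 with rfl | rfl <;> cases t
    · rw [KE_inr0 _ _ _ (Or.inl hs)]; ring
    · rw [KE_inr0 _ _ _ (Or.inr hs)]; ring
    · rw [KE_inr0 _ _ _ (Or.inl hs)]; ring
    · rw [KE_inr0 _ _ _ (Or.inr hs)]; ring
  · intro J
    refine (key fun s => if s.2 = false then Sum.inl (J s.1) else Sum.inr ()).trans ?_
    simp [KE_inr]

theorem th_up (V : HS n) (W : HW w) (Γ : Fin n → Matrix (Fin w) (Fin w) ℚ) (a b a' b' : Fin w) :
    ∑ i, up V W Γ i a b * (W.E * Γ i) a' b' =
      ∑ i, ∑ j, V.Q⁻¹ i j * (W.E * Γ i) a b * (W.E * Γ j) a' b' := by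
  rw [Finset.sum_comm (f := fun i j => V.Q⁻¹ i j * (W.E * Γ i) a b * (W.E * Γ j) a' b')]
  refine Finset.sum_congr rfl fun i _ => ?_
  unfold up
  rw [Matrix.sum_apply, Finset.sum_mul]
  refine Finset.sum_congr rfl fun j _ => ?_
  rw [Matrix.smul_apply, smul_eq_mul,
    show V.Q⁻¹ i j = V.Q⁻¹ j i from congrFun (congrFun (Qinv_symm V) j) i]

/-- `∑_ij Q_ij M^i ⊗ M^j = Θ` -/
theorem th_diag (V : HS n) (W : HW w) (Γ : Fin n → Matrix (Fin w) (Fin w) ℚ) (a b a' b' : Fin w) :
    ∑ i, ∑ j, V.Q i j * (up V W Γ i a b * up V W Γ j a' b') =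
      ∑ i, ∑ j, V.Q⁻¹ i j * (W.E * Γ i) a b * (W.E * Γ j) a' b' := by
  have h1 : ∀ i, ∑ j, V.Q i j * (up V W Γ i a b * up V W Γ j a' b') =
      up V W Γ i a b * (W.E * Γ i) a' b' := by
    intro i
    have h2 : ∑ j, V.Q i j • up V W Γ j = W.E * Γ i := by
      unfold up
      simp only [Finset.smul_sum, smul_smul]
      rw [Finset.sum_comm]
      have h3 : ∀ l, ∑ j, (V.Q i j * V.Q⁻¹ j l) • (W.E * Γ l) =
          (1 : Matrix (Fin n) (Fin n) ℚ) i l • (W.E * Γ l) := by
        intro l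
        rw [← Finset.sum_smul, ← Matrix.mul_apply,
          Matrix.mul_nonsing_inv _ (isUnit_iff_ne_zero.2 (dQ V))]
      simp only [h3]
      rw [Finset.sum_eq_single i]
      · rw [Matrix.one_apply_eq, one_smul]
      · intro l _ hl
        rw [Matrix.one_apply_ne hl.symm, zero_smul]
      · intro h
        exact absurd (Finset.mem_univ i) h
    have h4 := congrFun (congrFun h2 a') b'
    rw [Matrix.sum_apply] at h4
    rw [← h4, Finset.mul_sum]
    refine Finset.sum_congr rfl fun j _ => ?_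
    rw [Matrix.smul_apply, smul_eq_mul]
    ring
  simp only [h1]
  exact th_up V W Γ a b a' b'

theorem cons_two {α : Type} (a b c : α) (d : Fin 0 → α) :
    (Fin.cons a (Fin.cons b (Fin.cons c d : Fin 1 → α) : Fin 2 → α) : Fin 3 → α) 2 = c := rfl

theorem diag_mem (hB : CyclesW W B) (hΘ : theta V W Γ ∈ B 4) :
    (fun J : Fin 2 → Fin n ⊕ Fin w => fromBlocks V.Q 0 0 0 (J 0) (J 1)) ∈ AE V W Γ B 2 := by
  have key : ∀ L : Fin 2 × Bool → Fin w ⊕ Unit,
      ∑ J : Fin 2 → Fin n ⊕ Fin w, fromBlocks V.Q 0 0 0 (J 0) (J 1) *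
        ∏ s, KE V W Γ (J s) (L (s, false)) (L (s, true)) =
      ∑ a, ∑ b, V.Q a b * (KE V W Γ (Sum.inl a) (L (0, false)) (L (0, true)) *
        KE V W Γ (Sum.inl b) (L (1, false)) (L (1, true))) := by
    intro L
    rw [sum_cons]
    simp only [sum_cons, Fin.prod_univ_two, Fintype.sum_sum_type, Fintype.sum_unique]
    simp
  refine mem_tens.2 ?_
  refine mem_pat hB.sys (fun _ => false) ![(0, false), (0, true), (1, false), (1, true)]
    (fun s => cond s.2 (if s.1 = 0 then 1 else 3) (if s.1 = 0 then 0 else 2)) (by simp)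
    (by decide) (by decide) ?_ hΘ ?_
  · intro L s hs
    rw [key]
    refine Finset.sum_eq_zero fun a _ => Finset.sum_eq_zero fun b _ => ?_
    obtain ⟨i, t⟩ := s
    have h01 : i = 0 ∨ i = 1 := by fin_cases i <;> simp
    rcases h01 with rfl | rfl <;> cases t
    · rw [KE_inl0 _ _ _ (Or.inl hs)]; ring
    · rw [KE_inl0 _ _ _ (Or.inr hs)]; ring
    · rw [KE_inl0 _ _ _ (Or.inl hs)]; ring
    · rw [KE_inl0 _ _ _ (Or.inr hs)]; ring
  · intro J
    refine (key fun s => if false = false then Sum.inl (J (cond s.2 (if s.1 = 0 then 1 else 3)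
      (if s.1 = 0 then 0 else 2))) else Sum.inr ()).trans ?_
    simp only [if_true, KE_inl, cond_true, cond_false]
    exact th_diag V W Γ _ _ _ _

theorem tri_mem (hB : CyclesW W B) (hΘ : theta V W Γ ∈ B 4) :
    tri (fun i => W.E * Γ i) ∈ AE V W Γ B 3 := by
  have key : ∀ L : Fin 3 × Bool → Fin w ⊕ Unit,
      ∑ J : Fin 3 → Fin n ⊕ Fin w, tri (fun i => W.E * Γ i) J *
        ∏ s, KE V W Γ (J s) (L (s, false)) (L (s, true)) =
      ∑ i, ∑ a, ∑ b, (W.E * Γ i) a b * (KE V W Γ (Sum.inl i) (L (0, false)) (L (0, true)) *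
        (KE V W Γ (Sum.inr a) (L (1, false)) (L (1, true)) *
        KE V W Γ (Sum.inr b) (L (2, false)) (L (2, true)))) := by
    intro L
    rw [sum_cons]
    simp only [sum_cons, Fin.prod_univ_three, Fintype.sum_sum_type, Fintype.sum_unique, tri]
    simp [mul_assoc, cons_two]
  refine mem_tens.2 ?_
  refine mem_pat hB.sys (fun s => s.2 && !decide (s.1 = 0))
    ![(0, false), (0, true), (1, false), (2, false)]
    (fun s => if s.1 = 0 then (cond s.2 1 0) else if s.1 = 1 then 2 else 3) (by decide)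
    (by decide) (by decide) ?_ hΘ ?_
  · intro L s hs
    rw [key]
    refine Finset.sum_eq_zero fun i _ => Finset.sum_eq_zero fun a _ =>
      Finset.sum_eq_zero fun b _ => ?_
    obtain ⟨j, t⟩ := s
    have h01 : j = 0 ∨ j = 1 ∨ j = 2 := by fin_cases j <;> simp
    rcases h01 with rfl | rfl | rfl <;> cases t
    · rw [KE_inl0 _ _ _ (Or.inl (by simpa using hs))]; ring
    · rw [KE_inl0 _ _ _ (Or.inr (by simpa using hs))]; ring
    · rw [KE_inr0 a _ _ (Or.inl (by simpa using hs))]; ring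
    · rw [KE_inr0 a _ _ (Or.inr (by simpa using hs))]; ring
    · rw [KE_inr0 b _ _ (Or.inl (by simpa using hs))]; ring
    · rw [KE_inr0 b _ _ (Or.inr (by simpa using hs))]; ring
  · intro J
    refine (key fun s => if (s.2 && !decide (s.1 = 0)) = false then Sum.inl (J
      (if s.1 = 0 then (cond s.2 1 0) else if s.1 = 1 then 2 else 3)) else Sum.inr ()).trans ?_
    simp [KE_inl, KE_inr]
    unfold theta
    rw [← th_up]
    refine Finset.sum_congr rfl fun i _ => ?_
    ring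

theorem hodge2 {W : HW w} {N : Matrix (Fin w) (Fin w) ℚ} :
    HodgeW W (fun J : Fin 2 → Fin w => N (J 0) (J 1)) ↔ W.yᵀ * mC N + mC N * W.y = 0 := by
  have h1 := bil_der W.y (mC N)
  have h2 : HodgeW W (fun J : Fin 2 → Fin w => N (J 0) (J 1)) ↔
      der W.y (fun J : Fin 2 → Fin w => mC N (J 0) (J 1)) = 0 := by
    constructor
    · intro h
      funext J
      exact h J
    · intro h J
      exact congrFun h J
  rw [h2, h1]
  constructor
  · intro h
    ext a b
    exact congrFun h ![a, b]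
  · intro h
    rw [h]
    rfl

theorem mC_Qinv (V : HS n) : mC V.Q * mC V.Q⁻¹ = 1 := by
  have h := congrArg (fun M : Matrix (Fin n) (Fin n) ℚ => M.map (algebraMap ℚ ℂ))
    (Matrix.mul_nonsing_inv _ (isUnit_iff_ne_zero.2 (dQ V)))
  simp only [Matrix.map_mul] at h
  rw [Matrix.map_one (algebraMap ℚ ℂ) (map_zero _) (map_one _)] at h
  exact h

/-- the linear Hodge forms -/
theorem lin_mem' (h : Cliff V W Γ c) (hB : CyclesW W B) (t : (Fin 1 → Fin n ⊕ Fin w) → ℚ)
    (ht : IsHodge V W t) : t ∈ AE V W Γ B 1 := by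
  have hW : ∀ b, t (fun _ => Sum.inr b) = 0 := by
    have h1 : W.yᵀ *ᵥ (fun b => (t (fun _ => Sum.inr b) : ℂ)) = 0 := by
      funext q
      have h1 := ht (fun _ => Sum.inr q)
      simp only [Fin.sum_univ_one, Fintype.sum_sum_type, Xop, fromBlocks_apply₁₂,
        fromBlocks_apply₂₂, Matrix.zero_apply, zero_mul, Finset.sum_const_zero, zero_add] at h1
      rw [Pi.zero_apply, ← h1]
      change ∑ p, W.y p q * (t (fun _ => Sum.inr p) : ℂ) = _
      refine Finset.sum_congr rfl fun p _ => ?_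
      have h2 : (fun _ : Fin 1 => (Sum.inr p : Fin n ⊕ Fin w)) =
          Function.update (fun _ : Fin 1 => (Sum.inr q : Fin n ⊕ Fin w)) 0 (Sum.inr p) := by
        funext s
        rw [Subsingleton.elim s 0, Function.update_self]
      rw [h2]
    have h2 : (4 : ℂ) • (W.yᵀ * W.yᵀ) = 1 := by
      rw [← Matrix.transpose_mul, ← Matrix.transpose_smul, W.sq, Matrix.transpose_one]
    intro b
    have h3 : (fun b => (t (fun _ => Sum.inr b) : ℂ)) = 0 := by
      calc (fun b => (t (fun _ => Sum.inr b) : ℂ))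
          = (1 : Matrix (Fin w) (Fin w) ℂ) *ᵥ (fun b => (t (fun _ => Sum.inr b) : ℂ)) := by
            rw [Matrix.one_mulVec]
        _ = 0 := by
            rw [← h2, Matrix.smul_mulVec, ← Matrix.mulVec_mulVec, h1, Matrix.mulVec_zero,
              smul_zero]
    have h4 := congrFun h3 b
    simpa using h4
  have hV : ∀ q : Fin n, ∑ p, V.x p q * (t (fun _ => Sum.inl p) : ℂ) = 0 := by
    intro q
    have h1 := ht (fun _ => Sum.inl q)
    simp only [Fin.sum_univ_one, Fintype.sum_sum_type, Xop, fromBlocks_apply₁₁,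
      fromBlocks_apply₂₁, Matrix.zero_apply, zero_mul, Finset.sum_const_zero, add_zero] at h1
    rw [← h1]
    refine Finset.sum_congr rfl fun p _ => ?_
    have h2 : (fun _ : Fin 1 => (Sum.inl p : Fin n ⊕ Fin w)) =
        Function.update (fun _ : Fin 1 => (Sum.inl q : Fin n ⊕ Fin w)) 0 (Sum.inl p) := by
      funext s
      rw [Subsingleton.elim s 0, Function.update_self]
    rw [h2]
  have key : ∀ L : Fin 1 × Bool → Fin w ⊕ Unit,
      ∑ J : Fin 1 → Fin n ⊕ Fin w, t J *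
        ∏ s, KE V W Γ (J s) (L (s, false)) (L (s, true)) =
      ∑ i, t (fun _ => Sum.inl i) * KE V W Γ (Sum.inl i) (L (0, false)) (L (0, true)) := by
    intro L
    rw [sum_cons]
    simp only [Fin.prod_univ_one, Fintype.sum_sum_type, Fintype.sum_unique]
    have h3 : ∀ (u : Fin n ⊕ Fin w) (d : Fin 0 → Fin n ⊕ Fin w),
      (Fin.cons u d : Fin 1 → Fin n ⊕ Fin w) = fun _ => u := by
      intro u d
      funext s
      have h4 : s = 0 := Subsingleton.elim (α := Fin 1) s 0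
      rw [h4]
      rfl
    simp only [h3, hW, zero_mul, Finset.sum_const_zero, add_zero]
  refine mem_tens.2 ?_
  refine mem_pat (g := fun J => (∑ i, t (fun _ => Sum.inl i) • up V W Γ i) (J 0) (J 1))
    hB.sys (fun _ => false) ![(0, false), (0, true)] (fun s => cond s.2 1 0) (by simp)
    (by decide) (by decide) ?_ (hB.lefschetz _ ?_) ?_
  · intro L s hs
    rw [key]
    refine Finset.sum_eq_zero fun a _ => ?_
    obtain ⟨i, t⟩ := s
    have h01 : i = 0 := Subsingleton.elim _ _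
    subst h01
    cases t
    · rw [KE_inl0 _ _ _ (Or.inl hs)]; ring
    · rw [KE_inl0 _ _ _ (Or.inr hs)]; ring
  · rw [hodge2]
    set τ : Fin n → ℂ := fun i => (t (fun _ => Sum.inl i) : ℂ) with hτ
    have h1 : mC (∑ i, t (fun _ => Sum.inl i) • up V W Γ i) =
        mC W.E * gam (fun i => mC (Γ i)) ((mC V.Q⁻¹)ᵀ *ᵥ τ) := by
      have e1 : ∀ j, (mC V.Q⁻¹)ᵀ.mulVec τ j = ∑ i, (V.Q⁻¹ i j : ℂ) * τ i := fun j => rfl
      have e2 : mC W.E * gam (fun i => mC (Γ i)) ((mC V.Q⁻¹)ᵀ *ᵥ τ) =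
          ∑ j, (∑ i, (V.Q⁻¹ i j : ℂ) * τ i) • (mC W.E * mC (Γ j)) := by
        change mC W.E * ∑ j, ((mC V.Q⁻¹)ᵀ *ᵥ τ) j • mC (Γ j) = _
        rw [Finset.mul_sum]
        refine Finset.sum_congr rfl fun j _ => ?_
        rw [Matrix.mul_smul, e1]
      rw [e2]
      ext a b
      have e3 : ∀ j, mC W.E * mC (Γ j) = mC (W.E * Γ j) := by
        intro j
        unfold mC
        rw [← Rat.coe_castHom, ← Matrix.map_mul]
      simp only [e3]
      rw [Matrix.sum_apply]
      simp only [mC, Matrix.map_apply, Matrix.sum_apply, Matrix.smul_apply, smul_eq_mul, up,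
        Rat.cast_sum, Rat.cast_mul, Finset.mul_sum, Finset.sum_mul, hτ]
      rw [Finset.sum_comm]
      refine Finset.sum_congr rfl fun j _ => Finset.sum_congr rfl fun i _ => ?_
      ring
    have h2 : V.x *ᵥ ((mC V.Q⁻¹)ᵀ *ᵥ τ) = 0 := by
      have e1 : (mC V.Q⁻¹)ᵀ = mC V.Q⁻¹ := by
        unfold mC
        rw [← Matrix.transpose_map, Qinv_symm]
      have e2 : mC V.Q *ᵥ (V.x *ᵥ ((mC V.Q⁻¹)ᵀ *ᵥ τ)) = 0 := by
        rw [e1, Matrix.mulVec_mulVec, eq_neg_of_add_eq_zero_right V.skew, Matrix.neg_mulVec,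
          ← Matrix.mulVec_mulVec, Matrix.mulVec_mulVec τ, mC_Qinv, Matrix.one_mulVec, neg_eq_zero]
        funext q
        exact hV q
      calc V.x *ᵥ ((mC V.Q⁻¹)ᵀ *ᵥ τ)
          = (mC V.Q)⁻¹ *ᵥ (mC V.Q *ᵥ (V.x *ᵥ ((mC V.Q⁻¹)ᵀ *ᵥ τ))) := by
            rw [Matrix.mulVec_mulVec _ (mC V.Q)⁻¹, RQ, Matrix.one_mulVec]
        _ = 0 := by rw [e2, Matrix.mulVec_zero]
    have h3 := h.comm (z := V.x) V.skew ((mC V.Q⁻¹)ᵀ *ᵥ τ)
    have h4 : sp V Γ c V.x = W.y := by
      have := h.y (RingEquiv.refl ℂ)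
      rw [map_refl, map_refl] at this
      exact this.symm
    rw [h2, map_zero, h4] at h3
    have h5 : W.yᵀ * mC W.E = -(mC W.E * W.y) := eq_neg_of_add_eq_zero_left W.skew
    rw [h1, ← Matrix.mul_assoc, h5, Matrix.mul_assoc, Matrix.neg_mul, Matrix.mul_assoc,
      neg_add_eq_sub, ← Matrix.mul_sub, ← neg_sub, h3, neg_zero, Matrix.mul_zero]
  · intro J
    refine (key fun s => if false = false then Sum.inl (J (cond s.2 1 0)) else Sum.inr ()).trans ?_
    simp only [if_true, KE_inl, cond_true, cond_false]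
    rw [Matrix.sum_apply]
    rfl

theorem cycles_AE (hp : S_plus) (ht : S_tens) (h : Cliff V W Γ c) (hB : CyclesW W B)
    (hΘ : theta V W Γ ∈ B 4) : Cycles V W (AE V W Γ B) := by
  have hG : GSys W.E⁻¹ (gen B) := gsys_gen hB.sys
  have h0 : GSys (Rc W true) (plus (gen B)) := hp ℚ (Fin w) _ _ hG 0
  have h1 : GSys (Rc W false) (plus (gen B)) := by
    have h2 := (hp ℚ (Fin w) _ _ hG 1).sub h0
    have h3 : fromBlocks W.E⁻¹ 0 0 (Matrix.of fun _ _ : Unit => (1 : ℚ)) - Rc W true =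
        Rc W false := by
      ext a b
      rcases a with a | a <;> rcases b with b | b <;> simp [Rc]
    rwa [h3] at h2
  refine ⟨?_, lin_mem' h hB, diag_mem hB hΘ, fun N hN => lef_mem hB N fun J => ?_⟩
  · refine ht ℚ (Fin w ⊕ Unit) (plus (gen B)) (Rc W true) h0 (Fin n ⊕ Fin w) _ (KE V W Γ) Bool
      (fun _ => Rc W true) (fun t => Rc W t) id (fun t => cond t (-(c * w)⁻¹) 1) (fun _ => h0)
      (fun t => ?_) (fun u u' => con_id h u u')
    cases t
    · exact h1
    · exact h0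
  · have h2 := hN fun s => Sum.inr (J s)
    simp only [Fin.sum_univ_two, Fintype.sum_sum_type, Xop, fromBlocks_apply₁₂,
      fromBlocks_apply₂₂, Matrix.zero_apply, zero_mul, Finset.sum_const_zero, zero_add,
      Function.update_self, ne_eq, one_ne_zero, not_false_eq_true, Function.update_of_ne,
      zero_ne_one] at h2
    simp only [Fin.sum_univ_two, Function.update_self, ne_eq, one_ne_zero, not_false_eq_true,
      Function.update_of_ne, zero_ne_one]
    exact h2

end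

section fin
variable {V : HS n} {W : HW w} {k : ℕ}

open Classical in
/-- a form on `W` as a form on `V ⊕ W` -/
def extW (n : ℕ) (t : (Fin k → Fin w) → ℚ) : (Fin k → Fin n ⊕ Fin w) → ℚ :=
  fun J => if h : ∀ s, (J s).isRight = true then t (fun s => (J s).getRight (h s)) else 0

theorem extW_inr (t : (Fin k → Fin w) → ℚ) (K : Fin k → Fin w) :
    extW n t (fun s => Sum.inr (K s)) = t K := by
  have h : ∀ s, ((fun s => Sum.inr (K s) : Fin k → Fin n ⊕ Fin w) s).isRight = true :=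
    fun _ => rfl
  exact (dif_pos h).trans rfl

theorem extW_inl (t : (Fin k → Fin w) → ℚ) {J : Fin k → Fin n ⊕ Fin w} {s : Fin k} {a : Fin n}
    (h : J s = Sum.inl a) : extW n t J = 0 := by
  unfold extW
  rw [dif_neg]
  intro h'
  have := h' s
  rw [h] at this
  simp at this

theorem hodge_ext (t : (Fin k → Fin w) → ℚ) (ht : HodgeW W t) : IsHodge V W (extW n t) := by
  intro J
  by_cases hJ : ∃ s a, J s = Sum.inl a
  · obtain ⟨s, a, hs⟩ := hJ
    refine Finset.sum_eq_zero fun j _ => Finset.sum_eq_zero fun p _ => ?_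
    by_cases hj : s = j
    · subst hj
      rw [hs]
      rcases p with p | p
      · rw [extW_inl t (a := p) (s := s) (by simp), Rat.cast_zero, mul_zero]
      · simp [Xop]
    · rw [extW_inl t (a := a) (s := s) (by rw [update_of_ne hj, hs]), Rat.cast_zero, mul_zero]
  · push Not at hJ
    have h1 : ∀ s, ∃ b, J s = Sum.inr b := by
      intro s
      rcases hs : J s with a | b
      · exact absurd hs (hJ s a)
      · exact ⟨b, rfl⟩
    choose K hK using h1
    obtain rfl : J = fun s => Sum.inr (K s) := funext hK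
    rw [← ht K]
    refine Finset.sum_congr rfl fun j _ => ?_
    rw [Fintype.sum_sum_type]
    simp only [Xop, fromBlocks_apply₁₂, fromBlocks_apply₂₂, Matrix.zero_apply, zero_mul,
      Finset.sum_const_zero, zero_add]
    refine Finset.sum_congr rfl fun p _ => ?_
    have h : update (fun s => (Sum.inr (K s) : Fin n ⊕ Fin w)) j (Sum.inr p) =
        fun s => Sum.inr (update K j p s) := by
      funext s
      by_cases hs : s = j
      · subst hs; simp
      · simp [update_of_ne hs]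
    rw [h, extW_inr]

/-- **Theorem E** -/
theorem thmE (hp : S_plus) (hT : S_tens) (hV : (V.x * V.x).trace = 2)
    {Γ : Fin n → Matrix (Fin w) (Fin w) ℚ} {c : ℚ} {B : ∀ k : ℕ, Submodule ℚ ((Fin k → Fin w) → ℚ)}
    (h : Cliff V W Γ c) (hB : CyclesW W B) (hΘ : theta V W Γ ∈ B 4)
    {t : (Fin k → Fin w) → ℚ} (ht : HodgeW W t) : t ∈ B k := by
  have hA := cycles_AE hp hT h hB hΘ
  have h1 : extW n t ∈ AE V W Γ B k := mainA hV hA h (tri_mem hB hΘ) (hodge_ext t ht)
  have h2 := mem_tens.1 h1 fun s => s.2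
  let e₀ : Fin k ≃ {s : Fin k × Bool // s.2 = false} :=
    ⟨fun j => ⟨(j, false), rfl⟩, fun s => s.1.1, fun _ => rfl, fun s => Subtype.ext
      (Prod.ext rfl s.2.symm)⟩
  rw [mem_gen_iff hB.sys e₀] at h2
  convert h2 using 1
  funext J
  symm
  refine (Finset.sum_eq_single (fun s => Sum.inr (J s)) ?_ ?_).trans ?_
  · intro J' _ hJ'
    by_cases hl : ∃ s a, J' s = Sum.inl a
    · obtain ⟨s, a, hs⟩ := hl
      rw [extW_inl t hs, zero_mul]
    · push Not at hl
      have h3 : ∀ s, ∃ b, J' s = Sum.inr b := by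
        intro s
        rcases hs : J' s with a | b
        · exact absurd hs (hl s a)
        · exact ⟨b, rfl⟩
      choose K hK using h3
      obtain ⟨s, hs⟩ := Function.ne_iff.1 hJ'
      rw [Finset.prod_eq_zero (Finset.mem_univ s), mul_zero]
      rw [hK s] at hs ⊢
      have h4 : J s ≠ K s := fun h5 => hs (by rw [h5])
      exact if_neg h4
  · intro h
    exact absurd (Finset.mem_univ _) h
  · rw [extW_inr]
    have h3 : ∀ s : Fin k, KE V W Γ (Sum.inr (J s)) (Sum.inl (J s)) (Sum.inr ()) = 1 :=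
      fun s => if_pos rfl
    refine (congrArg (fun q => t J * q) (Finset.prod_eq_one fun s _ => h3 s)).trans (mul_one _)

end fin

end

end

end Pool.Agent.Y89.KS
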