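import Pool.Agent.Y89.KS.Det
import Pool.Agent.Y166.KS.Fft

/-!
# The spin representation
-/

open Matrix Finset Function

set_option linter.unusedSectionVars false

namespace Pool.Agent.Y89.KS

noncomputable section

open Pool.Agent.W544.PG (HS HW mC cspan cx)

section
variable {n : ℕ} {N : Type} [Fintype N] [DecidableEq N]

/-- orthonormal frames of self-adjoint blocks -/
theorem frame {Q R P : Matrix (Fin n) (Fin n) ℂ} (hQ : Qᵀ = Q) (hQR : Q * R = 1)
    (hPP : P * P = P) (hPQ : Pᵀ * Q = Q * P) :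
    ∃ (m : ℕ) (G : Matrix (Fin m) (Fin n) ℂ) (H : Matrix (Fin n) (Fin m) ℂ),
      H * G = P ∧ G * H = 1 ∧ Hᵀ * Q * H = 1 := by
  obtain ⟨m, G, H, hHG, hGH⟩ := Pool.Agent.Y166.KS.rank_fac hPP
  have hB : (Hᵀ * Q * H) * (G * R * Gᵀ) = 1 := by
    calc Hᵀ * Q * H * (G * R * Gᵀ) = Hᵀ * (Q * (H * G)) * R * Gᵀ := by
          simp only [Matrix.mul_assoc]
      _ = Hᵀ * Pᵀ * (Q * R) * Gᵀ := by rw [hHG, ← hPQ]; simp only [Matrix.mul_assoc]
      _ = (G * (P * H))ᵀ := by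
          rw [hQR, Matrix.mul_one, transpose_mul, transpose_mul]
      _ = 1 := by
          rw [← hHG, Matrix.mul_assoc, hGH, Matrix.mul_one, hGH, transpose_one]
  have hBs : (Hᵀ * Q * H)ᵀ = Hᵀ * Q * H := by
    rw [transpose_mul, transpose_mul, transpose_transpose, hQ, Matrix.mul_assoc]
  have hBd : (Hᵀ * Q * H).det ≠ 0 := by
    intro h0
    have := congrArg Matrix.det hB
    rw [det_mul, h0, zero_mul, det_one] at this
    exact zero_ne_one this
  obtain ⟨U, U', hU, hUU, hUU'⟩ := orth _ hBs hBd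
  refine ⟨m, U' * G, H * U, ?_, ?_, ?_⟩
  · rw [Matrix.mul_assoc, ← Matrix.mul_assoc U, hUU, Matrix.one_mul, hHG]
  · rw [Matrix.mul_assoc, ← Matrix.mul_assoc G, hGH, Matrix.one_mul, hUU']
  · rw [transpose_mul, ← hU]
    simp only [Matrix.mul_assoc]

/-- the spin representation -/
def spin (c : ℂ) (R : Matrix (Fin n) (Fin n) ℂ) (Γ : Fin n → Matrix N N ℂ)
    (z : Matrix (Fin n) (Fin n) ℂ) : Matrix N N ℂ :=
  (1 / (4 * c)) • ∑ i, ∑ j, (z * R) i j • (Γ i * Γ j)

variable {Q R : Matrix (Fin n) (Fin n) ℂ} {c : ℂ} {Γ : Fin n → Matrix N N ℂ}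

theorem gam_rel (h : ∀ i j, Γ i * Γ j + Γ j * Γ i = (2 * c * Q i j) • (1 : Matrix N N ℂ))
    (u v : Fin n → ℂ) :
    gam Γ u * gam Γ v + gam Γ v * gam Γ u = (u ⬝ᵥ Q *ᵥ v) • ((2 * c) • (1 : Matrix N N ℂ)) := by
  have h1 : gam Γ u * gam Γ v = ∑ i, ∑ j, (u i * v j) • (Γ i * Γ j) := by
    rw [gam_apply, gam_apply, Finset.sum_mul]
    refine Finset.sum_congr rfl fun i _ => ?_
    rw [Finset.mul_sum]
    refine Finset.sum_congr rfl fun j _ => ?_
    rw [Matrix.smul_mul, Matrix.mul_smul, smul_smul]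
  have h2 : gam Γ v * gam Γ u = ∑ i, ∑ j, (u i * v j) • (Γ j * Γ i) := by
    rw [gam_apply, gam_apply, Finset.sum_mul, Finset.sum_comm]
    simp only [Finset.mul_sum]
    rw [Finset.sum_comm]
    rw [Finset.sum_comm]
    refine Finset.sum_congr rfl fun i _ => ?_
    refine Finset.sum_congr rfl fun j _ => ?_
    rw [Matrix.smul_mul, Matrix.mul_smul, smul_smul, mul_comm]
  rw [h1, h2, ← Finset.sum_add_distrib]
  have h3 : ∀ i, (∑ j, (u i * v j) • (Γ i * Γ j)) + (∑ j, (u i * v j) • (Γ j * Γ i)) =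
      (u i * (Q *ᵥ v) i) • ((2 * c) • (1 : Matrix N N ℂ)) := by
    intro i
    rw [← Finset.sum_add_distrib]
    simp only [← smul_add, h]
    rw [Matrix.mulVec, dotProduct, Finset.mul_sum, Finset.sum_smul]
    refine Finset.sum_congr rfl fun j _ => ?_
    rw [smul_smul, smul_smul]
    congr 1
    ring
  simp only [h3]
  rw [← Finset.sum_smul]
  rfl

theorem spin_comm (hQ : Qᵀ = Q) (hQR : Q * R = 1) (hc : c ≠ 0)
    (h : ∀ i j, Γ i * Γ j + Γ j * Γ i = (2 * c * Q i j) • (1 : Matrix N N ℂ))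
    {z : Matrix (Fin n) (Fin n) ℂ} (hz : zᵀ * Q + Q * z = 0) (v : Fin n → ℂ) :
    spin c R Γ z * gam Γ v - gam Γ v * spin c R Γ z = gam Γ (z *ᵥ v) := by
  have hRQ : R * Q = 1 := mul_eq_one_comm.1 hQR
  have hR : Rᵀ = R := by
    have h1 : Rᵀ * Q = 1 := by
      rw [← hQ, ← transpose_mul, hQR, transpose_one]
    calc Rᵀ = Rᵀ * (Q * R) := by rw [hQR, Matrix.mul_one]
      _ = R := by rw [← Matrix.mul_assoc, h1, Matrix.one_mul]
  have hRz : R * zᵀ = -(z * R) := by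
    calc R * zᵀ = R * (zᵀ * Q) * R := by rw [Matrix.mul_assoc, Matrix.mul_assoc, hQR, Matrix.mul_one]
      _ = -(z * R) := by
        rw [eq_neg_of_add_eq_zero_left hz, Matrix.mul_neg, ← Matrix.mul_assoc, hRQ, Matrix.one_mul,
          Matrix.neg_mul]
  have key : ∀ i j, Γ i * Γ j * gam Γ v - gam Γ v * (Γ i * Γ j) =
      (2 * c * (Q *ᵥ v) j) • Γ i - (2 * c * (Q *ᵥ v) i) • Γ j := by
    intro i j
    have h1 : ∀ i, Γ i * gam Γ v + gam Γ v * Γ i = (2 * c * (Q *ᵥ v) i) • (1 : Matrix N N ℂ) := by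
      intro i
      have h2 := gam_rel h (Pi.single i 1) v
      rw [gam_single, single_one_dotProduct, smul_smul] at h2
      rw [h2]
      congr 1
      ring
    calc Γ i * Γ j * gam Γ v - gam Γ v * (Γ i * Γ j) =
        Γ i * (Γ j * gam Γ v + gam Γ v * Γ j) - (Γ i * gam Γ v + gam Γ v * Γ i) * Γ j := by
          noncomm_ring
      _ = _ := by rw [h1, h1, Matrix.mul_smul, Matrix.smul_mul, Matrix.mul_one, Matrix.one_mul]
  unfold spin
  rw [Matrix.smul_mul, Matrix.mul_smul, ← smul_sub, Finset.sum_mul, Finset.mul_sum,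
    ← Finset.sum_sub_distrib]
  have h2 : ∀ i, (∑ j, (z * R) i j • (Γ i * Γ j)) * gam Γ v -
      gam Γ v * (∑ j, (z * R) i j • (Γ i * Γ j)) =
      (2 * c) • ((z *ᵥ v) i • Γ i) - ∑ j, (2 * c * (Q *ᵥ v) i) • ((z * R) i j • Γ j) := by
    intro i
    rw [Finset.sum_mul, Finset.mul_sum, ← Finset.sum_sub_distrib]
    have h3 : ∀ j, (z * R) i j • (Γ i * Γ j) * gam Γ v - gam Γ v * ((z * R) i j • (Γ i * Γ j)) =
        ((z * R) i j * (2 * c * (Q *ᵥ v) j)) • Γ i -
          (2 * c * (Q *ᵥ v) i) • ((z * R) i j • Γ j) := by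
      intro j
      rw [Matrix.smul_mul, Matrix.mul_smul, ← smul_sub, key, smul_sub, smul_smul, smul_smul,
        smul_smul, mul_comm ((z * R) i j) (2 * c * (Q *ᵥ v) i)]
    simp only [h3]
    rw [Finset.sum_sub_distrib, ← Finset.sum_smul]
    congr 1
    rw [smul_smul]
    congr 1
    have h4 : z *ᵥ v = (z * R) *ᵥ (Q *ᵥ v) := by
      rw [Matrix.mulVec_mulVec, Matrix.mul_assoc, hRQ, Matrix.mul_one]
    rw [h4, Matrix.mulVec, dotProduct, Finset.mul_sum]
    refine Finset.sum_congr rfl fun j _ => ?_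
    ring
  simp only [h2]
  rw [Finset.sum_sub_distrib, Finset.sum_comm]
  have h5 : ∑ j, ∑ i, (2 * c * (Q *ᵥ v) i) • ((z * R) i j • Γ j) =
      -((2 * c) • gam Γ (z *ᵥ v)) := by
    rw [gam_apply, Finset.smul_sum, ← Finset.sum_neg_distrib]
    refine Finset.sum_congr rfl fun j _ => ?_
    simp only [smul_smul]
    rw [← Finset.sum_smul, ← neg_smul]
    congr 1
    have h6 : (z *ᵥ v) j = -(((z * R)ᵀ *ᵥ (Q *ᵥ v)) j) := by
      have h7 : (z * R)ᵀ = -(z * R) := by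
        rw [transpose_mul, hR, hRz]
      rw [h7, Matrix.neg_mulVec, Pi.neg_apply, neg_neg, Matrix.mulVec_mulVec, Matrix.mul_assoc,
        hRQ, Matrix.mul_one]
    rw [h6, Matrix.mulVec, dotProduct, mul_neg, neg_neg, Finset.mul_sum]
    refine Finset.sum_congr rfl fun i _ => ?_
    rw [Matrix.transpose_apply]
    ring
  rw [h5, sub_neg_eq_add, ← Finset.smul_sum, ← gam_apply, ← two_smul ℂ, smul_smul, smul_smul]
  have h8 : (1 / (4 * c)) * 2 * (2 * c) = 1 := by
    field_simp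
    norm_num
  rw [h8, one_smul]

theorem spin_spin (hQ : Qᵀ = Q) (hQR : Q * R = 1) (hc : c ≠ 0)
    (h : ∀ i j, Γ i * Γ j + Γ j * Γ i = (2 * c * Q i j) • (1 : Matrix N N ℂ))
    {z z' : Matrix (Fin n) (Fin n) ℂ} (hz : zᵀ * Q + Q * z = 0) :
    spin c R Γ z * spin c R Γ z' - spin c R Γ z' * spin c R Γ z =
      spin c R Γ (z * z' - z' * z) := by
  have hRQ : R * Q = 1 := mul_eq_one_comm.1 hQR
  have hRz : R * zᵀ = -(z * R) := by
    calc R * zᵀ = R * (zᵀ * Q) * R := by rw [Matrix.mul_assoc, Matrix.mul_assoc, hQR, Matrix.mul_one]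
      _ = -(z * R) := by
        rw [eq_neg_of_add_eq_zero_left hz, Matrix.mul_neg, ← Matrix.mul_assoc, hRQ, Matrix.one_mul,
          Matrix.neg_mul]
  set A := spin c R Γ z with hA
  have hAi : ∀ i, A * Γ i - Γ i * A = ∑ k, z k i • Γ k := by
    intro i
    have h1 := spin_comm (R := R) hQ hQR hc h hz (Pi.single i 1)
    rw [gam_single, gam_apply, Matrix.mulVec_single_one] at h1
    exact h1
  have key : ∀ i j, A * (Γ i * Γ j) - Γ i * Γ j * A =
      (∑ k, z k i • (Γ k * Γ j)) + ∑ k, z k j • (Γ i * Γ k) := by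
    intro i j
    calc A * (Γ i * Γ j) - Γ i * Γ j * A = (A * Γ i - Γ i * A) * Γ j + Γ i * (A * Γ j - Γ j * A) := by
          noncomm_ring
      _ = _ := by
          rw [hAi, hAi, Finset.sum_mul, Finset.mul_sum]
          simp only [Matrix.smul_mul, Matrix.mul_smul]
  have h1 : A * spin c R Γ z' - spin c R Γ z' * A = (1 / (4 * c)) • ∑ i, ∑ j, (z' * R) i j •
      ((∑ k, z k i • (Γ k * Γ j)) + ∑ k, z k j • (Γ i * Γ k)) := by
    unfold spin
    rw [Matrix.smul_mul, Matrix.mul_smul, ← smul_sub, Finset.sum_mul, Finset.mul_sum,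
      ← Finset.sum_sub_distrib]
    congr 1
    refine Finset.sum_congr rfl fun i _ => ?_
    rw [Finset.sum_mul, Finset.mul_sum, ← Finset.sum_sub_distrib]
    refine Finset.sum_congr rfl fun j _ => ?_
    rw [Matrix.smul_mul, Matrix.mul_smul, ← smul_sub, key]
  rw [h1]
  unfold spin
  congr 1
  simp only [smul_add, Finset.sum_add_distrib, Finset.smul_sum, smul_smul]
  have h2 : ∑ i, ∑ j, ∑ k, ((z' * R) i j * z k i) • (Γ k * Γ j) =
      ∑ i, ∑ j, (z * (z' * R)) i j • (Γ i * Γ j) := by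
    have h3 : ∑ i, ∑ j, ∑ k, ((z' * R) i j * z k i) • (Γ k * Γ j) =
        ∑ k, ∑ j, ∑ i, ((z' * R) i j * z k i) • (Γ k * Γ j) := by
      rw [Finset.sum_comm]
      have : ∀ j, ∑ i, ∑ k, ((z' * R) i j * z k i) • (Γ k * Γ j) =
          ∑ k, ∑ i, ((z' * R) i j * z k i) • (Γ k * Γ j) := fun j => Finset.sum_comm
      simp only [this]
      exact Finset.sum_comm
    rw [h3]
    refine Finset.sum_congr rfl fun k _ => Finset.sum_congr rfl fun j _ => ?_
    rw [← Finset.sum_smul, Matrix.mul_apply]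
    congr 1
    exact Finset.sum_congr rfl fun i _ => mul_comm _ _
  have h4 : ∑ i, ∑ j, ∑ k, ((z' * R) i j * z k j) • (Γ i * Γ k) =
      ∑ i, ∑ j, ((z' * R) * zᵀ) i j • (Γ i * Γ j) := by
    refine Finset.sum_congr rfl fun i _ => ?_
    rw [Finset.sum_comm]
    refine Finset.sum_congr rfl fun k _ => ?_
    rw [← Finset.sum_smul, Matrix.mul_apply]
    rfl
  rw [h2, h4, ← Finset.sum_add_distrib]
  refine Finset.sum_congr rfl fun i _ => ?_
  rw [← Finset.sum_add_distrib]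
  refine Finset.sum_congr rfl fun j _ => ?_
  rw [← add_smul, ← Matrix.add_apply]
  congr 2
  rw [Matrix.mul_assoc z' R, hRz, Matrix.sub_mul, Matrix.mul_neg, ← sub_eq_add_neg,
    Matrix.mul_assoc, Matrix.mul_assoc]

/-- signs -/
theorem sign_prod {B : Type} [Ring B] [Algebra ℂ B] (x : B) {m : ℕ} (g : Fin m → B) (ε : Fin m → ℂ)
    (h : ∀ i, x * g i = ε i • (g i * x)) :
    x * (List.ofFn g).prod = (∏ i, ε i) • ((List.ofFn g).prod * x) := by
  induction m with
  | zero => simp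
  | succ m ih =>
    rw [List.ofFn_succ, List.prod_cons, Fin.prod_univ_succ, ← mul_assoc, h 0, smul_mul_assoc,
      mul_assoc, ih (fun i => g i.succ) (fun i => ε i.succ) fun i => h i.succ, mul_smul_comm,
      smul_smul, mul_assoc]

end

end

end Pool.Agent.Y89.KS
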