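import Pool.Agent.Y89.KS.Abt2
import Pool.Agent.Y89.KS.AsmE
import Pool.Agent.Y166.KS.Blk0

/-!
# Morphisms to `End H^1(A)`
-/

open Matrix Finset Function

set_option linter.unusedSectionVars false

namespace Pool.Agent.Y89.KS

noncomputable section

open Pool.Agent.W544.PG (HS HW mC cspan cx)

section
variable {n w : ℕ}

/-- the commutant -/
def DD (W : HW w) (d : Matrix (Fin w) (Fin w) ℂ) : Prop :=
  ∀ σ : ℂ ≃+* ℂ, d * W.y.map σ = W.y.map σ * d

/-- morphisms to the endomorphisms of `W` -/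
structure Mor (V : HS n) (W : HW w) (P : Matrix (Fin n) (Fin n) ℂ)
    (Φ : (Fin n → ℂ) →ₗ[ℂ] Matrix (Fin w) (Fin w) ℂ) : Prop where
  rel : ∀ (σ : ℂ ≃+* ℂ) (v), W.y.map σ * Φ v - Φ v * W.y.map σ = Φ (V.x.map σ *ᵥ v)
  blk : ∀ v, Φ (P *ᵥ v) = Φ v

/-- the block: the whole transcendental part -/
structure Full (V : HS n) (P : Matrix (Fin n) (Fin n) ℂ) : Prop where
  blk : Blk0 V P
  self : adV V P = P
  all : ∀ σ : ℂ ≃+* ℂ, P * V.x.map σ = V.x.map σ
  ne : V.x ≠ 0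

/-- the base vectors -/
structure Base (V : HS n) (P : Matrix (Fin n) (Fin n) ℂ) (e f v : Fin n → ℂ) : Prop where
  ef : EF V e f
  Pv : P *ᵥ v = v
  xv : V.x *ᵥ v = 0
  rv : star v = v
  ne : qq V v v ≠ 0

theorem exists_base {V : HS n} {P : Matrix (Fin n) (Fin n) ℂ} (hV : (V.x * V.x).trace = 2)
    (h : Full V P) : ∃ e f v, Base V P e f v := by
  obtain ⟨e, f, hef⟩ := exists_ef V hV
  obtain ⟨hxP, hPx, hPc, hr⟩ := h.blk.self h.self h.ne
  obtain ⟨v0, hv0, hPv0, hxv0, hrv0⟩ := exists_real h.blk.idem hPc hr hef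
  exact ⟨e, f, v0, hef, hPv0, hxv0, hrv0, real_ne hv0 hxv0 hrv0⟩

/-- the transcendental part without endomorphisms -/
theorem exists_full (V : HS n) (hV : (V.x * V.x).trace = 2) (hsc : NoEnd V) :
    ∃ P, Full V P := by
  obtain ⟨P, hP⟩ := Pool.Agent.Y166.KS.blk0 n V hV
  have hx : V.x ≠ 0 := by
    intro h
    rw [h, Matrix.zero_mul, Matrix.trace_zero] at hV
    norm_num at hV
  have hcomm : ∀ σ : ℂ ≃+* ℂ, P * V.x.map σ = V.x.map σ * P := fun σ =>
    (hP.comm _ (x_mem V σ)).symm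
  obtain ⟨a, ha⟩ := scal hsc hcomm
  have ha1 : P * V.x = a • V.x := by
    have := ha (RingEquiv.refl ℂ)
    rwa [map_refl] at this
  have hxP : V.x * P = a • V.x := by
    rw [← ha1]
    exact hP.comm _ (x_mem' V)
  have haa : a = 0 ∨ a = 1 := by
    have h1 : a • (a • V.x) = a • V.x := by
      rw [← ha1, ← Matrix.mul_smul, ← ha1, ← Matrix.mul_assoc, hP.idem]
    rw [smul_smul, ← sub_eq_zero, ← sub_smul] at h1
    have h2 := (smul_eq_zero.1 h1).resolve_right hx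
    have h3 : a * (a - 1) = 0 := by linear_combination h2
    rcases mul_eq_zero.1 h3 with h | h
    · exact Or.inl h
    · exact Or.inr (sub_eq_zero.1 h)
  have hs : adV V P = P ∧ a = 1 := by
    rcases hP.type with ⟨h1, h2, -, -⟩ | ⟨-, -, h3⟩
    · refine ⟨h1, ?_⟩
      rcases haa with h | h
      · rw [h, zero_smul, h2] at hxP
        exact absurd hxP hx
      · exact h
    · exfalso
      have h4 := congrArg (adV V) ha1
      rw [adV_mul, adV_smul, adV_x, Matrix.neg_mul, smul_neg, neg_inj] at h4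
      rw [hxP, h4, ← add_smul] at h3
      have h5 : (a + a - 1) • V.x = 0 := by rw [sub_smul, h3, one_smul, sub_self]
      have h6 := (smul_eq_zero.1 h5).resolve_right hx
      rcases haa with h | h <;> rw [h] at h6 <;> norm_num at h6
  obtain ⟨hs, ha1'⟩ := hs
  rw [ha1'] at ha
  simp only [one_smul] at ha
  exact ⟨P, hP, hs, ha, hx⟩

section main
variable {V : HS n} {W : HW w} {P : Matrix (Fin n) (Fin n) ℂ} {e f v0 : Fin n → ℂ}
  {Φ Ψ : (Fin n → ℂ) →ₗ[ℂ] Matrix (Fin w) (Fin w) ℂ}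

theorem Full.all' (h : Full V P) (σ : ℂ ≃+* ℂ) : V.x.map σ * P = V.x.map σ := by
  rw [h.blk.comm _ (x_mem V σ), h.all]

theorem Full.Pe (h : Full V P) (hb : EF V e f) : P *ᵥ e = e := by
  have h1 := h.all (RingEquiv.refl ℂ)
  rw [map_refl] at h1
  rw [← hb.xe, Matrix.mulVec_mulVec, h1]

theorem Full.Pf (h : Full V P) (hb : EF V e f) : P *ᵥ f = f := by
  have h1 := h.all (RingEquiv.refl ℂ)
  rw [map_refl] at h1
  have h2 : P *ᵥ (-f) = -f := by rw [← hb.xf, Matrix.mulVec_mulVec, h1]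
  rw [Matrix.mulVec_neg, neg_inj] at h2
  exact h2

theorem Mor.y (h : Mor V W P Φ) (v : Fin n → ℂ) : W.y * Φ v - Φ v * W.y = Φ (V.x *ᵥ v) := by
  have := h.rel (RingEquiv.refl ℂ) v
  rwa [map_refl, map_refl] at this

/-- the element `Z` of a pair -/
def zz (Φ Ψ : (Fin n → ℂ) →ₗ[ℂ] Matrix (Fin w) (Fin w) ℂ) (e f : Fin n → ℂ) :
    Matrix (Fin w) (Fin w) ℂ := Φ e * Ψ f + Φ f * Ψ e

theorem pair_rel (hP : Full V P) (hb : EF V e f) (h1 : Mor V W P Φ) (h2 : Mor V W P Ψ)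
    {u v : Fin n → ℂ} (hu : P *ᵥ u = u) (hv : P *ᵥ v = v) :
    Φ u * Ψ v + Φ v * Ψ u = qq V u v • zz Φ Ψ e f :=
  beta_rel hP.blk hP.self hP.ne hb (partner h1.rel h2.rel) W.sq ⟨h1.y, h2.y⟩ hu hv

theorem pair_sq (hP : Full V P) (hb : EF V e f) (h1 : Mor V W P Φ) (h2 : Mor V W P Ψ)
    {u : Fin n → ℂ} (hu : P *ᵥ u = u) : Φ u * Ψ u = (qq V u u / 2) • zz Φ Ψ e f := by
  have h := pair_rel hP hb h1 h2 hu hu
  rw [← two_smul ℂ] at h
  rw [div_eq_inv_mul, ← smul_smul, ← h, smul_smul]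
  norm_num

theorem zz_comm (hP : Full V P) (hb : EF V e f) (h1 : Mor V W P Φ) (h2 : Mor V W P Ψ) :
    DD W (zz Φ Ψ e f) := by
  intro σ
  have he := hP.Pe hb
  have hf := hP.Pf hb
  have hxe : P *ᵥ (V.x.map σ *ᵥ e) = V.x.map σ *ᵥ e := by
    rw [Matrix.mulVec_mulVec, hP.all]
  have hxf : P *ᵥ (V.x.map σ *ᵥ f) = V.x.map σ *ᵥ f := by
    rw [Matrix.mulVec_mulVec, hP.all]
  have h3 := pair_rel hP hb h1 h2 hxe hf
  have h4 := pair_rel hP hb h1 h2 he hxf
  have h5 : W.y.map σ * zz Φ Ψ e f - zz Φ Ψ e f * W.y.map σ =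
      (qq V (V.x.map σ *ᵥ e) f + qq V e (V.x.map σ *ᵥ f)) • zz Φ Ψ e f := by
    rw [add_smul, ← h3, ← h4, ← h1.rel, ← h1.rel, ← h2.rel, ← h2.rel, zz]
    noncomm_ring
  rw [qq_skew V (skewV V σ), neg_add_cancel, zero_smul] at h5
  exact (sub_eq_zero.1 h5).symm

theorem Mor.left (h : Mor V W P Φ) {a : Matrix (Fin w) (Fin w) ℂ} (ha : DD W a) :
    Mor V W P (LinearMap.mulLeft ℂ a ∘ₗ Φ) where
  rel σ v := by
    show W.y.map σ * (a * Φ v) - a * Φ v * W.y.map σ = a * Φ (V.x.map σ *ᵥ v)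
    rw [← h.rel, Matrix.mul_sub, ← Matrix.mul_assoc, ← ha σ]
    simp only [Matrix.mul_assoc]
  blk v := by
    show a * Φ (P *ᵥ v) = a * Φ v
    rw [h.blk]

theorem Mor.right (h : Mor V W P Φ) {b : Matrix (Fin w) (Fin w) ℂ} (hb : DD W b) :
    Mor V W P (LinearMap.mulRight ℂ b ∘ₗ Φ) where
  rel σ v := by
    show W.y.map σ * (Φ v * b) - Φ v * b * W.y.map σ = Φ (V.x.map σ *ᵥ v) * b
    rw [← h.rel, Matrix.sub_mul, Matrix.mul_assoc (Φ v) b, hb σ]
    simp only [Matrix.mul_assoc]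
  blk v := by
    show Φ (P *ᵥ v) * b = Φ v * b
    rw [h.blk]

/-- the adjoint for the hermitian form -/
def sh (W : HW w) (A : Matrix (Fin w) (Fin w) ℂ) : Matrix (Fin w) (Fin w) ℂ := dg W (A.map cc)

theorem sh_mul (W : HW w) (A B : Matrix (Fin w) (Fin w) ℂ) : sh W (A * B) = sh W B * sh W A := by
  unfold sh
  rw [mul_map, dg_mul]

theorem sh_sh (W : HW w) (A : Matrix (Fin w) (Fin w) ℂ) : sh W (sh W A) = A := by
  unfold sh
  rw [← dg_map, dg_dg]
  ext a b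
  simp

theorem sh_add (W : HW w) (A B : Matrix (Fin w) (Fin w) ℂ) : sh W (A + B) = sh W A + sh W B := by
  unfold sh
  rw [Matrix.map_add _ (fun a b => map_add cc a b), dg_add]

theorem sh_smul (W : HW w) (c : ℂ) (A : Matrix (Fin w) (Fin w) ℂ) :
    sh W (c • A) = cc c • sh W A := by
  unfold sh
  rw [← dg_smul]
  congr 1
  ext a b
  simp

theorem sh_trace (W : HW w) (A : Matrix (Fin w) (Fin w) ℂ) : (sh W A).trace = cc A.trace := by
  unfold sh dg
  rw [Matrix.mul_assoc, Matrix.trace_mul_comm, Matrix.mul_assoc, Einv, Matrix.mul_one,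
    Matrix.trace_transpose]
  simp [Matrix.trace]

theorem DD.sh {a : Matrix (Fin w) (Fin w) ℂ} (ha : DD W a) : DD W (sh W a) :=
  fun σ => dg_comm ha σ

/-- the adjoint morphism -/
def shp (W : HW w) (Φ : (Fin n → ℂ) →ₗ[ℂ] Matrix (Fin w) (Fin w) ℂ) :
    (Fin n → ℂ) →ₗ[ℂ] Matrix (Fin w) (Fin w) ℂ where
  toFun v := sh W (Φ (star v))
  map_add' a b := by rw [star_add, map_add, sh_add]
  map_smul' c a := by
    rw [star_smul, map_smul, sh_smul]
    simp

theorem shp_apply (Φ : (Fin n → ℂ) →ₗ[ℂ] Matrix (Fin w) (Fin w) ℂ) (v : Fin n → ℂ) :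
    shp W Φ v = sh W (Φ (star v)) := rfl

theorem shp_shp (Φ : (Fin n → ℂ) →ₗ[ℂ] Matrix (Fin w) (Fin w) ℂ) :
    shp W (shp W Φ) = Φ := by
  refine LinearMap.ext fun v => ?_
  rw [shp_apply, shp_apply, star_star, sh_sh]

theorem star_mulVec' (M : Matrix (Fin n) (Fin n) ℂ) (v : Fin n → ℂ) :
    star (M *ᵥ v) = M.map cc *ᵥ star v := by
  funext i
  simp [Matrix.mulVec, dotProduct]

theorem Mor.shp (hP : Full V P) (h : Mor V W P Φ) : Mor V W P (shp W Φ) where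
  rel σ v := by
    have h1 := h.rel (σ.trans cc) (star v)
    have h2 := congrArg (fun M : Matrix (Fin w) (Fin w) ℂ => M.map cc) h1
    have h3 : (W.y.map (σ.trans cc)).map cc = W.y.map σ := by
      ext a b
      simp
    have h4 : ∀ A B : Matrix (Fin w) (Fin w) ℂ, (A - B).map cc = A.map cc - B.map cc := by
      intro A B
      ext p q
      simp
    simp only [h4, mul_map, h3] at h2
    have h5 := congrArg (dg W) h2
    rw [dg_sub, dg_mul, dg_mul, dg_y] at h5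
    have h6 : V.x.map (σ.trans cc) *ᵥ star v = star (V.x.map σ *ᵥ v) := by
      rw [star_mulVec']
      congr 1
    rw [h6] at h5
    rw [shp_apply, shp_apply]
    unfold sh
    rw [← h5, Matrix.mul_neg, Matrix.neg_mul, sub_neg_eq_add, neg_add_eq_sub]
  blk v := by
    have h1 := (hP.blk.self hP.self hP.ne).2.2.1
    rw [shp_apply, shp_apply, star_mulVec']
    have h2 : P.map cc = P := h1
    rw [h2, h.blk]

end main

end

end

end Pool.Agent.Y89.KS
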